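import Mathlib

set_option autoImplicit false

open Matrix MeasureTheory

namespace Pool.Agent.MPd01a95

/-- The symmetric form of signature `(|ι|, 2)` (negative part: the last two coordinates). -/
def J (ι : Type) [DecidableEq ι] : Matrix (ι ⊕ Fin 2) (ι ⊕ Fin 2) ℝ :=
  Matrix.fromBlocks 1 0 0 (-1)

/-- The Hermitian form of signature `(|κ|, 1)`. -/
def JC (κ : Type) [DecidableEq κ] : Matrix (κ ⊕ Unit) (κ ⊕ Unit) ℂ :=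
  Matrix.fromBlocks 1 0 0 (-1)

/-- Minus the quadratic form of `J`. -/
def nq {ι : Type} [Fintype ι] (v : ι ⊕ Fin 2 → ℝ) : ℝ :=
  (v (Sum.inr 0)) ^ 2 + (v (Sum.inr 1)) ^ 2 - ∑ i, (v (Sum.inl i)) ^ 2

/-- The shell `1 ≤ -q ≤ 4` inside the box of size `R`. -/
def Sh (ι : Type) [Fintype ι] (R : ℝ) : Set (ι ⊕ Fin 2 → ℝ) :=
  {v | 1 ≤ nq v ∧ nq v ≤ 4 ∧ ∀ i, |v i| ≤ R}

/-- Absolute value of the determinant of the negative (2 by 2) block. -/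
noncomputable def Del {ι : Type} (h : Matrix (ι ⊕ Fin 2) (ι ⊕ Fin 2) ℝ) : ℝ :=
  |h.toBlocks₂₂.det|

/-- The larger Euclidean norm of the two rows of the negative block. -/
noncomputable def rr {ι : Type} (h : Matrix (ι ⊕ Fin 2) (ι ⊕ Fin 2) ℝ) : ℝ :=
  max (Real.sqrt (h (Sum.inr 0) (Sum.inr 0) ^ 2 + h (Sum.inr 0) (Sum.inr 1) ^ 2))
    (Real.sqrt (h (Sum.inr 1) (Sum.inr 0) ^ 2 + h (Sum.inr 1) (Sum.inr 1) ^ 2))

/-- `cosh` of the displacement of the origin of the complex ball. -/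
noncomputable def cc {κ : Type} (g : Matrix (κ ⊕ Unit) (κ ⊕ Unit) ℂ) : ℝ :=
  ‖g (Sum.inr ()) (Sum.inr ())‖

/-- Proper discontinuity on the quadric `q = -1`. -/
def PropAdS {ι G : Type} [Fintype ι] [DecidableEq ι] [Group G]
    (ρ : G →* Matrix (ι ⊕ Fin 2) (ι ⊕ Fin 2) ℝ) : Prop :=
  ∀ K : Set (ι ⊕ Fin 2 → ℝ), IsCompact K → (∀ x ∈ K, nq x = 1) →
    {g : G | ∃ x ∈ K, ρ g *ᵥ x ∈ K}.Finite

/-- Zariski density: a polynomial vanishing on the image vanishes on all isometries of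
determinant one. -/
def ZDense {ι G : Type} [Fintype ι] [DecidableEq ι] [Group G]
    (ρ : G →* Matrix (ι ⊕ Fin 2) (ι ⊕ Fin 2) ℝ) : Prop :=
  ∀ p : MvPolynomial ((ι ⊕ Fin 2) × (ι ⊕ Fin 2)) ℝ,
    (∀ g : G, MvPolynomial.eval (fun ij => ρ g ij.1 ij.2) p = 0) →
      ∀ h : Matrix (ι ⊕ Fin 2) (ι ⊕ Fin 2) ℝ, hᵀ * J ι * h = J ι → h.det = 1 →
        MvPolynomial.eval (fun ij => h ij.1 ij.2) p = 0

section holdefs

variable {ι κ G : Type} [Fintype ι] [DecidableEq ι] [Fintype κ] [DecidableEq κ] [Group G]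

/-- The action of a matrix on the affine chart of the complex ball. -/
noncomputable def act {κ : Type} [Fintype κ] (g : Matrix (κ ⊕ Unit) (κ ⊕ Unit) ℂ)
    (z : κ → ℂ) : κ → ℂ :=
  fun i => (g *ᵥ Sum.elim z fun _ => 1) (Sum.inl i) / (g *ᵥ Sum.elim z fun _ => 1) (Sum.inr ())

/-- `s` is a holomorphic lift of an equivariant map from the ball to the type IV domain. -/
def HolEq (ρ : G →* Matrix (ι ⊕ Fin 2) (ι ⊕ Fin 2) ℝ)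
    (σ : G →* Matrix (κ ⊕ Unit) (κ ⊕ Unit) ℂ) (s : (κ → ℂ) → (ι ⊕ Fin 2 → ℂ)) : Prop :=
  DifferentiableOn ℂ s {z | ∑ i, ‖z i‖ ^ 2 < 1} ∧
  (∀ z : κ → ℂ, ∑ i, ‖z i‖ ^ 2 < 1 →
    ∑ i, s z (Sum.inl i) ^ 2 = s z (Sum.inr 0) ^ 2 + s z (Sum.inr 1) ^ 2 ∧
    ∑ i, ‖s z (Sum.inl i)‖ ^ 2 < ‖s z (Sum.inr 0)‖ ^ 2 + ‖s z (Sum.inr 1)‖ ^ 2) ∧
  (∀ g, ∀ z : κ → ℂ, ∑ i, ‖z i‖ ^ 2 < 1 → ∃ c : ℂ,
    s (act (σ g) z) = c • ((ρ g).map ((↑) : ℝ → ℂ) *ᵥ s z))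

end holdefs

end Pool.Agent.MPd01a95
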