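import Mathlib
import Pool.Agent.Lib.MP_d01a95_gt.Defs

set_option autoImplicit false

open Matrix MeasureTheory

namespace Pool.Agent.MPd01a95

namespace BoxAux

variable {ι : Type} [Fintype ι] [DecidableEq ι]

theorem nq_eq (v : ι ⊕ Fin 2 → ℝ) : nq v = -(v ⬝ᵥ (J ι *ᵥ v)) := by
  simp only [nq, J, fromBlocks_mulVec, dotProduct, Fintype.sum_sum_type, Fin.sum_univ_two,
    Sum.elim_inl, Sum.elim_inr, one_mulVec, zero_mulVec, neg_mulVec, Pi.neg_apply,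
    Function.comp, add_zero, zero_add]
  have : ∀ x : ι, v (Sum.inl x) * v (Sum.inl x) = v (Sum.inl x) ^ 2 := fun x => by ring
  simp only [this]
  ring

theorem nq_mul (h : Matrix (ι ⊕ Fin 2) (ι ⊕ Fin 2) ℝ) (hh : hᵀ * J ι * h = J ι)
    (v : ι ⊕ Fin 2 → ℝ) : nq (h *ᵥ v) = nq v := by
  rw [nq_eq, nq_eq]
  congr 1
  conv_lhs => rw [← vecMul_transpose, ← dotProduct_mulVec, vecMul_transpose]
  rw [mulVec_mulVec, mulVec_mulVec, hh]

omit [DecidableEq ι] in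
theorem nq_split (v : ι ⊕ Fin 2 → ℝ) :
    ∑ i, (v (Sum.inl i)) ^ 2 = (v (Sum.inr 0)) ^ 2 + (v (Sum.inr 1)) ^ 2 - nq v := by
  rw [nq]
  ring

omit [DecidableEq ι] in
theorem mulVec_inr (h : Matrix (ι ⊕ Fin 2) (ι ⊕ Fin 2) ℝ) (v : ι ⊕ Fin 2 → ℝ) (k : Fin 2) :
    (h *ᵥ v) (Sum.inr k) =
      (h.toBlocks₂₁ *ᵥ (v ∘ Sum.inl) + h.toBlocks₂₂ *ᵥ (v ∘ Sum.inr)) k := by
  conv_lhs => rw [← fromBlocks_toBlocks h, fromBlocks_mulVec]
  rfl

theorem det_ne (h : Matrix (ι ⊕ Fin 2) (ι ⊕ Fin 2) ℝ) (hh : hᵀ * J ι * h = J ι) :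
    h.toBlocks₂₂.det ≠ 0 := by
  intro hd
  obtain ⟨x, hx, hx'⟩ := exists_mulVec_eq_zero_iff.mpr hd
  have h1 := nq_mul h hh (Sum.elim 0 x)
  have h2 : ∀ k, (h *ᵥ Sum.elim 0 x) (Sum.inr k) = 0 := by
    intro k
    rw [mulVec_inr]
    have e1 : (Sum.elim 0 x : ι ⊕ Fin 2 → ℝ) ∘ Sum.inl = 0 := rfl
    have e2 : (Sum.elim 0 x : ι ⊕ Fin 2 → ℝ) ∘ Sum.inr = x := rfl
    rw [e1, e2, hx', mulVec_zero, add_zero]
    rfl
  have h3 : nq (h *ᵥ Sum.elim 0 x) ≤ 0 := by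
    rw [nq, h2, h2]
    have : 0 ≤ ∑ i, ((h *ᵥ Sum.elim 0 x) (Sum.inl i)) ^ 2 :=
      Finset.sum_nonneg fun i _ => sq_nonneg _
    nlinarith
  rw [h1, nq] at h3
  simp only [Sum.elim_inr, Sum.elim_inl, Pi.zero_apply, ne_eq, OfNat.ofNat_ne_zero,
    not_false_eq_true, zero_pow, Finset.sum_const_zero, sub_zero] at h3
  apply hx
  funext k
  have h4 : x 0 = 0 := by nlinarith [sq_nonneg (x 0), sq_nonneg (x 1)]
  have h5 : x 1 = 0 := by nlinarith [sq_nonneg (x 0), sq_nonneg (x 1)]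
  fin_cases k
  · exact h4
  · exact h5

/-- the vector `D⁻¹ C y` is not longer than `y` -/
theorem small (h : Matrix (ι ⊕ Fin 2) (ι ⊕ Fin 2) ℝ) (hh : hᵀ * J ι * h = J ι) (y : ι → ℝ)
    (w : Fin 2 → ℝ) (hw : h.toBlocks₂₂ *ᵥ w = h.toBlocks₂₁ *ᵥ y) :
    w 0 ^ 2 + w 1 ^ 2 ≤ ∑ i, y i ^ 2 := by
  have h1 := nq_mul h hh (Sum.elim y (-w))
  have h2 : ∀ k, (h *ᵥ Sum.elim y (-w)) (Sum.inr k) = 0 := by
    intro k
    rw [mulVec_inr]
    have e1 : (Sum.elim y (-w) : ι ⊕ Fin 2 → ℝ) ∘ Sum.inl = y := rfl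
    have e2 : (Sum.elim y (-w) : ι ⊕ Fin 2 → ℝ) ∘ Sum.inr = -w := rfl
    rw [e1, e2, mulVec_neg, hw, add_neg_cancel]
    rfl
  have h3 : nq (h *ᵥ Sum.elim y (-w)) ≤ 0 := by
    rw [nq, h2, h2]
    have : 0 ≤ ∑ i, ((h *ᵥ Sum.elim y (-w)) (Sum.inl i)) ^ 2 :=
      Finset.sum_nonneg fun i _ => sq_nonneg _
    nlinarith
  rw [h1, nq] at h3
  simp only [Sum.elim_inr, Sum.elim_inl, Pi.neg_apply, neg_sq] at h3
  linarith

theorem rot (e0 e1 f0 f1 r : ℝ) (hr : 0 < r) (he : e0 ^ 2 + e1 ^ 2 = r ^ 2)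
    (hf : f0 ^ 2 + f1 ^ 2 ≤ r ^ 2) :
    (e0 / r) ^ 2 + (e1 / r) ^ 2 = 1 ∧ ∀ a b : ℝ,
      |e0 * (e0 / r * a - e1 / r * b) + e1 * (e1 / r * a + e0 / r * b)| ≤
        r * |a| + |b| * (|e0 * f1 - e1 * f0| / r) ∧
      |f0 * (e0 / r * a - e1 / r * b) + f1 * (e1 / r * a + e0 / r * b)| ≤
        r * |a| + |b| * (|e0 * f1 - e1 * f0| / r) ∧
      |e0 * (e0 / r * a - e1 / r * b) + e1 * (e1 / r * a + e0 / r * b)| ≤ r * |a| := by
  have hr0 : r ≠ 0 := hr.ne'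
  have h1 : (e0 / r) ^ 2 + (e1 / r) ^ 2 = 1 := by
    rw [div_pow, div_pow, ← add_div, he, div_self (by positivity)]
  refine ⟨h1, fun a b => ?_⟩
  have h2 : e0 * (e0 / r * a - e1 / r * b) + e1 * (e1 / r * a + e0 / r * b) = r * a := by
    have : e0 * (e0 / r * a - e1 / r * b) + e1 * (e1 / r * a + e0 / r * b) =
        (e0 ^ 2 + e1 ^ 2) / r * a := by ring
    rw [this, he, pow_two, mul_div_assoc, div_self hr0, mul_one]
  have h3 : |e0 * (e0 / r * a - e1 / r * b) + e1 * (e1 / r * a + e0 / r * b)| ≤ r * |a| := by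
    rw [h2, abs_mul, abs_of_pos hr]
  have h4 : 0 ≤ |b| * (|e0 * f1 - e1 * f0| / r) := by positivity
  refine ⟨by linarith, ?_, h3⟩
  have h5 : f0 * (e0 / r * a - e1 / r * b) + f1 * (e1 / r * a + e0 / r * b) =
      (f0 * (e0 / r) + f1 * (e1 / r)) * a + b * ((e0 * f1 - e1 * f0) / r) := by ring
  have h6 : |f0 * (e0 / r) + f1 * (e1 / r)| ≤ r := by
    apply abs_le_of_sq_le_sq _ hr.le
    have : (f0 * (e0 / r) + f1 * (e1 / r)) ^ 2 ≤
        (f0 ^ 2 + f1 ^ 2) * ((e0 / r) ^ 2 + (e1 / r) ^ 2) := by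
      nlinarith [sq_nonneg (f0 * (e1 / r) - f1 * (e0 / r))]
    rw [h1, mul_one] at this
    linarith
  rw [h5]
  refine (abs_add_le _ _).trans ?_
  rw [abs_mul, abs_mul, abs_div, abs_of_pos hr]
  have h7 : |f0 * (e0 / r) + f1 * (e1 / r)| * |a| ≤ r * |a| :=
    mul_le_mul_of_nonneg_right h6 (abs_nonneg a)
  linarith

omit [Fintype ι] [DecidableEq ι] in
/-- choice of the rotation -/
theorem choice (h : Matrix (ι ⊕ Fin 2) (ι ⊕ Fin 2) ℝ) (hd : h.toBlocks₂₂.det ≠ 0) :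
    0 < rr h ∧ ∃ p q : ℝ, p ^ 2 + q ^ 2 = 1 ∧ ∀ a b : ℝ,
      (h (Sum.inr 0) (Sum.inr 0) * (p * a - q * b) +
        h (Sum.inr 0) (Sum.inr 1) * (q * a + p * b)) ^ 2 +
      (h (Sum.inr 1) (Sum.inr 0) * (p * a - q * b) +
        h (Sum.inr 1) (Sum.inr 1) * (q * a + p * b)) ^ 2 ≤
      (rr h * |a|) ^ 2 + (rr h * |a| + |b| * (Del h / rr h)) ^ 2 := by
  obtain ⟨d00, h00⟩ : ∃ x, x = h (Sum.inr 0) (Sum.inr 0) := ⟨_, rfl⟩
  obtain ⟨d01, h01⟩ : ∃ x, x = h (Sum.inr 0) (Sum.inr 1) := ⟨_, rfl⟩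
  obtain ⟨d10, h10⟩ : ∃ x, x = h (Sum.inr 1) (Sum.inr 0) := ⟨_, rfl⟩
  obtain ⟨d11, h11⟩ : ∃ x, x = h (Sum.inr 1) (Sum.inr 1) := ⟨_, rfl⟩
  have hdet : h.toBlocks₂₂.det = d00 * d11 - d01 * d10 := by
    rw [det_fin_two, h00, h01, h10, h11]
    rfl
  have hDel : Del h = |d00 * d11 - d01 * d10| := by rw [Del, hdet]
  have hrr : rr h = max (Real.sqrt (d00 ^ 2 + d01 ^ 2)) (Real.sqrt (d10 ^ 2 + d11 ^ 2)) := by
    rw [rr, h00, h01, h10, h11]
  rw [hdet] at hd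
  rw [← h00, ← h01, ← h10, ← h11, hDel]
  obtain ⟨r, hr⟩ : ∃ r, r = rr h := ⟨_, rfl⟩
  rw [← hr] at hrr ⊢
  have n1 : 0 ≤ d00 ^ 2 + d01 ^ 2 := by positivity
  have n2 : 0 ≤ d10 ^ 2 + d11 ^ 2 := by positivity
  rcases le_total (Real.sqrt (d10 ^ 2 + d11 ^ 2)) (Real.sqrt (d00 ^ 2 + d01 ^ 2)) with hle | hle
  · rw [max_eq_left hle] at hrr
    have he : d00 ^ 2 + d01 ^ 2 = r ^ 2 := by rw [hrr, Real.sq_sqrt n1]
    have hf : d10 ^ 2 + d11 ^ 2 ≤ r ^ 2 := by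
      rw [← he]
      exact (Real.sqrt_le_sqrt_iff n1).mp hle
    have hr0 : 0 < r := by
      rcases (Real.sqrt_nonneg (d00 ^ 2 + d01 ^ 2)).lt_or_eq with h | h
      · rw [hrr]
        exact h
      · exfalso
        rw [← h] at hrr
        rw [hrr] at he
        have e1 : d00 = 0 := by nlinarith [sq_nonneg d00, sq_nonneg d01]
        have e2 : d01 = 0 := by nlinarith [sq_nonneg d00, sq_nonneg d01]
        apply hd
        rw [e1, e2]
        ring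
    obtain ⟨r1, r2⟩ := rot d00 d01 d10 d11 r hr0 he hf
    refine ⟨hr0, d00 / r, d01 / r, r1, fun a b => ?_⟩
    obtain ⟨-, r4, r5⟩ := r2 a b
    exact add_le_add (sq_le_sq' (by linarith [neg_abs_le (d00 * (d00 / r * a - d01 / r * b) +
      d01 * (d01 / r * a + d00 / r * b))]) ((le_abs_self _).trans r5))
      (sq_le_sq' (by linarith [neg_abs_le (d10 * (d00 / r * a - d01 / r * b) +
      d11 * (d01 / r * a + d00 / r * b))]) ((le_abs_self _).trans r4))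
  · rw [max_eq_right hle] at hrr
    have he : d10 ^ 2 + d11 ^ 2 = r ^ 2 := by rw [hrr, Real.sq_sqrt n2]
    have hf : d00 ^ 2 + d01 ^ 2 ≤ r ^ 2 := by
      rw [← he]
      exact (Real.sqrt_le_sqrt_iff n2).mp hle
    have hr0 : 0 < r := by
      rcases (Real.sqrt_nonneg (d10 ^ 2 + d11 ^ 2)).lt_or_eq with h | h
      · rw [hrr]
        exact h
      · exfalso
        rw [← h] at hrr
        rw [hrr] at he
        have e1 : d10 = 0 := by nlinarith [sq_nonneg d10, sq_nonneg d11]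
        have e2 : d11 = 0 := by nlinarith [sq_nonneg d10, sq_nonneg d11]
        apply hd
        rw [e1, e2]
        ring
    obtain ⟨r1, r2⟩ := rot d10 d11 d00 d01 r hr0 he hf
    have hab : |d10 * d01 - d11 * d00| = |d00 * d11 - d01 * d10| := by
      rw [abs_sub_comm]
      congr 1
      ring
    refine ⟨hr0, d10 / r, d11 / r, r1, fun a b => ?_⟩
    obtain ⟨-, r4, r5⟩ := r2 a b
    rw [hab] at r4
    rw [add_comm]
    exact add_le_add (sq_le_sq' (by linarith [neg_abs_le (d10 * (d10 / r * a - d11 / r * b) +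
      d11 * (d11 / r * a + d10 / r * b))]) ((le_abs_self _).trans r5))
      (sq_le_sq' (by linarith [neg_abs_le (d00 * (d10 / r * a - d11 / r * b) +
      d01 * (d11 / r * a + d10 / r * b))]) ((le_abs_self _).trans r4))

/-- the vectors of the box are in the set -/
theorem in_set (h : Matrix (ι ⊕ Fin 2) (ι ⊕ Fin 2) ℝ) (hh : hᵀ * J ι * h = J ι) (R : ℝ)
    (hR : 1 ≤ R) (hDR : 4 * Del h ≤ R * rr h) (hr : 0 < rr h) (p q : ℝ)
    (hpq : p ^ 2 + q ^ 2 = 1)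
    (hc : ∀ a b : ℝ,
      (h (Sum.inr 0) (Sum.inr 0) * (p * a - q * b) +
        h (Sum.inr 0) (Sum.inr 1) * (q * a + p * b)) ^ 2 +
      (h (Sum.inr 1) (Sum.inr 0) * (p * a - q * b) +
        h (Sum.inr 1) (Sum.inr 1) * (q * a + p * b)) ^ 2 ≤
      (rr h * |a|) ^ 2 + (rr h * |a| + |b| * (Del h / rr h)) ^ 2)
    (v : ι ⊕ Fin 2 → ℝ) (w : Fin 2 → ℝ)
    (hw : h.toBlocks₂₂ *ᵥ w = h.toBlocks₂₁ *ᵥ (v ∘ Sum.inl))
    (hy : ∑ i, (v (Sum.inl i)) ^ 2 ≤ 1 / 100) (a b : ℝ)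
    (ha : a = p * (w 0 + v (Sum.inr 0)) + q * (w 1 + v (Sum.inr 1)))
    (hb : b = -q * (w 0 + v (Sum.inr 0)) + p * (w 1 + v (Sum.inr 1)))
    (ha1 : |a| ≤ 1 / 10) (ha2 : |a| ≤ R / (4 * rr h)) (hb1 : 3 / 2 ≤ b) (hb2 : b ≤ 8 / 5) :
    v ∈ Sh ι 2 ∧ h *ᵥ v ∈ Sh ι R := by
  have z0 : w 0 + v (Sum.inr 0) = p * a - q * b := by
    rw [ha, hb]
    linear_combination (-(w 0 + v (Sum.inr 0))) * hpq
  have z1 : w 1 + v (Sum.inr 1) = q * a + p * b := by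
    rw [ha, hb]
    linear_combination (-(w 1 + v (Sum.inr 1))) * hpq
  have hws := small h hh (v ∘ Sum.inl) w hw
  simp only [Function.comp] at hws
  have hw2 : w 0 ^ 2 + w 1 ^ 2 ≤ 1 / 100 := hws.trans hy
  have hzn : (w 0 + v (Sum.inr 0)) ^ 2 + (w 1 + v (Sum.inr 1)) ^ 2 = a ^ 2 + b ^ 2 := by
    rw [z0, z1]
    linear_combination (a ^ 2 + b ^ 2) * hpq
  have ha3 : a ^ 2 ≤ 1 / 100 := by
    have := abs_le.mp ha1
    nlinarith
  have hb3 : 9 / 4 ≤ b ^ 2 := by nlinarith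
  have hb4 : b ^ 2 ≤ 64 / 25 := by nlinarith
  have hY : 0 ≤ ∑ i, (v (Sum.inl i)) ^ 2 := Finset.sum_nonneg fun i _ => sq_nonneg _
  -- norm of the last two coordinates
  have hx1 : 101 / 100 ≤ (v (Sum.inr 0)) ^ 2 + (v (Sum.inr 1)) ^ 2 := by
    nlinarith [sq_nonneg (10 * w 0 - (w 0 + v (Sum.inr 0))),
      sq_nonneg (10 * w 1 - (w 1 + v (Sum.inr 1)))]
  have hx2 : (v (Sum.inr 0)) ^ 2 + (v (Sum.inr 1)) ^ 2 ≤ 4 := by
    nlinarith [sq_nonneg (10 * w 0 + (w 0 + v (Sum.inr 0))),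
      sq_nonneg (10 * w 1 + (w 1 + v (Sum.inr 1)))]
  have hn1 : 1 ≤ nq v := by
    rw [nq]
    linarith
  have hn4 : nq v ≤ 4 := by
    rw [nq]
    linarith
  refine ⟨⟨hn1, hn4, ?_⟩, ?_⟩
  · rintro (i | k)
    · have h1 : (v (Sum.inl i)) ^ 2 ≤ ∑ i, (v (Sum.inl i)) ^ 2 :=
        Finset.single_le_sum (f := fun i => (v (Sum.inl i)) ^ 2) (fun i _ => sq_nonneg _)
          (Finset.mem_univ i)
      exact abs_le_of_sq_le_sq (by linarith) (by norm_num)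
    · have h1 : (v (Sum.inr k)) ^ 2 ≤ 4 := by
        fin_cases k
        · change (v (Sum.inr 0)) ^ 2 ≤ 4
          nlinarith [sq_nonneg (v (Sum.inr 1))]
        · change (v (Sum.inr 1)) ^ 2 ≤ 4
          nlinarith [sq_nonneg (v (Sum.inr 0))]
      exact abs_le_of_sq_le_sq (by linarith) (by norm_num)
  · have hP : ∀ k, (h *ᵥ v) (Sum.inr k) = h (Sum.inr k) (Sum.inr 0) * (p * a - q * b) +
        h (Sum.inr k) (Sum.inr 1) * (q * a + p * b) := by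
      intro k
      rw [mulVec_inr, ← hw, ← mulVec_add, ← z0, ← z1]
      simp only [mulVec, dotProduct, Fin.sum_univ_two, Pi.add_apply, Function.comp]
      rfl
    have hb5 : |b| ≤ 8 / 5 := by
      rw [abs_of_nonneg (by linarith)]
      exact hb2
    have g1 : rr h * |a| ≤ R / 4 := by
      have := mul_le_mul_of_nonneg_left ha2 hr.le
      have e : rr h * (R / (4 * rr h)) = R / 4 := by
        field_simp
      linarith
    have g2 : Del h / rr h ≤ R / 4 := by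
      rw [div_le_iff₀ hr]
      linarith
    have g3 : 0 ≤ Del h / rr h := div_nonneg (abs_nonneg _) hr.le
    have g4 : |b| * (Del h / rr h) ≤ 8 / 5 * (R / 4) :=
      mul_le_mul hb5 g2 g3 (by norm_num)
    have g5 : 0 ≤ rr h * |a| := by positivity
    have g6 : 0 ≤ |b| * (Del h / rr h) := by positivity
    have hPR : ((h *ᵥ v) (Sum.inr 0)) ^ 2 + ((h *ᵥ v) (Sum.inr 1)) ^ 2 ≤ R ^ 2 := by
      rw [hP, hP]
      refine (hc a b).trans ?_
      have k1 : (rr h * |a|) ^ 2 ≤ (R / 4) ^ 2 := pow_le_pow_left₀ g5 g1 2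
      have k2 : (rr h * |a| + |b| * (Del h / rr h)) ^ 2 ≤ (R / 4 + 8 / 5 * (R / 4)) ^ 2 :=
        pow_le_pow_left₀ (by linarith) (by linarith) 2
      nlinarith [sq_nonneg R]
    have hnn := nq_mul h hh v
    refine ⟨by rw [hnn]; exact hn1, by rw [hnn]; exact hn4, ?_⟩
    rintro (i | k)
    · have h1 : ((h *ᵥ v) (Sum.inl i)) ^ 2 ≤ ∑ i, ((h *ᵥ v) (Sum.inl i)) ^ 2 :=
        Finset.single_le_sum (f := fun i => ((h *ᵥ v) (Sum.inl i)) ^ 2)
          (fun i _ => sq_nonneg _) (Finset.mem_univ i)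
      have h2 := nq_split (h *ᵥ v)
      rw [hnn] at h2
      exact abs_le_of_sq_le_sq (by linarith) (by linarith)
    · have h1 : ((h *ᵥ v) (Sum.inr k)) ^ 2 ≤ R ^ 2 := by
        fin_cases k
        · change ((h *ᵥ v) (Sum.inr 0)) ^ 2 ≤ R ^ 2
          linarith [sq_nonneg ((h *ᵥ v) (Sum.inr 1))]
        · change ((h *ᵥ v) (Sum.inr 1)) ^ 2 ≤ R ^ 2
          linarith [sq_nonneg ((h *ᵥ v) (Sum.inr 0))]
      exact abs_le_of_sq_le_sq h1 (by linarith)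

end BoxAux

open BoxAux in
/-- module Box -/
theorem box_lower (ι : Type) [Fintype ι] [DecidableEq ι] :
    ∃ c : ℝ, 0 < c ∧ ∀ h : Matrix (ι ⊕ Fin 2) (ι ⊕ Fin 2) ℝ,
    hᵀ * J ι * h = J ι → ∀ R : ℝ, 1 ≤ R → 4 * Del h ≤ R * rr h →
      ENNReal.ofReal (c * min 1 (R / rr h)) ≤ volume {v | v ∈ Sh ι 2 ∧ h *ᵥ v ∈ Sh ι R} := by
  obtain ⟨N, hN⟩ : ∃ N : ℕ, N = Fintype.card ι := ⟨_, rfl⟩
  obtain ⟨ε, hε⟩ : ∃ ε : ℝ, ε = 1 / (10 * (N + 1)) := ⟨_, rfl⟩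
  have hε0 : 0 < ε := by rw [hε]; positivity
  have hεN : (N : ℝ) * ε ^ 2 ≤ 1 / 100 := by
    have hN0 : (0 : ℝ) ≤ N := Nat.cast_nonneg N
    have e : (N : ℝ) * ε ^ 2 = N / (100 * ((N : ℝ) + 1) ^ 2) := by
      rw [hε]
      field_simp
      ring
    rw [e, div_le_div_iff₀ (by positivity) (by norm_num)]
    nlinarith
  refine ⟨(2 * ε) ^ N / 50, by positivity, fun h hh R hR hDR => ?_⟩
  have hd := det_ne h hh
  obtain ⟨hr, p, q, hpq, hc⟩ := choice h hd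
  obtain ⟨X, hX⟩ : ∃ X : Matrix (Fin 2) ι ℝ, X = (h.toBlocks₂₂)⁻¹ * h.toBlocks₂₁ := ⟨_, rfl⟩
  have hDX : h.toBlocks₂₂ * X = h.toBlocks₂₁ := by
    rw [hX, mul_nonsing_inv_cancel_left _ _ (Ne.isUnit hd)]
  obtain ⟨U, hU⟩ : ∃ U : Matrix (Fin 2) (Fin 2) ℝ, U = !![p, q; -q, p] := ⟨_, rfl⟩
  have hUdet : U.det = 1 := by
    rw [hU, det_fin_two_of]
    linarith
  obtain ⟨T, hT⟩ : ∃ T : Matrix (ι ⊕ Fin 2) (ι ⊕ Fin 2) ℝ, T = fromBlocks 1 0 (U * X) U :=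
    ⟨_, rfl⟩
  have hTdet : LinearMap.det (toLin' T) = 1 := by
    rw [LinearMap.det_toLin', hT, det_fromBlocks_zero₁₂, hUdet, det_one, one_mul]
  obtain ⟨α, hα⟩ : ∃ α : ℝ, α = min (1 / 10) (R / (4 * rr h)) := ⟨_, rfl⟩
  have hα0 : 0 ≤ α := by
    rw [hα]
    refine le_min (by norm_num) ?_
    positivity
  obtain ⟨lo, hlo⟩ : ∃ lo : ι ⊕ Fin 2 → ℝ, lo = Sum.elim (fun _ => -ε) ![-α, 3 / 2] := ⟨_, rfl⟩
  obtain ⟨hi, hhi⟩ : ∃ hi : ι ⊕ Fin 2 → ℝ, hi = Sum.elim (fun _ => ε) ![α, 8 / 5] := ⟨_, rfl⟩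
  have hvol : volume (Set.Icc lo hi) = ENNReal.ofReal ((2 * ε) ^ N * (α / 5)) := by
    rw [Real.volume_Icc_pi, ← ENNReal.ofReal_prod_of_nonneg]
    · congr 1
      rw [Fintype.prod_sum_type, Fin.prod_univ_two, hlo, hhi]
      simp only [Sum.elim_inl, Sum.elim_inr, Finset.prod_const, Finset.card_univ, ← hN,
        Matrix.cons_val_zero, Matrix.cons_val_one]
      ring
    · rintro (i | k) _
      · rw [hlo, hhi]
        simp only [Sum.elim_inl]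
        linarith
      · rw [hlo, hhi]
        simp only [Sum.elim_inr]
        fin_cases k
        · simp only [Fin.zero_eta, Matrix.cons_val_zero]
          linarith
        · simp only [Fin.mk_one, Matrix.cons_val_one]
          norm_num
  have hpre : volume ((toLin' T) ⁻¹' (Set.Icc lo hi)) = ENNReal.ofReal ((2 * ε) ^ N * (α / 5)) := by
    rw [Measure.addHaar_preimage_linearMap _ (by rw [hTdet]; exact one_ne_zero), hTdet, hvol]
    simp
  calc ENNReal.ofReal ((2 * ε) ^ N / 50 * min 1 (R / rr h)) ≤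
      ENNReal.ofReal ((2 * ε) ^ N * (α / 5)) := by
        apply ENNReal.ofReal_le_ofReal
        have h1 : min 1 (R / rr h) / 50 ≤ α / 5 := by
          rw [hα]
          rcases le_total (1 / 10) (R / (4 * rr h)) with hle | hle
          · rw [min_eq_left hle]
            have := min_le_left 1 (R / rr h)
            linarith
          · rw [min_eq_right hle]
            have h2 := min_le_right 1 (R / rr h)
            have h3 : R / (4 * rr h) = (R / rr h) / 4 := by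
              field_simp
            have h4 : 0 ≤ R / rr h := by positivity
            rw [h3]
            linarith
        have h2 : (0 : ℝ) ≤ (2 * ε) ^ N := by positivity
        calc (2 * ε) ^ N / 50 * min 1 (R / rr h) = (2 * ε) ^ N * (min 1 (R / rr h) / 50) := by ring
          _ ≤ (2 * ε) ^ N * (α / 5) := mul_le_mul_of_nonneg_left h1 h2
    _ = volume ((toLin' T) ⁻¹' (Set.Icc lo hi)) := hpre.symm
    _ ≤ volume {v | v ∈ Sh ι 2 ∧ h *ᵥ v ∈ Sh ι R} := by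
        apply measure_mono
        intro v hv
        have hTv : T *ᵥ v = Sum.elim (v ∘ Sum.inl)
            (U *ᵥ (X *ᵥ (v ∘ Sum.inl) + v ∘ Sum.inr)) := by
          rw [hT, fromBlocks_mulVec, one_mulVec, zero_mulVec, add_zero, mulVec_add, mulVec_mulVec]
        rw [Set.mem_preimage, toLin'_apply, hTv, Set.mem_Icc, Pi.le_def, Pi.le_def] at hv
        obtain ⟨hv1, hv2⟩ := hv
        obtain ⟨w, hw⟩ : ∃ w : Fin 2 → ℝ, w = X *ᵥ (v ∘ Sum.inl) := ⟨_, rfl⟩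
        rw [← hw] at hv1 hv2
        have ey : ∀ i, |v (Sum.inl i)| ≤ ε := by
          intro i
          have h1 := hv1 (Sum.inl i)
          have h2 := hv2 (Sum.inl i)
          rw [hlo] at h1
          rw [hhi] at h2
          exact abs_le.mpr ⟨h1, h2⟩
        have e0 : (U *ᵥ (w + v ∘ Sum.inr)) 0 =
            p * (w 0 + v (Sum.inr 0)) + q * (w 1 + v (Sum.inr 1)) := by
          rw [hU]
          simp [mulVec, dotProduct, Fin.sum_univ_two]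
        have e1 : (U *ᵥ (w + v ∘ Sum.inr)) 1 =
            -q * (w 0 + v (Sum.inr 0)) + p * (w 1 + v (Sum.inr 1)) := by
          rw [hU]
          simp [mulVec, dotProduct, Fin.sum_univ_two]
        have a1 := hv1 (Sum.inr 0)
        have a2 := hv2 (Sum.inr 0)
        have b1 := hv1 (Sum.inr 1)
        have b2 := hv2 (Sum.inr 1)
        rw [hlo] at a1 b1
        rw [hhi] at a2 b2
        simp only [Sum.elim_inr, Matrix.cons_val_zero, Matrix.cons_val_one, e0, e1] at a1 a2 b1 b2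
        refine in_set h hh R hR hDR hr p q hpq hc v w ?_ ?_ _ _ rfl rfl ?_ ?_ b1 b2
        · rw [hw, mulVec_mulVec, hDX]
        · calc ∑ i, (v (Sum.inl i)) ^ 2 ≤ ∑ _i : ι, ε ^ 2 := by
                apply Finset.sum_le_sum
                intro i _
                rw [← sq_abs (v (Sum.inl i))]
                exact pow_le_pow_left₀ (abs_nonneg _) (ey i) 2
            _ = N * ε ^ 2 := by rw [Finset.sum_const, Finset.card_univ, ← hN, nsmul_eq_mul]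
            _ ≤ 1 / 100 := hεN
        · refine (abs_le.mpr ⟨a1, a2⟩).trans ?_
          rw [hα]
          exact min_le_left _ _
        · refine (abs_le.mpr ⟨a1, a2⟩).trans ?_
          rw [hα]
          exact min_le_right _ _

end Pool.Agent.MPd01a95
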