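import Mathlib
import Pool.Agent.Lib.MP_d01a95_gt.Defs

set_option autoImplicit false
set_option linter.all false

open Matrix MeasureTheory

namespace Pool.Agent.MPd01a95

namespace IrrAux

variable {n : Type} [Fintype n] [DecidableEq n]

/-- Congruence by `h`. -/
def A (h : Matrix n n ℝ) : Matrix n n ℝ →ₗ[ℝ] Matrix n n ℝ where
  toFun S := h * S * hᵀ
  map_add' S T := by rw [mul_add, add_mul]
  map_smul' c S := by simp

lemma A_apply (h S : Matrix n n ℝ) : A h S = h * S * hᵀ := rfl

lemma A_mul (h k S : Matrix n n ℝ) : A (h * k) S = A h (A k S) := by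
  simp only [A_apply, Matrix.transpose_mul, Matrix.mul_assoc]

lemma A_one (S : Matrix n n ℝ) : A (1 : Matrix n n ℝ) S = S := by
  simp [A_apply]

lemma map_A_mul (h k : Matrix n n ℝ) (W : Submodule ℝ (Matrix n n ℝ)) :
    W.map (A (h * k)) = (W.map (A k)).map (A h) := by
  rw [← Submodule.map_comp]
  congr 1
  refine LinearMap.ext fun S => ?_
  simp [A_mul]

lemma map_A_one (W : Submodule ℝ (Matrix n n ℝ)) : W.map (A (1 : Matrix n n ℝ)) = W := by
  have : A (1 : Matrix n n ℝ) = LinearMap.id := by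
    refine LinearMap.ext fun S => ?_
    simp [A_one]
  rw [this, Submodule.map_id]

lemma finrank_map (h k : Matrix n n ℝ) (hk : k * h = 1) (W : Submodule ℝ (Matrix n n ℝ)) :
    Module.finrank ℝ (W.map (A h)) = Module.finrank ℝ W := by
  have hinj : Function.Injective (A h) := by
    intro S T hST
    have h1 : A k (A h S) = A k (A h T) := by rw [hST]
    rwa [← A_mul, ← A_mul, hk, A_one, A_one] at h1
  exact (Submodule.equivMapOfInjective (A h) hinj W).finrank_eq.symm

/-- The polynomial `l (X * w * Xᵀ)`. -/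
noncomputable def poly (l : Matrix n n ℝ →ₗ[ℝ] ℝ) (w : Matrix n n ℝ) :
    MvPolynomial (n × n) ℝ :=
  ∑ a, ∑ d, ∑ b, ∑ c, MvPolynomial.C (l (Matrix.single a d 1) * w b c) *
    MvPolynomial.X (a, b) * MvPolynomial.X (d, c)

lemma eval_poly (l : Matrix n n ℝ →ₗ[ℝ] ℝ) (w h : Matrix n n ℝ) :
    MvPolynomial.eval (fun ij : n × n => h ij.1 ij.2) (poly l w) = l (h * w * hᵀ) := by
  have h1 : l (h * w * hᵀ) = ∑ a, ∑ d, (h * w * hᵀ) a d * l (Matrix.single a d 1) := by
    conv_lhs => rw [Matrix.matrix_eq_sum_single (h * w * hᵀ)]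
    rw [map_sum]
    refine Finset.sum_congr rfl fun a _ => ?_
    rw [map_sum]
    refine Finset.sum_congr rfl fun d _ => ?_
    have : Matrix.single a d ((h * w * hᵀ) a d) =
        (h * w * hᵀ) a d • Matrix.single a d (1 : ℝ) := by
      rw [Matrix.smul_single, smul_eq_mul, mul_one]
    rw [this, map_smul, smul_eq_mul]
  rw [h1]
  simp only [poly, map_sum, map_mul, MvPolynomial.eval_C, MvPolynomial.eval_X]
  refine Finset.sum_congr rfl fun a _ => Finset.sum_congr rfl fun d _ => ?_
  rw [Matrix.mul_apply, Finset.sum_mul, Finset.sum_comm]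
  refine Finset.sum_congr rfl fun c _ => ?_
  rw [Matrix.mul_apply, Matrix.transpose_apply, Finset.sum_mul, Finset.sum_mul]
  refine Finset.sum_congr rfl fun b _ => ?_
  ring


section pair

variable (i j : n) (η : ℝ)

/-- Projection on the coordinates `i`, `j`. -/
def P : Matrix n n ℝ := Matrix.single i i 1 + Matrix.single j j 1

/-- Generator of the one-parameter group. -/
def K : Matrix n n ℝ := Matrix.single i j 1 - η • Matrix.single j i 1

/-- Elements of the one-parameter group. -/
def gg (c s : ℝ) : Matrix n n ℝ := 1 + (c - 1) • P i j + s • K i j η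

lemma gg_one : gg i j η 1 0 = 1 := by
  simp [gg]

variable {i j η}

lemma ss_ne {a b c d : n} (h : b ≠ c) :
    (Matrix.single a b (1 : ℝ)) * Matrix.single c d 1 = 0 :=
  Matrix.single_mul_single_of_ne 1 a b c h 1

lemma ss_same {a b d : n} :
    (Matrix.single a b (1 : ℝ)) * Matrix.single b d 1 = Matrix.single a d 1 := by
  rw [Matrix.single_mul_single_same, mul_one]

lemma PP (hij : i ≠ j) : P i j * P i j = P i j := by
  simp only [P, mul_add, add_mul, ss_same, ss_ne hij, ss_ne hij.symm, add_zero, zero_add]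

lemma PK (hij : i ≠ j) : P i j * K i j η = K i j η := by
  simp only [P, K, mul_sub, add_mul, Matrix.mul_smul, ss_same, ss_ne hij, ss_ne hij.symm,
    add_zero, zero_add, smul_zero]

lemma KP (hij : i ≠ j) : K i j η * P i j = K i j η := by
  simp only [P, K, mul_add, sub_mul, Matrix.smul_mul, ss_same, ss_ne hij, ss_ne hij.symm,
    add_zero, zero_add, smul_zero, sub_zero, zero_sub]
  abel

lemma KK (hij : i ≠ j) : K i j η * K i j η = -(η • P i j) := by
  simp only [P, K, mul_sub, sub_mul, Matrix.smul_mul, Matrix.mul_smul, ss_same, ss_ne hij,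
    ss_ne hij.symm, add_zero, zero_add, smul_zero, sub_zero, zero_sub, smul_add]
  abel

lemma gg_mul (hij : i ≠ j) (c s c' s' : ℝ) :
    gg i j η c s * gg i j η c' s' = gg i j η (c * c' - η * (s * s')) (c * s' + s * c') := by
  simp only [gg, mul_add, add_mul, one_mul, mul_one, Matrix.smul_mul, Matrix.mul_smul, PP hij,
    PK hij, KP hij, KK hij]
  module

lemma P_transpose : (P i j)ᵀ = P i j := by
  simp [P, Matrix.transpose_single]

lemma K_transpose : (K i j η)ᵀ = Matrix.single j i 1 - η • Matrix.single i j 1 := by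
  simp [K, Matrix.transpose_single]

lemma P_diag (ε : n → ℝ) : P i j * Matrix.diagonal ε = Matrix.diagonal ε * P i j := by
  ext k l
  simp only [P, Matrix.mul_diagonal, Matrix.diagonal_mul, Matrix.add_apply, Matrix.single_apply]
  by_cases h1 : i = k ∧ i = l <;> by_cases h2 : j = k ∧ j = l
  · simp only [h1, h2, and_self, if_true]
    rw [← h1.1, ← h1.2]; ring
  · obtain ⟨rfl, rfl⟩ := h1
    simp only [h2, and_self, if_true, if_false]; ring
  · obtain ⟨rfl, rfl⟩ := h2
    simp only [h1, and_self, if_true, if_false]; ring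
  · simp only [h1, h2, if_false]; ring

lemma K_diag (ε : n → ℝ) (hε : ∀ k, ε k * ε k = 1) (hη : η = ε i * ε j) :
    (K i j η)ᵀ * Matrix.diagonal ε = -(Matrix.diagonal ε * K i j η) := by
  rw [K_transpose]
  ext k l
  simp only [K, Matrix.mul_diagonal, Matrix.diagonal_mul, Matrix.sub_apply, Matrix.single_apply,
    Matrix.smul_apply, Matrix.neg_apply, smul_eq_mul, hη]
  have h1 := hε i
  have h2 := hε j
  by_cases ha : j = k ∧ i = l
  · obtain ⟨rfl, rfl⟩ := ha
    by_cases hb : i = j
    · subst hb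
      simp only [and_self, if_true]
      linear_combination (-2 * ε i) * h1
    · simp only [hb, false_and, if_false, and_self, if_true]
      linear_combination (-ε i) * h2
  · by_cases hb : i = k ∧ j = l
    · obtain ⟨rfl, rfl⟩ := hb
      simp only [ha, if_false, and_self, if_true]
      linear_combination (-ε i) * h2
    · simp [ha, hb]

/-- The elements of the group are isometries. -/
lemma gg_isom (hij : i ≠ j) (ε : n → ℝ) (hε : ∀ k, ε k * ε k = 1) (hη : η = ε i * ε j)
    (c s : ℝ) (hcs : c * c + η * (s * s) = 1) :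
    (gg i j η c s)ᵀ * Matrix.diagonal ε * gg i j η c s = Matrix.diagonal ε := by
  have h1 : (gg i j η c s)ᵀ * Matrix.diagonal ε = Matrix.diagonal ε * gg i j η c (-s) := by
    simp only [gg, Matrix.transpose_add, Matrix.transpose_one, Matrix.transpose_smul,
      P_transpose, add_mul, Matrix.smul_mul, P_diag ε, K_diag ε hε hη, mul_add, one_mul, mul_one,
      Matrix.mul_smul]
    module
  rw [h1, Matrix.mul_assoc, gg_mul hij]
  have h2 : c * c - η * (-s * s) = 1 := by linarith
  have h3 : c * s + -s * c = 0 := by ring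
  rw [h2, h3, gg_one, mul_one]

end pair

/-- Invariance of `W` under the one-parameter group. `ix` is an index of the translate. -/
lemma invariant {α : Type} [Finite α] (W : Submodule ℝ (Matrix n n ℝ))
    (V : α → Submodule ℝ (Matrix n n ℝ))
    (hV : ∀ a, Module.finrank ℝ (V a) = Module.finrank ℝ W)
    (g : ℝ → Matrix n n ℝ) (hg0 : g 0 = 1) (hg : ∀ s t, g (s + t) = g s * g t)
    (hix : ∀ t, ∃ a, W.map (A (g t)) ≤ V a) (t : ℝ) : W.map (A (g t)) = W := by
  classical
  cases nonempty_fintype α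
  have hrank : ∀ t, Module.finrank ℝ (W.map (A (g t))) = Module.finrank ℝ W := by
    intro t
    apply finrank_map _ (g (-t))
    rw [← hg, neg_add_cancel, hg0]
  have heq : ∀ t, ∃ a, W.map (A (g t)) = V a := by
    intro t
    obtain ⟨a, ha⟩ := hix t
    refine ⟨a, Submodule.eq_of_le_of_finrank_eq ha ?_⟩
    rw [hrank, hV]
  choose f hf using heq
  set N := Fintype.card α with hN
  set s : ℝ := t / (Nat.factorial N) with hs
  -- two multiples of s with the same index
  have hpig : ∃ x y : Fin (N + 1), x ≠ y ∧ f ((x : ℕ) * s) = f ((y : ℕ) * s) := by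
    obtain ⟨x, y, hxy, h⟩ := Fintype.exists_ne_map_eq_of_card_lt
      (fun x : Fin (N + 1) => f ((x : ℕ) * s)) (by simp [hN])
    exact ⟨x, y, hxy, h⟩
  have hpig2 : ∃ x y : ℕ, x < y ∧ y ≤ N ∧ f ((x : ℕ) * s) = f ((y : ℕ) * s) := by
    obtain ⟨x, y, hxy, h⟩ := hpig
    rcases lt_or_gt_of_ne hxy with h1 | h1
    · exact ⟨x, y, h1, Nat.lt_succ_iff.1 y.2, h⟩
    · exact ⟨y, x, h1, Nat.lt_succ_iff.1 x.2, h.symm⟩
  obtain ⟨x, y, hxy, hyN, hfe⟩ := hpig2
  have h1 : W.map (A (g ((x : ℕ) * s))) = W.map (A (g ((y : ℕ) * s))) := by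
    rw [hf, hf, hfe]
  have h2 : W.map (A (g (((y - x : ℕ) : ℝ) * s))) = W := by
    have h3 := congrArg (Submodule.map (A (g (-((x : ℕ) * s))))) h1
    rw [← map_A_mul, ← map_A_mul, ← hg, ← hg, neg_add_cancel, hg0, map_A_one] at h3
    have h5 : (((y - x : ℕ) : ℝ) * s) = -((x : ℕ) * s) + (y : ℕ) * s := by
      rw [Nat.cast_sub hxy.le]
      ring
    rw [h5]
    exact h3.symm
  have h4 : ∀ k : ℕ, W.map (A (g (k * (((y - x : ℕ) : ℝ) * s)))) = W := by
    intro k
    induction k with
    | zero => simp [hg0, map_A_one]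
    | succ k ih =>
      have : ((k + 1 : ℕ) : ℝ) * (((y - x : ℕ) : ℝ) * s) =
          k * (((y - x : ℕ) : ℝ) * s) + (((y - x : ℕ) : ℝ) * s) := by
        push_cast; ring
      rw [this, hg, map_A_mul, h2, ih]
  obtain ⟨k, hk⟩ : (y - x) ∣ Nat.factorial N :=
    Nat.dvd_factorial (by omega) (by omega)
  have h5 : t = k * (((y - x : ℕ) : ℝ) * s) := by
    have h6 : ((Nat.factorial N : ℕ) : ℝ) ≠ 0 := by
      exact_mod_cast Nat.factorial_ne_zero N
    have h7 : ((Nat.factorial N : ℕ) : ℝ) = ((y - x : ℕ) : ℝ) * k := by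
      exact_mod_cast hk
    rw [hs]
    field_simp
    rw [h7]
    ring
  rw [h5]
  exact h4 k

/-- Consequence: `K S + S Kᵀ` stays in `W`. -/
lemma T_mem {i j : n} {η : ℝ} (W : Submodule ℝ (Matrix n n ℝ)) (c s : ℝ → ℝ)
    (hinv : ∀ t, W.map (A (gg i j η (c t) (s t))) = W)
    (hc : ∀ t, c (-t) = c t) (hs : ∀ t, s (-t) = -s t)
    (t₁ t₂ : ℝ) (h1 : s t₁ ≠ 0) (h2 : s t₂ ≠ 0) (h12 : c t₁ ≠ c t₂)
    (S : Matrix n n ℝ) (hS : S ∈ W) : K i j η * S + S * (K i j η)ᵀ ∈ W := by
  set K' := K i j η
  set P' := P i j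
  have hmem : ∀ t, A (gg i j η (c t) (s t)) S ∈ W := by
    intro t
    rw [← hinv t]
    exact Submodule.mem_map_of_mem hS
  have hdiff : ∀ t, (2 * s t) • ((K' * S + S * K'ᵀ) + (c t - 1) • (K' * S * P' + P' * S * K'ᵀ))
      ∈ W := by
    intro t
    have h3 := W.sub_mem (hmem t) (hmem (-t))
    rw [hc, hs] at h3
    convert h3 using 1
    simp only [A_apply, gg, Matrix.transpose_add, Matrix.transpose_one, Matrix.transpose_smul,
      P_transpose, mul_add, add_mul, one_mul, mul_one, Matrix.smul_mul, Matrix.mul_smul]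
    module
  have hd : ∀ t, s t ≠ 0 →
      (K' * S + S * K'ᵀ) + (c t - 1) • (K' * S * P' + P' * S * K'ᵀ) ∈ W := by
    intro t ht
    have h3 := W.smul_mem (2 * s t)⁻¹ (hdiff t)
    rwa [smul_smul, inv_mul_cancel₀ (mul_ne_zero two_ne_zero ht), one_smul] at h3
  have h4 := W.sub_mem (W.smul_mem (c t₂ - 1) (hd t₁ h1)) (W.smul_mem (c t₁ - 1) (hd t₂ h2))
  have h5 := W.smul_mem (c t₂ - c t₁)⁻¹ h4
  convert h5 using 1
  have h6 : c t₂ - c t₁ ≠ 0 := sub_ne_zero.2 h12.symm
  have h7 : ((c t₂ - 1) • (K' * S + S * K'ᵀ + (c t₁ - 1) • (K' * S * P' + P' * S * K'ᵀ)) -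
      (c t₁ - 1) • (K' * S + S * K'ᵀ + (c t₂ - 1) • (K' * S * P' + P' * S * K'ᵀ))) =
      (c t₂ - c t₁) • (K' * S + S * K'ᵀ) := by
    module
  rw [h7, smul_smul, inv_mul_cancel₀ h6, one_smul]


/-- Indicator of the pair. -/
def ind (i j k : n) : ℝ := if k = i ∨ k = j then 1 else 0

lemma P_eq {i j : n} (hij : i ≠ j) : P i j = Matrix.diagonal (ind i j) := by
  ext k l
  simp only [P, ind, Matrix.add_apply, Matrix.single_apply, Matrix.diagonal_apply]
  by_cases h : k = l
  · subst h
    by_cases h1 : i = k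
    · subst h1
      simp [hij.symm]
    · by_cases h2 : j = k
      · subst h2
        simp [hij]
      · simp [h1, h2, Ne.symm h1, Ne.symm h2]
  · have h1 : ¬ (i = k ∧ i = l) := fun ⟨a, b⟩ => h (a.symm.trans b)
    have h2 : ¬ (j = k ∧ j = l) := fun ⟨a, b⟩ => h (a.symm.trans b)
    simp [h, h1, h2]

lemma KSK {i j : n} {η : ℝ} (hη : η * η = 1) (S : Matrix n n ℝ) (hS : Sᵀ = -S) :
    K i j η * S * (K i j η)ᵀ = η • (P i j * S * P i j) := by
  have hS' : ∀ a b, S b a = -S a b := by
    intro a b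
    have := congrFun (congrFun hS a) b
    simpa using this
  have hd : ∀ a, S a a = 0 := by
    intro a
    have := hS' a a
    linarith
  rw [K_transpose]
  simp only [K, P, mul_sub, sub_mul, mul_add, add_mul, Matrix.smul_mul, Matrix.mul_smul,
    Matrix.single_mul_mul_single, one_mul, mul_one, hd, Matrix.single_zero, smul_zero, smul_add,
    smul_smul, hη]
  rw [hS' j i]
  simp only [Matrix.single_neg, smul_neg, sub_zero, zero_sub, add_zero, zero_add]
  have e1 : Matrix.single j i (-S i j) = -Matrix.single j i (S i j) := (Matrix.single_neg ..).symm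
  have e2 : Matrix.single i j (-S i j) = -Matrix.single i j (S i j) := (Matrix.single_neg ..).symm
  rw [hS' i j]
  try rw [e1]
  try rw [e2]
  try module
  try simp

/-- The operator `Π` stays in `W`. -/
lemma Pi_mem {i j : n} {η : ℝ} (hij : i ≠ j) (hη : η * η = 1) (W : Submodule ℝ (Matrix n n ℝ))
    (hW : ∀ S ∈ W, Sᵀ = -S)
    (hT : ∀ S ∈ W, K i j η * S + S * (K i j η)ᵀ ∈ W) (S : Matrix n n ℝ) (hS : S ∈ W) :
    Matrix.of (fun k l => (ind i j k + ind i j l - 2 * ind i j k * ind i j l) * S k l) ∈ W := by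
  have h1 := hT _ (hT S hS)
  have h2 := W.smul_mem (-η) h1
  convert h2 using 1
  have h3 : K i j η * (K i j η * S + S * (K i j η)ᵀ) + (K i j η * S + S * (K i j η)ᵀ) * (K i j η)ᵀ
      = -(η • (P i j * S)) + -(η • (S * P i j)) + (2 * η) • (P i j * S * P i j) := by
    have e1 : K i j η * (K i j η * S) = -(η • (P i j * S)) := by
      rw [← Matrix.mul_assoc, KK hij, Matrix.neg_mul, Matrix.smul_mul]
    have e2 : S * (K i j η)ᵀ * (K i j η)ᵀ = -(η • (S * P i j)) := by
      rw [Matrix.mul_assoc, ← Matrix.transpose_mul, KK hij, Matrix.transpose_neg,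
        Matrix.transpose_smul, P_transpose, Matrix.mul_neg, Matrix.mul_smul]
    rw [mul_add, add_mul, e1, e2, ← Matrix.mul_assoc, KSK hη S (hW S hS)]
    module
  rw [h3, P_eq hij]
  ext k l
  simp only [Matrix.of_apply, Matrix.smul_apply, Matrix.add_apply, Matrix.neg_apply,
    Matrix.diagonal_mul, Matrix.mul_diagonal, smul_eq_mul]
  linear_combination (-(ind i j k + ind i j l - 2 * ind i j k * ind i j l) * S k l) * hη

/-- The move. -/
lemma move_mem {i j k : n} {η : ℝ} (hij : i ≠ j) (hki : k ≠ i) (hkj : k ≠ j)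
    (W : Submodule ℝ (Matrix n n ℝ))
    (hT : ∀ S ∈ W, K i j η * S + S * (K i j η)ᵀ ∈ W)
    (h : Matrix.single k j (1 : ℝ) - Matrix.single j k 1 ∈ W) :
    Matrix.single k i (1 : ℝ) - Matrix.single i k 1 ∈ W := by
  have h1 := hT _ h
  convert h1 using 1
  rw [K_transpose]
  simp only [K, mul_sub, sub_mul, Matrix.smul_mul, Matrix.mul_smul, ss_same, ss_ne hkj,
    ss_ne hkj.symm, ss_ne hki, ss_ne hki.symm, ss_ne hij, ss_ne hij.symm, smul_zero, sub_zero,
    zero_sub]
  module

lemma coef {p q a b c k l : n} (hpq : p ≠ q) (hpa : p ≠ a) (hpb : p ≠ b) (hpc : p ≠ c)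
    (hqa : q ≠ a) (hqb : q ≠ b) (hqc : q ≠ c) (hab : a ≠ b) (hac : a ≠ c) (hbc : b ≠ c)
    (S : Matrix n n ℝ) (hS : ∀ a b, S b a = -S a b) :
    (ind q c k + ind q c l - 2 * ind q c k * ind q c l) *
      ((ind p c k + ind p c l - 2 * ind p c k * ind p c l) *
      ((ind q b k + ind q b l - 2 * ind q b k * ind q b l) *
      ((ind p a k + ind p a l - 2 * ind p a k * ind p a l) * S k l))) =
    S p q * ((Matrix.single p q (1 : ℝ) - Matrix.single q p 1 : Matrix n n ℝ) k l) := by
  simp only [ind, Matrix.sub_apply, Matrix.single_apply]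
  by_cases h1 : k = p
  · subst h1
    by_cases h2 : l = q
    · subst h2
      simp [hpq, hpa, hpb, hpc, hqa, hqb, hqc, hpq.symm]
    · by_cases h3 : l = k
      · subst h3
        simp [hpq, hpa, hpb, hpc, hpq.symm, hqa, hqb, hqc]
        try norm_num
      · have h4 : ¬ q = l := fun h => h2 h.symm
        by_cases h5 : l = c
        · subst h5
          simp [hpq, hpa, hpb, hpc, h2, h3, h4, hac.symm, hbc.symm, hpc.symm, hqc.symm]
          try norm_num
        · by_cases h6 : l = b
          · subst h6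
            simp [hpq, hpa, hpb, hpc, h2, h3, h4, h5, hab.symm, hbc, hqc, hqb, hpb.symm]
          · simp [hpq, hpa, hpb, hpc, h2, h3, h4, h5, h6]
            try (intro h7; exact absurd h7.symm hpq)
  · by_cases h2 : k = q
    · subst h2
      by_cases h3 : l = p
      · subst h3
        rw [hS l k]
        simp [hpq, hpa, hpb, hpc, hqa, hqb, hqc, hpq.symm]
        try ring
      · have h4 : ¬ p = l := fun h => h3 h.symm
        by_cases h5 : l = k
        · subst h5
          simp [hpq, hpq.symm, hqa, hqb, hqc]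
          try norm_num
        · by_cases h6 : l = c
          · subst h6
            simp [hpq, hpq.symm, hqa, hqb, hqc, h3, h4, h5]
            try norm_num
          · by_cases h7 : l = a
            · subst h7
              simp [hpq, hpq.symm, hqa, hqb, hqc, h3, h4, h5, h6]
            · simp [hpq, hpq.symm, hqa, hqb, hqc, h3, h4, h5, h6, h7]
    · have h1' : ¬ p = k := fun h => h1 h.symm
      have h2' : ¬ q = k := fun h => h2 h.symm
      simp only [h1, h2, h1', h2', false_or, false_and, if_false, sub_zero, mul_zero]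
      by_cases h3 : k = c
      · subst h3
        by_cases h4 : l = k
        · subst h4
          simp
          try norm_num
        · by_cases h5 : l = q
          · subst h5
            simp
            try norm_num
          · by_cases h6 : l = p
            · subst h6
              simp [hqa, hqb, hpq, hpb, hac.symm, hbc.symm]
            · simp [h4, h5, h6]
              by_cases h7 : l = b
              · subst h7
                simp [hab.symm, hac.symm]
              · simp [h7, hbc.symm]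
      · simp only [h3, if_false, zero_add, mul_zero, zero_mul, sub_zero]
        by_cases h4 : l = c
        · subst h4
          by_cases h7 : k = b
          · subst h7
            simp [hab.symm, hpc.symm, hac.symm]
          · simp [h7, hqc.symm, hbc.symm]
        · simp only [h4, or_false]
          by_cases h5 : l = q
          · subst h5
            simp [hpq.symm]
          · simp [h5]


/-- All antisymmetric matrices lie in `W` as soon as all pairs are good. -/
lemma full (hcard : 5 ≤ Fintype.card n) (η : n → n → ℝ) (hη : ∀ i j, η i j * η i j = 1)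
    (W : Submodule ℝ (Matrix n n ℝ)) (hW : ∀ S ∈ W, Sᵀ = -S) (hW0 : ∃ S ∈ W, S ≠ 0)
    (hT : ∀ i j, i ≠ j → ∀ S ∈ W, K i j (η i j) * S + S * (K i j (η i j))ᵀ ∈ W)
    (S : Matrix n n ℝ) (hS : Sᵀ = -S) : S ∈ W := by
  obtain ⟨S0, hS0, hne⟩ := hW0
  have hanti : ∀ a b, S0 b a = -S0 a b := by
    intro a b
    have := congrFun (congrFun (hW S0 hS0) a) b
    simpa using this
  obtain ⟨p, q, hpq0⟩ : ∃ p q, S0 p q ≠ 0 := by
    by_contra h
    push Not at h
    exact hne (Matrix.ext h)
  have hpq : p ≠ q := by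
    rintro rfl
    have := hanti p p
    apply hpq0
    linarith
  -- three more indices
  have hex : ∀ s : Finset n, s.card ≤ 4 → ∃ a, a ∉ s := by
    intro s hs
    by_contra h
    push Not at h
    have h1 : s = Finset.univ := Finset.eq_univ_iff_forall.2 h
    rw [h1, Finset.card_univ] at hs
    omega
  obtain ⟨a, ha⟩ := hex {p, q} (by
    have := Finset.card_le_two (a := p) (b := q)
    omega)
  obtain ⟨b, hb⟩ := hex {p, q, a} (by
    have := Finset.card_le_three (a := p) (b := q) (c := a)
    omega)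
  obtain ⟨c, hc⟩ := hex {p, q, a, b} (by
    have := Finset.card_le_four (a := p) (b := q) (c := a) (d := b)
    omega)
  simp only [Finset.mem_insert, Finset.mem_singleton, not_or] at ha hb hc
  obtain ⟨hap, haq⟩ := ha
  obtain ⟨hbp, hbq, hba⟩ := hb
  obtain ⟨hcp, hcq, hca, hcb⟩ := hc
  have hPi : ∀ i j, i ≠ j → ∀ S ∈ W,
      Matrix.of (fun k l => (ind i j k + ind i j l - 2 * ind i j k * ind i j l) * S k l) ∈ W :=
    fun i j hij S hS => Pi_mem hij (hη i j) W hW (hT i j hij) S hS
  have h1 := hPi q c (Ne.symm hcq) _ (hPi p c (Ne.symm hcp) _ (hPi q b (Ne.symm hbq) _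
    (hPi p a (Ne.symm hap) S0 hS0)))
  have h2 : Matrix.single p q (1 : ℝ) - Matrix.single q p 1 ∈ W := by
    have h3 := W.smul_mem (S0 p q)⁻¹ h1
    convert h3 using 1
    ext k l
    have h4 := coef (k := k) (l := l) hpq (Ne.symm hap) (Ne.symm hbp) (Ne.symm hcp)
      (Ne.symm haq) (Ne.symm hbq) (Ne.symm hcq) (Ne.symm hba) (Ne.symm hca) (Ne.symm hcb) S0 hanti
    simp only [Matrix.smul_apply, Matrix.of_apply, smul_eq_mul]
    rw [h4, ← mul_assoc, inv_mul_cancel₀ hpq0, one_mul]
  have hmove : ∀ k j i, k ≠ j → i ≠ k → i ≠ j →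
      Matrix.single k j (1 : ℝ) - Matrix.single j k 1 ∈ W →
      Matrix.single k i (1 : ℝ) - Matrix.single i k 1 ∈ W := by
    intro k j i hkj hik hij h
    exact move_mem hij (Ne.symm hik) hkj W (hT i j hij) h
  have hflip : ∀ k j, Matrix.single k j (1 : ℝ) - Matrix.single j k 1 ∈ W →
      Matrix.single j k (1 : ℝ) - Matrix.single k j 1 ∈ W := by
    intro k j h
    have := W.neg_mem h
    rwa [neg_sub] at this
  -- from p q to p l
  have hp : ∀ l, l ≠ p → Matrix.single p l (1 : ℝ) - Matrix.single l p 1 ∈ W := by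
    intro l hl
    by_cases h : l = q
    · rw [h]; exact h2
    · exact hmove p q l hpq hl h h2
  have hall : ∀ k l, k ≠ l → Matrix.single k l (1 : ℝ) - Matrix.single l k 1 ∈ W := by
    intro k l hkl
    by_cases h : l = p
    · subst h
      exact hflip _ _ (hp k hkl)
    · have h3 := hflip _ _ (hp l h)
      by_cases h4 : k = p
      · subst h4
        exact hp l h
      · exact hflip _ _ (hmove l p k h hkl h4 h3)
  have hexp : S = ∑ k, ∑ l, (S k l / 2) • (Matrix.single k l (1 : ℝ) - Matrix.single l k 1) := by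
    have e1 : ∀ X : Matrix n n ℝ, ∑ k, ∑ l, X k l • Matrix.single k l (1 : ℝ) = X := by
      intro X
      conv_rhs => rw [Matrix.matrix_eq_sum_single X]
      refine Finset.sum_congr rfl fun k _ => Finset.sum_congr rfl fun l _ => ?_
      rw [Matrix.smul_single, smul_eq_mul, mul_one]
    have e2 : ∑ k, ∑ l, S k l • Matrix.single l k (1 : ℝ) = Sᵀ := by
      rw [Finset.sum_comm]
      exact e1 Sᵀ
    have e3 : ∑ k, ∑ l, (S k l / 2) • (Matrix.single k l (1 : ℝ) - Matrix.single l k 1) =
        (1 / 2 : ℝ) • (∑ k, ∑ l, S k l • Matrix.single k l (1 : ℝ) -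
          ∑ k, ∑ l, S k l • Matrix.single l k (1 : ℝ)) := by
      rw [← Finset.sum_sub_distrib, Finset.smul_sum]
      refine Finset.sum_congr rfl fun k _ => ?_
      rw [← Finset.sum_sub_distrib, Finset.smul_sum]
      refine Finset.sum_congr rfl fun l _ => ?_
      module
    rw [e3, e1, e2, hS]
    module
  rw [hexp]
  refine W.sum_mem fun k _ => W.sum_mem fun l _ => ?_
  by_cases h : k = l
  · subst h
    simp
  · exact W.smul_mem _ (hall k l h)

end IrrAux

open IrrAux in
theorem irr {ι G : Type} [Fintype ι] [DecidableEq ι] [Group G] (hι : 3 ≤ Fintype.card ι)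
    (ρ : G →* Matrix (ι ⊕ Fin 2) (ι ⊕ Fin 2) ℝ)
    (hz : ZDense ρ) (H : Subgroup G) (hH : H.FiniteIndex)
    (W : Submodule ℝ (Matrix (ι ⊕ Fin 2) (ι ⊕ Fin 2) ℝ)) (hW : ∀ S ∈ W, Sᵀ = -S)
    (hW0 : ∃ S ∈ W, S ≠ 0) (hinv : ∀ g ∈ H, ∀ S ∈ W, ρ g * S * (ρ g)ᵀ ∈ W) :
    ∀ S : Matrix (ι ⊕ Fin 2) (ι ⊕ Fin 2) ℝ, Sᵀ = -S → S ∈ W := by
  classical
  set ε : ι ⊕ Fin 2 → ℝ := Sum.elim (fun _ => 1) (fun _ => -1) with hε
  have hJ : J ι = Matrix.diagonal ε := by
    rw [hε, ← Matrix.fromBlocks_diagonal, J]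
    congr 1
    ext a b
    by_cases hab : a = b
    · subst hab
      simp
    · simp [Matrix.diagonal_apply, Matrix.one_apply, hab]
  have hεε : ∀ k, ε k * ε k = 1 := by
    rintro (k | k) <;> simp [hε]
  have hεv : ∀ k, ε k = 1 ∨ ε k = -1 := by
    rintro (k | k) <;> simp [hε]
  haveI : Finite (G ⧸ H) := H.finite_quotient_of_finiteIndex
  cases nonempty_fintype (G ⧸ H)
  set V : G ⧸ H → Submodule ℝ (Matrix (ι ⊕ Fin 2) (ι ⊕ Fin 2) ℝ) :=
    fun a => W.map (A (ρ a.out)) with hV
  have hVrank : ∀ a, Module.finrank ℝ (V a) = Module.finrank ℝ W := by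
    intro a
    apply finrank_map _ (ρ a.out⁻¹)
    rw [← map_mul, inv_mul_cancel, map_one]
  have hVg : ∀ g : G, ∀ w ∈ W, A (ρ g) w ∈ V (g : G ⧸ H) := by
    intro g w hw
    set r : G := (g : G ⧸ H).out with hr
    have h1 : r⁻¹ * g ∈ H := by
      rw [← QuotientGroup.eq, hr]
      exact QuotientGroup.out_eq' _
    have h2 : A (ρ g) w = A (ρ r) (A (ρ (r⁻¹ * g)) w) := by
      rw [← A_mul, ← map_mul, mul_inv_cancel_left]
    rw [h2]
    exact Submodule.mem_map_of_mem (hinv _ h1 w hw)
  have claim1 : ∀ h : Matrix (ι ⊕ Fin 2) (ι ⊕ Fin 2) ℝ, hᵀ * J ι * h = J ι → h.det = 1 →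
      ∃ a, W.map (A h) ≤ V a := by
    intro h hh hdet
    by_contra hcon
    push Not at hcon
    have h1 : ∀ a, ∃ w ∈ W, A h w ∉ V a := by
      intro a
      obtain ⟨x, hx, hxV⟩ := Set.not_subset.1 (hcon a)
      obtain ⟨w, hw, rfl⟩ := hx
      exact ⟨w, hw, hxV⟩
    choose w hw hwV using h1
    have h2 : ∀ a, ∃ l : Matrix (ι ⊕ Fin 2) (ι ⊕ Fin 2) ℝ →ₗ[ℝ] ℝ, l (A h (w a)) ≠ 0 ∧
        V a ≤ LinearMap.ker l := fun a => Submodule.exists_le_ker_of_notMem (hwV a)
    choose l hl hlV using h2
    have h3 := hz (∏ a, poly (l a) (w a)) (by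
      intro g
      rw [map_prod]
      apply Finset.prod_eq_zero (Finset.mem_univ (g : G ⧸ H))
      rw [eval_poly]
      exact hlV _ (hVg g _ (hw _))) h hh hdet
    rw [map_prod, Finset.prod_eq_zero_iff] at h3
    obtain ⟨a, -, ha⟩ := h3
    rw [eval_poly] at ha
    exact hl a ha
  have hJdet : (J ι).det ≠ 0 := by
    rw [hJ, Matrix.det_diagonal]
    apply Finset.prod_ne_zero_iff.2
    intro k _ h0
    have := hεε k
    rw [h0] at this
    norm_num at this
  -- invariance under the one-parameter groups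
  have hT : ∀ i j, i ≠ j → ∀ S ∈ W, K i j (ε i * ε j) * S + S * (K i j (ε i * ε j))ᵀ ∈ W := by
    intro i j hij
    have gen : ∀ c s : ℝ → ℝ, c 0 = 1 → s 0 = 0 →
        (∀ x y, c (x + y) = c x * c y - (ε i * ε j) * (s x * s y)) →
        (∀ x y, s (x + y) = c x * s y + s x * c y) →
        (∀ x, c x * c x + (ε i * ε j) * (s x * s x) = 1) →
        ∀ t, W.map (A (gg i j (ε i * ε j) (c t) (s t))) = W := by
      intro c s hc0 hs0 hc hs hcs
      apply invariant W V hVrank (fun t => gg i j (ε i * ε j) (c t) (s t))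
      · simp only [hc0, hs0, gg_one]
      · intro x y
        rw [gg_mul hij, hc, hs]
      · intro t
        have hiso : ∀ t, (gg i j (ε i * ε j) (c t) (s t))ᵀ * J ι *
            gg i j (ε i * ε j) (c t) (s t) = J ι := by
          intro t
          rw [hJ]
          exact gg_isom hij ε hεε rfl _ _ (hcs t)
        apply claim1 _ (hiso t)
        have h1 : gg i j (ε i * ε j) (c t) (s t) =
            gg i j (ε i * ε j) (c (t / 2)) (s (t / 2)) *
              gg i j (ε i * ε j) (c (t / 2)) (s (t / 2)) := by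
          rw [gg_mul hij, ← hc, ← hs, add_halves]
        have h2 := congrArg Matrix.det (hiso (t / 2))
        rw [Matrix.det_mul, Matrix.det_mul, Matrix.det_transpose] at h2
        rw [h1, Matrix.det_mul]
        have h3 : (J ι).det * (((gg i j (ε i * ε j) (c (t / 2)) (s (t / 2))).det *
            (gg i j (ε i * ε j) (c (t / 2)) (s (t / 2))).det) - 1) = 0 := by
          linear_combination h2
        rcases mul_eq_zero.1 h3 with h4 | h4
        · exact absurd h4 hJdet
        · linarith
    have hη : ε i * ε j = 1 ∨ ε i * ε j = -1 := by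
      rcases hεv i with h | h <;> rcases hεv j with h' | h' <;> rw [h, h'] <;> norm_num
    rcases hη with hη | hη
    · intro S hS
      apply T_mem W Real.cos Real.sin
        (gen Real.cos Real.sin Real.cos_zero Real.sin_zero
          (fun x y => by rw [hη, one_mul]; exact Real.cos_add x y)
          (fun x y => by rw [Real.sin_add]; ring)
          (fun x => by
            rw [hη, one_mul]
            have := Real.cos_sq_add_sin_sq x
            nlinarith [this]))
        Real.cos_neg Real.sin_neg (Real.pi / 2) (Real.pi / 3) _ _ _ S hS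
      · rw [Real.sin_pi_div_two]; norm_num
      · rw [Real.sin_pi_div_three]; positivity
      · rw [Real.cos_pi_div_two, Real.cos_pi_div_three]; norm_num
    · intro S hS
      apply T_mem W Real.cosh Real.sinh
        (gen Real.cosh Real.sinh Real.cosh_zero Real.sinh_zero
          (fun x y => by rw [hη, Real.cosh_add]; ring)
          (fun x y => by rw [Real.sinh_add]; ring)
          (fun x => by
            rw [hη]
            have := Real.cosh_sq x
            nlinarith [this]))
        Real.cosh_neg Real.sinh_neg 1 2 _ _ _ S hS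
      · exact (Real.sinh_pos_iff.2 one_pos).ne'
      · exact (Real.sinh_pos_iff.2 two_pos).ne'
      · apply ne_of_lt
        rw [Real.cosh_lt_cosh]
        norm_num
  have hcard : 5 ≤ Fintype.card (ι ⊕ Fin 2) := by
    rw [Fintype.card_sum, Fintype.card_fin]
    omega
  exact full hcard (fun i j => ε i * ε j) (fun i j => by
    rcases hεv i with h | h <;> rcases hεv j with h' | h' <;> rw [h, h'] <;> norm_num) W hW hW0 hT

end Pool.Agent.MPd01a95
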