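import Mathlib
import Pool.Agent.Lib.MP_d01a95_gt.Defs

set_option autoImplicit false

open Matrix MeasureTheory

namespace Pool.Agent.MPd01a95

namespace SignAux

/-- right translation of functions -/
def tau {G : Type} [Group G] (g : G) : (G → ℂ) →ₐ[ℂ] (G → ℂ) where
  toFun f x := f (x * g)
  map_one' := rfl
  map_mul' _ _ := rfl
  map_zero' := rfl
  map_add' _ _ := rfl
  commutes' _ := rfl

theorem tau_mem {G : Type} [Group G] {α : Type} (F : α → G → ℂ)
    (hF : ∀ g i, (fun x => F i (x * g)) ∈ Submodule.span ℂ (Set.range F)) (g : G)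
    (f : G → ℂ) (hf : f ∈ Algebra.adjoin ℂ (Set.range F)) :
    tau g f ∈ Algebra.adjoin ℂ (Set.range F) := by
  have h1 : Algebra.adjoin ℂ (Set.range F) ≤ (Algebra.adjoin ℂ (Set.range F)).comap (tau g) := by
    rw [Algebra.adjoin_le_iff]
    rintro _ ⟨i, rfl⟩
    exact Algebra.span_le_adjoin ℂ _ (hF g i)
  exact h1 hf

/-- the action on the algebra generated by `F` -/
def tr {G : Type} [Group G] {α : Type} (F : α → G → ℂ)
    (hF : ∀ g i, (fun x => F i (x * g)) ∈ Submodule.span ℂ (Set.range F)) (g : G) :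
    Algebra.adjoin ℂ (Set.range F) →ₐ[ℂ] Algebra.adjoin ℂ (Set.range F) :=
  AlgHom.codRestrict ((tau g).comp (Algebra.adjoin ℂ (Set.range F)).val) _
    (fun x => tau_mem F hF g x.1 x.2)

theorem tr_apply {G : Type} [Group G] {α : Type} (F : α → G → ℂ)
    (hF : ∀ g i, (fun x => F i (x * g)) ∈ Submodule.span ℂ (Set.range F)) (g : G)
    (f : Algebra.adjoin ℂ (Set.range F)) (x : G) : (tr F hF g f).1 x = f.1 (x * g) := rfl

/-- the action on the ideals -/
@[reducible] def act {G : Type} [Group G] {α : Type} (F : α → G → ℂ)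
    (hF : ∀ g i, (fun x => F i (x * g)) ∈ Submodule.span ℂ (Set.range F)) :
    MulAction G (Ideal (Algebra.adjoin ℂ (Set.range F))) where
  smul g P := P.comap (tr F hF g⁻¹)
  one_smul P := by
    change P.comap (tr F hF 1⁻¹) = P
    ext f
    rw [Ideal.mem_comap]
    have : tr F hF 1⁻¹ f = f := by
      apply Subtype.ext
      funext x
      rw [tr_apply, inv_one, mul_one]
    rw [this]
  mul_smul g h P := by
    change P.comap (tr F hF (g * h)⁻¹) = (P.comap (tr F hF h⁻¹)).comap (tr F hF g⁻¹)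
    ext f
    rw [Ideal.mem_comap, Ideal.mem_comap, Ideal.mem_comap]
    have : tr F hF (g * h)⁻¹ f = tr F hF h⁻¹ (tr F hF g⁻¹ f) := by
      apply Subtype.ext
      funext x
      rw [tr_apply, tr_apply, tr_apply, _root_.mul_inv_rev, mul_assoc]
    rw [this]

theorem comap_comap {G : Type} [Group G] {α : Type} (F : α → G → ℂ)
    (hF : ∀ g i, (fun x => F i (x * g)) ∈ Submodule.span ℂ (Set.range F)) (g h : G) (hgh : g * h = 1)
    (P : Ideal (Algebra.adjoin ℂ (Set.range F))) :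
    (P.comap (tr F hF h)).comap (tr F hF g) = P := by
  ext f
  rw [Ideal.mem_comap, Ideal.mem_comap]
  have hhg : h * g = 1 := mul_eq_one_comm.1 hgh
  have : tr F hF h (tr F hF g f) = f := by
    apply Subtype.ext
    funext x
    rw [tr_apply, tr_apply, mul_assoc, hhg, mul_one]
  rw [this]

theorem comap_minimal {G : Type} [Group G] {α : Type} (F : α → G → ℂ)
    (hF : ∀ g i, (fun x => F i (x * g)) ∈ Submodule.span ℂ (Set.range F)) (g : G)
    (P : Ideal (Algebra.adjoin ℂ (Set.range F)))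
    (hP : P ∈ minimalPrimes (Algebra.adjoin ℂ (Set.range F))) :
    P.comap (tr F hF g) ∈ minimalPrimes (Algebra.adjoin ℂ (Set.range F)) := by
  have hPp : P.IsPrime := hP.1.1
  refine ⟨⟨Ideal.comap_isPrime _ P, bot_le⟩, ?_⟩
  rintro Q ⟨hQ, -⟩ hQP
  have h1 : Q.comap (tr F hF g⁻¹) ≤ P := by
    have := Ideal.comap_mono (f := tr F hF g⁻¹) hQP
    rwa [comap_comap F hF g⁻¹ g (inv_mul_cancel g)] at this
  have h2 : P ≤ Q.comap (tr F hF g⁻¹) := hP.2 ⟨Ideal.comap_isPrime _ Q, bot_le⟩ h1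
  have := Ideal.comap_mono (f := tr F hF g) h2
  rwa [comap_comap F hF g g⁻¹ (mul_inv_cancel g)] at this

end SignAux

open SignAux in
theorem sign_split {G : Type} [Group G] {α : Type} [Finite α] (F : α → G → ℂ)
    (hF : ∀ g i, (fun x => F i (x * g)) ∈ Submodule.span ℂ (Set.range F))
    (f₁ f₂ : G → ℂ) (h₁ : f₁ ∈ Algebra.adjoin ℂ (Set.range F))
    (h₂ : f₂ ∈ Algebra.adjoin ℂ (Set.range F)) (h : ∀ x, f₁ x * f₂ x = 0) :
    ∃ H : Subgroup G, H.FiniteIndex ∧ ((∀ x ∈ H, f₁ x = 0) ∨ (∀ x ∈ H, f₂ x = 0)) := by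
  have hfin : (Set.range F).Finite := Set.finite_range F
  have hfg : (Algebra.adjoin ℂ (Set.range F)).FG := by
    have := Subalgebra.fg_adjoin_finset (R := ℂ) hfin.toFinset
    rwa [Set.Finite.coe_toFinset] at this
  have hft : Algebra.FiniteType ℂ (Algebra.adjoin ℂ (Set.range F)) :=
    (Subalgebra.fg_iff_finiteType _).1 hfg
  have : IsNoetherianRing (Algebra.adjoin ℂ (Set.range F)) :=
    Algebra.FiniteType.isNoetherianRing ℂ _
  have hmin := minimalPrimes.finite_of_isNoetherianRing (Algebra.adjoin ℂ (Set.range F))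
  -- evaluation at the identity
  let ev : Algebra.adjoin ℂ (Set.range F) →+* ℂ :=
    (Pi.evalRingHom (fun _ : G => ℂ) 1).comp (Algebra.adjoin ℂ (Set.range F)).val.toRingHom
  have hev : ∀ f, ev f = f.1 1 := fun _ => rfl
  have hker : (RingHom.ker ev).IsPrime := RingHom.ker_isPrime ev
  obtain ⟨P, hP, hPle⟩ := Ideal.exists_minimalPrimes_le (I := ⊥) (J := RingHom.ker ev) bot_le
  have hPp : P.IsPrime := hP.1.1
  let _ := SignAux.act F hF
  have horb : (MulAction.orbit G P).Finite := by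
    apply hmin.subset
    rintro _ ⟨g, rfl⟩
    exact comap_minimal F hF g⁻¹ P hP
  have hidx : (MulAction.stabilizer G P).FiniteIndex := by
    refine ⟨?_⟩
    rw [MulAction.index_stabilizer]
    exact (Set.ncard_pos horb).2 ⟨P, MulAction.mem_orbit_self P⟩ |>.ne'
  have hkey : ∀ f : Algebra.adjoin ℂ (Set.range F), f ∈ P →
      ∀ x ∈ MulAction.stabilizer G P, f.1 x = 0 := by
    intro f hf x hx
    have h1 : x⁻¹ ∈ MulAction.stabilizer G P := inv_mem hx
    rw [MulAction.mem_stabilizer_iff] at h1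
    change P.comap (tr F hF x⁻¹⁻¹) = P at h1
    rw [inv_inv] at h1
    rw [← h1, Ideal.mem_comap] at hf
    have h2 := hPle hf
    rw [RingHom.mem_ker, hev, tr_apply, one_mul] at h2
    exact h2
  have hprod : (⟨f₁, h₁⟩ * ⟨f₂, h₂⟩ : Algebra.adjoin ℂ (Set.range F)) ∈ P := by
    have : (⟨f₁, h₁⟩ * ⟨f₂, h₂⟩ : Algebra.adjoin ℂ (Set.range F)) = 0 := by
      apply Subtype.ext
      funext x
      exact h x
    rw [this]
    exact P.zero_mem
  refine ⟨MulAction.stabilizer G P, hidx, ?_⟩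
  rcases hPp.mem_or_mem hprod with h3 | h3
  · exact Or.inl (hkey _ h3)
  · exact Or.inr (hkey _ h3)

end Pool.Agent.MPd01a95
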