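import Mathlib
import Pool.Agent.Lib.MP_d01a95_gt.Defs
import Pool.Agent.Lib.MP_d01a95_gt.Sign
import Pool.Agent.Lib.MP_d01a95_gt.Irr

set_option autoImplicit false

open Matrix MeasureTheory

namespace Pool.Agent.MPd01a95

namespace ContraAux

section coeff

variable {E K G : Type} [Fintype E] [DecidableEq E] [Fintype K] [DecidableEq K] [Group G]

/-- the family of coefficient functions -/
noncomputable def fam (ρ : G →* Matrix E E ℝ) (σ : G →* Matrix K K ℂ) :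
    (E × E) ⊕ ((K × K) ⊕ (K × K)) → G → ℂ
  | Sum.inl p => fun g => ((ρ g p.1 p.2 : ℝ) : ℂ)
  | Sum.inr (Sum.inl p) => fun g => σ g p.1 p.2
  | Sum.inr (Sum.inr p) => fun g => star (σ g p.1 p.2)

theorem fam_translate (ρ : G →* Matrix E E ℝ) (σ : G →* Matrix K K ℂ) (g : G)
    (i : (E × E) ⊕ ((K × K) ⊕ (K × K))) :
    (fun x => fam ρ σ i (x * g)) ∈ Submodule.span ℂ (Set.range (fam ρ σ)) := by
  rcases i with ⟨i, j⟩ | ⟨i, j⟩ | ⟨i, j⟩
  · have h : (fun x => fam ρ σ (Sum.inl (i, j)) (x * g)) =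
        ∑ k, ((ρ g k j : ℝ) : ℂ) • fam ρ σ (Sum.inl (i, k)) := by
      funext x
      simp only [fam, map_mul, Matrix.mul_apply, Finset.sum_apply, Pi.smul_apply, smul_eq_mul,
        Complex.ofReal_sum, Complex.ofReal_mul]
      exact Finset.sum_congr rfl fun k _ => mul_comm _ _
    rw [h]
    exact Submodule.sum_mem _ fun k _ =>
      Submodule.smul_mem _ _ (Submodule.subset_span (Set.mem_range_self _))
  · have h : (fun x => fam ρ σ (Sum.inr (Sum.inl (i, j))) (x * g)) =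
        ∑ k, σ g k j • fam ρ σ (Sum.inr (Sum.inl (i, k))) := by
      funext x
      simp only [fam, map_mul, Matrix.mul_apply, Finset.sum_apply, Pi.smul_apply, smul_eq_mul]
      exact Finset.sum_congr rfl fun k _ => mul_comm _ _
    rw [h]
    exact Submodule.sum_mem _ fun k _ =>
      Submodule.smul_mem _ _ (Submodule.subset_span (Set.mem_range_self _))
  · have h : (fun x => fam ρ σ (Sum.inr (Sum.inr (i, j))) (x * g)) =
        ∑ k, star (σ g k j) • fam ρ σ (Sum.inr (Sum.inr (i, k))) := by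
      funext x
      simp only [fam, map_mul, Matrix.mul_apply, Finset.sum_apply, Pi.smul_apply, smul_eq_mul,
        star_sum, star_mul]
    rw [h]
    exact Submodule.sum_mem _ fun k _ =>
      Submodule.smul_mem _ _ (Submodule.subset_span (Set.mem_range_self _))

omit [Group G] in
theorem const_mul_mem {A : Subalgebra ℂ (G → ℂ)} (c : ℂ) {f : G → ℂ} (hf : f ∈ A) :
    (fun g => c * f g) ∈ A := by
  have h : (fun g => c * f g) = c • f := by
    funext g; simp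
  rw [h]
  exact A.smul_mem hf c

omit [Group G] in
theorem sum_fun_mem {A : Subalgebra ℂ (G → ℂ)} {β : Type} [Fintype β] {f : β → G → ℂ}
    (hf : ∀ i, f i ∈ A) : (fun g => ∑ i, f i g) ∈ A := by
  have h : (fun g => ∑ i, f i g) = ∑ i, f i := by
    funext g; simp
  rw [h]
  exact Subalgebra.sum_mem _ fun i _ => hf i

omit [Group G] in
theorem mul_fun_mem {A : Subalgebra ℂ (G → ℂ)} {f f' : G → ℂ}
    (hf : f ∈ A) (hf' : f' ∈ A) : (fun g => f g * f' g) ∈ A := A.mul_mem hf hf'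

/-- the first function is in the algebra -/
theorem alpha_mem (ρ : G →* Matrix E E ℝ) (σ : G →* Matrix K K ℂ) (a : Matrix E E ℝ)
    (b : Matrix E E ℝ →ₗ[ℝ] ℝ) :
    (fun g => ((b (ρ g * a * (ρ g)ᵀ) : ℝ) : ℂ)) ∈
      Algebra.adjoin ℂ (Set.range (fam ρ σ)) := by
  have h : (fun g => ((b (ρ g * a * (ρ g)ᵀ) : ℝ) : ℂ)) =
      fun g => ∑ i, ∑ j, ((b (Matrix.single i j 1) : ℝ) : ℂ) *
        ∑ l, (∑ k, ((a k l : ℝ) : ℂ) * ((ρ g i k : ℝ) : ℂ)) * ((ρ g j l : ℝ) : ℂ) := by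
    funext g
    conv_lhs => rw [Matrix.matrix_eq_sum_single (ρ g * a * (ρ g)ᵀ)]
    simp only [map_sum, Complex.ofReal_sum]
    refine Finset.sum_congr rfl fun i _ => Finset.sum_congr rfl fun j _ => ?_
    have h1 : Matrix.single i j ((ρ g * a * (ρ g)ᵀ) i j) =
        ((ρ g * a * (ρ g)ᵀ) i j) • Matrix.single i j (1 : ℝ) := by
      rw [Matrix.smul_single, smul_eq_mul, mul_one]
    rw [h1, map_smul, smul_eq_mul, Complex.ofReal_mul, mul_comm]
    congr 1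
    simp only [Matrix.mul_apply, Matrix.transpose_apply, Complex.ofReal_sum, Complex.ofReal_mul]
    refine Finset.sum_congr rfl fun l _ => ?_
    congr 1
    exact Finset.sum_congr rfl fun k _ => mul_comm _ _
  rw [h]
  have hm : ∀ i j : E, (fun g => ((ρ g i j : ℝ) : ℂ)) ∈
      Algebra.adjoin ℂ (Set.range (fam ρ σ)) := fun i j =>
    Algebra.subset_adjoin ⟨Sum.inl (i, j), rfl⟩
  refine sum_fun_mem fun i => sum_fun_mem fun j => const_mul_mem _ (sum_fun_mem fun l => ?_)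
  exact mul_fun_mem (sum_fun_mem fun k => const_mul_mem _ (hm i k)) (hm j l)

/-- the second function is in the algebra -/
theorem beta_mem (ρ : G →* Matrix E E ℝ) (σ : G →* Matrix K K ℂ) (x y : K → ℂ) :
    (fun g => ((‖y ⬝ᵥ (σ g *ᵥ x)‖ ^ 2 : ℝ) : ℂ)) ∈
      Algebra.adjoin ℂ (Set.range (fam ρ σ)) := by
  have h : (fun g => ((‖y ⬝ᵥ (σ g *ᵥ x)‖ ^ 2 : ℝ) : ℂ)) =
      fun g => (∑ i, y i * ∑ j, x j * σ g i j) *
        (∑ i, star (y i) * ∑ j, star (x j) * star (σ g i j)) := by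
    funext g
    have h1 : y ⬝ᵥ (σ g *ᵥ x) = ∑ i, y i * ∑ j, x j * σ g i j := by
      simp only [dotProduct, Matrix.mulVec]
      refine Finset.sum_congr rfl fun i _ => ?_
      congr 1
      exact Finset.sum_congr rfl fun j _ => mul_comm _ _
    have h2 : (∑ i, star (y i) * ∑ j, star (x j) * star (σ g i j)) =
        star (∑ i, y i * ∑ j, x j * σ g i j) := by
      simp only [star_sum, star_mul']
    rw [h1, h2]
    rw [Complex.ofReal_pow, ← Complex.mul_conj']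
    rfl
  rw [h]
  have hm : ∀ i j : K, (fun g => σ g i j) ∈
      Algebra.adjoin ℂ (Set.range (fam ρ σ)) := fun i j =>
    Algebra.subset_adjoin ⟨Sum.inr (Sum.inl (i, j)), rfl⟩
  have hm' : ∀ i j : K, (fun g => star (σ g i j)) ∈
      Algebra.adjoin ℂ (Set.range (fam ρ σ)) := fun i j =>
    Algebra.subset_adjoin ⟨Sum.inr (Sum.inr (i, j)), rfl⟩
  refine mul_fun_mem ?_ ?_
  · exact sum_fun_mem fun i => const_mul_mem _ (sum_fun_mem fun j => const_mul_mem _ (hm i j))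
  · exact sum_fun_mem fun i => const_mul_mem _ (sum_fun_mem fun j => const_mul_mem _ (hm' i j))

/-- the two functions agree up to a sign on a subgroup of finite index -/
theorem exists_sign (ρ : G →* Matrix E E ℝ) (σ : G →* Matrix K K ℂ) (a : Matrix E E ℝ)
    (b : Matrix E E ℝ →ₗ[ℝ] ℝ) (x y : K → ℂ)
    (hab : ∀ g, |b (ρ g * a * (ρ g)ᵀ)| = ‖y ⬝ᵥ (σ g *ᵥ x)‖ ^ 2) :
    ∃ H : Subgroup G, H.FiniteIndex ∧ ∃ e : ℝ, ∀ g ∈ H,
      b (ρ g * a * (ρ g)ᵀ) = e * ‖y ⬝ᵥ (σ g *ᵥ x)‖ ^ 2 := by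
  have h := sign_split (fam ρ σ) (fam_translate ρ σ)
    (fun g => ((b (ρ g * a * (ρ g)ᵀ) : ℝ) : ℂ) - ((‖y ⬝ᵥ (σ g *ᵥ x)‖ ^ 2 : ℝ) : ℂ))
    (fun g => ((b (ρ g * a * (ρ g)ᵀ) : ℝ) : ℂ) + ((‖y ⬝ᵥ (σ g *ᵥ x)‖ ^ 2 : ℝ) : ℂ))
    (Subalgebra.sub_mem _ (alpha_mem ρ σ a b) (beta_mem ρ σ x y))
    (Subalgebra.add_mem _ (alpha_mem ρ σ a b) (beta_mem ρ σ x y)) (fun g => by
      have h1 : (b (ρ g * a * (ρ g)ᵀ)) ^ 2 = (‖y ⬝ᵥ (σ g *ᵥ x)‖ ^ 2) ^ 2 := by
        rw [← hab g, sq_abs]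
      have h2 : (((b (ρ g * a * (ρ g)ᵀ) : ℝ) : ℂ)) ^ 2 = (((‖y ⬝ᵥ (σ g *ᵥ x)‖ ^ 2 : ℝ) : ℂ)) ^ 2 := by
        exact_mod_cast h1
      linear_combination h2)
  obtain ⟨H, hH, h | h⟩ := h
  · refine ⟨H, hH, 1, fun g hg => ?_⟩
    have := h g hg
    rw [sub_eq_zero] at this
    rw [one_mul]
    exact_mod_cast this
  · refine ⟨H, hH, -1, fun g hg => ?_⟩
    have := h g hg
    rw [add_eq_zero_iff_eq_neg] at this
    rw [neg_one_mul]
    exact_mod_cast this

end coeff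

section dim

variable {ι κ : Type} [Fintype ι] [DecidableEq ι] [Fintype κ] [DecidableEq κ]

omit [DecidableEq ι] in
/-- many antisymmetric matrices -/
theorem exists_many (hκ : 2 ≤ Fintype.card κ) (hι : Fintype.card ι = 2 * Fintype.card κ) :
    ∃ T : (Matrix (κ ⊕ Unit) (κ ⊕ Unit) ℝ × ℝ) →ₗ[ℝ] Matrix (ι ⊕ Fin 2) (ι ⊕ Fin 2) ℝ,
      Function.Injective T ∧ ∀ p, (T p)ᵀ = - T p := by
  have hcard : Fintype.card (ι ⊕ Fin 2) = Fintype.card ((κ ⊕ Unit) ⊕ (κ ⊕ Unit)) := by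
    simp only [Fintype.card_sum, Fintype.card_fin, Fintype.card_unit]
    omega
  let ε : ι ⊕ Fin 2 ≃ (κ ⊕ Unit) ⊕ (κ ⊕ Unit) := Fintype.equivOfCardEq hcard
  obtain ⟨k₀⟩ : Nonempty κ := Fintype.card_pos_iff.mp (by omega)
  let S₀ : Matrix (κ ⊕ Unit) (κ ⊕ Unit) ℝ :=
    Matrix.single (Sum.inl k₀) (Sum.inr ()) 1 - Matrix.single (Sum.inr ()) (Sum.inl k₀) 1
  have hS₀ : S₀ᵀ = -S₀ := by
    simp only [S₀, Matrix.transpose_sub, Matrix.transpose_single]
    abel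
  have hS₁ : S₀ (Sum.inl k₀) (Sum.inr ()) = 1 := by
    simp [S₀]
  let T : (Matrix (κ ⊕ Unit) (κ ⊕ Unit) ℝ × ℝ) →ₗ[ℝ] Matrix (ι ⊕ Fin 2) (ι ⊕ Fin 2) ℝ :=
    { toFun := fun p => (Matrix.fromBlocks (p.2 • S₀) p.1 (-p.1ᵀ) 0).submatrix ε ε
      map_add' := by
        intro p q
        ext i j
        rcases h1 : ε i with i' | i' <;> rcases h2 : ε j with j' | j' <;>
          simp [h1, h2, add_mul, add_comm]
      map_smul' := by
        intro c p
        ext i j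
        rcases h1 : ε i with i' | i' <;> rcases h2 : ε j with j' | j' <;>
          simp [h1, h2, mul_assoc] }
  have hT : ∀ p, T p = (Matrix.fromBlocks (p.2 • S₀) p.1 (-p.1ᵀ) 0).submatrix ε ε := fun _ => rfl
  refine ⟨T, ?_, ?_⟩
  · rw [injective_iff_map_eq_zero]
    intro p hp
    rw [hT] at hp
    have h1 : ∀ i j, Matrix.fromBlocks (p.2 • S₀) p.1 (-p.1ᵀ) 0 i j = 0 := by
      intro i j
      have := congrFun (congrFun hp (ε.symm i)) (ε.symm j)
      simpa using this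
    refine Prod.ext ?_ ?_
    · ext i j
      exact h1 (Sum.inl i) (Sum.inr j)
    · have := h1 (Sum.inl (Sum.inl k₀)) (Sum.inl (Sum.inr ()))
      rw [Matrix.fromBlocks_apply₁₁, Matrix.smul_apply, hS₁, smul_eq_mul, mul_one] at this
      exact this
  · intro p
    rw [hT, Matrix.transpose_submatrix, Matrix.fromBlocks_transpose, Matrix.transpose_smul, hS₀,
      Matrix.transpose_neg, Matrix.transpose_transpose, Matrix.transpose_zero]
    ext i j
    rcases h1 : ε i with i' | i' <;> rcases h2 : ε j with j' | j' <;> simp [h1, h2]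

end dim

section orbit

variable {ι G : Type} [Fintype ι] [DecidableEq ι] [Group G]

theorem twist_mul (ρ : G →* Matrix (ι ⊕ Fin 2) (ι ⊕ Fin 2) ℝ) (g h : G)
    (S : Matrix (ι ⊕ Fin 2) (ι ⊕ Fin 2) ℝ) :
    ρ (g * h) * S * (ρ (g * h))ᵀ = ρ g * (ρ h * S * (ρ h)ᵀ) * (ρ g)ᵀ := by
  rw [map_mul, Matrix.transpose_mul]
  simp only [Matrix.mul_assoc]

theorem twist_anti (ρ : G →* Matrix (ι ⊕ Fin 2) (ι ⊕ Fin 2) ℝ) (g : G)
    {S : Matrix (ι ⊕ Fin 2) (ι ⊕ Fin 2) ℝ} (hS : Sᵀ = -S) :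
    (ρ g * S * (ρ g)ᵀ)ᵀ = -(ρ g * S * (ρ g)ᵀ) := by
  rw [Matrix.transpose_mul, Matrix.transpose_mul, Matrix.transpose_transpose, hS,
    ← Matrix.mul_assoc, Matrix.mul_neg, Matrix.neg_mul]

/-- the span of an orbit -/
theorem orbit_span (hι : 3 ≤ Fintype.card ι) (ρ : G →* Matrix (ι ⊕ Fin 2) (ι ⊕ Fin 2) ℝ)
    (hz : ZDense ρ) (H : Subgroup G) (hH : H.FiniteIndex)
    {S : Matrix (ι ⊕ Fin 2) (ι ⊕ Fin 2) ℝ} (hS : Sᵀ = -S) (hS0 : S ≠ 0)
    (S' : Matrix (ι ⊕ Fin 2) (ι ⊕ Fin 2) ℝ) (hS' : S'ᵀ = -S') :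
    S' ∈ Submodule.span ℝ (Set.range fun h : H => ρ h * S * (ρ h)ᵀ) := by
  have hSmem : S ∈ Submodule.span ℝ (Set.range fun h : H => ρ h * S * (ρ h)ᵀ) := by
    apply Submodule.subset_span
    refine ⟨1, ?_⟩
    simp
  refine irr hι ρ hz H hH _ ?_ ⟨S, hSmem, hS0⟩ ?_ S' hS'
  · intro S₁ hS₁
    induction hS₁ using Submodule.span_induction with
    | mem S₁ h =>
      obtain ⟨h, rfl⟩ := h
      exact twist_anti ρ _ hS
    | zero => simp
    | add S₁ S₂ _ _ h1 h2 => rw [Matrix.transpose_add, h1, h2, neg_add]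
    | smul c S₁ _ h1 => rw [Matrix.transpose_smul, h1, smul_neg]
  · intro g hg S₁ hS₁
    induction hS₁ using Submodule.span_induction with
    | mem S₁ h =>
      obtain ⟨h, rfl⟩ := h
      have h1 : ρ g * (ρ h * S * (ρ h)ᵀ) * (ρ g)ᵀ =
          ρ ((⟨g, hg⟩ * h : H) : G) * S * (ρ ((⟨g, hg⟩ * h : H) : G))ᵀ := by
        rw [Subgroup.coe_mul, twist_mul]
      exact h1 ▸ Submodule.subset_span (Set.mem_range_self _)
    | zero =>
      rw [Matrix.mul_zero, Matrix.zero_mul]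
      exact Submodule.zero_mem _
    | add S₁ S₂ _ _ h1 h2 =>
      rw [Matrix.mul_add, Matrix.add_mul]
      exact Submodule.add_mem _ h1 h2
    | smul c S₁ _ h1 =>
      rw [Matrix.mul_smul, Matrix.smul_mul]
      exact Submodule.smul_mem _ _ h1

end orbit

end ContraAux

open ContraAux

section fin

variable {ι κ G : Type} [Fintype ι] [DecidableEq ι] [Fintype κ] [DecidableEq κ] [Group G]

/-- module Contra -/
theorem contra (hκ : 2 ≤ Fintype.card κ) (hι : Fintype.card ι = 2 * Fintype.card κ)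
    (ρ : G →* Matrix (ι ⊕ Fin 2) (ι ⊕ Fin 2) ℝ) (hz : ZDense ρ)
    (σ : G →* Matrix (κ ⊕ Unit) (κ ⊕ Unit) ℂ)
    (a : Matrix (ι ⊕ Fin 2) (ι ⊕ Fin 2) ℝ)
    (b : Matrix (ι ⊕ Fin 2) (ι ⊕ Fin 2) ℝ →ₗ[ℝ] ℝ) (x y : κ ⊕ Unit → ℂ)
    (ha : aᵀ = -a) (ha0 : a ≠ 0) (hb : ∃ S, Sᵀ = -S ∧ b S ≠ 0)
    (hab : ∀ g, |b (ρ g * a * (ρ g)ᵀ)| = ‖y ⬝ᵥ (σ g *ᵥ x)‖ ^ 2) : False := by
  classical
  obtain ⟨H, hH, e, he⟩ := exists_sign ρ σ a b x y hab
  have hcard : 3 ≤ Fintype.card ι := by omega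
  -- the two linear maps
  let φ : (H →₀ ℝ) →ₗ[ℝ] Matrix (ι ⊕ Fin 2) (ι ⊕ Fin 2) ℝ :=
    Finsupp.linearCombination ℝ (fun h : H => ρ h * a * (ρ h)ᵀ)
  let M : G → Matrix (κ ⊕ Unit) (κ ⊕ Unit) ℂ := fun g =>
    Matrix.of fun i j => (σ g *ᵥ x) i * star ((σ g *ᵥ x) j)
  let ψ : (H →₀ ℝ) →ₗ[ℝ] Matrix (κ ⊕ Unit) (κ ⊕ Unit) ℝ :=
    Finsupp.linearCombination ℝ (fun h : H => Matrix.of fun i j => (M h i j).re + (M h i j).im)
  have horb : ∀ S : Matrix (ι ⊕ Fin 2) (ι ⊕ Fin 2) ℝ, Sᵀ = -S → S ≠ 0 →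
      ∀ S' : Matrix (ι ⊕ Fin 2) (ι ⊕ Fin 2) ℝ, S'ᵀ = -S' →
        S' ∈ Submodule.span ℝ (Set.range fun h : H => ρ h * S * (ρ h)ᵀ) :=
    fun S hS hS0 => orbit_span hcard ρ hz H hH hS hS0
  have hrange : ∀ S' : Matrix (ι ⊕ Fin 2) (ι ⊕ Fin 2) ℝ, S'ᵀ = -S' → S' ∈ LinearMap.range φ := by
    intro S' hS'
    rw [Finsupp.range_linearCombination]
    exact horb a ha ha0 S' hS'
  -- a relation
  obtain ⟨T, hTinj, hTanti⟩ := exists_many (ι := ι) (κ := κ) hκ hι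
  obtain ⟨s, hs⟩ := LinearMap.exists_rightInverse_of_surjective φ.rangeRestrict
    (LinearMap.range_rangeRestrict φ)
  let T' : (Matrix (κ ⊕ Unit) (κ ⊕ Unit) ℝ × ℝ) →ₗ[ℝ] LinearMap.range φ :=
    T.codRestrict _ fun p => hrange _ (hTanti p)
  have hφs : ∀ p, φ (s (T' p)) = T p := by
    intro p
    exact congrArg Subtype.val (LinearMap.congr_fun hs (T' p))
  have hker : LinearMap.ker (ψ ∘ₗ s ∘ₗ T') ≠ ⊥ := by
    apply LinearMap.ker_ne_bot_of_finrank_lt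
    rw [Module.finrank_prod, Module.finrank_self]
    omega
  obtain ⟨p, hp, hp0⟩ := (Submodule.ne_bot_iff _).mp hker
  set c : H →₀ ℝ := s (T' p) with hc
  have hψc : ψ c = 0 := hp
  set w : Matrix (ι ⊕ Fin 2) (ι ⊕ Fin 2) ℝ := φ c with hw
  have hwT : w = T p := hφs p
  have hw0 : w ≠ 0 := by
    rw [hwT]
    intro h
    exact hp0 (hTinj (h.trans (map_zero T).symm))
  have hwa : wᵀ = -w := by rw [hwT]; exact hTanti p
  -- the relation for the Hermitian matrices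
  have hM : ∀ i j, ∑ h ∈ c.support, ((c h : ℝ) : ℂ) * M h i j = 0 := by
    have h1 : ∀ i j, ∑ h ∈ c.support, c h * ((M h i j).re + (M h i j).im) = 0 := by
      intro i j
      have h2 := congrFun (congrFun hψc i) j
      have h3 : ψ c = ∑ h ∈ c.support, c h • (Matrix.of fun i j => (M h i j).re + (M h i j).im) :=
        rfl
      rw [h3, Matrix.sum_apply] at h2
      simpa using h2
    have hre : ∀ g i j, (M g j i).re = (M g i j).re := by
      intro g i j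
      simp only [M, Matrix.of_apply, Complex.mul_re, Complex.star_def, Complex.conj_re,
        Complex.conj_im]
      ring
    have him : ∀ g i j, (M g j i).im = -(M g i j).im := by
      intro g i j
      simp only [M, Matrix.of_apply, Complex.mul_im, Complex.star_def, Complex.conj_re,
        Complex.conj_im]
      ring
    intro i j
    have h2 := h1 i j
    have h3 := h1 j i
    simp only [hre _ i j, him _ i j, mul_add, mul_neg, Finset.sum_add_distrib,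
      Finset.sum_neg_distrib] at h2 h3
    apply Complex.ext
    · rw [Complex.re_sum, Complex.zero_re]
      simp only [Complex.re_ofReal_mul]
      linarith
    · rw [Complex.im_sum, Complex.zero_im]
      simp only [Complex.im_ofReal_mul]
      linarith
  -- the form vanishes on the orbit of w
  have hbw : ∀ h : H, b (ρ h * w * (ρ h)ᵀ) = 0 := by
    intro h₁
    have h2 : ρ h₁ * w * (ρ h₁)ᵀ = ∑ h ∈ c.support, c h • (ρ (h₁ * h : H) * a * (ρ (h₁ * h : H))ᵀ) := by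
      have h3 : w = ∑ h ∈ c.support, c h • (ρ h * a * (ρ h)ᵀ) := rfl
      rw [h3, Finset.mul_sum, Finset.sum_mul]
      refine Finset.sum_congr rfl fun h _ => ?_
      rw [Matrix.mul_smul, Matrix.smul_mul, Subgroup.coe_mul, twist_mul]
    rw [h2, map_sum]
    simp only [map_smul, smul_eq_mul]
    have h4 : ∀ h : H, b (ρ (h₁ * h : H) * a * (ρ (h₁ * h : H))ᵀ) =
        e * ‖(y ᵥ* σ h₁) ⬝ᵥ (σ h *ᵥ x)‖ ^ 2 := by
      intro h
      rw [he _ (h₁ * h).2, Subgroup.coe_mul, map_mul, ← Matrix.mulVec_mulVec,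
        Matrix.dotProduct_mulVec]
    simp only [h4]
    set z := y ᵥ* σ h₁ with hzdef
    have h5 : ∀ h : H, ((‖z ⬝ᵥ (σ h *ᵥ x)‖ ^ 2 : ℝ) : ℂ) = ∑ i, ∑ j, z i * star (z j) * M h i j := by
      intro h
      rw [Complex.ofReal_pow, ← Complex.mul_conj']
      simp only [dotProduct, map_sum, Finset.sum_mul, Finset.mul_sum, map_mul]
      rw [Finset.sum_comm]
      refine Finset.sum_congr rfl fun i _ => Finset.sum_congr rfl fun j _ => ?_
      simp only [M, Matrix.of_apply, Complex.star_def]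
      ring
    have h6 : ((∑ h ∈ c.support, c h * (e * ‖z ⬝ᵥ (σ h *ᵥ x)‖ ^ 2) : ℝ) : ℂ) = 0 := by
      rw [Complex.ofReal_sum]
      calc ∑ h ∈ c.support, ((c h * (e * ‖z ⬝ᵥ (σ h *ᵥ x)‖ ^ 2) : ℝ) : ℂ)
          = ∑ h ∈ c.support, ∑ i, ∑ j, (e : ℂ) * (z i * star (z j)) * ((c h : ℂ) * M h i j) := by
            refine Finset.sum_congr rfl fun h _ => ?_
            rw [Complex.ofReal_mul, Complex.ofReal_mul, h5, Finset.mul_sum, Finset.mul_sum]
            refine Finset.sum_congr rfl fun i _ => ?_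
            rw [Finset.mul_sum, Finset.mul_sum]
            refine Finset.sum_congr rfl fun j _ => ?_
            ring
        _ = ∑ i, ∑ j, (e : ℂ) * (z i * star (z j)) * ∑ h ∈ c.support, ((c h : ℂ) * M h i j) := by
            rw [Finset.sum_comm]
            refine Finset.sum_congr rfl fun i _ => ?_
            rw [Finset.sum_comm]
            refine Finset.sum_congr rfl fun j _ => ?_
            rw [Finset.mul_sum]
        _ = 0 := by simp [hM]
    exact_mod_cast h6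
  obtain ⟨S, hS, hbS⟩ := hb
  apply hbS
  have h7 := horb w hwa hw0 S hS
  clear hS hbS
  induction h7 using Submodule.span_induction with
  | mem S h =>
    obtain ⟨h, rfl⟩ := h
    exact hbw h
  | zero => exact map_zero b
  | add S₁ S₂ _ _ h1 h2 => rw [map_add, h1, h2, add_zero]
  | smul r S₁ _ h1 => rw [map_smul, h1, smul_zero]

end fin

end Pool.Agent.MPd01a95
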