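import Mathlib
import Pool.Agent.Lib.MP_d01a95_gt.Defs

set_option autoImplicit false

open Matrix MeasureTheory

namespace Pool.Agent.MPd01a95

namespace HypAux

variable {κ : Type} [Fintype κ] [DecidableEq κ]

omit [Fintype κ] in
theorem JC_eq : JC κ = Matrix.diagonal (Sum.elim (fun _ => (1 : ℂ)) (fun _ => -1)) := by
  ext i j
  rcases i with i | i <;> rcases j with j | j
  · by_cases h : i = j
    · subst h; simp [JC]
    · simp [JC, Matrix.diagonal, h]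
  · simp [JC, Matrix.diagonal]
  · simp [JC, Matrix.diagonal]
  · simp [JC, Matrix.diagonal]

theorem JC_sq : JC κ * JC κ = 1 := by
  rw [JC_eq, Matrix.diagonal_mul_diagonal]
  rw [← Matrix.diagonal_one]
  congr 1
  funext i
  rcases i with i | i <;> simp

theorem ent (g h : Matrix (κ ⊕ Unit) (κ ⊕ Unit) ℂ) (i j : κ ⊕ Unit) :
    (gᴴ * JC κ * h) i j = ∑ k : κ, star (g (Sum.inl k) i) * h (Sum.inl k) j
      - star (g (Sum.inr ()) i) * h (Sum.inr ()) j := by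
  rw [JC_eq, Matrix.mul_apply, Fintype.sum_sum_type]
  simp [Matrix.mul_diagonal, Matrix.conjTranspose_apply, sub_eq_add_neg]

theorem inv_left (g : Matrix (κ ⊕ Unit) (κ ⊕ Unit) ℂ) (hg : gᴴ * JC κ * g = JC κ) :
    (JC κ * gᴴ * JC κ) * g = 1 := by
  calc (JC κ * gᴴ * JC κ) * g = JC κ * (gᴴ * JC κ * g) := by simp only [Matrix.mul_assoc]
    _ = 1 := by rw [hg, JC_sq]

theorem inv_right (g : Matrix (κ ⊕ Unit) (κ ⊕ Unit) ℂ) (hg : gᴴ * JC κ * g = JC κ) :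
    g * (JC κ * gᴴ * JC κ) = 1 :=
  mul_eq_one_comm.1 (inv_left g hg)

theorem dual (g : Matrix (κ ⊕ Unit) (κ ⊕ Unit) ℂ) (hg : gᴴ * JC κ * g = JC κ) :
    (gᴴ)ᴴ * JC κ * gᴴ = JC κ := by
  have h := inv_right g hg
  rw [Matrix.conjTranspose_conjTranspose]
  calc g * JC κ * gᴴ = g * (JC κ * gᴴ * JC κ) * JC κ := by
        have : g * (JC κ * gᴴ * JC κ) * JC κ = g * JC κ * gᴴ * (JC κ * JC κ) := by
          simp only [Matrix.mul_assoc]
        rw [this, JC_sq, Matrix.mul_one]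
    _ = JC κ := by rw [h, Matrix.one_mul]

theorem star_mul_self_eq (z : ℂ) : star z * z = ((‖z‖ ^ 2 : ℝ) : ℂ) := by
  rw [Complex.star_def, mul_comm, Complex.mul_conj, Complex.normSq_eq_norm_sq]

theorem col_n (g : Matrix (κ ⊕ Unit) (κ ⊕ Unit) ℂ) (hg : gᴴ * JC κ * g = JC κ) :
    ∑ k : κ, ‖g (Sum.inl k) (Sum.inr ())‖ ^ 2 = cc g ^ 2 - 1 := by
  have h := ent g g (Sum.inr ()) (Sum.inr ())
  rw [hg, JC_eq] at h
  simp only [star_mul_self_eq] at h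
  simp only [Matrix.diagonal_apply_eq, Sum.elim_inr] at h
  have h2 : ((∑ k : κ, ‖g (Sum.inl k) (Sum.inr ())‖ ^ 2 : ℝ) : ℂ) = ((cc g ^ 2 - 1 : ℝ) : ℂ) := by
    push_cast
    push_cast at h
    unfold cc
    linear_combination -h
  exact_mod_cast h2

theorem col_j (g : Matrix (κ ⊕ Unit) (κ ⊕ Unit) ℂ) (hg : gᴴ * JC κ * g = JC κ) (j : κ) :
    ∑ k : κ, ‖g (Sum.inl k) (Sum.inl j)‖ ^ 2 = 1 + ‖g (Sum.inr ()) (Sum.inl j)‖ ^ 2 := by
  have h := ent g g (Sum.inl j) (Sum.inl j)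
  rw [hg, JC_eq] at h
  simp only [star_mul_self_eq] at h
  simp only [Matrix.diagonal_apply_eq, Sum.elim_inl] at h
  have h2 : ((∑ k : κ, ‖g (Sum.inl k) (Sum.inl j)‖ ^ 2 : ℝ) : ℂ) =
      ((1 + ‖g (Sum.inr ()) (Sum.inl j)‖ ^ 2 : ℝ) : ℂ) := by
    push_cast
    push_cast at h
    linear_combination -h
  exact_mod_cast h2

theorem row_n (g : Matrix (κ ⊕ Unit) (κ ⊕ Unit) ℂ) (hg : gᴴ * JC κ * g = JC κ) :
    ∑ k : κ, ‖g (Sum.inr ()) (Sum.inl k)‖ ^ 2 = cc g ^ 2 - 1 := by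
  have h := col_n gᴴ (dual g hg)
  simpa [cc, Matrix.conjTranspose_apply] using h

theorem one_sub_le (r : ℝ) (hr0 : 0 ≤ r) (hr1 : r ≤ 1) (z : ℂ) (hz : ‖z‖ ≤ 1) :
    ‖1 - z‖ ≤ 2 * ‖1 - (r : ℂ) * z‖ := by
  have h1 : ‖1 - z‖ ≤ ‖1 - (r : ℂ) * z‖ + (1 - r) * ‖z‖ := by
    have : 1 - z = (1 - (r : ℂ) * z) + (-((1 - r : ℝ) : ℂ)) * z := by
      push_cast; ring
    rw [this]
    refine (norm_add_le _ _).trans ?_
    rw [norm_mul, norm_neg, Complex.norm_real, Real.norm_of_nonneg (by linarith)]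
  have h2 : 1 - r * ‖z‖ ≤ ‖1 - (r : ℂ) * z‖ := by
    have h3 := norm_sub_norm_le (1 : ℂ) ((r : ℂ) * z)
    rw [norm_one, norm_mul, Complex.norm_real, Real.norm_of_nonneg hr0] at h3
    exact h3
  nlinarith [norm_nonneg z]

theorem ball_tri {E : Type} [NormedAddCommGroup E] [InnerProductSpace ℂ E] (a b c : E)
    (ha : ‖a‖ ≤ 1) (hb : ‖b‖ ≤ 1) (hc : ‖c‖ ≤ 1) :
    ‖1 - inner ℂ a b‖ ≤ 4 * (‖1 - inner ℂ c a‖ + ‖1 - inner ℂ c b‖) := by
  by_cases hc0 : c = 0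
  · subst hc0
    have h1 : ‖inner ℂ a b‖ ≤ 1 := by
      refine (norm_inner_le_norm a b).trans ?_
      nlinarith [norm_nonneg a, norm_nonneg b]
    have h2 : ‖(1 : ℂ) - inner ℂ a b‖ ≤ ‖(1 : ℂ)‖ + ‖inner ℂ a b‖ := norm_sub_le _ _
    simp only [inner_zero_left, sub_zero, norm_one] at h2 ⊢
    linarith
  set r : ℝ := ‖c‖ with hr
  have hr0 : 0 < r := norm_pos_iff.2 hc0
  obtain ⟨u, hun, hcu⟩ : ∃ u : E, ‖u‖ = 1 ∧ ∀ x : E, inner ℂ c x = (r : ℂ) * inner ℂ u x := by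
    refine ⟨((r⁻¹ : ℝ) : ℂ) • c, ?_, ?_⟩
    · rw [norm_smul, Complex.norm_real, Real.norm_of_nonneg (by positivity), ← hr]
      field_simp
    · intro x
      rw [inner_smul_left, Complex.conj_ofReal]
      have : (r : ℂ) ≠ 0 := by exact_mod_cast hr0.ne'
      push_cast
      field_simp
  have huu : inner ℂ u u = (1 : ℂ) := by
    rw [inner_self_eq_norm_sq_to_K, hun]; simp
  have hns : ∀ x : E, ((‖x‖ ^ 2 : ℝ) : ℂ) = inner ℂ x x := by
    intro x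
    rw [inner_self_eq_norm_sq_to_K]; push_cast; rfl
  have hsmall : ∀ x : E, ‖x‖ ≤ 1 → ‖inner ℂ u x‖ ≤ 1 := by
    intro x hx
    refine (norm_inner_le_norm u x).trans ?_
    rw [hun, one_mul]
    exact hx
  -- orthogonal parts
  have horth : ∀ x : E, ‖x‖ ≤ 1 →
      ‖x - (inner ℂ u x : ℂ) • u‖ ^ 2 ≤ 2 * ‖1 - inner ℂ u x‖ := by
    intro x hx
    have h1 : ‖x - (inner ℂ u x : ℂ) • u‖ ^ 2 = ‖x‖ ^ 2 - ‖inner ℂ u x‖ ^ 2 := by
      have h2 : ((‖x - (inner ℂ u x : ℂ) • u‖ ^ 2 : ℝ) : ℂ) =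
          ((‖x‖ ^ 2 - ‖inner ℂ u x‖ ^ 2 : ℝ) : ℂ) := by
        rw [Complex.ofReal_sub, hns, hns]
        rw [inner_sub_left, inner_sub_right, inner_sub_right, inner_smul_left, inner_smul_left,
          inner_smul_right, inner_smul_right, huu]
        have h3 : inner ℂ x u = star (inner ℂ u x) := (inner_conj_symm x u).symm
        have h4 := star_mul_self_eq (inner ℂ u x)
        rw [h3, ← h4]
        simp only [Complex.star_def]
        ring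
      exact_mod_cast h2
    have h3 : 1 - ‖inner ℂ u x‖ ≤ ‖1 - inner ℂ u x‖ := by
      have h4 := norm_sub_norm_le (1 : ℂ) (inner ℂ u x)
      rwa [norm_one] at h4
    have h5 := hsmall x hx
    nlinarith [norm_nonneg x, norm_nonneg (inner ℂ u x)]
  have hdec : inner ℂ a b = star (inner ℂ u a) * inner ℂ u b +
      inner ℂ (a - (inner ℂ u a : ℂ) • u) (b - (inner ℂ u b : ℂ) • u) := by
    rw [inner_sub_left, inner_sub_right, inner_sub_right, inner_smul_left, inner_smul_left,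
      inner_smul_right, inner_smul_right, huu]
    have h3 : inner ℂ a u = star (inner ℂ u a) := (inner_conj_symm a u).symm
    rw [h3]
    simp only [Complex.star_def]
    ring
  have h1 : ‖1 - inner ℂ a b‖ ≤ ‖1 - star (inner ℂ u a) * inner ℂ u b‖ +
      ‖inner ℂ (a - (inner ℂ u a : ℂ) • u) (b - (inner ℂ u b : ℂ) • u)‖ := by
    rw [hdec, ← sub_sub]
    exact norm_sub_le _ _
  have h2 : ‖1 - star (inner ℂ u a) * inner ℂ u b‖ ≤
      ‖1 - inner ℂ u a‖ + ‖1 - inner ℂ u b‖ := by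
    have h3 : 1 - star (inner ℂ u a) * inner ℂ u b =
        star (1 - inner ℂ u a) + star (inner ℂ u a) * (1 - inner ℂ u b) := by
      rw [star_sub, star_one]; ring
    rw [h3]
    refine (norm_add_le _ _).trans ?_
    rw [norm_star, norm_mul, norm_star]
    have h4 := hsmall a ha
    nlinarith [norm_nonneg (1 - inner ℂ u b)]
  have h3 : ‖inner ℂ (a - (inner ℂ u a : ℂ) • u) (b - (inner ℂ u b : ℂ) • u)‖ ≤
      ‖1 - inner ℂ u a‖ + ‖1 - inner ℂ u b‖ := by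
    refine (norm_inner_le_norm _ _).trans ?_
    have h4 := horth a ha
    have h5 := horth b hb
    nlinarith [sq_nonneg (‖a - (inner ℂ u a : ℂ) • u‖ - ‖b - (inner ℂ u b : ℂ) • u‖)]
  have h6 := one_sub_le r hr0.le hc _ (hsmall a ha)
  have h7 := one_sub_le r hr0.le hc _ (hsmall b hb)
  rw [hcu a, hcu b]
  linarith

end HypAux

section hyp

variable {κ : Type} [Fintype κ] [DecidableEq κ]

/-- module Hyp -/
theorem cc_ge_one (g : Matrix (κ ⊕ Unit) (κ ⊕ Unit) ℂ) (hg : gᴴ * JC κ * g = JC κ) :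
    1 ≤ cc g := by
  have h := HypAux.col_n g hg
  have h1 : 0 ≤ ∑ k : κ, ‖g (Sum.inl k) (Sum.inr ())‖ ^ 2 :=
    Finset.sum_nonneg fun _ _ => sq_nonneg _
  have h2 : 0 ≤ cc g := norm_nonneg _
  nlinarith

/-- module Hyp -/
theorem cc_entry (g : Matrix (κ ⊕ Unit) (κ ⊕ Unit) ℂ) (hg : gᴴ * JC κ * g = JC κ)
    (i j : κ ⊕ Unit) : ‖g i j‖ ≤ 2 * cc g := by
  have h1 := cc_ge_one g hg
  suffices h : ‖g i j‖ ^ 2 ≤ cc g ^ 2 by
    have h2 : ‖g i j‖ ≤ cc g := le_of_sq_le_sq h (by linarith)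
    linarith
  have hrow : ∀ k : κ, ‖g (Sum.inr ()) (Sum.inl k)‖ ^ 2 ≤ cc g ^ 2 - 1 := by
    intro k
    rw [← HypAux.row_n g hg]
    exact Finset.single_le_sum (f := fun k : κ => ‖g (Sum.inr ()) (Sum.inl k)‖ ^ 2)
      (fun _ _ => sq_nonneg _) (Finset.mem_univ k)
  rcases i with i | i <;> rcases j with j | j
  · have h2 : ‖g (Sum.inl i) (Sum.inl j)‖ ^ 2 ≤ ∑ k : κ, ‖g (Sum.inl k) (Sum.inl j)‖ ^ 2 :=
      Finset.single_le_sum (f := fun k : κ => ‖g (Sum.inl k) (Sum.inl j)‖ ^ 2)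
        (fun _ _ => sq_nonneg _) (Finset.mem_univ i)
    rw [HypAux.col_j g hg j] at h2
    have h3 := hrow j
    linarith
  · have h2 : ‖g (Sum.inl i) (Sum.inr ())‖ ^ 2 ≤ ∑ k : κ, ‖g (Sum.inl k) (Sum.inr ())‖ ^ 2 :=
      Finset.single_le_sum (f := fun k : κ => ‖g (Sum.inl k) (Sum.inr ())‖ ^ 2)
        (fun _ _ => sq_nonneg _) (Finset.mem_univ i)
    rw [HypAux.col_n g hg] at h2
    have h3 : ‖g (Sum.inl i) (Sum.inr j)‖ = ‖g (Sum.inl i) (Sum.inr ())‖ := rfl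
    rw [h3]
    linarith
  · have h3 := hrow j
    linarith
  · exact le_of_eq rfl

/-- module Hyp -/
theorem cc_mul (g h : Matrix (κ ⊕ Unit) (κ ⊕ Unit) ℂ) (hg : gᴴ * JC κ * g = JC κ)
    (hh : hᴴ * JC κ * h = JC κ) : cc (g * h) ≤ 2 * cc g * cc h := by
  have h1 : (g * h) (Sum.inr ()) (Sum.inr ()) =
      ∑ k : κ, g (Sum.inr ()) (Sum.inl k) * h (Sum.inl k) (Sum.inr ()) +
        g (Sum.inr ()) (Sum.inr ()) * h (Sum.inr ()) (Sum.inr ()) := by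
    rw [Matrix.mul_apply, Fintype.sum_sum_type]
    simp
  have h2 : ‖∑ k : κ, g (Sum.inr ()) (Sum.inl k) * h (Sum.inl k) (Sum.inr ())‖ ≤
      cc g * cc h := by
    have h3 : ‖∑ k : κ, g (Sum.inr ()) (Sum.inl k) * h (Sum.inl k) (Sum.inr ())‖ ≤
        ∑ k : κ, ‖g (Sum.inr ()) (Sum.inl k)‖ * ‖h (Sum.inl k) (Sum.inr ())‖ := by
      refine (norm_sum_le _ _).trans (le_of_eq ?_)
      simp only [norm_mul]
    have h4 : (∑ k : κ, ‖g (Sum.inr ()) (Sum.inl k)‖ * ‖h (Sum.inl k) (Sum.inr ())‖) ^ 2 ≤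
        (∑ k : κ, ‖g (Sum.inr ()) (Sum.inl k)‖ ^ 2) *
          ∑ k : κ, ‖h (Sum.inl k) (Sum.inr ())‖ ^ 2 :=
      Finset.sum_mul_sq_le_sq_mul_sq _ _ _
    rw [HypAux.row_n g hg, HypAux.col_n h hh] at h4
    have h5 := cc_ge_one g hg
    have h6 := cc_ge_one h hh
    refine h3.trans ?_
    refine le_of_sq_le_sq ?_ (by positivity)
    refine h4.trans ?_
    rw [mul_pow]
    have h7 : 0 ≤ cc h ^ 2 - 1 := by nlinarith
    have h8 : 0 ≤ cc g ^ 2 := sq_nonneg _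
    nlinarith
  unfold cc at h2 ⊢
  rw [h1]
  refine (norm_add_le _ _).trans ?_
  rw [norm_mul]
  linarith

/-- module Hyp -/
theorem cc_inv (g h : Matrix (κ ⊕ Unit) (κ ⊕ Unit) ℂ) (hg : gᴴ * JC κ * g = JC κ)
    (hh : h * g = 1) : cc h = cc g := by
  have h1 : h = JC κ * gᴴ * JC κ := by
    calc h = h * (g * (JC κ * gᴴ * JC κ)) := by rw [HypAux.inv_right g hg, Matrix.mul_one]
      _ = (h * g) * (JC κ * gᴴ * JC κ) := (Matrix.mul_assoc _ _ _).symm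
      _ = _ := by rw [hh, Matrix.one_mul]
  unfold cc
  rw [h1, HypAux.JC_eq]
  rw [Matrix.mul_diagonal, Matrix.diagonal_mul]
  simp [Matrix.conjTranspose_apply]

namespace HypAux

/-- the hermitian pairing of the last columns -/
theorem cc_pair {G : Type} [Group G] (σ : G →* Matrix (κ ⊕ Unit) (κ ⊕ Unit) ℂ)
    (hσ : ∀ g, (σ g)ᴴ * JC κ * σ g = JC κ) (x y : G) :
    cc (σ (x⁻¹ * y)) = ‖((σ x)ᴴ * JC κ * σ y) (Sum.inr ()) (Sum.inr ())‖ := by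
  have h1 : σ x⁻¹ = JC κ * (σ x)ᴴ * JC κ := by
    have h2 : σ x⁻¹ * σ x = 1 := by rw [← map_mul, inv_mul_cancel, map_one]
    calc σ x⁻¹ = σ x⁻¹ * (σ x * (JC κ * (σ x)ᴴ * JC κ)) := by
          rw [inv_right _ (hσ x), Matrix.mul_one]
      _ = (σ x⁻¹ * σ x) * (JC κ * (σ x)ᴴ * JC κ) := (Matrix.mul_assoc _ _ _).symm
      _ = _ := by rw [h2, Matrix.one_mul]
  unfold cc
  rw [map_mul, h1]
  have h3 : JC κ * (σ x)ᴴ * JC κ * σ y = JC κ * ((σ x)ᴴ * JC κ * σ y) := by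
    simp only [Matrix.mul_assoc]
  rw [h3]
  conv_lhs => rw [JC_eq]
  rw [Matrix.diagonal_mul]
  simp only [Sum.elim_inr, neg_mul, one_mul, norm_neg]
  rw [← JC_eq]

/-- the normalised last column -/
noncomputable def nv (g : Matrix (κ ⊕ Unit) (κ ⊕ Unit) ℂ) : EuclideanSpace ℂ κ :=
  WithLp.toLp 2 fun k => g (Sum.inl k) (Sum.inr ()) / g (Sum.inr ()) (Sum.inr ())

theorem pair_eq (g h : Matrix (κ ⊕ Unit) (κ ⊕ Unit) ℂ) (hg : gᴴ * JC κ * g = JC κ)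
    (hh : hᴴ * JC κ * h = JC κ) :
    ‖(gᴴ * JC κ * h) (Sum.inr ()) (Sum.inr ())‖ =
      cc g * cc h * ‖1 - inner ℂ (nv g) (nv h)‖ := by
  have h1 := cc_ge_one g hg
  have h2 := cc_ge_one h hh
  have h3 : g (Sum.inr ()) (Sum.inr ()) ≠ 0 := by
    intro h0
    unfold cc at h1
    rw [h0, norm_zero] at h1
    linarith
  have h4 : h (Sum.inr ()) (Sum.inr ()) ≠ 0 := by
    intro h0
    unfold cc at h2
    rw [h0, norm_zero] at h2
    linarith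
  have h3' : star (g (Sum.inr ()) (Sum.inr ())) ≠ 0 := star_ne_zero.2 h3
  rw [ent]
  have h5 : inner ℂ (nv g) (nv h) = (∑ k : κ, star (g (Sum.inl k) (Sum.inr ())) *
      h (Sum.inl k) (Sum.inr ())) / (star (g (Sum.inr ()) (Sum.inr ())) *
        h (Sum.inr ()) (Sum.inr ())) := by
    rw [PiLp.inner_apply, Finset.sum_div]
    refine Finset.sum_congr rfl fun k _ => ?_
    simp only [nv, RCLike.inner_apply]
    simp only [Complex.star_def, map_div₀] at h3' ⊢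
    field_simp
  have h6 : ∑ k : κ, star (g (Sum.inl k) (Sum.inr ())) * h (Sum.inl k) (Sum.inr ())
      - star (g (Sum.inr ()) (Sum.inr ())) * h (Sum.inr ()) (Sum.inr ()) =
      - (star (g (Sum.inr ()) (Sum.inr ())) * h (Sum.inr ()) (Sum.inr ()) *
        (1 - inner ℂ (nv g) (nv h))) := by
    rw [h5]
    field_simp
    ring
  rw [h6, norm_neg, norm_mul, norm_mul, norm_star]
  rfl

theorem nv_le (g : Matrix (κ ⊕ Unit) (κ ⊕ Unit) ℂ) (hg : gᴴ * JC κ * g = JC κ) :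
    ‖nv g‖ ≤ 1 := by
  have h1 := cc_ge_one g hg
  have h2 := col_n g hg
  have h3 : ‖nv g‖ ^ 2 = (∑ k : κ, ‖g (Sum.inl k) (Sum.inr ())‖ ^ 2) / cc g ^ 2 := by
    rw [EuclideanSpace.norm_sq_eq, Finset.sum_div]
    refine Finset.sum_congr rfl fun k _ => ?_
    simp only [nv, norm_div, div_pow]
    rfl
  have h4 : ‖nv g‖ ^ 2 ≤ 1 ^ 2 := by
    rw [h3, h2, one_pow, div_le_one (by positivity)]
    linarith
  exact le_of_sq_le_sq h4 zero_le_one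

end HypAux

/-- module Hyp -/
theorem cc_four {G : Type} [Group G] (σ : G →* Matrix (κ ⊕ Unit) (κ ⊕ Unit) ℂ)
    (hσ : ∀ g, (σ g)ᴴ * JC κ * σ g = JC κ) (x y z w : G) :
    cc (σ (x⁻¹ * y)) * cc (σ (z⁻¹ * w)) ≤ 8 * max (cc (σ (x⁻¹ * z)) * cc (σ (y⁻¹ * w)))
      (cc (σ (x⁻¹ * w)) * cc (σ (y⁻¹ * z))) := by
  -- reduction to `z = 1`
  suffices key : ∀ x y w : G, cc (σ (x⁻¹ * y)) * cc (σ w) ≤
      8 * max (cc (σ x) * cc (σ (y⁻¹ * w))) (cc (σ (x⁻¹ * w)) * cc (σ y)) by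
    have h := key (z⁻¹ * x) (z⁻¹ * y) (z⁻¹ * w)
    have e1 : (z⁻¹ * x)⁻¹ * (z⁻¹ * y) = x⁻¹ * y := by group
    have e2 : (z⁻¹ * y)⁻¹ * (z⁻¹ * w) = y⁻¹ * w := by group
    have e3 : (z⁻¹ * x)⁻¹ * (z⁻¹ * w) = x⁻¹ * w := by group
    have einv : ∀ g : G, cc (σ g⁻¹) = cc (σ g) := by
      intro g
      refine cc_inv _ _ (hσ g) ?_
      rw [← map_mul, inv_mul_cancel, map_one]
    have e4 : cc (σ (x⁻¹ * z)) = cc (σ (z⁻¹ * x)) := by
      rw [← einv (z⁻¹ * x)]; congr 2; group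
    have e5 : cc (σ (y⁻¹ * z)) = cc (σ (z⁻¹ * y)) := by
      rw [← einv (z⁻¹ * y)]; congr 2; group
    rw [e1, e2, e3] at h
    rw [e4, e5]
    exact h
  intro x y w
  have hx := cc_ge_one _ (hσ x)
  have hy := cc_ge_one _ (hσ y)
  have hw := cc_ge_one _ (hσ w)
  rw [HypAux.cc_pair σ hσ x y, HypAux.cc_pair σ hσ y w, HypAux.cc_pair σ hσ x w,
    HypAux.pair_eq _ _ (hσ x) (hσ y), HypAux.pair_eq _ _ (hσ y) (hσ w),
    HypAux.pair_eq _ _ (hσ x) (hσ w)]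
  have ht := HypAux.ball_tri (HypAux.nv (σ x)) (HypAux.nv (σ y)) (HypAux.nv (σ w))
    (HypAux.nv_le _ (hσ x)) (HypAux.nv_le _ (hσ y)) (HypAux.nv_le _ (hσ w))
  have hs : ∀ a b : EuclideanSpace ℂ κ, ‖1 - inner ℂ a b‖ = ‖1 - inner ℂ b a‖ := by
    intro a b
    rw [← inner_conj_symm a b, ← Complex.star_def]
    have : (1 : ℂ) - star (inner ℂ b a) = star (1 - inner ℂ b a) := by
      rw [star_sub, star_one]
    rw [this, norm_star]
  rw [hs (HypAux.nv (σ w)) (HypAux.nv (σ x)), hs (HypAux.nv (σ w)) (HypAux.nv (σ y))] at ht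
  set A := ‖1 - inner ℂ (HypAux.nv (σ x)) (HypAux.nv (σ w))‖ with hA
  set B := ‖1 - inner ℂ (HypAux.nv (σ y)) (HypAux.nv (σ w))‖ with hB
  set P := cc (σ x) * cc (σ y) * cc (σ w) with hP
  have hP0 : 0 ≤ P := by positivity
  have e1 : cc (σ x) * cc (σ y) * ‖1 - inner ℂ (HypAux.nv (σ x)) (HypAux.nv (σ y))‖ *
      cc (σ w) = P * ‖1 - inner ℂ (HypAux.nv (σ x)) (HypAux.nv (σ y))‖ := by
    rw [hP]; ring
  have e2 : cc (σ x) * (cc (σ y) * cc (σ w) * B) = P * B := by rw [hP]; ring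
  have e3 : cc (σ x) * cc (σ w) * A * cc (σ y) = P * A := by rw [hP]; ring
  rw [e1, e2, e3]
  have h1 : P * B ≤ max (P * B) (P * A) := le_max_left _ _
  have h2 : P * A ≤ max (P * B) (P * A) := le_max_right _ _
  have h3 := mul_le_mul_of_nonneg_left ht hP0
  linarith

end hyp

end Pool.Agent.MPd01a95
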