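import Mathlib
import Pool.Agent.Lib.MP_d01a95_gt.Defs

set_option autoImplicit false
set_option linter.unusedSectionVars false
set_option linter.unusedSimpArgs false

open Matrix MeasureTheory

namespace Pool.Agent.MPd01a95

namespace MinorAux

variable {ι : Type} [Fintype ι] [DecidableEq ι]

/-- The two by two Lagrange inequality: one minor is bounded by the Gram determinant. -/
theorem lagrange {n : Type} [Fintype n] [DecidableEq n] (u v : n → ℝ) (i j : n) :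
    (u i * v j - u j * v i) ^ 2 ≤
      (∑ k, u k ^ 2) * (∑ k, v k ^ 2) - (∑ k, u k * v k) ^ 2 := by
  have h1 : ∑ k, ∑ l, (u k * v l - u l * v k) ^ 2 =
      2 * ((∑ k, u k ^ 2) * (∑ k, v k ^ 2) - (∑ k, u k * v k) ^ 2) := by
    have e1 : ∀ k l, (u k * v l - u l * v k) ^ 2 =
        u k ^ 2 * v l ^ 2 + v k ^ 2 * u l ^ 2 - 2 * ((u k * v k) * (u l * v l)) := by
      intro k l; ring
    simp only [e1, Finset.sum_sub_distrib, Finset.sum_add_distrib]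
    rw [← Finset.sum_mul_sum, ← Finset.sum_mul_sum]
    have e2 : ∑ k, ∑ l, 2 * ((u k * v k) * (u l * v l)) = 2 * (∑ k, u k * v k) ^ 2 := by
      rw [sq, Finset.sum_mul_sum, Finset.mul_sum]
      refine Finset.sum_congr rfl fun k _ => ?_
      rw [Finset.mul_sum]
    rw [e2]
    ring
  by_cases hij : i = j
  · subst hij
    have h0 : 0 ≤ ∑ k, ∑ l, (u k * v l - u l * v k) ^ 2 :=
      Finset.sum_nonneg fun k _ => Finset.sum_nonneg fun l _ => sq_nonneg _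
    rw [h1] at h0
    have : u i * v i - u i * v i = 0 := by ring
    rw [this]
    nlinarith
  · have hk : ∀ k, 0 ≤ ∑ l, (u k * v l - u l * v k) ^ 2 := fun k =>
      Finset.sum_nonneg fun l _ => sq_nonneg _
    have h2 : ∑ k ∈ ({i, j} : Finset n), ∑ l, (u k * v l - u l * v k) ^ 2 ≤
        ∑ k, ∑ l, (u k * v l - u l * v k) ^ 2 :=
      Finset.sum_le_sum_of_subset_of_nonneg (Finset.subset_univ _) fun k _ _ => hk k
    rw [Finset.sum_pair hij] at h2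
    have h3 : (u i * v j - u j * v i) ^ 2 ≤ ∑ l, (u i * v l - u l * v i) ^ 2 :=
      Finset.single_le_sum (f := fun l => (u i * v l - u l * v i) ^ 2)
        (fun l _ => sq_nonneg _) (Finset.mem_univ j)
    have h4 : (u j * v i - u i * v j) ^ 2 ≤ ∑ l, (u j * v l - u l * v j) ^ 2 :=
      Finset.single_le_sum (f := fun l => (u j * v l - u l * v j) ^ 2)
        (fun l _ => sq_nonneg _) (Finset.mem_univ i)
    have h5 : (u j * v i - u i * v j) ^ 2 = (u i * v j - u j * v i) ^ 2 := by ring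
    rw [h5] at h4
    rw [h1] at h2
    linarith

/-- The dual relation. -/
theorem dual {h : Matrix (ι ⊕ Fin 2) (ι ⊕ Fin 2) ℝ} (hh : hᵀ * J ι * h = J ι) :
    h * J ι * hᵀ = J ι := by
  have hJ : J ι * J ι = 1 := by
    unfold J
    rw [Matrix.fromBlocks_multiply]
    simp
  have h1 : (J ι * hᵀ * J ι) * h = 1 := by
    calc (J ι * hᵀ * J ι) * h = J ι * (hᵀ * J ι * h) := by simp only [Matrix.mul_assoc]
      _ = 1 := by rw [hh, hJ]
  have h2 : h * (J ι * hᵀ * J ι) = 1 := mul_eq_one_comm.mp h1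
  calc h * J ι * hᵀ = h * (J ι * hᵀ * J ι) * J ι := by
        simp only [Matrix.mul_assoc, hJ, Matrix.mul_one]
    _ = J ι := by rw [h2, Matrix.one_mul]

/-- Sums over the index set. -/
theorem sumsplit (f : ι ⊕ Fin 2 → ℝ) :
    ∑ i, f i = ∑ i, f (Sum.inl i) + (f (Sum.inr 0) + f (Sum.inr 1)) := by
  rw [Fintype.sum_sum_type, Fin.sum_univ_two]

theorem J_mulVec (w : ι ⊕ Fin 2 → ℝ) :
    J ι *ᵥ w = Sum.elim (fun i => w (Sum.inl i)) (fun p => - w (Sum.inr p)) := by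
  unfold J
  ext x
  rcases x with i | p
  · simp [Matrix.mulVec, dotProduct, Fintype.sum_sum_type, Matrix.fromBlocks, Matrix.one_apply]
  · simp [Matrix.mulVec, dotProduct, Fintype.sum_sum_type, Matrix.fromBlocks, Matrix.one_apply]

/-- Columns. -/
theorem col {h : Matrix (ι ⊕ Fin 2) (ι ⊕ Fin 2) ℝ} (hh : hᵀ * J ι * h = J ι)
    (k l : ι ⊕ Fin 2) :
    ∑ i, h (Sum.inl i) k * h (Sum.inl i) l -
      (h (Sum.inr 0) k * h (Sum.inr 0) l + h (Sum.inr 1) k * h (Sum.inr 1) l) = J ι k l := by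
  have h1 := congrFun (congrFun hh k) l
  rw [Matrix.mul_assoc, Matrix.mul_apply] at h1
  rw [← h1, sumsplit]
  have h2 : ∀ x, (J ι * h) x l =
      (Sum.elim (fun i => h (Sum.inl i) l) (fun p => - h (Sum.inr p) l)) x := by
    intro x
    have := congrFun (J_mulVec (fun y => h y l)) x
    simpa [Matrix.mulVec, dotProduct, Matrix.mul_apply] using this
  simp only [h2, Matrix.transpose_apply, Sum.elim_inl, Sum.elim_inr]
  ring

/-- Rows. -/
theorem row {h : Matrix (ι ⊕ Fin 2) (ι ⊕ Fin 2) ℝ} (hh : hᵀ * J ι * h = J ι)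
    (k l : ι ⊕ Fin 2) :
    ∑ i, h k (Sum.inl i) * h l (Sum.inl i) -
      (h k (Sum.inr 0) * h l (Sum.inr 0) + h k (Sum.inr 1) * h l (Sum.inr 1)) = J ι k l := by
  have h1 : (hᵀ)ᵀ * J ι * hᵀ = J ι := by
    rw [Matrix.transpose_transpose]; exact dual hh
  simpa [Matrix.transpose_apply] using col h1 k l

theorem J_inr (p q : Fin 2) : J ι (Sum.inr p) (Sum.inr q) = if p = q then -1 else 0 := by
  unfold J
  simp [Matrix.fromBlocks, Matrix.one_apply, Matrix.neg_apply]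
  split_ifs <;> simp

theorem J_ne {k l : ι ⊕ Fin 2} (hkl : k ≠ l) : J ι k l = 0 := by
  unfold J
  rcases k with k | k <;> rcases l with l | l
  · have : k ≠ l := fun h => hkl (by rw [h])
    simp [Matrix.fromBlocks, Matrix.one_apply, this]
  · simp [Matrix.fromBlocks]
  · simp [Matrix.fromBlocks]
  · have : k ≠ l := fun h => hkl (by rw [h])
    simp [Matrix.fromBlocks, Matrix.one_apply, this]

theorem J_self (k : ι ⊕ Fin 2) : J ι k k = 1 ∨ J ι k k = -1 := by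
  unfold J
  rcases k with k | k
  · left; simp [Matrix.fromBlocks, Matrix.one_apply]
  · right; simp [Matrix.fromBlocks, Matrix.one_apply]

/-- All scalar relations used below: `a`, `b`, `c` are the entries of the Gram matrix of the
lower left block. -/
theorem rels {h : Matrix (ι ⊕ Fin 2) (ι ⊕ Fin 2) ℝ} (hh : hᵀ * J ι * h = J ι) :
    ∃ a b c : ℝ, 0 ≤ a ∧ 0 ≤ b ∧ c ^ 2 ≤ a * b ∧
      (∑ i, h (Sum.inr 0) (Sum.inl i) ^ 2 = a) ∧ (∑ i, h (Sum.inr 1) (Sum.inl i) ^ 2 = b) ∧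
      (∑ i, h (Sum.inr 0) (Sum.inl i) * h (Sum.inr 1) (Sum.inl i) = c) ∧
      (h (Sum.inr 0) (Sum.inr 0) ^ 2 + h (Sum.inr 0) (Sum.inr 1) ^ 2 = 1 + a) ∧
      (h (Sum.inr 1) (Sum.inr 0) ^ 2 + h (Sum.inr 1) (Sum.inr 1) ^ 2 = 1 + b) ∧
      (h (Sum.inr 0) (Sum.inr 0) * h (Sum.inr 1) (Sum.inr 0) +
        h (Sum.inr 0) (Sum.inr 1) * h (Sum.inr 1) (Sum.inr 1) = c) ∧
      Del h ^ 2 = 1 + a + b + (a * b - c ^ 2) := by
  have r00 := row hh (Sum.inr 0) (Sum.inr 0)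
  have r11 := row hh (Sum.inr 1) (Sum.inr 1)
  have r01 := row hh (Sum.inr 0) (Sum.inr 1)
  rw [J_inr] at r00 r11 r01
  simp only [if_true] at r00 r11
  rw [if_neg (by decide)] at r01
  refine ⟨∑ i, h (Sum.inr 0) (Sum.inl i) ^ 2, ∑ i, h (Sum.inr 1) (Sum.inl i) ^ 2,
    ∑ i, h (Sum.inr 0) (Sum.inl i) * h (Sum.inr 1) (Sum.inl i),
    Finset.sum_nonneg fun i _ => sq_nonneg _, Finset.sum_nonneg fun i _ => sq_nonneg _,
    Finset.sum_mul_sq_le_sq_mul_sq _ _ _, rfl, rfl, rfl, ?_, ?_, ?_, ?_⟩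
  · have e : ∑ i, h (Sum.inr 0) (Sum.inl i) ^ 2 =
        ∑ i, h (Sum.inr 0) (Sum.inl i) * h (Sum.inr 0) (Sum.inl i) :=
      Finset.sum_congr rfl fun i _ => sq _
    rw [e]; linarith
  · have e : ∑ i, h (Sum.inr 1) (Sum.inl i) ^ 2 =
        ∑ i, h (Sum.inr 1) (Sum.inl i) * h (Sum.inr 1) (Sum.inl i) :=
      Finset.sum_congr rfl fun i _ => sq _
    rw [e]; linarith
  · linarith
  · have e0 : ∑ i, h (Sum.inr 0) (Sum.inl i) ^ 2 =
        ∑ i, h (Sum.inr 0) (Sum.inl i) * h (Sum.inr 0) (Sum.inl i) :=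
      Finset.sum_congr rfl fun i _ => sq _
    have e1 : ∑ i, h (Sum.inr 1) (Sum.inl i) ^ 2 =
        ∑ i, h (Sum.inr 1) (Sum.inl i) * h (Sum.inr 1) (Sum.inl i) :=
      Finset.sum_congr rfl fun i _ => sq _
    unfold Del
    rw [sq_abs, Matrix.det_fin_two, e0, e1]
    simp only [Matrix.toBlocks₂₂, Matrix.of_apply]
    have a0 : ∑ i, h (Sum.inr 0) (Sum.inl i) * h (Sum.inr 0) (Sum.inl i) =
      h (Sum.inr 0) (Sum.inr 0) * h (Sum.inr 0) (Sum.inr 0) +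
        h (Sum.inr 0) (Sum.inr 1) * h (Sum.inr 0) (Sum.inr 1) - 1 := by linarith
    have a1 : ∑ i, h (Sum.inr 1) (Sum.inl i) * h (Sum.inr 1) (Sum.inl i) =
      h (Sum.inr 1) (Sum.inr 0) * h (Sum.inr 1) (Sum.inr 0) +
        h (Sum.inr 1) (Sum.inr 1) * h (Sum.inr 1) (Sum.inr 1) - 1 := by linarith
    have a2 : ∑ i, h (Sum.inr 0) (Sum.inl i) * h (Sum.inr 1) (Sum.inl i) =
      h (Sum.inr 0) (Sum.inr 0) * h (Sum.inr 1) (Sum.inr 0) +
        h (Sum.inr 0) (Sum.inr 1) * h (Sum.inr 1) (Sum.inr 1) := by linarith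
    rw [a0, a1, a2]
    ring

theorem Del_nonneg (h : Matrix (ι ⊕ Fin 2) (ι ⊕ Fin 2) ℝ) : 0 ≤ Del h := abs_nonneg _

theorem rr_nonneg (h : Matrix (ι ⊕ Fin 2) (ι ⊕ Fin 2) ℝ) : 0 ≤ rr h :=
  le_trans (Real.sqrt_nonneg _) (le_max_left _ _)

/-- The two row norms are at most `rr`. -/
theorem le_rr_sq (h : Matrix (ι ⊕ Fin 2) (ι ⊕ Fin 2) ℝ) :
    h (Sum.inr 0) (Sum.inr 0) ^ 2 + h (Sum.inr 0) (Sum.inr 1) ^ 2 ≤ rr h ^ 2 ∧
    h (Sum.inr 1) (Sum.inr 0) ^ 2 + h (Sum.inr 1) (Sum.inr 1) ^ 2 ≤ rr h ^ 2 := by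
  constructor
  · have h1 : Real.sqrt (h (Sum.inr 0) (Sum.inr 0) ^ 2 + h (Sum.inr 0) (Sum.inr 1) ^ 2) ≤ rr h :=
      le_max_left _ _
    exact (Real.sqrt_le_left (rr_nonneg h)).mp h1
  · have h1 : Real.sqrt (h (Sum.inr 1) (Sum.inr 0) ^ 2 + h (Sum.inr 1) (Sum.inr 1) ^ 2) ≤ rr h :=
      le_max_right _ _
    exact (Real.sqrt_le_left (rr_nonneg h)).mp h1

/-- `rr` squared is one of the two. -/
theorem rr_sq (h : Matrix (ι ⊕ Fin 2) (ι ⊕ Fin 2) ℝ) :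
    rr h ^ 2 = h (Sum.inr 0) (Sum.inr 0) ^ 2 + h (Sum.inr 0) (Sum.inr 1) ^ 2 ∨
    rr h ^ 2 = h (Sum.inr 1) (Sum.inr 0) ^ 2 + h (Sum.inr 1) (Sum.inr 1) ^ 2 := by
  unfold rr
  rcases max_choice (Real.sqrt (h (Sum.inr 0) (Sum.inr 0) ^ 2 + h (Sum.inr 0) (Sum.inr 1) ^ 2))
    (Real.sqrt (h (Sum.inr 1) (Sum.inr 0) ^ 2 + h (Sum.inr 1) (Sum.inr 1) ^ 2)) with h1 | h1
  · left; rw [h1, Real.sq_sqrt (by positivity)]
  · right; rw [h1, Real.sq_sqrt (by positivity)]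

end MinorAux

open MinorAux

variable {ι : Type} [Fintype ι] [DecidableEq ι]

/-- module Minor -/
theorem Del_le_sq (h : Matrix (ι ⊕ Fin 2) (ι ⊕ Fin 2) ℝ) : Del h ≤ rr h ^ 2 := by
  obtain ⟨h1, h2⟩ := le_rr_sq h
  unfold Del
  rw [Matrix.det_fin_two]
  simp only [Matrix.toBlocks₂₂, Matrix.of_apply]
  rw [abs_le]
  constructor
  · nlinarith [sq_nonneg (h (Sum.inr 0) (Sum.inr 0) + h (Sum.inr 1) (Sum.inr 1)),
      sq_nonneg (h (Sum.inr 0) (Sum.inr 1) - h (Sum.inr 1) (Sum.inr 0))]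
  · nlinarith [sq_nonneg (h (Sum.inr 0) (Sum.inr 0) - h (Sum.inr 1) (Sum.inr 1)),
      sq_nonneg (h (Sum.inr 0) (Sum.inr 1) + h (Sum.inr 1) (Sum.inr 0))]

/-- module Minor -/
theorem rr_le_Del (h : Matrix (ι ⊕ Fin 2) (ι ⊕ Fin 2) ℝ) (hh : hᵀ * J ι * h = J ι) :
    1 ≤ Del h ∧ 1 ≤ rr h ∧ rr h ≤ Del h := by
  obtain ⟨a, b, c, ha, hb, hc, -, -, -, h0, h1, -, hD⟩ := rels hh
  have hD0 := Del_nonneg h
  have hr0 := rr_nonneg h
  have hr := le_rr_sq h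
  refine ⟨?_, ?_, ?_⟩
  · nlinarith
  · nlinarith
  · refine le_of_sq_le_sq ?_ hD0
    rcases rr_sq h with h2 | h2
    · rw [h2, h0, hD]; nlinarith
    · rw [h2, h1, hD]; nlinarith

namespace MinorAux

/-- Entries of the two bottom rows. -/
theorem bottom {h : Matrix (ι ⊕ Fin 2) (ι ⊕ Fin 2) ℝ} (hh : hᵀ * J ι * h = J ι)
    (p : Fin 2) (j : ι ⊕ Fin 2) : h (Sum.inr p) j ^ 2 ≤ rr h ^ 2 := by
  obtain ⟨a, b, c, ha, hb, hc, s0, s1, -, h0, h1, -, -⟩ := rels hh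
  obtain ⟨g0, g1⟩ := le_rr_sq h
  rcases j with j | q
  · fin_cases p
    · have : h (Sum.inr 0) (Sum.inl j) ^ 2 ≤ ∑ i, h (Sum.inr 0) (Sum.inl i) ^ 2 :=
        Finset.single_le_sum (f := fun i => h (Sum.inr 0) (Sum.inl i) ^ 2)
          (fun i _ => sq_nonneg _) (Finset.mem_univ j)
      simp only [Fin.zero_eta]
      linarith
    · have : h (Sum.inr 1) (Sum.inl j) ^ 2 ≤ ∑ i, h (Sum.inr 1) (Sum.inl i) ^ 2 :=
        Finset.single_le_sum (f := fun i => h (Sum.inr 1) (Sum.inl i) ^ 2)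
          (fun i _ => sq_nonneg _) (Finset.mem_univ j)
      simp only [Fin.mk_one]
      linarith
  · fin_cases p <;> fin_cases q <;> simp only [Fin.zero_eta, Fin.mk_one] <;>
      nlinarith [sq_nonneg (h (Sum.inr 0) (Sum.inr 0)), sq_nonneg (h (Sum.inr 0) (Sum.inr 1)),
        sq_nonneg (h (Sum.inr 1) (Sum.inr 0)), sq_nonneg (h (Sum.inr 1) (Sum.inr 1))]

end MinorAux

/-- module Minor -/
theorem entry_le (h : Matrix (ι ⊕ Fin 2) (ι ⊕ Fin 2) ℝ) (hh : hᵀ * J ι * h = J ι)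
    (i j : ι ⊕ Fin 2) : |h i j| ≤ 3 * rr h := by
  have hr1 := (rr_le_Del h hh).2.1
  refine abs_le_of_sq_le_sq ?_ (by linarith)
  rcases i with i | p
  · have h1 := col hh j j
    have h2 : h (Sum.inl i) j ^ 2 ≤ ∑ i, h (Sum.inl i) j ^ 2 :=
      Finset.single_le_sum (f := fun i => h (Sum.inl i) j ^ 2)
        (fun i _ => sq_nonneg _) (Finset.mem_univ i)
    have h3 : ∑ i, h (Sum.inl i) j ^ 2 = ∑ i, h (Sum.inl i) j * h (Sum.inl i) j :=
      Finset.sum_congr rfl fun i _ => sq _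
    have b0 := bottom hh 0 j
    have b1 := bottom hh 1 j
    have h4 : J ι j j ≤ 1 := by
      rcases J_self j with h5 | h5 <;> rw [h5] <;> norm_num
    rw [h3] at h2
    nlinarith
  · have := bottom hh p j
    nlinarith

namespace MinorAux

theorem minor_sq {h : Matrix (ι ⊕ Fin 2) (ι ⊕ Fin 2) ℝ} (hh : hᵀ * J ι * h = J ι)
    (i j k l : ι ⊕ Fin 2) (hkl : k ≠ l) :
    (h i k * h j l - h j k * h i l) ^ 2 ≤ (4 * Del h) ^ 2 := by
  obtain ⟨a, b, c, ha, hb, hc, s0, s1, s01, h0, h1, h01, hD⟩ := rels hh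
  -- Lagrange for the two columns
  have L1 := lagrange (fun x => h x k) (fun x => h x l) i j
  rw [sumsplit (fun x => h x k ^ 2), sumsplit (fun x => h x l ^ 2),
    sumsplit (fun x => h x k * h x l)] at L1
  have c1 := col hh k k
  have c2 := col hh l l
  have c3 := col hh k l
  rw [J_ne hkl] at c3
  have e1 : ∑ i, h (Sum.inl i) k ^ 2 = ∑ i, h (Sum.inl i) k * h (Sum.inl i) k :=
    Finset.sum_congr rfl fun i _ => sq _
  have e2 : ∑ i, h (Sum.inl i) l ^ 2 = ∑ i, h (Sum.inl i) l * h (Sum.inl i) l :=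
    Finset.sum_congr rfl fun i _ => sq _
  rw [e1, e2] at L1
  have f1 : ∑ i, h (Sum.inl i) k * h (Sum.inl i) k = J ι k k +
      (h (Sum.inr 0) k ^ 2 + h (Sum.inr 1) k ^ 2) := by linarith
  have f2 : ∑ i, h (Sum.inl i) l * h (Sum.inl i) l = J ι l l +
      (h (Sum.inr 0) l ^ 2 + h (Sum.inr 1) l ^ 2) := by linarith
  have f3 : ∑ i, h (Sum.inl i) k * h (Sum.inl i) l =
      h (Sum.inr 0) k * h (Sum.inr 0) l + h (Sum.inr 1) k * h (Sum.inr 1) l := by linarith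
  rw [f1, f2, f3] at L1
  -- Lagrange for the two bottom rows
  have L2 := lagrange (fun x => h (Sum.inr 0) x) (fun x => h (Sum.inr 1) x) k l
  rw [sumsplit (fun x => h (Sum.inr 0) x ^ 2), sumsplit (fun x => h (Sum.inr 1) x ^ 2),
    sumsplit (fun x => h (Sum.inr 0) x * h (Sum.inr 1) x)] at L2
  rw [s0, s1, s01, h0, h1, h01] at L2
  -- trace bound
  have T0 : h (Sum.inr 0) k ^ 2 + h (Sum.inr 0) l ^ 2 ≤ 1 + 2 * a := by
    have h2 : ∑ x ∈ ({k, l} : Finset (ι ⊕ Fin 2)), h (Sum.inr 0) x ^ 2 ≤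
        ∑ x, h (Sum.inr 0) x ^ 2 :=
      Finset.sum_le_sum_of_subset_of_nonneg (Finset.subset_univ _) fun _ _ _ => sq_nonneg _
    rw [Finset.sum_pair hkl, sumsplit] at h2
    linarith
  have T1 : h (Sum.inr 1) k ^ 2 + h (Sum.inr 1) l ^ 2 ≤ 1 + 2 * b := by
    have h2 : ∑ x ∈ ({k, l} : Finset (ι ⊕ Fin 2)), h (Sum.inr 1) x ^ 2 ≤
        ∑ x, h (Sum.inr 1) x ^ 2 :=
      Finset.sum_le_sum_of_subset_of_nonneg (Finset.subset_univ _) fun _ _ _ => sq_nonneg _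
    rw [Finset.sum_pair hkl, sumsplit] at h2
    linarith
  set u0 := h (Sum.inr 0) k
  set u1 := h (Sum.inr 1) k
  set v0 := h (Sum.inr 0) l
  set v1 := h (Sum.inr 1) l
  have key : (J ι k k + (u0 ^ 2 + u1 ^ 2) + (u0 ^ 2 + u1 ^ 2)) *
      (J ι l l + (v0 ^ 2 + v1 ^ 2) + (v0 ^ 2 + v1 ^ 2)) -
      (u0 * v0 + u1 * v1 + (u0 * v0 + u1 * v1)) ^ 2 ≤
      1 + 2 * (u0 ^ 2 + u1 ^ 2 + v0 ^ 2 + v1 ^ 2) + 4 * (u0 * v1 - v0 * u1) ^ 2 := by
    rcases J_self k with x1 | x1 <;> rcases J_self l with x2 | x2 <;> rw [x1, x2] <;>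
      nlinarith [sq_nonneg u0, sq_nonneg u1, sq_nonneg v0, sq_nonneg v1]
  have e3 : (h i k * h j l - h j k * h i l) ^ 2 ≤
      1 + 2 * (u0 ^ 2 + u1 ^ 2 + v0 ^ 2 + v1 ^ 2) + 4 * (u0 * v1 - v0 * u1) ^ 2 :=
    L1.trans key
  have e4 : (u0 * v1 - v0 * u1) ^ 2 ≤ (a + (1 + a)) * (b + (1 + b)) - (c + c) ^ 2 := L2
  have e5 : (4 * Del h) ^ 2 = 16 * (1 + a + b + (a * b - c ^ 2)) := by rw [mul_pow, hD]; ring
  rw [e5]
  nlinarith

end MinorAux

/-- module Minor -/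
theorem minor_le (h : Matrix (ι ⊕ Fin 2) (ι ⊕ Fin 2) ℝ) (hh : hᵀ * J ι * h = J ι)
    (i j k l : ι ⊕ Fin 2) : |h i k * h j l - h j k * h i l| ≤ 5 * Del h := by
  have h0 := Del_nonneg h
  by_cases hkl : k = l
  · subst hkl
    have : h i k * h j k - h j k * h i k = 0 := by ring
    rw [this, abs_zero]
    linarith
  · have := abs_le_of_sq_le_sq (minor_sq hh i j k l hkl) (by linarith)
    linarith

/-- module Minor -/
theorem Del_mul (h h' : Matrix (ι ⊕ Fin 2) (ι ⊕ Fin 2) ℝ) (hh : hᵀ * J ι * h = J ι)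
    (hh' : h'ᵀ * J ι * h' = J ι) :
    Del (h * h') ≤ 25 * ((Fintype.card ι : ℝ) + 2) ^ 2 * Del h * Del h' := by
  have hd := Del_nonneg h
  have hd' := Del_nonneg h'
  have e1 : Del (h * h') = |∑ x, ∑ y, (h (Sum.inr 0) x * h (Sum.inr 1) y) *
      (h' x (Sum.inr 0) * h' y (Sum.inr 1) - h' y (Sum.inr 0) * h' x (Sum.inr 1))| := by
    unfold Del
    rw [Matrix.det_fin_two]
    simp only [Matrix.toBlocks₂₂, Matrix.of_apply, Matrix.mul_apply]
    rw [Finset.sum_mul_sum, Finset.sum_mul_sum]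
    have e2 : ∑ x, ∑ y, h (Sum.inr 0) x * h' x (Sum.inr 1) * (h (Sum.inr 1) y * h' y (Sum.inr 0))
        = ∑ x, ∑ y, (h (Sum.inr 0) x * h (Sum.inr 1) y) * (h' y (Sum.inr 0) * h' x (Sum.inr 1)) :=
      Finset.sum_congr rfl fun x _ => Finset.sum_congr rfl fun y _ => by ring
    have e3 : ∑ x, ∑ y, h (Sum.inr 0) x * h' x (Sum.inr 0) * (h (Sum.inr 1) y * h' y (Sum.inr 1))
        = ∑ x, ∑ y, (h (Sum.inr 0) x * h (Sum.inr 1) y) * (h' x (Sum.inr 0) * h' y (Sum.inr 1)) :=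
      Finset.sum_congr rfl fun x _ => Finset.sum_congr rfl fun y _ => by ring
    rw [e2, e3]
    congr 1
    rw [← Finset.sum_sub_distrib]
    refine Finset.sum_congr rfl fun x _ => ?_
    rw [← Finset.sum_sub_distrib]
    refine Finset.sum_congr rfl fun y _ => ?_
    ring
  have e4 : ∑ x, ∑ y, (h (Sum.inr 0) x * h (Sum.inr 1) y) *
      (h' x (Sum.inr 0) * h' y (Sum.inr 1) - h' y (Sum.inr 0) * h' x (Sum.inr 1)) =
      (1 / 2) * ∑ x, ∑ y, (h (Sum.inr 0) x * h (Sum.inr 1) y - h (Sum.inr 1) x * h (Sum.inr 0) y) *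
      (h' x (Sum.inr 0) * h' y (Sum.inr 1) - h' y (Sum.inr 0) * h' x (Sum.inr 1)) := by
    have e5 : ∑ x, ∑ y, (h (Sum.inr 1) x * h (Sum.inr 0) y) *
        (h' x (Sum.inr 0) * h' y (Sum.inr 1) - h' y (Sum.inr 0) * h' x (Sum.inr 1)) =
        - ∑ x, ∑ y, (h (Sum.inr 0) x * h (Sum.inr 1) y) *
        (h' x (Sum.inr 0) * h' y (Sum.inr 1) - h' y (Sum.inr 0) * h' x (Sum.inr 1)) := by
      rw [Finset.sum_comm, ← Finset.sum_neg_distrib]
      refine Finset.sum_congr rfl fun x _ => ?_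
      rw [← Finset.sum_neg_distrib]
      refine Finset.sum_congr rfl fun y _ => ?_
      ring
    simp only [sub_mul (h (Sum.inr 0) _ * h (Sum.inr 1) _), Finset.sum_sub_distrib]
    rw [e5]
    ring
  rw [e1, e4, abs_mul]
  have e6 : |∑ x, ∑ y, (h (Sum.inr 0) x * h (Sum.inr 1) y - h (Sum.inr 1) x * h (Sum.inr 0) y) *
      (h' x (Sum.inr 0) * h' y (Sum.inr 1) - h' y (Sum.inr 0) * h' x (Sum.inr 1))| ≤
      ∑ _x : ι ⊕ Fin 2, ∑ _y : ι ⊕ Fin 2, (5 * Del h) * (5 * Del h') := by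
    refine (Finset.abs_sum_le_sum_abs _ _).trans (Finset.sum_le_sum fun x _ => ?_)
    refine (Finset.abs_sum_le_sum_abs _ _).trans (Finset.sum_le_sum fun y _ => ?_)
    rw [abs_mul]
    exact mul_le_mul (minor_le h hh (Sum.inr 0) (Sum.inr 1) x y)
      (minor_le h' hh' x y (Sum.inr 0) (Sum.inr 1)) (abs_nonneg _) (by linarith)
  rw [Finset.sum_const, Finset.sum_const, Finset.card_univ, Fintype.card_sum, Fintype.card_fin,
    nsmul_eq_mul, nsmul_eq_mul] at e6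
  push_cast at e6
  have h2 : |(1 / 2 : ℝ)| = 1 / 2 := abs_of_pos (by norm_num)
  rw [h2]
  have h3 : 0 ≤ ((Fintype.card ι : ℝ) + 2) ^ 2 * (Del h * Del h') := by positivity
  nlinarith

end Pool.Agent.MPd01a95
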