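import Mathlib
import Pool.Agent.Lib.MP_d01a95_gt.Defs

set_option autoImplicit false

open Matrix MeasureTheory

namespace Pool.Agent.MPd01a95

namespace VolAux

theorem annulus_meas (a b : ℝ) :
    MeasurableSet {x : Fin 2 → ℝ | a ≤ x 0 ^ 2 + x 1 ^ 2 ∧ x 0 ^ 2 + x 1 ^ 2 ≤ b} := by
  have h0 : Measurable fun x : Fin 2 → ℝ => x 0 ^ 2 + x 1 ^ 2 := by fun_prop
  have h1 : MeasurableSet {x : Fin 2 → ℝ | a ≤ x 0 ^ 2 + x 1 ^ 2} :=
    measurableSet_le measurable_const h0
  have h2 : MeasurableSet {x : Fin 2 → ℝ | x 0 ^ 2 + x 1 ^ 2 ≤ b} :=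
    measurableSet_le h0 measurable_const
  exact h1.inter h2

theorem annulus (a b : ℝ) (ha : 0 ≤ a) (hab : a ≤ b) :
    volume {x : Fin 2 → ℝ | a ≤ x 0 ^ 2 + x 1 ^ 2 ∧ x 0 ^ 2 + x 1 ^ 2 ≤ b} =
      ENNReal.ofReal (Real.pi * (b - a)) := by
  have hmp := Complex.volume_preserving_equiv_pi
  rw [← hmp.measure_preimage (annulus_meas a b).nullMeasurableSet]
  have hb : 0 ≤ b := ha.trans hab
  have hset : Complex.measurableEquivPi ⁻¹'
      {x : Fin 2 → ℝ | a ≤ x 0 ^ 2 + x 1 ^ 2 ∧ x 0 ^ 2 + x 1 ^ 2 ≤ b} =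
      Metric.closedBall (0 : ℂ) (Real.sqrt b) \ Metric.ball (0 : ℂ) (Real.sqrt a) := by
    ext z
    have hz : ‖z‖ ^ 2 = z.re ^ 2 + z.im ^ 2 := by
      rw [← Complex.normSq_eq_norm_sq, Complex.normSq_apply]
      ring
    simp only [Set.mem_preimage, Set.mem_setOf_eq, Complex.measurableEquivPi_apply, Set.mem_diff,
      Metric.mem_closedBall, Metric.mem_ball, dist_zero_right, not_lt]
    simp only [Matrix.cons_val_zero, Matrix.cons_val_one]
    rw [← hz, Real.le_sqrt (norm_nonneg _) hb, Real.sqrt_le_left (norm_nonneg _)]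
    exact and_comm
  rw [hset, measure_diff]
  · rw [Complex.volume_closedBall, Complex.volume_ball, ← ENNReal.ofReal_pow (Real.sqrt_nonneg _),
      ← ENNReal.ofReal_pow (Real.sqrt_nonneg _), Real.sq_sqrt hb, Real.sq_sqrt ha]
    have hpi : (NNReal.pi : ENNReal) = ENNReal.ofReal Real.pi := by
      rw [← NNReal.coe_real_pi, ENNReal.ofReal_coe_nnreal]
    rw [hpi, ← ENNReal.ofReal_mul hb, ← ENNReal.ofReal_mul ha, ← ENNReal.ofReal_sub]
    · congr 1
      ring
    · positivity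
  · intro z hz
    rw [Metric.mem_ball] at hz
    rw [Metric.mem_closedBall]
    exact hz.le.trans (Real.sqrt_le_sqrt hab)
  · exact measurableSet_ball.nullMeasurableSet
  · exact measure_ball_lt_top.ne

variable (ι : Type) [Fintype ι]

theorem meas_nq : Measurable (nq : (ι ⊕ Fin 2 → ℝ) → ℝ) := by
  unfold nq
  fun_prop

theorem meas_Sh (R : ℝ) : MeasurableSet (Sh ι R) := by
  have h1 : MeasurableSet {v : ι ⊕ Fin 2 → ℝ | 1 ≤ nq v} :=
    measurableSet_le measurable_const (meas_nq ι)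
  have h2 : MeasurableSet {v : ι ⊕ Fin 2 → ℝ | nq v ≤ 4} :=
    measurableSet_le (meas_nq ι) measurable_const
  have h3 : MeasurableSet {v : ι ⊕ Fin 2 → ℝ | ∀ i, |v i| ≤ R} := by
    have : {v : ι ⊕ Fin 2 → ℝ | ∀ i, |v i| ≤ R} = ⋂ i, {v | |v i| ≤ R} := by
      ext v
      simp
    rw [this]
    exact MeasurableSet.iInter fun i => measurableSet_le (by fun_prop) measurable_const
  exact h1.inter (h2.inter h3)

/-- The volume of the shell as an iterated integral. -/
theorem vol_eq (R : ℝ) : volume (Sh ι R) =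
    ∫⁻ y : ι → ℝ, volume {x : Fin 2 → ℝ | (Sum.elim y x) ∈ Sh ι R} := by
  have hmp := volume_measurePreserving_sumPiEquivProdPi_symm (fun _ : ι ⊕ Fin 2 => ℝ)
  rw [← hmp.measure_preimage (meas_Sh ι R).nullMeasurableSet]
  rw [Measure.volume_eq_prod, Measure.prod_apply
    ((MeasurableEquiv.sumPiEquivProdPi (fun _ : ι ⊕ Fin 2 => ℝ)).symm.measurable (meas_Sh ι R))]
  rfl

theorem mem_Sh_elim (R : ℝ) (y : ι → ℝ) (x : Fin 2 → ℝ) :
    (Sum.elim y x) ∈ Sh ι R ↔ 1 + ∑ i, y i ^ 2 ≤ x 0 ^ 2 + x 1 ^ 2 ∧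
      x 0 ^ 2 + x 1 ^ 2 ≤ 4 + ∑ i, y i ^ 2 ∧ (∀ i, |y i| ≤ R) ∧ ∀ i, |x i| ≤ R := by
  simp only [Sh, nq, Set.mem_setOf_eq, Sum.elim_inr, Sum.elim_inl, Sum.forall]
  constructor
  · rintro ⟨h1, h2, h3, h4⟩
    exact ⟨by linarith, by linarith, h3, h4⟩
  · rintro ⟨h1, h2, h3, h4⟩
    exact ⟨by linarith, by linarith, h3, h4⟩

theorem box_vol (r : ℝ) (hr : 0 ≤ r) :
    volume (Set.Icc (fun _ : ι => -r) (fun _ => r)) = ENNReal.ofReal ((2 * r) ^ Fintype.card ι) := by
  rw [Real.volume_Icc_pi]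
  simp only [Finset.prod_const, Finset.card_univ]
  rw [← ENNReal.ofReal_pow (by linarith)]
  congr 2
  ring

theorem mem_box (r : ℝ) (y : ι → ℝ) :
    y ∈ Set.Icc (fun _ : ι => -r) (fun _ => r) ↔ ∀ i, |y i| ≤ r := by
  simp only [Set.mem_Icc, Pi.le_def, abs_le]
  exact ⟨fun h i => ⟨h.1 i, h.2 i⟩, fun h => ⟨fun i => (h i).1, fun i => (h i).2⟩⟩

end VolAux

open VolAux

section vol

variable (ι : Type) [Fintype ι]

/-- module Vol -/
theorem vol_upper : ∃ C : ℝ, 0 < C ∧ ∀ R : ℝ, 1 ≤ R →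
    volume (Sh ι R) ≤ ENNReal.ofReal (C * R ^ Fintype.card ι) := by
  refine ⟨Real.pi * 3 * 2 ^ Fintype.card ι, by positivity, fun R hR => ?_⟩
  rw [vol_eq]
  have hbox : MeasurableSet (Set.Icc (fun _ : ι => -R) (fun _ => R)) := measurableSet_Icc
  have hle : ∀ y : ι → ℝ, volume {x : Fin 2 → ℝ | (Sum.elim y x) ∈ Sh ι R} ≤
      (Set.Icc (fun _ : ι => -R) (fun _ => R)).indicator
        (fun _ => ENNReal.ofReal (Real.pi * 3)) y := by
    intro y
    by_cases hy : y ∈ Set.Icc (fun _ : ι => -R) (fun _ => R)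
    · rw [Set.indicator_of_mem hy]
      have h0 : 0 ≤ ∑ i, y i ^ 2 := Finset.sum_nonneg fun i _ => sq_nonneg _
      have h1 := annulus (1 + ∑ i, y i ^ 2) (4 + ∑ i, y i ^ 2) (by linarith) (by linarith)
      have h2 : (4 + ∑ i, y i ^ 2) - (1 + ∑ i, y i ^ 2) = 3 := by ring
      rw [h2] at h1
      rw [← h1]
      apply measure_mono
      intro x hx
      rw [Set.mem_setOf_eq, mem_Sh_elim] at hx
      exact ⟨hx.1, hx.2.1⟩
    · rw [Set.indicator_of_notMem hy]
      have : {x : Fin 2 → ℝ | (Sum.elim y x) ∈ Sh ι R} = ∅ := by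
        ext x
        simp only [Set.mem_setOf_eq, Set.mem_empty_iff_false, iff_false]
        intro hx
        rw [mem_Sh_elim] at hx
        exact hy ((mem_box ι R y).2 hx.2.2.1)
      rw [this, measure_empty]
  refine (lintegral_mono hle).trans ?_
  rw [lintegral_indicator_const hbox, box_vol ι R (by linarith), ← ENNReal.ofReal_mul (by positivity)]
  apply ENNReal.ofReal_le_ofReal
  rw [mul_pow]
  apply le_of_eq
  ring

/-- module Vol -/
theorem vol_lower : ∃ c : ℝ, 0 < c ∧ ∀ R : ℝ, 2 ≤ R →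
    ENNReal.ofReal (c * R ^ Fintype.card ι) ≤ volume (Sh ι R) := by
  set n : ℝ := (Fintype.card ι : ℝ) with hn
  have hn0 : 0 ≤ n := Nat.cast_nonneg _
  set e : ℝ := 1 / (4 * (n + 1)) with he
  have he0 : 0 < e := by positivity
  have hes : n * e ^ 2 ≤ 1 / 16 := by
    rw [he, div_pow, mul_pow, one_pow, mul_one_div, div_le_div_iff₀ (by positivity) (by norm_num)]
    nlinarith [sq_nonneg n]
  have he1 : e ≤ 1 := by
    rw [he, div_le_one (by positivity)]
    linarith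
  refine ⟨Real.pi * 2 * (2 * e) ^ Fintype.card ι, by positivity, fun R hR => ?_⟩
  rw [vol_eq]
  have hbox : MeasurableSet (Set.Icc (fun _ : ι => -(e * R)) (fun _ => e * R)) := measurableSet_Icc
  have hle : ∀ y : ι → ℝ, (Set.Icc (fun _ : ι => -(e * R)) (fun _ => e * R)).indicator
        (fun _ => ENNReal.ofReal (Real.pi * 2)) y ≤
      volume {x : Fin 2 → ℝ | (Sum.elim y x) ∈ Sh ι R} := by
    intro y
    by_cases hy : y ∈ Set.Icc (fun _ : ι => -(e * R)) (fun _ => e * R)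
    · rw [Set.indicator_of_mem hy]
      rw [mem_box] at hy
      have h0 : 0 ≤ ∑ i, y i ^ 2 := Finset.sum_nonneg fun i _ => sq_nonneg _
      have h3 : ∑ i, y i ^ 2 ≤ R ^ 2 / 16 := by
        calc ∑ i, y i ^ 2 ≤ ∑ _i : ι, (e * R) ^ 2 := by
              apply Finset.sum_le_sum
              intro i _
              rw [← sq_abs]
              exact pow_le_pow_left₀ (abs_nonneg _) (hy i) 2
          _ = n * e ^ 2 * R ^ 2 := by
              rw [Finset.sum_const, Finset.card_univ, nsmul_eq_mul, hn]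
              ring
          _ ≤ 1 / 16 * R ^ 2 := mul_le_mul_of_nonneg_right hes (sq_nonneg _)
          _ = R ^ 2 / 16 := by ring
      have h1 := annulus (1 + ∑ i, y i ^ 2) (3 + ∑ i, y i ^ 2) (by linarith) (by linarith)
      have h2 : (3 + ∑ i, y i ^ 2) - (1 + ∑ i, y i ^ 2) = 2 := by ring
      rw [h2] at h1
      rw [← h1]
      apply measure_mono
      rintro x ⟨hx1, hx2⟩
      rw [Set.mem_setOf_eq, mem_Sh_elim]
      refine ⟨hx1, by linarith, fun i => (hy i).trans ?_, fun i => ?_⟩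
      · nlinarith
      · apply abs_le_of_sq_le_sq _ (by linarith)
        have h4 : x i ^ 2 ≤ x 0 ^ 2 + x 1 ^ 2 := by
          fin_cases i
          · simp only [Fin.zero_eta]
            nlinarith [sq_nonneg (x 1)]
          · simp only [Fin.mk_one]
            nlinarith [sq_nonneg (x 0)]
        nlinarith
    · rw [Set.indicator_of_notMem hy]
      exact zero_le
  refine le_trans ?_ (lintegral_mono hle)
  rw [lintegral_indicator_const hbox, box_vol ι (e * R) (by positivity),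
    ← ENNReal.ofReal_mul (by positivity)]
  apply ENNReal.ofReal_le_ofReal
  rw [← mul_assoc, mul_pow, mul_pow]
  apply le_of_eq
  rw [mul_pow]
  ring

end vol

end Pool.Agent.MPd01a95
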