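import Mathlib
import Pool.Agent.Lib.MP_d01a95_gt.Vol
import Pool.Agent.Lib.MP_d01a95_gt.Box
import Pool.Agent.Lib.MP_d01a95_gt.Minor

set_option autoImplicit false

open Matrix MeasureTheory

namespace Pool.Agent.MPd01a95

namespace PropAAux

variable {ι : Type} [Fintype ι] [DecidableEq ι]

theorem nq_eq (v : ι ⊕ Fin 2 → ℝ) : nq v = -(v ⬝ᵥ (J ι *ᵥ v)) := by
  unfold nq J
  rw [Matrix.fromBlocks_mulVec]
  simp [dotProduct, Fintype.sum_sum_type, Matrix.neg_mulVec]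
  ring_nf

theorem nq_mulVec (h : Matrix (ι ⊕ Fin 2) (ι ⊕ Fin 2) ℝ) (hh : hᵀ * J ι * h = J ι)
    (v : ι ⊕ Fin 2 → ℝ) : nq (h *ᵥ v) = nq v := by
  rw [nq_eq, nq_eq]
  congr 1
  conv_rhs => rw [← hh]
  rw [← Matrix.mulVec_mulVec, ← Matrix.mulVec_mulVec, Matrix.dotProduct_mulVec v,
    Matrix.vecMul_transpose]

theorem det_abs (h : Matrix (ι ⊕ Fin 2) (ι ⊕ Fin 2) ℝ) (hh : hᵀ * J ι * h = J ι) :
    |h.det| = 1 := by
  have hJ : (J ι).det = 1 := by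
    unfold J
    rw [Matrix.det_fromBlocks_zero₁₂]
    simp [Matrix.det_fin_two]
  have h1 := congrArg Matrix.det hh
  rw [Matrix.det_mul, Matrix.det_mul, Matrix.det_transpose, hJ, mul_one] at h1
  have h2 : |h.det| * |h.det| = 1 := by rw [← abs_mul, h1, abs_one]
  nlinarith [abs_nonneg h.det]

theorem nq_smul (s : ℝ) (v : ι ⊕ Fin 2 → ℝ) : nq (s • v) = s ^ 2 * nq v := by
  unfold nq
  simp only [Pi.smul_apply, smul_eq_mul, mul_pow, mul_sub, mul_add, Finset.mul_sum]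

theorem continuous_nq : Continuous (nq : (ι ⊕ Fin 2 → ℝ) → ℝ) := by
  unfold nq
  fun_prop

theorem isClosed_Sh (R : ℝ) : IsClosed (Sh ι R) := by
  have : Sh ι R = {v | 1 ≤ nq v} ∩ ({v | nq v ≤ 4} ∩ {v | ∀ i, |v i| ≤ R}) := by
    ext v
    simp [Sh]
  rw [this]
  refine IsClosed.inter (isClosed_le continuous_const continuous_nq)
    (IsClosed.inter (isClosed_le continuous_nq continuous_const) ?_)
  rw [Set.ofPred_forall]
  exact isClosed_iInter fun i => isClosed_le (by fun_prop) continuous_const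

/-- the compact set used in the scaling argument -/
def Kc (ι : Type) [Fintype ι] (R : ℝ) : Set (ι ⊕ Fin 2 → ℝ) := {v | nq v = 1 ∧ ∀ i, |v i| ≤ R}

theorem isCompact_Kc (R : ℝ) : IsCompact (Kc ι R) := by
  have h1 : Kc ι R ⊆ Set.Icc (fun _ => -R) (fun _ => R) := by
    intro v hv
    refine ⟨fun i => ?_, fun i => ?_⟩
    · exact (abs_le.mp (hv.2 i)).1
    · exact (abs_le.mp (hv.2 i)).2
  have h2 : IsClosed (Kc ι R) := by
    have : Kc ι R = {v | nq v = 1} ∩ {v | ∀ i, |v i| ≤ R} := by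
      ext v
      simp [Kc]
    rw [this]
    refine IsClosed.inter (isClosed_eq continuous_nq continuous_const) ?_
    rw [Set.ofPred_forall]
    exact isClosed_iInter fun i => isClosed_le (by fun_prop) continuous_const
  exact IsCompact.of_isClosed_subset isCompact_Icc h2 h1

variable {G : Type} [Group G]

/-- scaling argument: finitely many `g` move a point of one shell into the other one -/
theorem finite_meet (ρ : G →* Matrix (ι ⊕ Fin 2) (ι ⊕ Fin 2) ℝ)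
    (hρ : ∀ g, (ρ g)ᵀ * J ι * ρ g = J ι) (hp : PropAdS ρ) (A B : ℝ) :
    {g : G | ∃ v ∈ Sh ι A, ρ g *ᵥ v ∈ Sh ι B}.Finite := by
  refine (hp (Kc ι (max A B)) (isCompact_Kc _) (fun x hx => hx.1)).subset ?_
  rintro g ⟨v, hv, hgv⟩
  have hs1 : 1 ≤ Real.sqrt (nq v) := by
    rw [Real.one_le_sqrt]
    exact hv.1
  have hs0 : 0 < Real.sqrt (nq v) := by linarith
  have hsq : Real.sqrt (nq v) ^ 2 = nq v := Real.sq_sqrt (by linarith [hv.1])
  have hinv : |(Real.sqrt (nq v))⁻¹| ≤ 1 := by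
    rw [abs_of_pos (inv_pos.mpr hs0)]
    exact inv_le_one_of_one_le₀ hs1
  have key : ((Real.sqrt (nq v))⁻¹) ^ 2 * nq v = 1 := by
    rw [inv_pow, hsq]
    exact inv_mul_cancel₀ (by linarith [hv.1])
  have hle : ∀ x : ℝ, |(Real.sqrt (nq v))⁻¹ * x| ≤ |x| := by
    intro x
    rw [abs_mul]
    exact mul_le_of_le_one_left (abs_nonneg x) hinv
  refine ⟨(Real.sqrt (nq v))⁻¹ • v, ⟨?_, ?_⟩, ⟨?_, ?_⟩⟩
  · rw [nq_smul]
    exact key
  · intro i
    rw [Pi.smul_apply, smul_eq_mul]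
    exact (hle _).trans ((hv.2.2 i).trans (le_max_left _ _))
  · rw [Matrix.mulVec_smul, nq_smul, nq_mulVec _ (hρ g)]
    exact key
  · intro i
    rw [Matrix.mulVec_smul, Pi.smul_apply, smul_eq_mul]
    exact (hle _).trans ((hgv.2.2 i).trans (le_max_right _ _))

theorem rr_nonneg (h : Matrix (ι ⊕ Fin 2) (ι ⊕ Fin 2) ℝ) : 0 ≤ rr h :=
  le_max_of_le_left (Real.sqrt_nonneg _)

/-- the sets in the shell of size `R` -/
def Dg (ρ : G →* Matrix (ι ⊕ Fin 2) (ι ⊕ Fin 2) ℝ) (R : ℝ) (g : G) : Set (ι ⊕ Fin 2 → ℝ) :=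
  {w | ρ g⁻¹ *ᵥ w ∈ Sh ι 2 ∧ w ∈ Sh ι R}

theorem measurableSet_Dg (ρ : G →* Matrix (ι ⊕ Fin 2) (ι ⊕ Fin 2) ℝ) (R : ℝ) (g : G) :
    MeasurableSet (Dg ρ R g) := by
  have h1 : IsClosed {w : ι ⊕ Fin 2 → ℝ | ρ g⁻¹ *ᵥ w ∈ Sh ι 2} :=
    (isClosed_Sh 2).preimage (by fun_prop)
  exact (h1.inter (isClosed_Sh R)).measurableSet

theorem mulVec_inv_cancel (ρ : G →* Matrix (ι ⊕ Fin 2) (ι ⊕ Fin 2) ℝ) (g : G)
    (w : ι ⊕ Fin 2 → ℝ) : ρ g *ᵥ (ρ g⁻¹ *ᵥ w) = w := by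
  rw [Matrix.mulVec_mulVec, ← map_mul, mul_inv_cancel, map_one, Matrix.one_mulVec]

theorem volume_Dg (ρ : G →* Matrix (ι ⊕ Fin 2) (ι ⊕ Fin 2) ℝ)
    (hρ : ∀ g, (ρ g)ᵀ * J ι * ρ g = J ι) (R : ℝ) (g : G) :
    volume (Dg ρ R g) = volume {v | v ∈ Sh ι 2 ∧ ρ g *ᵥ v ∈ Sh ι R} := by
  have h1 : Dg ρ R g = (Matrix.toLin' (ρ g⁻¹)) ⁻¹' {v | v ∈ Sh ι 2 ∧ ρ g *ᵥ v ∈ Sh ι R} := by
    ext w
    simp only [Dg, Set.mem_ofPred_eq, Set.mem_preimage, Matrix.toLin'_apply, mulVec_inv_cancel]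
  have hdet : |LinearMap.det (Matrix.toLin' (ρ g⁻¹))| = 1 := by
    rw [LinearMap.det_toLin']
    exact det_abs _ (hρ g⁻¹)
  have hdet0 : LinearMap.det (Matrix.toLin' (ρ g⁻¹)) ≠ 0 := by
    intro h0
    rw [h0, abs_zero] at hdet
    exact zero_ne_one hdet
  rw [h1, Measure.addHaar_preimage_linearMap _ hdet0, abs_inv, hdet]
  simp

/-- number of sets `Dg` containing a given point -/
theorem count_le (ρ : G →* Matrix (ι ⊕ Fin 2) (ι ⊕ Fin 2) ℝ) (F : Finset G)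
    (hF : ∀ g, (∃ v ∈ Sh ι 2, ρ g *ᵥ v ∈ Sh ι 2) → g ∈ F) (R : ℝ) (S : Finset G)
    (w : ι ⊕ Fin 2 → ℝ) :
    ∑ g ∈ S, (Dg ρ R g).indicator (fun _ => (1 : ENNReal)) w ≤
      (F.card : ENNReal) * (Sh ι R).indicator (fun _ => (1 : ENNReal)) w := by
  classical
  by_cases hw : w ∈ Sh ι R
  · rw [Set.indicator_of_mem hw, mul_one]
    have h1 : ∑ g ∈ S, (Dg ρ R g).indicator (fun _ => (1 : ENNReal)) w =
        ((S.filter fun g => w ∈ Dg ρ R g).card : ENNReal) := by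
      rw [Finset.card_filter, Nat.cast_sum]
      refine Finset.sum_congr rfl fun g _ => ?_
      by_cases hg : w ∈ Dg ρ R g
      · simp [hg]
      · simp [hg]
    rw [h1]
    norm_cast
    by_cases hne : (S.filter fun g => w ∈ Dg ρ R g).Nonempty
    · obtain ⟨g₁, hg₁⟩ := hne
      rw [Finset.mem_filter] at hg₁
      refine Finset.card_le_card_of_injOn (fun g => g⁻¹ * g₁) ?_ ?_
      · intro g hg
        rw [Finset.mem_coe, Finset.mem_filter] at hg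
        refine hF _ ⟨ρ g₁⁻¹ *ᵥ w, hg₁.2.1, ?_⟩
        have : ρ (g⁻¹ * g₁) *ᵥ (ρ g₁⁻¹ *ᵥ w) = ρ g⁻¹ *ᵥ w := by
          rw [map_mul, ← Matrix.mulVec_mulVec, mulVec_inv_cancel]
        rw [this]
        exact hg.2.1
      · intro a _ b _ hab
        simpa using hab
    · rw [Finset.not_nonempty_iff_eq_empty] at hne
      rw [hne]
      simp
  · have h1 : ∀ g ∈ S, (Dg ρ R g).indicator (fun _ => (1 : ENNReal)) w = 0 := by
      intro g _
      exact Set.indicator_of_notMem (fun h => hw h.2) _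
    rw [Finset.sum_eq_zero h1]
    exact zero_le

theorem sum_volume_le (ρ : G →* Matrix (ι ⊕ Fin 2) (ι ⊕ Fin 2) ℝ) (F : Finset G)
    (hF : ∀ g, (∃ v ∈ Sh ι 2, ρ g *ᵥ v ∈ Sh ι 2) → g ∈ F) (R : ℝ) (S : Finset G) :
    ∑ g ∈ S, volume (Dg ρ R g) ≤ (F.card : ENNReal) * volume (Sh ι R) := by
  have h1 : ∑ g ∈ S, volume (Dg ρ R g) =
      ∫⁻ w, ∑ g ∈ S, (Dg ρ R g).indicator (fun _ => (1 : ENNReal)) w := by
    rw [lintegral_finsetSum]
    · refine Finset.sum_congr rfl fun g _ => ?_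
      rw [lintegral_indicator (measurableSet_Dg ρ R g)]
      simp
    · intro g _
      exact measurable_const.indicator (measurableSet_Dg ρ R g)
  rw [h1]
  refine (lintegral_mono fun w => count_le ρ F hF R S w).trans ?_
  rw [lintegral_const_mul _ (measurable_const.indicator (isClosed_Sh R).measurableSet),
    lintegral_indicator (isClosed_Sh R).measurableSet]
  simp

end PropAAux

open PropAAux

variable {ι G : Type} [Fintype ι] [DecidableEq ι] [Group G]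

/-- module PropA -/
theorem finite_small (ρ : G →* Matrix (ι ⊕ Fin 2) (ι ⊕ Fin 2) ℝ)
    (hρ : ∀ g, (ρ g)ᵀ * J ι * ρ g = J ι) (hp : PropAdS ρ) (R : ℝ) :
    {g : G | Del (ρ g) ≤ R * rr (ρ g)}.Finite := by
  obtain ⟨c, hc, hbox⟩ := box_lower ι
  refine (finite_meet ρ hρ hp 2 (max 1 (4 * R))).subset ?_
  intro g hg
  have hg' : Del (ρ g) ≤ R * rr (ρ g) := hg
  have hr := (rr_le_Del (ρ g) (hρ g)).2.1
  have h1 : 4 * Del (ρ g) ≤ max 1 (4 * R) * rr (ρ g) := by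
    have : 4 * R * rr (ρ g) ≤ max 1 (4 * R) * rr (ρ g) :=
      mul_le_mul_of_nonneg_right (le_max_right _ _) (by linarith)
    linarith
  have h2 := hbox (ρ g) (hρ g) (max 1 (4 * R)) (le_max_left _ _) h1
  have h3 : 0 < c * min 1 (max 1 (4 * R) / rr (ρ g)) := by
    have : 0 < max 1 (4 * R) := lt_of_lt_of_le one_pos (le_max_left _ _)
    have : 0 < rr (ρ g) := by linarith
    positivity
  have h4 : 0 < volume {v | v ∈ Sh ι 2 ∧ ρ g *ᵥ v ∈ Sh ι (max 1 (4 * R))} :=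
    lt_of_lt_of_le (ENNReal.ofReal_pos.mpr h3) h2
  obtain ⟨v, hv⟩ := nonempty_of_measure_ne_zero h4.ne'
  exact ⟨v, hv.1, hv.2⟩

namespace PropAAux

/-- the counting inequality at one scale -/
theorem one_scale (ρ : G →* Matrix (ι ⊕ Fin 2) (ι ⊕ Fin 2) ℝ)
    (hρ : ∀ g, (ρ g)ᵀ * J ι * ρ g = J ι) (hp : PropAdS ρ) :
    ∃ C : ℝ, 0 < C ∧ ∀ R : ℝ, 1 ≤ R → ∀ S : Finset G, (∀ g ∈ S, 4 * Del (ρ g) ≤ R * rr (ρ g)) →
      ∑ g ∈ S, min 1 (R / rr (ρ g)) ≤ C * R ^ Fintype.card ι := by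
  obtain ⟨c, hc, hbox⟩ := box_lower ι
  obtain ⟨C, hC, hvol⟩ := vol_upper ι
  have hfin := finite_meet ρ hρ hp 2 2
  set F : Finset G := hfin.toFinset with hF
  have hFmem : ∀ g, (∃ v ∈ Sh ι 2, ρ g *ᵥ v ∈ Sh ι 2) → g ∈ F := by
    intro g hg
    rw [hF, Set.Finite.mem_toFinset]
    exact hg
  refine ⟨((F.card : ℝ) + 1) * C / c, by positivity, ?_⟩
  intro R hR S hS
  have hR0 : 0 < R := by linarith
  have hterm : ∀ g ∈ S, 0 ≤ c * min 1 (R / rr (ρ g)) := by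
    intro g _
    have := rr_nonneg (ρ g)
    positivity
  have h1 : ENNReal.ofReal (∑ g ∈ S, c * min 1 (R / rr (ρ g))) ≤
      ENNReal.ofReal (((F.card : ℝ) + 1) * (C * R ^ Fintype.card ι)) := by
    calc ENNReal.ofReal (∑ g ∈ S, c * min 1 (R / rr (ρ g)))
        = ∑ g ∈ S, ENNReal.ofReal (c * min 1 (R / rr (ρ g))) :=
          ENNReal.ofReal_sum_of_nonneg hterm
      _ ≤ ∑ g ∈ S, volume (Dg ρ R g) := by
          refine Finset.sum_le_sum fun g hg => ?_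
          rw [volume_Dg ρ hρ]
          exact hbox (ρ g) (hρ g) R hR (hS g hg)
      _ ≤ (F.card : ENNReal) * volume (Sh ι R) := sum_volume_le ρ F hFmem R S
      _ ≤ (F.card : ENNReal) * ENNReal.ofReal (C * R ^ Fintype.card ι) := by
          gcongr
          exact hvol R hR
      _ ≤ ENNReal.ofReal ((F.card : ℝ) + 1) * ENNReal.ofReal (C * R ^ Fintype.card ι) := by
          gcongr
          rw [← ENNReal.ofReal_natCast]
          exact ENNReal.ofReal_le_ofReal (by linarith)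
      _ = ENNReal.ofReal (((F.card : ℝ) + 1) * (C * R ^ Fintype.card ι)) := by
          rw [← ENNReal.ofReal_mul (by positivity)]
  rw [ENNReal.ofReal_le_ofReal_iff (by positivity), ← Finset.mul_sum] at h1
  rw [div_mul_eq_mul_div, le_div_iff₀ hc]
  linarith

/-- the dyadic exponent -/
theorem exists_dyadic (x : ℝ) (hx : 4 ≤ x) : ∃ i : ℕ, x ≤ 2 ^ i ∧ (2 : ℝ) ^ i ≤ 2 * x := by
  have hex : ∃ i : ℕ, x ≤ (2 : ℝ) ^ i := by
    obtain ⟨n, hn⟩ := pow_unbounded_of_one_lt x (one_lt_two)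
    exact ⟨n, hn.le⟩
  classical
  refine ⟨Nat.find hex, Nat.find_spec hex, ?_⟩
  have h0 : Nat.find hex ≠ 0 := by
    intro h0
    have := Nat.find_spec hex
    rw [h0] at this
    norm_num at this
    linarith
  obtain ⟨k, hk⟩ := Nat.exists_eq_succ_of_ne_zero h0
  have h1 := Nat.find_min hex (m := k) (by omega)
  push Not at h1
  rw [hk, pow_succ]
  linarith

theorem sum_pow_le (A : Finset ℕ) (Y : ℝ) (hA : ∀ i ∈ A, (2 : ℝ) ^ i ≤ Y) (hY : 0 ≤ Y) (m : ℕ) :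
    ∑ i ∈ A, ((2 : ℝ) ^ i) ^ (m + 1) ≤ 2 * Y ^ (m + 1) := by
  have h1 : ∑ i ∈ A, (2 : ℝ) ^ i ≤ 2 * Y := by
    by_cases hne : A.Nonempty
    · have hmax := hA _ (A.max'_mem hne)
      have hsub : A ⊆ Finset.range (A.max' hne + 1) := by
        intro i hi
        rw [Finset.mem_range]
        have := A.le_max' i hi
        omega
      have h2 : ∑ i ∈ A, (2 : ℝ) ^ i ≤ ∑ i ∈ Finset.range (A.max' hne + 1), (2 : ℝ) ^ i :=
        Finset.sum_le_sum_of_subset_of_nonneg hsub (fun i _ _ => by positivity)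
      rw [geom_sum_eq (by norm_num)] at h2
      rw [pow_succ] at h2
      linarith
    · rw [Finset.not_nonempty_iff_eq_empty] at hne
      subst hne
      simp
      exact hY
  calc ∑ i ∈ A, ((2 : ℝ) ^ i) ^ (m + 1) ≤ ∑ i ∈ A, Y ^ m * (2 : ℝ) ^ i := by
        refine Finset.sum_le_sum fun i hi => ?_
        rw [pow_succ]
        gcongr
        exact hA i hi
    _ = Y ^ m * ∑ i ∈ A, (2 : ℝ) ^ i := by rw [Finset.mul_sum]
    _ ≤ Y ^ m * (2 * Y) := by gcongr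
    _ = 2 * Y ^ (m + 1) := by ring

end PropAAux

/-- module PropA -/
theorem propA (hι : 4 ≤ Fintype.card ι) (ρ : G →* Matrix (ι ⊕ Fin 2) (ι ⊕ Fin 2) ℝ)
    (hρ : ∀ g, (ρ g)ᵀ * J ι * ρ g = J ι) (hp : PropAdS ρ) (c : G → ℝ) (hc : ∀ g, 1 ≤ c g)
    (C₀ : ℝ) (hdom : ∀ g, Del (ρ g) ≤ C₀ * c g ^ 2) :
    ∃ C : ℝ, 0 < C ∧ ∀ R : ℝ, 1 ≤ R → ∀ S : Finset G, (∀ g ∈ S, c g ≤ R) →
      R ^ 2 * ∑ g ∈ S, (Del (ρ g))⁻¹ ≤ C * R ^ Fintype.card ι := by
  classical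
  obtain ⟨C₁, hC₁, hone⟩ := one_scale ρ hρ hp
  obtain ⟨m, hm⟩ : ∃ m, Fintype.card ι = m + 1 + 2 := ⟨Fintype.card ι - 3, by omega⟩
  set C₂ : ℝ := max C₀ 1 with hC₂
  have hC₂1 : 1 ≤ C₂ := le_max_right _ _
  set K : ℝ := 8 * Real.sqrt C₂ with hK
  have hK0 : 0 < K := by
    have : 0 < Real.sqrt C₂ := Real.sqrt_pos.mpr (by linarith)
    positivity
  refine ⟨64 * C₁ * (2 * K ^ (m + 1)), by positivity, ?_⟩
  intro R hR S hS
  have hR0 : 0 < R := by linarith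
  -- facts about each g
  have hrr : ∀ g, 1 ≤ rr (ρ g) := fun g => (rr_le_Del (ρ g) (hρ g)).2.1
  have hDel : ∀ g, 1 ≤ Del (ρ g) := fun g => (rr_le_Del (ρ g) (hρ g)).1
  have hrD : ∀ g, rr (ρ g) ≤ Del (ρ g) := fun g => (rr_le_Del (ρ g) (hρ g)).2.2
  have hx : ∀ g, 4 ≤ 4 * Del (ρ g) / rr (ρ g) := by
    intro g
    rw [le_div_iff₀ (by linarith [hrr g])]
    linarith [hrD g]
  choose e he1 he2 using fun g => exists_dyadic _ (hx g)
  have hinv : ∀ g, (Del (ρ g))⁻¹ ≤ 64 * ((((2 : ℝ) ^ e g) ^ 2)⁻¹ *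
      min 1 ((2 : ℝ) ^ e g / rr (ρ g))) := by
    intro g
    have hr := hrr g
    have hr0 : 0 < rr (ρ g) := by linarith
    have hD0 : 0 < Del (ρ g) := by linarith [hDel g]
    have hp0 : (0 : ℝ) < 2 ^ e g := by positivity
    have h2 := he2 g
    have hbd : (2 : ℝ) ^ e g * rr (ρ g) ≤ 8 * Del (ρ g) := by
      rw [mul_div_assoc', le_div_iff₀ hr0] at h2
      linarith
    have hsq := Del_le_sq (ρ g)
    rcases le_total 1 ((2 : ℝ) ^ e g / rr (ρ g)) with hcase | hcase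
    · rw [min_eq_left hcase, mul_one]
      have h3 : ((2 : ℝ) ^ e g) ^ 2 ≤ 64 * Del (ρ g) := by
        have h4 : ((2 : ℝ) ^ e g) ^ 2 * Del (ρ g) ≤ 64 * Del (ρ g) * Del (ρ g) := by
          calc ((2 : ℝ) ^ e g) ^ 2 * Del (ρ g) ≤ ((2 : ℝ) ^ e g) ^ 2 * rr (ρ g) ^ 2 := by gcongr
            _ = ((2 : ℝ) ^ e g * rr (ρ g)) ^ 2 := by ring
            _ ≤ (8 * Del (ρ g)) ^ 2 := by gcongr
            _ = 64 * Del (ρ g) * Del (ρ g) := by ring
        exact le_of_mul_le_mul_right h4 hD0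
      rw [← div_eq_mul_inv, inv_eq_one_div, div_le_div_iff₀ hD0 (by positivity)]
      linarith
    · rw [min_eq_right hcase]
      have h3 : 64 * ((((2 : ℝ) ^ e g) ^ 2)⁻¹ * ((2 : ℝ) ^ e g / rr (ρ g))) =
          64 / ((2 : ℝ) ^ e g * rr (ρ g)) := by
        field_simp
      rw [h3, inv_eq_one_div, div_le_div_iff₀ hD0 (by positivity)]
      nlinarith
  have hY : ∀ g ∈ S, (2 : ℝ) ^ e g ≤ K * R := by
    intro g hg
    have hr0 : 0 < rr (ρ g) := by linarith [hrr g]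
    have hD0 : 0 < Del (ρ g) := by linarith [hDel g]
    have hsq := Del_le_sq (ρ g)
    have h1 : Del (ρ g) ≤ C₂ * R ^ 2 := by
      refine (hdom g).trans ?_
      have h2 : c g ^ 2 ≤ R ^ 2 := by
        have := hc g
        have := hS g hg
        gcongr
      calc C₀ * c g ^ 2 ≤ C₂ * c g ^ 2 := by
            gcongr
            exact le_max_left _ _
        _ ≤ C₂ * R ^ 2 := by gcongr
    have h3 : (Del (ρ g) / rr (ρ g)) ^ 2 ≤ C₂ * R ^ 2 := by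
      refine le_trans ?_ h1
      rw [div_pow, div_le_iff₀ (by positivity), sq]
      exact mul_le_mul_of_nonneg_left hsq hD0.le
    have h4 : Del (ρ g) / rr (ρ g) ≤ Real.sqrt C₂ * R := by
      have h5 : C₂ * R ^ 2 = (Real.sqrt C₂ * R) ^ 2 := by
        rw [mul_pow, Real.sq_sqrt (by linarith)]
      rw [h5] at h3
      exact le_of_sq_le_sq h3 (by positivity)
    have h6 := he2 g
    have h7 : 2 * (4 * Del (ρ g) / rr (ρ g)) = 8 * (Del (ρ g) / rr (ρ g)) := by ring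
    rw [h7] at h6
    rw [hK]
    nlinarith
  -- decomposition of the sum
  have hsum : ∑ g ∈ S, (((2 : ℝ) ^ e g) ^ 2)⁻¹ * min 1 ((2 : ℝ) ^ e g / rr (ρ g)) =
      ∑ i ∈ S.image e, (((2 : ℝ) ^ i) ^ 2)⁻¹ *
        ∑ g ∈ S.filter (fun g => e g = i), min 1 ((2 : ℝ) ^ i / rr (ρ g)) := by
    rw [← Finset.sum_fiberwise_of_maps_to (s := S) (t := S.image e) (g := e)
      (fun g hg => Finset.mem_image_of_mem e hg)]
    refine Finset.sum_congr rfl fun i _ => ?_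
    rw [Finset.mul_sum]
    refine Finset.sum_congr rfl fun g hg => ?_
    rw [(Finset.mem_filter.mp hg).2]
  have hscale : ∀ i, ∑ g ∈ S.filter (fun g => e g = i), min 1 ((2 : ℝ) ^ i / rr (ρ g)) ≤
      C₁ * ((2 : ℝ) ^ i) ^ Fintype.card ι := by
    intro i
    refine hone _ (one_le_pow₀ one_le_two) _ ?_
    intro g hg
    have h1 := he1 g
    rw [(Finset.mem_filter.mp hg).2, div_le_iff₀ (by linarith [hrr g])] at h1
    exact h1
  have hA : ∀ i ∈ S.image e, (2 : ℝ) ^ i ≤ K * R := by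
    intro i hi
    obtain ⟨g, hg, rfl⟩ := Finset.mem_image.mp hi
    exact hY g hg
  calc R ^ 2 * ∑ g ∈ S, (Del (ρ g))⁻¹
      ≤ R ^ 2 * ∑ g ∈ S, 64 * ((((2 : ℝ) ^ e g) ^ 2)⁻¹ *
          min 1 ((2 : ℝ) ^ e g / rr (ρ g))) := by
        gcongr with g hg
        exact hinv g
    _ = R ^ 2 * (64 * ∑ i ∈ S.image e, (((2 : ℝ) ^ i) ^ 2)⁻¹ *
          ∑ g ∈ S.filter (fun g => e g = i), min 1 ((2 : ℝ) ^ i / rr (ρ g))) := by
        rw [← Finset.mul_sum, hsum]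
    _ ≤ R ^ 2 * (64 * ∑ i ∈ S.image e, (((2 : ℝ) ^ i) ^ 2)⁻¹ *
          (C₁ * ((2 : ℝ) ^ i) ^ Fintype.card ι)) := by
        gcongr with i hi
        exact hscale i
    _ = R ^ 2 * (64 * C₁ * ∑ i ∈ S.image e, ((2 : ℝ) ^ i) ^ (m + 1)) := by
        rw [mul_assoc 64 C₁, Finset.mul_sum _ _ C₁]
        congr 2
        refine Finset.sum_congr rfl fun i _ => ?_
        rw [hm]
        have : (0 : ℝ) < 2 ^ i := by positivity
        rw [pow_add ((2 : ℝ) ^ i) (m + 1) 2]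
        field_simp
    _ ≤ R ^ 2 * (64 * C₁ * (2 * (K * R) ^ (m + 1))) := by
        gcongr
        exact sum_pow_le _ _ hA (by positivity) m
    _ = 64 * C₁ * (2 * K ^ (m + 1)) * R ^ Fintype.card ι := by
        rw [hm, mul_pow]
        ring

end Pool.Agent.MPd01a95
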