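import Mathlib
import Pool.Agent.Lib.MP_d01a95_gt.Defs
import Pool.Agent.Lib.MP_d01a95_gt.Minor
import Pool.Agent.Lib.MP_d01a95_gt.Hyp
import Pool.Agent.Lib.MP_d01a95_gt.PropA

set_option autoImplicit false

open Matrix MeasureTheory

namespace Pool.Agent.MPd01a95

namespace LimitAux

open Filter Topology

/-- growth comparison -/
theorem le_of_pow_le {u v K : ℝ} (hv : 0 ≤ v)
    (h : ∀ m : ℕ, u ^ m ≤ K * v ^ m) : u ≤ v := by
  by_contra hcon
  push Not at hcon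
  have hu : 0 < u := lt_of_le_of_lt hv hcon
  have h1 : Tendsto (fun m : ℕ => K * (v / u) ^ m) atTop (𝓝 (K * 0)) :=
    (tendsto_pow_atTop_nhds_zero_of_lt_one (div_nonneg hv hu.le)
      ((div_lt_one hu).mpr hcon)).const_mul K
  rw [mul_zero] at h1
  have h2 : ∀ m : ℕ, (1 : ℝ) ≤ K * (v / u) ^ m := by
    intro m
    rw [div_pow, ← mul_div_assoc, le_div_iff₀ (pow_pos hu m), one_mul]
    exact h m
  have h3 := ge_of_tendsto' h1 h2
  linarith

section real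

variable {N : Type} [Fintype N]

/-- the array of two by two minors -/
def mn (h : Matrix N N ℝ) (k l i j : N) : ℝ := h i k * h j l - h j k * h i l

/-- the action of an array on matrices -/
noncomputable def act2 (α : N → N → N → N → ℝ) : Matrix N N ℝ →ₗ[ℝ] Matrix N N ℝ where
  toFun S := Matrix.of fun i j => (1 / 2) * ∑ k, ∑ l, S k l * α k l i j
  map_add' S T := by
    ext i j
    simp only [Matrix.of_apply, Matrix.add_apply, add_mul, Finset.sum_add_distrib, mul_add]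
  map_smul' r S := by
    ext i j
    simp only [Matrix.of_apply, Matrix.smul_apply, smul_eq_mul, RingHom.id_apply, mul_assoc,
      ← Finset.mul_sum]
    ring

theorem act2_apply (α : N → N → N → N → ℝ) (S : Matrix N N ℝ) (i j : N) :
    act2 α S i j = (1 / 2) * ∑ k, ∑ l, S k l * α k l i j := rfl

theorem act2_tendsto {α : ℕ → N → N → N → N → ℝ} {α₀ : N → N → N → N → ℝ}
    {S : ℕ → Matrix N N ℝ} {S₀ : Matrix N N ℝ}
    (hα : Tendsto α atTop (𝓝 α₀)) (hS : Tendsto S atTop (𝓝 S₀)) :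
    Tendsto (fun n => act2 (α n) (S n)) atTop (𝓝 (act2 α₀ S₀)) := by
  have h1 : ∀ k l i j, Tendsto (fun n => α n k l i j) atTop (𝓝 (α₀ k l i j)) := by
    intro k l i j
    have := (((tendsto_pi_nhds.mp hα) k))
    have := (((tendsto_pi_nhds.mp this) l))
    have := (((tendsto_pi_nhds.mp this) i))
    exact (((tendsto_pi_nhds.mp this) j))
  have h2 : ∀ k l, Tendsto (fun n => S n k l) atTop (𝓝 (S₀ k l)) := by
    intro k l
    have := (((tendsto_pi_nhds.mp hS) k))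
    exact (((tendsto_pi_nhds.mp this) l))
  refine tendsto_pi_nhds.mpr fun i => tendsto_pi_nhds.mpr fun j => ?_
  simp only [act2_apply]
  refine Tendsto.const_mul _ ?_
  refine tendsto_finsetSum _ fun k _ => tendsto_finsetSum _ fun l _ => ?_
  exact (h2 k l).mul (h1 k l i j)

theorem conj_apply (h S : Matrix N N ℝ) (i j : N) :
    (h * S * hᵀ) i j = ∑ k, ∑ l, S k l * (h i k * h j l) := by
  simp only [Matrix.mul_apply, Matrix.transpose_apply, Finset.sum_mul]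
  rw [Finset.sum_comm]
  refine Finset.sum_congr rfl fun k _ => Finset.sum_congr rfl fun l _ => ?_
  ring

theorem act2_eq (h : Matrix N N ℝ) (c : ℝ) (S : Matrix N N ℝ) (hS : Sᵀ = -S) :
    act2 (fun k l i j => mn h k l i j / c ^ 2) S = (c ^ 2)⁻¹ • (h * S * hᵀ) := by
  ext i j
  rw [act2_apply, Matrix.smul_apply, conj_apply, smul_eq_mul]
  have hS' : ∀ k l, S k l = - S l k := by
    intro k l
    have := congrFun (congrFun hS l) k
    simpa [Matrix.transpose_apply] using this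
  have h1 : ∑ k, ∑ l, S k l * (h j k * h i l) = - ∑ k, ∑ l, S k l * (h i k * h j l) := by
    rw [Finset.sum_comm, ← Finset.sum_neg_distrib]
    refine Finset.sum_congr rfl fun k _ => ?_
    rw [← Finset.sum_neg_distrib]
    refine Finset.sum_congr rfl fun l _ => ?_
    rw [hS' l k]
    ring
  have h2 : ∑ k, ∑ l, S k l * (mn h k l i j / c ^ 2)
      = (c ^ 2)⁻¹ * (∑ k, ∑ l, S k l * (h i k * h j l) - ∑ k, ∑ l, S k l * (h j k * h i l)) := by
    rw [← Finset.sum_sub_distrib, Finset.mul_sum]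
    refine Finset.sum_congr rfl fun k _ => ?_
    rw [← Finset.sum_sub_distrib, Finset.mul_sum]
    refine Finset.sum_congr rfl fun l _ => ?_
    rw [mn]
    ring
  rw [h2, h1]
  ring

theorem act2_skew (α : N → N → N → N → ℝ) (hα : ∀ k l i j, α k l j i = - α k l i j)
    (S : Matrix N N ℝ) : (act2 α S)ᵀ = - act2 α S := by
  ext i j
  rw [Matrix.transpose_apply, Matrix.neg_apply, act2_apply, act2_apply]
  simp only [hα _ _ i j]
  simp only [mul_neg, Finset.sum_neg_distrib]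

theorem conj_skew (r S : Matrix N N ℝ) (hS : Sᵀ = -S) : (r * S * rᵀ)ᵀ = -(r * S * rᵀ) := by
  rw [Matrix.transpose_mul, Matrix.transpose_mul, Matrix.transpose_transpose, hS]
  simp [Matrix.mul_assoc]

/-- iteration -/
noncomputable def it (α : N → N → N → N → ℝ) (r S : Matrix N N ℝ) : ℕ → Matrix N N ℝ
  | 0 => S
  | k + 1 => act2 α (r * it α r S k * rᵀ)

theorem it_eq [DecidableEq N] (h : Matrix N N ℝ) (c : ℝ) (r S : Matrix N N ℝ) (hS : Sᵀ = -S)
    (k : ℕ) :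
    (it (fun k l i j => mn h k l i j / c ^ 2) r S k
      = (c ^ (2 * k))⁻¹ • ((h * r) ^ k * S * ((h * r) ^ k)ᵀ)) := by
  induction k with
  | zero => simp [it]
  | succ k ih =>
    rw [it, act2_eq, ih]
    · rw [pow_succ' (h * r) k, Matrix.transpose_mul, Matrix.transpose_mul]
      simp only [Matrix.mul_smul, Matrix.smul_mul, smul_smul, Matrix.mul_assoc]
      congr 1
      rw [mul_add, pow_add, mul_one, mul_inv]
      ring
    · apply conj_skew
      rw [ih, Matrix.transpose_smul, conj_skew _ _ hS, smul_neg]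

theorem it_tendsto {α : ℕ → N → N → N → N → ℝ} {α₀ : N → N → N → N → ℝ}
    (r S : Matrix N N ℝ) (hα : Tendsto α atTop (𝓝 α₀)) (k : ℕ) :
    Tendsto (fun n => it (α n) r S k) atTop (𝓝 (it α₀ r S k)) := by
  induction k with
  | zero => exact tendsto_const_nhds
  | succ k ih =>
    simp only [it]
    apply act2_tendsto hα
    exact (ih.const_mul r).mul_const _

theorem it_lim {α₀ : N → N → N → N → ℝ} (b : Matrix N N ℝ →ₗ[ℝ] ℝ) (a : Matrix N N ℝ)
    (hab : ∀ S, act2 α₀ S = b S • a) (r S : Matrix N N ℝ) (k : ℕ) :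
    it α₀ r S (k + 1) = (b (r * a * rᵀ) ^ k * b (r * S * rᵀ)) • a := by
  induction k with
  | zero => simp [it, hab]
  | succ k ih =>
    rw [it, ih, hab]
    rw [Matrix.mul_smul, Matrix.smul_mul, map_smul, smul_eq_mul]
    congr 1
    ring

end real

section lem2

variable {ι : Type} [Fintype ι] [DecidableEq ι]

theorem J_quad (S T : Matrix (ι ⊕ Fin 2) (ι ⊕ Fin 2) ℝ) (j k : ι ⊕ Fin 2) :
    (Sᵀ * J ι * T) j k = ∑ i, S (Sum.inl i) j * T (Sum.inl i) k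
      - S (Sum.inr 0) j * T (Sum.inr 0) k - S (Sum.inr 1) j * T (Sum.inr 1) k := by
  rw [Matrix.mul_assoc, Matrix.mul_apply]
  have h1 : ∀ i, (J ι * T) (Sum.inl i) k = T (Sum.inl i) k := by
    intro i
    rw [Matrix.mul_apply, Fintype.sum_sum_type]
    simp [J, Matrix.one_apply]
  have h2 : ∀ i, (J ι * T) (Sum.inr i) k = - T (Sum.inr i) k := by
    intro i
    rw [Matrix.mul_apply, Fintype.sum_sum_type]
    simp [J, Matrix.one_apply]
  rw [Fintype.sum_sum_type]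
  simp only [h1, h2, Matrix.transpose_apply, Fin.sum_univ_two]
  ring

theorem zero_of (T : Matrix (ι ⊕ Fin 2) (ι ⊕ Fin 2) ℝ) (hT : Tᵀ = -T)
    (hJ : Tᵀ * J ι * T = 0) (h01 : T (Sum.inr 0) (Sum.inr 1) = 0) : T = 0 := by
  have hs : ∀ i j, T i j = - T j i := by
    intro i j
    have := congrFun (congrFun hT j) i
    simpa [Matrix.transpose_apply] using this
  have hq : ∀ j, ∑ i, T (Sum.inl i) j * T (Sum.inl i) j
      - T (Sum.inr 0) j * T (Sum.inr 0) j - T (Sum.inr 1) j * T (Sum.inr 1) j = 0 := by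
    intro j
    rw [← J_quad, hJ]
    rfl
  have h00 : T (Sum.inr 0) (Sum.inr 0) = 0 := by
    have := hs (Sum.inr 0) (Sum.inr 0)
    linarith
  have h11 : T (Sum.inr 1) (Sum.inr 1) = 0 := by
    have := hs (Sum.inr 1) (Sum.inr 1)
    linarith
  have h10 : T (Sum.inr 1) (Sum.inr 0) = 0 := by
    have := hs (Sum.inr 1) (Sum.inr 0)
    linarith
  have key : ∀ j, T (Sum.inr 0) j = 0 → T (Sum.inr 1) j = 0 → ∀ i, T (Sum.inl i) j = 0 := by
    intro j h0 h1 i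
    have h2 := hq j
    rw [h0, h1] at h2
    have h3 : ∑ i, T (Sum.inl i) j * T (Sum.inl i) j = 0 := by linarith
    rw [Finset.sum_eq_zero_iff_of_nonneg (fun i _ => mul_self_nonneg _)] at h3
    exact mul_self_eq_zero.mp (h3 i (Finset.mem_univ i))
  have k0 := key (Sum.inr 0) h00 h10
  have k1 := key (Sum.inr 1) h01 h11
  have r0 : ∀ j, T (Sum.inr 0) j = 0 := by
    rintro (i | i)
    · rw [hs, k0, neg_zero]
    · fin_cases i
      · exact h00
      · exact h01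
  have r1 : ∀ j, T (Sum.inr 1) j = 0 := by
    rintro (i | i)
    · rw [hs, k1, neg_zero]
    · fin_cases i
      · exact h10
      · exact h11
  ext i j
  rcases i with i | i
  · exact key j (r0 j) (r1 j) i
  · fin_cases i
    · exact r0 j
    · exact r1 j

end lem2

section lem3

variable {κ : Type} [Fintype κ] [DecidableEq κ]

theorem JC_quad (w : κ ⊕ Unit → ℂ) :
    star w ⬝ᵥ (JC κ *ᵥ w) = ((∑ i, ‖w (Sum.inl i)‖ ^ 2 - ‖w (Sum.inr ())‖ ^ 2 : ℝ) : ℂ) := by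
  have h1 : ∀ i, (JC κ *ᵥ w) (Sum.inl i) = w (Sum.inl i) := by
    intro i
    rw [Matrix.mulVec, dotProduct, Fintype.sum_sum_type]
    simp [JC, Matrix.one_apply]
  have h2 : ∀ i, (JC κ *ᵥ w) (Sum.inr i) = - w (Sum.inr i) := by
    intro i
    rw [Matrix.mulVec, dotProduct, Fintype.sum_sum_type]
    simp [JC, Matrix.one_apply]
  rw [dotProduct, Fintype.sum_sum_type]
  simp only [h1, h2, Pi.star_apply, Finset.univ_unique, Finset.sum_singleton, PUnit.default_eq_unit]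
  have h3 : ∀ z : ℂ, star z * z = ((‖z‖ ^ 2 : ℝ) : ℂ) := by
    intro z
    rw [Complex.star_def, ← Complex.normSq_eq_conj_mul_self, Complex.normSq_eq_norm_sq]
  simp only [mul_neg, h3]
  push_cast
  ring

theorem Bzero (B : Matrix (κ ⊕ Unit) (κ ⊕ Unit) ℂ) (hB : Bᴴ * JC κ * B = 0)
    (z : κ ⊕ Unit → ℂ) (hz : (B *ᵥ z) (Sum.inr ()) = 0) : B *ᵥ z = 0 := by
  have h1 : star (B *ᵥ z) ⬝ᵥ (JC κ *ᵥ (B *ᵥ z)) = 0 := by
    rw [Matrix.star_mulVec, Matrix.mulVec_mulVec, ← Matrix.dotProduct_mulVec,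
      Matrix.mulVec_mulVec, ← Matrix.mul_assoc, hB, Matrix.zero_mulVec, dotProduct_zero]
  rw [JC_quad, hz] at h1
  have h2 : ∑ i, ‖(B *ᵥ z) (Sum.inl i)‖ ^ 2 = 0 := by
    have : (∑ i, ‖(B *ᵥ z) (Sum.inl i)‖ ^ 2 - ‖(0 : ℂ)‖ ^ 2 : ℝ) = 0 := by exact_mod_cast h1
    simpa using this
  rw [Finset.sum_eq_zero_iff_of_nonneg (fun i _ => by positivity)] at h2
  ext i
  rcases i with i | i
  · have := h2 i (Finset.mem_univ i)
    simpa using this
  · exact hz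

theorem Brank (B : Matrix (κ ⊕ Unit) (κ ⊕ Unit) ℂ) (hB : Bᴴ * JC κ * B = 0)
    (h1 : ‖B (Sum.inr ()) (Sum.inr ())‖ = 1) :
    ∃ x : κ ⊕ Unit → ℂ, x (Sum.inr ()) = 1 ∧
      ∀ z, B *ᵥ z = (B (Sum.inr ()) ⬝ᵥ z) • x := by
  have hne : B (Sum.inr ()) (Sum.inr ()) ≠ 0 := by
    intro h0
    rw [h0, norm_zero] at h1
    exact zero_ne_one h1
  set e : κ ⊕ Unit → ℂ := Pi.single (Sum.inr ()) 1 with he
  have hBe : ∀ i, (B *ᵥ e) i = B i (Sum.inr ()) := by
    intro i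
    simp [he]
  refine ⟨(B (Sum.inr ()) (Sum.inr ()))⁻¹ • (B *ᵥ e), ?_, ?_⟩
  · rw [Pi.smul_apply, hBe, smul_eq_mul, inv_mul_cancel₀ hne]
  · intro z
    have h2 : B *ᵥ (z - ((B (Sum.inr ()) ⬝ᵥ z) * (B (Sum.inr ()) (Sum.inr ()))⁻¹) • e) = 0 := by
      apply Bzero B hB
      rw [Matrix.mulVec_sub, Matrix.mulVec_smul, Pi.sub_apply, Pi.smul_apply, hBe, smul_eq_mul,
        mul_assoc, inv_mul_cancel₀ hne, mul_one]
      exact sub_self _
    rw [Matrix.mulVec_sub, Matrix.mulVec_smul, sub_eq_zero] at h2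
    rw [h2, smul_smul]

theorem Bpow (B s : Matrix (κ ⊕ Unit) (κ ⊕ Unit) ℂ) (x : κ ⊕ Unit → ℂ)
    (y : κ ⊕ Unit → ℂ) (hx : ∀ z, B *ᵥ z = (y ⬝ᵥ z) • x) (z : κ ⊕ Unit → ℂ) (k : ℕ) :
    (B * s) ^ (k + 1) *ᵥ z = ((y ⬝ᵥ (s *ᵥ x)) ^ k * (y ⬝ᵥ (s *ᵥ z))) • x := by
  induction k with
  | zero => rw [zero_add, pow_one, pow_zero, one_mul, ← Matrix.mulVec_mulVec, hx]
  | succ k ih =>
    rw [pow_succ' _ (k + 1), ← Matrix.mulVec_mulVec, ih, ← Matrix.mulVec_mulVec, hx,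
      Matrix.mulVec_smul, dotProduct_smul, smul_eq_mul]
    congr 1
    ring

end lem3

section seqs

variable {ι κ G : Type} [Fintype ι] [DecidableEq ι] [Fintype κ] [DecidableEq κ] [Group G]

/-- the matrix unit difference -/
noncomputable def S0 (ι : Type) [DecidableEq ι] : Matrix (ι ⊕ Fin 2) (ι ⊕ Fin 2) ℝ :=
  Matrix.single (Sum.inr 0) (Sum.inr 1) 1 - Matrix.single (Sum.inr 1) (Sum.inr 0) 1

theorem S0_skew : (S0 ι)ᵀ = - S0 ι := by
  rw [S0, Matrix.transpose_sub, Matrix.transpose_single, Matrix.transpose_single, neg_sub]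

theorem S0_conj (h : Matrix (ι ⊕ Fin 2) (ι ⊕ Fin 2) ℝ) :
    |(h * S0 ι * hᵀ) (Sum.inr 0) (Sum.inr 1)| = Del h := by
  have h1 : (h * S0 ι * hᵀ) (Sum.inr 0) (Sum.inr 1) =
      h (Sum.inr 0) (Sum.inr 0) * h (Sum.inr 1) (Sum.inr 1)
        - h (Sum.inr 0) (Sum.inr 1) * h (Sum.inr 1) (Sum.inr 0) := by
    rw [conj_apply, S0]
    simp only [Matrix.sub_apply, Matrix.single_apply, sub_mul, Finset.sum_sub_distrib, ite_mul,
      one_mul, zero_mul, ite_and, Finset.sum_ite_eq, Finset.mem_univ, if_true]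
    simp [Finset.sum_ite_eq]
  rw [h1, Del, Matrix.det_fin_two]
  simp [Matrix.toBlocks₂₂]

/-- the quotient rr / Del tends to zero along sequences leaving every finite set -/
theorem rr_div (ρ : G →* Matrix (ι ⊕ Fin 2) (ι ⊕ Fin 2) ℝ)
    (hρ : ∀ g, (ρ g)ᵀ * J ι * ρ g = J ι) (hp : PropAdS ρ)
    (c : G → ℝ) (g : ℕ → G) (hg : Tendsto (fun n => c (g n)) atTop atTop) :
    Tendsto (fun n => rr (ρ (g n)) / Del (ρ (g n))) atTop (𝓝 0) := by
  rw [Metric.tendsto_atTop]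
  intro ε hε
  have hfin := finite_small ρ hρ hp (2 / ε)
  obtain ⟨K, hK⟩ : ∃ K : ℝ, ∀ x ∈ {g : G | Del (ρ g) ≤ (2 / ε) * rr (ρ g)}, c x ≤ K := by
    obtain ⟨K, hK⟩ := (hfin.image c).bddAbove
    exact ⟨K, fun x hx => hK ⟨x, hx, rfl⟩⟩
  obtain ⟨n₀, hn₀⟩ := (hg.eventually (eventually_gt_atTop K)).exists_forall_of_atTop
  refine ⟨n₀, fun n hn => ?_⟩
  have h1 : ¬ (Del (ρ (g n)) ≤ (2 / ε) * rr (ρ (g n))) := by
    intro h
    have := hK _ h
    have := hn₀ n hn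
    linarith
  push Not at h1
  obtain ⟨hD, hr, -⟩ := rr_le_Del (ρ (g n)) (hρ _)
  have hD0 : 0 < Del (ρ (g n)) := by linarith
  rw [Real.dist_eq, sub_zero, abs_of_nonneg (by positivity), div_lt_iff₀ hD0]
  rw [div_mul_eq_mul_div, div_lt_iff₀ hε] at h1
  nlinarith

theorem quad_bound (h M : Matrix (ι ⊕ Fin 2) (ι ⊕ Fin 2) ℝ) (r : ℝ)
    (hr : ∀ i j, |h i j| ≤ 3 * r) (i j : ι ⊕ Fin 2) :
    |(h * M * hᵀ) i j| ≤ (9 * ∑ k, ∑ l, |M k l|) * r ^ 2 := by
  rw [conj_apply]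
  refine (Finset.abs_sum_le_sum_abs _ _).trans ?_
  rw [Finset.mul_sum, Finset.sum_mul]
  refine Finset.sum_le_sum fun k _ => ?_
  refine (Finset.abs_sum_le_sum_abs _ _).trans ?_
  rw [Finset.mul_sum, Finset.sum_mul]
  refine Finset.sum_le_sum fun l _ => ?_
  rw [abs_mul, abs_mul]
  have h1 := hr i k
  have h2 := hr j l
  have h3 := abs_nonneg (h i k)
  have h4 := abs_nonneg (h j l)
  have h5 : |h i k| * |h j l| ≤ (3 * r) * (3 * r) := by
    apply mul_le_mul h1 h2 h4 (h3.trans h1)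
  calc |M k l| * (|h i k| * |h j l|) ≤ |M k l| * ((3 * r) * (3 * r)) :=
        mul_le_mul_of_nonneg_left h5 (abs_nonneg _)
    _ = 9 * |M k l| * r ^ 2 := by ring

end seqs

end LimitAux

open LimitAux Filter Topology

section limits

variable {ι κ G : Type} [Fintype ι] [DecidableEq ι] [Fintype κ] [DecidableEq κ] [Group G]

/-- module Limit -/
theorem limit_id (ρ : G →* Matrix (ι ⊕ Fin 2) (ι ⊕ Fin 2) ℝ)
    (hρ : ∀ g, (ρ g)ᵀ * J ι * ρ g = J ι) (hp : PropAdS ρ)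
    (σ : G →* Matrix (κ ⊕ Unit) (κ ⊕ Unit) ℂ)
    (hσ : ∀ g, (σ g)ᴴ * JC κ * σ g = JC κ)
    (hunb : ∀ R : ℝ, ∃ g, R ≤ cc (σ g))
    (hup : ∃ C : ℝ, ∀ g, Del (ρ g) ≤ C * cc (σ g) ^ 2)
    (hlo : ∃ ε : ℝ, 0 < ε ∧ ∀ g, ε * cc (σ g) ^ 2 ≤ Del (ρ g)) :
    ∃ (a : Matrix (ι ⊕ Fin 2) (ι ⊕ Fin 2) ℝ)
      (b : Matrix (ι ⊕ Fin 2) (ι ⊕ Fin 2) ℝ →ₗ[ℝ] ℝ) (x y : κ ⊕ Unit → ℂ),
      aᵀ = -a ∧ a ≠ 0 ∧ (∃ S, Sᵀ = -S ∧ b S ≠ 0) ∧
      ∀ g, |b (ρ g * a * (ρ g)ᵀ)| = ‖y ⬝ᵥ (σ g *ᵥ x)‖ ^ 2 := by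
  obtain ⟨C, hC⟩ := hup
  obtain ⟨ε, hε, hlo⟩ := hlo
  have hc1 : ∀ g, 1 ≤ cc (σ g) := fun g => cc_ge_one _ (hσ g)
  have hC0 : 0 ≤ C := by
    have h1 := hC 1
    have h2 := (rr_le_Del (ρ 1) (hρ 1)).1
    have h3 := hc1 1
    by_contra hneg
    push Not at hneg
    nlinarith [sq_nonneg (cc (σ 1))]
  -- the sequence
  choose g₀ hg₀ using fun n : ℕ => hunb n
  set u : ℕ → ((ι ⊕ Fin 2) → (ι ⊕ Fin 2) → (ι ⊕ Fin 2) → (ι ⊕ Fin 2) → ℝ) ×
      ((κ ⊕ Unit) → (κ ⊕ Unit) → ℂ) := fun n =>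
    (fun k l i j => mn (ρ (g₀ n)) k l i j / cc (σ (g₀ n)) ^ 2,
      fun i j => ((cc (σ (g₀ n)))⁻¹ : ℂ) * σ (g₀ n) i j) with hu
  have hub : ∀ n, u n ∈ Metric.closedBall
      (0 : ((ι ⊕ Fin 2) → (ι ⊕ Fin 2) → (ι ⊕ Fin 2) → (ι ⊕ Fin 2) → ℝ) ×
      ((κ ⊕ Unit) → (κ ⊕ Unit) → ℂ)) (5 * C + 2) := by
    intro n
    have hc := hc1 (g₀ n)
    have hcp : 0 < cc (σ (g₀ n)) := by linarith
    rw [mem_closedBall_zero_iff, Prod.norm_def, max_le_iff]
    constructor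
    · have h0 : 0 ≤ 5 * C + 2 := by positivity
      rw [pi_norm_le_iff_of_nonneg h0]; intro k
      rw [pi_norm_le_iff_of_nonneg h0]; intro l
      rw [pi_norm_le_iff_of_nonneg h0]; intro i
      rw [pi_norm_le_iff_of_nonneg h0]; intro j
      simp only [hu]
      rw [Real.norm_eq_abs, abs_div, abs_of_nonneg (sq_nonneg (cc (σ (g₀ n)))),
        div_le_iff₀ (by positivity)]
      have h1 := minor_le (ρ (g₀ n)) (hρ _) i j k l
      have h2 := hC (g₀ n)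
      unfold mn
      nlinarith [sq_nonneg (cc (σ (g₀ n)))]
    · have h0 : 0 ≤ 5 * C + 2 := by positivity
      rw [pi_norm_le_iff_of_nonneg h0]; intro i
      rw [pi_norm_le_iff_of_nonneg h0]; intro j
      simp only [hu]
      rw [norm_mul, norm_inv, Complex.norm_real, Real.norm_eq_abs, abs_of_pos hcp,
        inv_mul_le_iff₀ hcp]
      have h1 := cc_entry (σ (g₀ n)) (hσ _) i j
      nlinarith
  obtain ⟨⟨α, B'⟩, -, φ, hφ, hlim⟩ := tendsto_subseq_of_bounded Metric.isBounded_closedBall hub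
  obtain ⟨B, hBB⟩ : ∃ B : Matrix (κ ⊕ Unit) (κ ⊕ Unit) ℂ, B = B' := ⟨B', rfl⟩
  -- rename
  set g : ℕ → G := fun n => g₀ (φ n) with hg
  set c : ℕ → ℝ := fun n => cc (σ (g n)) with hc
  have hcn : Tendsto c atTop atTop := by
    refine tendsto_atTop_mono (fun n => ?_) tendsto_natCast_atTop_atTop
    have h1 : (n : ℝ) ≤ (φ n : ℝ) := by exact_mod_cast hφ.id_le n
    exact h1.trans (hg₀ (φ n))
  have hcpos : ∀ n, 0 < c n := fun n => lt_of_lt_of_le one_pos (hc1 _)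
  have hα : Tendsto (fun n => (fun k l i j => mn (ρ (g n)) k l i j / c n ^ 2)) atTop (𝓝 α) :=
    (Prod.tendsto_iff _ _).mp hlim |>.1
  have hB : Tendsto (fun n => ((c n : ℂ)⁻¹) • σ (g n)) atTop (𝓝 B) := by
    rw [hBB]
    exact (Prod.tendsto_iff _ _).mp hlim |>.2
  -- entries
  have hαe : ∀ k l i j, Tendsto (fun n => mn (ρ (g n)) k l i j / c n ^ 2) atTop
      (𝓝 (α k l i j)) := by
    intro k l i j
    have h1 := (((tendsto_pi_nhds.mp hα) k))
    have h2 := (((tendsto_pi_nhds.mp h1) l))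
    have h3 := (((tendsto_pi_nhds.mp h2) i))
    exact (((tendsto_pi_nhds.mp h3) j))
  have hαs : ∀ k l i j, α k l j i = - α k l i j := by
    intro k l i j
    refine tendsto_nhds_unique (hαe k l j i) ?_
    refine (hαe k l i j).neg.congr fun n => ?_
    unfold mn
    ring
  have hαs' : ∀ k l i j, α l k i j = - α k l i j := by
    intro k l i j
    refine tendsto_nhds_unique (hαe l k i j) ?_
    refine (hαe k l i j).neg.congr fun n => ?_
    unfold mn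
    ring
  have hrr : Tendsto (fun n => rr (ρ (g n)) / Del (ρ (g n))) atTop (𝓝 0) :=
    rr_div ρ hρ hp (fun x => cc (σ x)) g hcn
  -- (i)
  have hJ : ∀ S : Matrix (ι ⊕ Fin 2) (ι ⊕ Fin 2) ℝ, Sᵀ = -S →
      (act2 α S)ᵀ * J ι * act2 α S = 0 := by
    intro S hS
    have hT : Tendsto (fun n => act2 (fun k l i j => mn (ρ (g n)) k l i j / c n ^ 2) S) atTop
        (𝓝 (act2 α S)) := act2_tendsto hα tendsto_const_nhds
    have hT2 : Tendsto (fun n =>
        (act2 (fun k l i j => mn (ρ (g n)) k l i j / c n ^ 2) S)ᵀ * J ι *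
          act2 (fun k l i j => mn (ρ (g n)) k l i j / c n ^ 2) S) atTop
        (𝓝 ((act2 α S)ᵀ * J ι * act2 α S)) := by
      refine Tendsto.mul ?_ hT
      refine Tendsto.mul_const _ ?_
      exact (continuous_id.matrix_transpose.tendsto _).comp hT
    refine tendsto_nhds_unique hT2 ?_
    refine tendsto_pi_nhds.mpr fun i => tendsto_pi_nhds.mpr fun j => ?_
    set W : ℝ := 9 * ∑ k, ∑ l, |(Sᵀ * J ι * S) k l| with hW
    have hlim0 : Tendsto (fun n => W * C ^ 2 * (rr (ρ (g n)) / Del (ρ (g n))) ^ 2) atTop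
        (𝓝 0) := by
      have := (hrr.pow 2).const_mul (W * C ^ 2)
      simpa using this
    refine squeeze_zero_norm (fun n => ?_) hlim0
    rw [act2_eq _ _ _ hS]
    have h1 : (((c n ^ 2)⁻¹ • (ρ (g n) * S * (ρ (g n))ᵀ))ᵀ * J ι *
        ((c n ^ 2)⁻¹ • (ρ (g n) * S * (ρ (g n))ᵀ)))
        = ((c n ^ 2)⁻¹ * (c n ^ 2)⁻¹) • (ρ (g n) * (Sᵀ * J ι * S) * (ρ (g n))ᵀ) := by
      rw [Matrix.transpose_smul, Matrix.smul_mul, Matrix.smul_mul, Matrix.mul_smul, smul_smul,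
        Matrix.transpose_mul, Matrix.transpose_mul, Matrix.transpose_transpose]
      congr 1
      calc ρ (g n) * (Sᵀ * (ρ (g n))ᵀ) * J ι * (ρ (g n) * S * (ρ (g n))ᵀ)
          = ρ (g n) * Sᵀ * ((ρ (g n))ᵀ * J ι * ρ (g n)) * S * (ρ (g n))ᵀ := by
            simp only [Matrix.mul_assoc]
        _ = ρ (g n) * (Sᵀ * J ι * S) * (ρ (g n))ᵀ := by
            rw [hρ]
            simp only [Matrix.mul_assoc]
    rw [h1, Matrix.smul_apply, smul_eq_mul, Real.norm_eq_abs, abs_mul]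
    have h2 := quad_bound (ρ (g n)) (Sᵀ * J ι * S) (rr (ρ (g n)))
      (fun i j => entry_le _ (hρ _) i j) i j
    have h3 := hC (g n)
    obtain ⟨hD, hr, -⟩ := rr_le_Del (ρ (g n)) (hρ _)
    have hD0 : 0 < Del (ρ (g n)) := by linarith
    have hc2 : 0 < c n ^ 2 := pow_pos (hcpos n) 2
    have h4 : (c n ^ 2)⁻¹ ≤ C / Del (ρ (g n)) := by
      rw [inv_le_comm₀ hc2 (by
        apply div_pos _ hD0
        by_contra hneg
        have : C = 0 := le_antisymm (not_lt.mp hneg) hC0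
        rw [this, zero_mul] at h3
        linarith), inv_div]
      rw [div_le_iff₀ (by
        by_contra hneg
        have : C = 0 := le_antisymm (not_lt.mp hneg) hC0
        rw [this, zero_mul] at h3
        linarith)]
      linarith
    have h5 : 0 ≤ (c n ^ 2)⁻¹ := inv_nonneg.mpr hc2.le
    have h6 : (c n ^ 2)⁻¹ * (c n ^ 2)⁻¹ ≤ (C / Del (ρ (g n))) * (C / Del (ρ (g n))) :=
      mul_le_mul h4 h4 h5 (h5.trans h4)
    have hW0 : 0 ≤ W := by positivity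
    rw [abs_of_nonneg (mul_nonneg h5 h5)]
    calc (c n ^ 2)⁻¹ * (c n ^ 2)⁻¹ * |(ρ (g n) * (Sᵀ * J ι * S) * (ρ (g n))ᵀ) i j|
        ≤ ((C / Del (ρ (g n))) * (C / Del (ρ (g n)))) * (W * rr (ρ (g n)) ^ 2) :=
          mul_le_mul h6 h2 (abs_nonneg _) ((mul_nonneg h5 h5).trans h6)
      _ = W * C ^ 2 * (rr (ρ (g n)) / Del (ρ (g n))) ^ 2 := by
          rw [div_pow]
          ring
  -- b
  set b : Matrix (ι ⊕ Fin 2) (ι ⊕ Fin 2) ℝ →ₗ[ℝ] ℝ :=
    (Matrix.entryLinearMap ℝ ℝ (Sum.inr 0) (Sum.inr 1)).comp (act2 α) with hb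
  have hbS : ∀ S, b S = act2 α S (Sum.inr 0) (Sum.inr 1) := fun S => rfl
  have hb0 : ε ≤ |b (S0 ι)| := by
    have h1 : Tendsto (fun n => |(act2 (fun k l i j => mn (ρ (g n)) k l i j / c n ^ 2) (S0 ι))
        (Sum.inr 0) (Sum.inr 1)|) atTop (𝓝 |b (S0 ι)|) := by
      have h2 : Tendsto (fun n => act2 (fun k l i j => mn (ρ (g n)) k l i j / c n ^ 2) (S0 ι))
        atTop (𝓝 (act2 α (S0 ι))) := act2_tendsto hα tendsto_const_nhds
      exact (((tendsto_pi_nhds.mp ((tendsto_pi_nhds.mp h2) (Sum.inr 0)))) (Sum.inr 1)).abs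
    refine ge_of_tendsto' h1 fun n => ?_
    rw [act2_eq _ _ _ S0_skew, Matrix.smul_apply, smul_eq_mul, abs_mul, S0_conj]
    have hc2 : 0 < c n ^ 2 := pow_pos (hcpos n) 2
    rw [abs_of_pos (inv_pos.mpr hc2), ← div_eq_inv_mul, le_div_iff₀ hc2]
    exact hlo (g n)
  have hb1 : b (S0 ι) ≠ 0 := by
    intro h
    rw [h, abs_zero] at hb0
    linarith
  set a : Matrix (ι ⊕ Fin 2) (ι ⊕ Fin 2) ℝ := (b (S0 ι))⁻¹ • act2 α (S0 ι) with ha
  have ha1 : a (Sum.inr 0) (Sum.inr 1) = 1 := by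
    rw [ha, Matrix.smul_apply, ← hbS, smul_eq_mul, inv_mul_cancel₀ hb1]
  have haT : aᵀ = -a := by
    rw [ha, Matrix.transpose_smul, act2_skew _ hαs, smul_neg]
  have hskew : ∀ S, Sᵀ = -S → act2 α S = b S • a := by
    intro S hS
    have h1 : act2 α S - b S • a = act2 α (S - (b S * (b (S0 ι))⁻¹) • S0 ι) := by
      rw [map_sub, map_smul, ha, smul_smul]
    have hS2 : (S - (b S * (b (S0 ι))⁻¹) • S0 ι)ᵀ = -(S - (b S * (b (S0 ι))⁻¹) • S0 ι) := by
      rw [Matrix.transpose_sub, hS, Matrix.transpose_smul, S0_skew, smul_neg]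
      abel
    have h2 := zero_of (act2 α (S - (b S * (b (S0 ι))⁻¹) • S0 ι)) (act2_skew _ hαs _)
      (hJ _ hS2) (by
        rw [← h1, Matrix.sub_apply, Matrix.smul_apply, ha1, ← hbS]
        simp)
    rw [← h1] at h2
    exact sub_eq_zero.mp h2
  have hall : ∀ S, act2 α S = b S • a := by
    intro S
    have h1 : act2 α S = act2 α ((1 / 2 : ℝ) • (S - Sᵀ)) := by
      ext i j
      rw [act2_apply, act2_apply]
      congr 1
      have h2 : ∑ k, ∑ l, Sᵀ k l * α k l i j = - ∑ k, ∑ l, S k l * α k l i j := by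
        rw [Finset.sum_comm, ← Finset.sum_neg_distrib]
        refine Finset.sum_congr rfl fun k _ => ?_
        rw [← Finset.sum_neg_distrib]
        refine Finset.sum_congr rfl fun l _ => ?_
        rw [Matrix.transpose_apply, hαs' k l i j]
        ring
      have h3 : ∑ k, ∑ l, ((1 / 2 : ℝ) • (S - Sᵀ)) k l * α k l i j
          = (1 / 2) * (∑ k, ∑ l, S k l * α k l i j - ∑ k, ∑ l, Sᵀ k l * α k l i j) := by
        rw [← Finset.sum_sub_distrib, Finset.mul_sum]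
        refine Finset.sum_congr rfl fun k _ => ?_
        rw [← Finset.sum_sub_distrib, Finset.mul_sum]
        refine Finset.sum_congr rfl fun l _ => ?_
        rw [Matrix.smul_apply, Matrix.sub_apply, smul_eq_mul]
        ring
      rw [h3, h2]
      ring
    have h4 : ((1 / 2 : ℝ) • (S - Sᵀ))ᵀ = -((1 / 2 : ℝ) • (S - Sᵀ)) := by
      rw [Matrix.transpose_smul, Matrix.transpose_sub, Matrix.transpose_transpose, ← smul_neg,
        neg_sub]
    have h5 := hskew _ h4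
    have h6 : b S = b ((1 / 2 : ℝ) • (S - Sᵀ)) := by
      rw [hbS, hbS, h1]
    rw [h1, h5, ← h6]
  -- the complex side
  have hcinv : Tendsto (fun n => (c n)⁻¹) atTop (𝓝 0) := tendsto_inv_atTop_zero.comp hcn
  have hBJ : Bᴴ * JC κ * B = 0 := by
    have h1 : Tendsto (fun n => (((c n : ℂ)⁻¹) • σ (g n))ᴴ * JC κ * (((c n : ℂ)⁻¹) • σ (g n)))
        atTop (𝓝 (Bᴴ * JC κ * B)) := by
      refine Tendsto.mul ?_ hB
      refine Tendsto.mul_const _ ?_
      exact (continuous_id.matrix_conjTranspose.tendsto _).comp hB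
    refine tendsto_nhds_unique h1 ?_
    have h2 : ∀ n, (((c n : ℂ)⁻¹) • σ (g n))ᴴ * JC κ * (((c n : ℂ)⁻¹) • σ (g n))
        = (((c n)⁻¹ * (c n)⁻¹ : ℝ) : ℂ) • JC κ := by
      intro n
      rw [Matrix.conjTranspose_smul, Matrix.smul_mul, Matrix.smul_mul, Matrix.mul_smul, smul_smul,
        hσ]
      congr 1
      rw [star_inv₀, Complex.star_def, Complex.conj_ofReal]
      push_cast
      ring
    simp only [h2]
    have h3 : Tendsto (fun n => (((c n)⁻¹ * (c n)⁻¹ : ℝ) : ℂ)) atTop (𝓝 0) := by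
      have h4 := hcinv.mul hcinv
      rw [mul_zero] at h4
      exact (Complex.continuous_ofReal.tendsto 0).comp h4
    have h5 := h3.smul_const (JC κ)
    rwa [zero_smul] at h5
  have hBe : ∀ i j, Tendsto (fun n => ((c n : ℂ)⁻¹) * σ (g n) i j) atTop (𝓝 (B i j)) := by
    intro i j
    have h1 := tendsto_pi_nhds.mp ((tendsto_pi_nhds.mp hB) i) j
    exact h1
  have hBn : ‖B (Sum.inr ()) (Sum.inr ())‖ = 1 := by
    refine tendsto_nhds_unique (hBe (Sum.inr ()) (Sum.inr ())).norm ?_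
    refine tendsto_const_nhds.congr fun n => ?_
    rw [norm_mul, norm_inv, Complex.norm_real, Real.norm_eq_abs, abs_of_pos (hcpos n)]
    exact (inv_mul_cancel₀ (hcpos n).ne').symm
  obtain ⟨x, hx1, hx⟩ := Brank B hBJ hBn
  refine ⟨a, b, x, B (Sum.inr ()), haT, ?_, ⟨S0 ι, S0_skew, hb1⟩, ?_⟩
  · intro h
    rw [h] at ha1
    exact zero_ne_one ha1
  intro r
  set e : κ ⊕ Unit → ℂ := Pi.single (Sum.inr ()) 1 with he
  set y : κ ⊕ Unit → ℂ := B (Sum.inr ()) with hy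
  set q : ℝ := b (ρ r * a * (ρ r)ᵀ) with hq
  set Q : ℝ := b (ρ r * S0 ι * (ρ r)ᵀ) with hQ
  set p : ℂ := y ⬝ᵥ (σ r *ᵥ x) with hp'
  set P : ℂ := y ⬝ᵥ (σ r *ᵥ e) with hP
  -- limit of Del
  have hDlim : ∀ k : ℕ, Tendsto (fun n => Del (ρ ((g n * r) ^ (k + 1))) / c n ^ (2 * (k + 1)))
      atTop (𝓝 (|q| ^ k * |Q|)) := by
    intro k
    have h1 := it_tendsto (ρ r) (S0 ι) hα (k + 1)
    rw [it_lim b a hall] at h1
    have h2 := (((tendsto_pi_nhds.mp ((tendsto_pi_nhds.mp h1) (Sum.inr 0)))) (Sum.inr 1)).abs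
    rw [Matrix.smul_apply, ha1, smul_eq_mul, mul_one, abs_mul, abs_pow] at h2
    refine h2.congr fun n => ?_
    rw [it_eq _ _ _ _ S0_skew, Matrix.smul_apply, smul_eq_mul, abs_mul, S0_conj, map_pow, map_mul,
      abs_of_pos (inv_pos.mpr (pow_pos (hcpos n) _)), ← div_eq_inv_mul]
  -- limit of cc
  have hClim : ∀ k : ℕ, Tendsto (fun n => cc (σ ((g n * r) ^ (k + 1))) / c n ^ (k + 1))
      atTop (𝓝 (‖p‖ ^ k * ‖P‖)) := by
    intro k
    have h1 : Tendsto (fun n => ((((c n : ℂ)⁻¹) • σ (g n)) * σ r) ^ (k + 1)) atTop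
        (𝓝 ((B * σ r) ^ (k + 1))) := (hB.mul_const _).pow _
    have h2 := (tendsto_pi_nhds.mp ((tendsto_pi_nhds.mp h1) (Sum.inr ())) (Sum.inr ())).norm
    have h3 : ((B * σ r) ^ (k + 1)) (Sum.inr ()) (Sum.inr ()) = p ^ k * P := by
      have h4 := congrFun (Bpow B (σ r) x y hx e k) (Sum.inr ())
      rw [Pi.smul_apply, hx1, smul_eq_mul, mul_one] at h4
      rw [← h4, he]
      simp
    rw [h3, norm_mul, norm_pow] at h2
    refine h2.congr fun n => ?_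
    rw [Matrix.smul_mul, ← map_mul, smul_pow, ← map_pow, Matrix.smul_apply, norm_smul, norm_pow,
      norm_inv, Complex.norm_real, Real.norm_eq_abs, abs_of_pos (hcpos n), inv_pow,
      ← div_eq_inv_mul]
    rfl
  -- inequalities
  have hineq1 : ∀ k : ℕ, ε * (‖p‖ ^ k * ‖P‖) ^ 2 ≤ |q| ^ k * |Q| := by
    intro k
    refine le_of_tendsto_of_tendsto' (((hClim k).pow 2).const_mul ε) (hDlim k) fun n => ?_
    have h1 := hlo ((g n * r) ^ (k + 1))
    have h2 : 0 < c n ^ (2 * (k + 1)) := pow_pos (hcpos n) _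
    rw [le_div_iff₀ h2, div_pow, ← pow_mul, mul_comm (k + 1) 2, mul_assoc,
      div_mul_cancel₀ _ h2.ne']
    exact h1
  have hineq2 : ∀ k : ℕ, |q| ^ k * |Q| ≤ C * (‖p‖ ^ k * ‖P‖) ^ 2 := by
    intro k
    refine le_of_tendsto_of_tendsto' (hDlim k) (((hClim k).pow 2).const_mul C) fun n => ?_
    have h1 := hC ((g n * r) ^ (k + 1))
    have h2 : 0 < c n ^ (2 * (k + 1)) := pow_pos (hcpos n) _
    rw [div_le_iff₀ h2, div_pow, ← pow_mul, mul_comm (k + 1) 2, mul_assoc,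
      div_mul_cancel₀ _ h2.ne']
    exact h1
  -- positivity of P
  have hPpos : 0 < ‖P‖ := by
    have h1 := hClim 0
    rw [pow_zero, one_mul] at h1
    have hcr : 0 < cc (σ r⁻¹) := lt_of_lt_of_le one_pos (hc1 _)
    refine lt_of_lt_of_le (by positivity : (0 : ℝ) < 1 / (2 * cc (σ r⁻¹))) ?_
    refine ge_of_tendsto' h1 fun n => ?_
    rw [zero_add, pow_one, pow_one, div_le_div_iff₀ (by positivity) (hcpos n), one_mul]
    have h2 := cc_mul (σ (g n * r)) (σ r⁻¹) (hσ _) (hσ _)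
    rw [← map_mul, mul_inv_cancel_right] at h2
    calc c n ≤ 2 * cc (σ (g n * r)) * cc (σ r⁻¹) := h2
      _ = cc (σ (g n * r)) * (2 * cc (σ r⁻¹)) := by ring
  have hQpos : 0 < |Q| := by
    have h1 := hineq1 0
    rw [pow_zero, pow_zero, one_mul, one_mul] at h1
    exact lt_of_lt_of_le (by positivity) h1
  -- conclusion
  apply le_antisymm
  · refine le_of_pow_le (K := C * ‖P‖ ^ 2 / |Q|) (by positivity) fun m => ?_
    rw [div_mul_eq_mul_div, le_div_iff₀ hQpos]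
    refine (hineq2 m).trans (le_of_eq ?_)
    ring
  · refine le_of_pow_le (K := |Q| / (ε * ‖P‖ ^ 2)) (abs_nonneg _) fun m => ?_
    rw [div_mul_eq_mul_div, le_div_iff₀ (by positivity)]
    have h1 := hineq1 m
    calc (‖p‖ ^ 2) ^ m * (ε * ‖P‖ ^ 2) = ε * (‖p‖ ^ m * ‖P‖) ^ 2 := by ring
      _ ≤ |q| ^ m * |Q| := h1
      _ = |Q| * |q| ^ m := by ring

end limits

end Pool.Agent.MPd01a95
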