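import Mathlib
import Pool.Agent.Lib.MP_d01a95_gt.Defs

set_option autoImplicit false

open Matrix MeasureTheory

namespace Pool.Agent.MPd01a95

namespace LowAux

variable {κ : Type} [Fintype κ] [DecidableEq κ]

/-- minus the Hermitian form -/
noncomputable def nqC (v : κ ⊕ Unit → ℂ) : ℝ := ‖v (Sum.inr ())‖ ^ 2 - ∑ i, ‖v (Sum.inl i)‖ ^ 2

/-- the complex shell -/
def ShC (κ : Type) [Fintype κ] (R : ℝ) : Set (κ ⊕ Unit → ℂ) :=
  {v | 1 ≤ nqC v ∧ nqC v ≤ 4 ∧ ∀ i, ‖v i‖ ≤ R}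

/-- the base vector -/
def ee (κ : Type) : κ ⊕ Unit → ℂ := Sum.elim (fun _ => 0) (fun _ => 1)

theorem JC_mulVec_inl (v : κ ⊕ Unit → ℂ) (i : κ) : (JC κ *ᵥ v) (Sum.inl i) = v (Sum.inl i) := by
  rw [JC, Matrix.fromBlocks_mulVec]
  simp [Matrix.one_mulVec]

theorem JC_mulVec_inr (v : κ ⊕ Unit → ℂ) : (JC κ *ᵥ v) (Sum.inr ()) = - v (Sum.inr ()) := by
  rw [JC, Matrix.fromBlocks_mulVec]
  simp [Matrix.neg_mulVec, Matrix.one_mulVec]

theorem JC_mul_JC : JC κ * JC κ = 1 := by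
  rw [JC, Matrix.fromBlocks_multiply]
  simp

omit [Fintype κ] in
theorem JC_conj : (JC κ)ᴴ = JC κ := by
  rw [JC, Matrix.fromBlocks_conjTranspose]
  simp

theorem herm (x v : κ ⊕ Unit → ℂ) : star x ⬝ᵥ (JC κ *ᵥ v) =
    ∑ i, star (x (Sum.inl i)) * v (Sum.inl i) - star (x (Sum.inr ())) * v (Sum.inr ()) := by
  rw [dotProduct, Fintype.sum_sum_type]
  simp only [JC_mulVec_inl, Pi.star_apply, Finset.univ_unique, Finset.sum_singleton]
  have h : (default : Unit) = () := rfl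
  rw [h, JC_mulVec_inr]
  ring

theorem herm_self (v : κ ⊕ Unit → ℂ) : star v ⬝ᵥ (JC κ *ᵥ v) = -(nqC v : ℂ) := by
  rw [herm, nqC]
  have h : ∀ z : ℂ, star z * z = ((‖z‖ ^ 2 : ℝ) : ℂ) := fun z => by
    rw [mul_comm]
    simpa using Complex.mul_conj' z
  simp only [h]
  push_cast
  ring

theorem nqC_iso {A : Matrix (κ ⊕ Unit) (κ ⊕ Unit) ℂ} (hA : Aᴴ * JC κ * A = JC κ)
    (v : κ ⊕ Unit → ℂ) : nqC (A *ᵥ v) = nqC v := by
  have h1 : star (A *ᵥ v) ⬝ᵥ (JC κ *ᵥ (A *ᵥ v)) = star v ⬝ᵥ (JC κ *ᵥ v) := by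
    rw [Matrix.star_mulVec, ← Matrix.dotProduct_mulVec, Matrix.mulVec_mulVec, Matrix.mulVec_mulVec,
      hA]
  rw [herm_self, herm_self, neg_inj] at h1
  exact_mod_cast h1

theorem inv_left {A : Matrix (κ ⊕ Unit) (κ ⊕ Unit) ℂ} (hA : Aᴴ * JC κ * A = JC κ) :
    (JC κ * Aᴴ * JC κ) * A = 1 := by
  rw [Matrix.mul_assoc (JC κ), Matrix.mul_assoc (JC κ), hA, JC_mul_JC]

theorem inv_right {A : Matrix (κ ⊕ Unit) (κ ⊕ Unit) ℂ} (hA : Aᴴ * JC κ * A = JC κ) :
    A * (JC κ * Aᴴ * JC κ) = 1 := mul_eq_one_comm.mp (inv_left hA)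

theorem iso_mul {A A' : Matrix (κ ⊕ Unit) (κ ⊕ Unit) ℂ} (hA : Aᴴ * JC κ * A = JC κ)
    (hA' : A'ᴴ * JC κ * A' = JC κ) : (A * A')ᴴ * JC κ * (A * A') = JC κ := by
  rw [Matrix.conjTranspose_mul]
  calc A'ᴴ * Aᴴ * JC κ * (A * A') = A'ᴴ * (Aᴴ * JC κ * A) * A' := by
        simp only [Matrix.mul_assoc]
    _ = JC κ := by rw [hA, hA']

theorem iso_inv {A : Matrix (κ ⊕ Unit) (κ ⊕ Unit) ℂ} (hA : Aᴴ * JC κ * A = JC κ) :
    (JC κ * Aᴴ * JC κ)ᴴ * JC κ * (JC κ * Aᴴ * JC κ) = JC κ := by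
  have h1 : (JC κ * Aᴴ * JC κ)ᴴ = JC κ * A * JC κ := by
    rw [Matrix.conjTranspose_mul, Matrix.conjTranspose_mul, Matrix.conjTranspose_conjTranspose,
      JC_conj, ← Matrix.mul_assoc]
  rw [h1]
  calc JC κ * A * JC κ * JC κ * (JC κ * Aᴴ * JC κ)
      = JC κ * A * (JC κ * JC κ) * (JC κ * Aᴴ * JC κ) := by simp only [Matrix.mul_assoc]
    _ = JC κ * (A * (JC κ * Aᴴ * JC κ)) := by
        rw [JC_mul_JC, Matrix.mul_one]
        simp only [Matrix.mul_assoc]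
    _ = JC κ := by rw [inv_right hA, Matrix.mul_one]

/-- the isometries act transitively on the unit negative vectors -/
theorem exists_iso (w : κ ⊕ Unit → ℂ) (hw : nqC w = 1) :
    ∃ h : Matrix (κ ⊕ Unit) (κ ⊕ Unit) ℂ, hᴴ * JC κ * h = JC κ ∧ h *ᵥ ee κ = w := by
  set b : ℝ := ‖w (Sum.inr ())‖ with hb
  have hsum : 0 ≤ ∑ i, ‖w (Sum.inl i)‖ ^ 2 := Finset.sum_nonneg fun i _ => by positivity
  have hb2 : b ^ 2 = 1 + ∑ i, ‖w (Sum.inl i)‖ ^ 2 := by
    rw [nqC] at hw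
    linarith
  have hb0 : 0 < b := by
    have h1 : 0 ≤ b := norm_nonneg _
    rcases h1.lt_or_eq with h | h
    · exact h
    · rw [← h] at hb2
      nlinarith
  have hbC : (b : ℂ) ≠ 0 := by exact_mod_cast hb0.ne'
  set μ : ℂ := -(w (Sum.inr ()) / b) with hμ
  have hμ1 : star μ * μ = 1 := by
    have h1 : star μ * μ = ((‖μ‖ ^ 2 : ℝ) : ℂ) := by
      rw [mul_comm]
      simpa using Complex.mul_conj' μ
    rw [h1, hμ, norm_neg, norm_div, ← hb, Complex.norm_real, Real.norm_of_nonneg hb0.le,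
      div_self hb0.ne']
    simp
  have hww : star (w (Sum.inr ())) * w (Sum.inr ()) = (b : ℂ) ^ 2 := by
    rw [mul_comm]
    simpa using Complex.mul_conj' (w (Sum.inr ()))
  have hμw : star (w (Sum.inr ())) * μ = -(b : ℂ) := by
    rw [hμ, mul_neg, mul_div_assoc', hww]
    field_simp
  set u : κ ⊕ Unit → ℂ := μ • ee κ - w with hu
  set a : ℂ := star u ⬝ᵥ (JC κ *ᵥ u) with ha
  have hun : u (Sum.inr ()) = μ - w (Sum.inr ()) := by simp [hu, ee]
  have hui : ∀ i, u (Sum.inl i) = - w (Sum.inl i) := fun i => by simp [hu, ee]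
  have hue : star u ⬝ᵥ (JC κ *ᵥ (μ • ee κ)) = -(1 + (b : ℂ)) := by
    rw [herm]
    have h1 : ∀ i : κ, (μ • ee κ) (Sum.inl i) = 0 := fun i => by simp [ee]
    have h2 : (μ • ee κ) (Sum.inr ()) = μ := by simp [ee]
    simp only [h1, h2, mul_zero, Finset.sum_const_zero, hun, star_sub, sub_mul, hμ1, hμw]
    ring
  have haa : a = -(2 + 2 * (b : ℂ)) := by
    rw [ha, herm_self, nqC, hun]
    have h1 : ‖μ - w (Sum.inr ())‖ = 1 + b := by
      have h2 : μ - w (Sum.inr ()) = μ * (1 + b) := by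
        rw [hμ]
        field_simp
        ring
      have h3 : ‖μ‖ = 1 := by
        rw [hμ, norm_neg, norm_div, ← hb, Complex.norm_real, Real.norm_of_nonneg hb0.le,
          div_self hb0.ne']
      rw [h2, norm_mul, h3, one_mul]
      have h4 : (1 + (b : ℂ)) = ((1 + b : ℝ) : ℂ) := by push_cast; ring
      rw [h4, Complex.norm_real, Real.norm_of_nonneg (by positivity)]
    simp only [hui, norm_neg]
    rw [h1]
    have h5 : (1 + b) ^ 2 - ∑ i, ‖w (Sum.inl i)‖ ^ 2 = 2 + 2 * b := by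
      have : ∑ i, ‖w (Sum.inl i)‖ ^ 2 = b ^ 2 - 1 := by linarith
      rw [this]
      ring
    rw [h5]
    push_cast
    ring
  have ha0 : a ≠ 0 := by
    rw [haa]
    have : (2 + 2 * (b : ℂ)) = ((2 + 2 * b : ℝ) : ℂ) := by push_cast; ring
    rw [this, neg_ne_zero]
    have : (2 + 2 * b : ℝ) ≠ 0 := by positivity
    exact_mod_cast this
  have hastar : star a = a := by
    rw [haa]
    simp
  set P : Matrix (κ ⊕ Unit) (κ ⊕ Unit) ℂ := Matrix.vecMulVec u (star u) with hP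
  have hPH : Pᴴ = P := by
    rw [hP, Matrix.conjTranspose_vecMulVec, star_star]
  have hPJP : P * JC κ * P = a • P := by
    rw [hP, Matrix.mul_assoc, Matrix.mul_vecMulVec, Matrix.vecMulVec_mul_vecMulVec]
    ext i j
    simp [Matrix.vecMulVec_apply, ha]
    try ring
  refine ⟨μ • (1 - (2 / a) • (P * JC κ)), ?_, ?_⟩
  · rw [Matrix.conjTranspose_smul, Matrix.conjTranspose_sub, Matrix.conjTranspose_one,
      Matrix.conjTranspose_smul, Matrix.conjTranspose_mul, hPH, JC_conj]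
    have h2a : star (2 / a) = 2 / a := by
      rw [star_div₀, hastar]
      simp
    rw [h2a]
    rw [Matrix.smul_mul, Matrix.smul_mul, Matrix.mul_smul, smul_smul, hμ1, one_smul]
    have h1 : (1 - (2 / a) • (JC κ * P)) * JC κ * (1 - (2 / a) • (P * JC κ))
        = JC κ - (2 / a) • (JC κ * P * JC κ) - (2 / a) • (JC κ * P * JC κ)
          + ((2 / a) * (2 / a)) • (JC κ * (P * JC κ * P) * JC κ) := by
      have e1 : JC κ * (P * JC κ) = JC κ * P * JC κ := by rw [Matrix.mul_assoc]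
      have e2 : (JC κ * P) * JC κ * (P * JC κ) = JC κ * (P * JC κ * P) * JC κ := by
        simp only [Matrix.mul_assoc]
      rw [Matrix.sub_mul, Matrix.one_mul, Matrix.sub_mul, Matrix.mul_sub, Matrix.mul_sub,
        Matrix.mul_one, Matrix.mul_one, Matrix.smul_mul, Matrix.mul_smul, Matrix.smul_mul,
        Matrix.mul_smul, smul_smul, e1, e2]
      abel
    rw [h1, hPJP, Matrix.mul_smul, Matrix.smul_mul, smul_smul]
    have h3 : (2 / a) * (2 / a) * a = 2 / a + 2 / a := by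
      field_simp
      norm_num
    rw [h3, add_smul]
    abel
  · rw [Matrix.smul_mulVec, ← Matrix.mulVec_smul, Matrix.sub_mulVec, Matrix.one_mulVec,
      Matrix.smul_mulVec, ← Matrix.mulVec_mulVec]
    have h1 : P *ᵥ (JC κ *ᵥ (μ • ee κ)) = (-(1 + (b : ℂ))) • u := by
      rw [← hue, hP, Matrix.vecMulVec_mulVec]
      ext i
      simp [mul_comm]
    rw [h1, smul_smul]
    have h2 : 2 / a * -(1 + (b : ℂ)) = 1 := by
      rw [div_mul_eq_mul_div, div_eq_one_iff_eq ha0, haa]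
      ring
    rw [h2, one_smul, hu]
    abel

/-! ### volumes -/

theorem vol_image {A : Matrix (κ ⊕ Unit) (κ ⊕ Unit) ℂ} (hA : Aᴴ * JC κ * A = JC κ)
    (s : Set (κ ⊕ Unit → ℂ)) : volume ((fun v => A *ᵥ v) '' s) = volume s := by
  have hdet : Complex.normSq A.det = 1 := by
    have h1 := congrArg Matrix.det hA
    rw [Matrix.det_mul, Matrix.det_mul, Matrix.det_conjTranspose] at h1
    have h2 : (JC κ).det * (JC κ).det = 1 := by
      rw [← Matrix.det_mul, JC_mul_JC, Matrix.det_one]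
    have h3 : star A.det * A.det = 1 := by
      have h4 : star A.det * A.det = star A.det * (JC κ).det * A.det * (JC κ).det := by
        calc star A.det * A.det = star A.det * A.det * ((JC κ).det * (JC κ).det) := by
              rw [h2, mul_one]
          _ = _ := by ring
      rw [h4, h1, h2]
    have h5 : star A.det * A.det = ((Complex.normSq A.det : ℝ) : ℂ) := by
      rw [mul_comm]
      exact Complex.mul_conj A.det
    rw [h5] at h3
    exact_mod_cast h3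
  have h1 : ((fun v => A *ᵥ v) '' s) = ((Matrix.toLin' A).restrictScalars ℝ) '' s := by
    ext x
    simp
  rw [h1, Measure.addHaar_image_linearMap, LinearMap.det_restrictScalars, LinearMap.det_toLin',
    Algebra.norm_complex_apply, hdet]
  simp

theorem vol_annulus (s : ℝ) (hs : 0 ≤ s) :
    ENNReal.ofReal 3 * NNReal.pi ≤ volume {z : ℂ | 1 + s ≤ ‖z‖ ^ 2 ∧ ‖z‖ ^ 2 ≤ 4 + s} := by
  have h1 : Metric.closedBall (0 : ℂ) (Real.sqrt (4 + s)) ⊆
      {z : ℂ | 1 + s ≤ ‖z‖ ^ 2 ∧ ‖z‖ ^ 2 ≤ 4 + s} ∪ Metric.ball (0 : ℂ) (Real.sqrt (1 + s)) := by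
    intro z hz
    rw [mem_closedBall_zero_iff] at hz
    have hz2 : ‖z‖ ^ 2 ≤ 4 + s := by
      have := pow_le_pow_left₀ (norm_nonneg z) hz 2
      rwa [Real.sq_sqrt (by linarith)] at this
    by_cases h : 1 + s ≤ ‖z‖ ^ 2
    · exact Or.inl ⟨h, hz2⟩
    · right
      rw [mem_ball_zero_iff]
      exact Real.lt_sqrt_of_sq_lt (not_le.mp h)
  have h2 := (measure_mono h1).trans (measure_union_le (μ := volume) _ _)
  rw [Complex.volume_closedBall, Complex.volume_ball, ← ENNReal.ofReal_pow (Real.sqrt_nonneg _),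
    ← ENNReal.ofReal_pow (Real.sqrt_nonneg _), Real.sq_sqrt (by linarith),
    Real.sq_sqrt (by linarith)] at h2
  have h3 : ENNReal.ofReal (4 + s) * NNReal.pi =
      ENNReal.ofReal 3 * NNReal.pi + ENNReal.ofReal (1 + s) * NNReal.pi := by
    rw [← add_mul, ← ENNReal.ofReal_add (by norm_num) (by linarith)]
    congr 2
    ring
  rw [h3] at h2
  refine (ENNReal.add_le_add_iff_right ?_).mp h2
  exact ENNReal.mul_ne_top ENNReal.ofReal_ne_top ENNReal.coe_ne_top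

omit [DecidableEq κ] in
theorem vol_shell_lower (hκ : 0 < Fintype.card κ) (R : ℝ) (hR : 3 ≤ R) :
    ENNReal.ofReal 3 * NNReal.pi *
      ∏ _i : κ, (ENNReal.ofReal (R / (2 * Fintype.card κ)) ^ 2 * NNReal.pi) ≤
      volume (ShC κ R) := by
  set m : ℝ := (Fintype.card κ : ℝ) with hm
  have hm0 : 0 < m := by rw [hm]; exact_mod_cast hκ
  have hm1 : 1 ≤ m := by rw [hm]; exact_mod_cast hκ
  set r : ℝ := R / (2 * m) with hr
  have hr0 : 0 ≤ r := by rw [hr]; positivity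
  set T : Set ((κ → ℂ) × (Unit → ℂ)) := {p | p.1 ∈ Metric.closedBall (0 : κ → ℂ) r ∧
    1 + ∑ i, ‖p.1 i‖ ^ 2 ≤ ‖p.2 ()‖ ^ 2 ∧ ‖p.2 ()‖ ^ 2 ≤ 4 + ∑ i, ‖p.1 i‖ ^ 2} with hT
  have hTm : MeasurableSet T := by
    have h1 : IsClosed T := by
      have e1 : T = {p : (κ → ℂ) × (Unit → ℂ) | p.1 ∈ Metric.closedBall (0 : κ → ℂ) r} ∩
          ({p | 1 + ∑ i, ‖p.1 i‖ ^ 2 ≤ ‖p.2 ()‖ ^ 2} ∩
            {p | ‖p.2 ()‖ ^ 2 ≤ 4 + ∑ i, ‖p.1 i‖ ^ 2}) := rfl
      rw [e1]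
      refine IsClosed.inter (Metric.isClosed_closedBall.preimage continuous_fst)
        (IsClosed.inter (isClosed_le (by fun_prop) (by fun_prop))
          (isClosed_le (by fun_prop) (by fun_prop)))
    exact h1.measurableSet
  have hmp := volume_measurePreserving_sumPiEquivProdPi (fun _ : κ ⊕ Unit => ℂ)
  have hsub : (MeasurableEquiv.sumPiEquivProdPi (fun _ : κ ⊕ Unit => ℂ)) ⁻¹' T ⊆ ShC κ R := by
    intro v hv
    have hv1 : (fun i => v (Sum.inl i)) ∈ Metric.closedBall (0 : κ → ℂ) r := hv.1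
    have hv2 : 1 + ∑ i, ‖v (Sum.inl i)‖ ^ 2 ≤ ‖v (Sum.inr ())‖ ^ 2 := hv.2.1
    have hv3 : ‖v (Sum.inr ())‖ ^ 2 ≤ 4 + ∑ i, ‖v (Sum.inl i)‖ ^ 2 := hv.2.2
    rw [mem_closedBall_zero_iff, pi_norm_le_iff_of_nonneg hr0] at hv1
    have hrR : r ≤ R := by
      rw [hr, div_le_iff₀ (by positivity)]
      nlinarith
    have hs : ∑ i, ‖v (Sum.inl i)‖ ^ 2 ≤ R ^ 2 / 4 := by
      calc ∑ i, ‖v (Sum.inl i)‖ ^ 2 ≤ ∑ _i : κ, r ^ 2 :=
            Finset.sum_le_sum fun i _ => pow_le_pow_left₀ (norm_nonneg _) (hv1 i) 2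
        _ = m * r ^ 2 := by simp [hm]
        _ = R ^ 2 / (4 * m) := by
            rw [hr]
            field_simp
            ring
        _ ≤ R ^ 2 / 4 := by
            apply div_le_div_of_nonneg_left (by positivity) (by norm_num)
            linarith
    refine ⟨?_, ?_, ?_⟩
    · rw [nqC]; linarith
    · rw [nqC]; linarith
    · rintro (i | ⟨⟩)
      · exact (hv1 i).trans hrR
      · have h5 : ‖v (Sum.inr ())‖ ^ 2 ≤ R ^ 2 := by nlinarith
        exact (abs_le_of_sq_le_sq' h5 (by linarith)).2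
  refine le_trans ?_ (measure_mono hsub)
  rw [hmp.measure_preimage hTm.nullMeasurableSet]
  show _ ≤ (volume : Measure (κ → ℂ)).prod (volume : Measure (Unit → ℂ)) T
  rw [Measure.prod_apply hTm]
  have hslice : ∀ x ∈ Metric.closedBall (0 : κ → ℂ) r,
      ENNReal.ofReal 3 * NNReal.pi ≤ volume (Prod.mk x ⁻¹' T) := by
    intro x hx
    have h1 : Prod.mk x ⁻¹' T = (MeasurableEquiv.funUnique Unit ℂ) ⁻¹'
        {z : ℂ | 1 + ∑ i, ‖x i‖ ^ 2 ≤ ‖z‖ ^ 2 ∧ ‖z‖ ^ 2 ≤ 4 + ∑ i, ‖x i‖ ^ 2} := by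
      ext y
      constructor
      · rintro ⟨_, h2, h3⟩
        exact ⟨h2, h3⟩
      · rintro ⟨h2, h3⟩
        exact ⟨hx, h2, h3⟩
    have h2 : MeasurableSet
        {z : ℂ | 1 + ∑ i, ‖x i‖ ^ 2 ≤ ‖z‖ ^ 2 ∧ ‖z‖ ^ 2 ≤ 4 + ∑ i, ‖x i‖ ^ 2} := by
      have h3 : IsClosed {z : ℂ | 1 + ∑ i, ‖x i‖ ^ 2 ≤ ‖z‖ ^ 2} :=
        isClosed_le (by fun_prop) (by fun_prop)
      have h4 : IsClosed {z : ℂ | ‖z‖ ^ 2 ≤ 4 + ∑ i, ‖x i‖ ^ 2} :=
        isClosed_le (by fun_prop) (by fun_prop)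
      exact h3.measurableSet.inter h4.measurableSet
    rw [h1, (volume_preserving_funUnique Unit ℂ).measure_preimage h2.nullMeasurableSet]
    exact vol_annulus _ (Finset.sum_nonneg fun i _ => by positivity)
  calc ENNReal.ofReal 3 * NNReal.pi *
        ∏ _i : κ, (ENNReal.ofReal r ^ 2 * NNReal.pi)
      = ENNReal.ofReal 3 * NNReal.pi * volume (Metric.closedBall (0 : κ → ℂ) r) := by
        rw [volume_pi, Measure.pi_closedBall _ _ hr0]
        simp only [Pi.zero_apply, Complex.volume_closedBall]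
    _ = ∫⁻ _x in Metric.closedBall (0 : κ → ℂ) r, ENNReal.ofReal 3 * NNReal.pi := by
        rw [setLIntegral_const]
    _ ≤ ∫⁻ x in Metric.closedBall (0 : κ → ℂ) r, volume (Prod.mk x ⁻¹' T) :=
        setLIntegral_mono_ae' Metric.isClosed_closedBall.measurableSet
          (Filter.Eventually.of_forall hslice)
    _ ≤ ∫⁻ x, volume (Prod.mk x ⁻¹' T) := setLIntegral_le_lintegral _ _

omit [DecidableEq κ] in
theorem vol_shell_finite (R : ℝ) : volume (ShC κ R) < ⊤ := by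
  have h1 : ShC κ R ⊆ Metric.closedBall (0 : κ ⊕ Unit → ℂ) (max R 0) := by
    intro v hv
    rw [mem_closedBall_zero_iff, pi_norm_le_iff_of_nonneg (le_max_right _ _)]
    exact fun i => (hv.2.2 i).trans (le_max_left _ _)
  exact (measure_mono h1).trans_lt measure_closedBall_lt_top

/-- the entry `A_nn` is controlled by a vector and its image -/
theorem cc_bound {A : Matrix (κ ⊕ Unit) (κ ⊕ Unit) ℂ} (hA : Aᴴ * JC κ * A = JC κ)
    {v : κ ⊕ Unit → ℂ} {R R₁ : ℝ} (hR₁ : 0 < R₁) (hv : ‖v (Sum.inr ())‖ ≤ R)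
    (hw1 : 1 ≤ nqC (A *ᵥ v)) (hw2 : ‖(A *ᵥ v) (Sum.inr ())‖ ≤ R₁) :
    cc A ≤ 2 * R₁ * R := by
  obtain ⟨w, hw⟩ : ∃ w : κ ⊕ Unit → ℂ, w = A *ᵥ v := ⟨_, rfl⟩
  rw [← hw] at hw1 hw2
  set α : ℝ := ‖A (Sum.inr ()) (Sum.inr ())‖ with hα
  set β : ℝ := ‖w (Sum.inr ())‖ with hβ
  set s : ℝ := Real.sqrt (∑ i, ‖w (Sum.inl i)‖ ^ 2) with hs
  set q : ℝ := Real.sqrt (∑ i, ‖A (Sum.inl i) (Sum.inr ())‖ ^ 2) with hq
  have hsum : 0 ≤ ∑ i, ‖w (Sum.inl i)‖ ^ 2 := Finset.sum_nonneg fun i _ => by positivity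
  have hsumA : 0 ≤ ∑ i, ‖A (Sum.inl i) (Sum.inr ())‖ ^ 2 := Finset.sum_nonneg fun i _ => by positivity
  have hs2 : s ^ 2 = ∑ i, ‖w (Sum.inl i)‖ ^ 2 := Real.sq_sqrt hsum
  have hq2 : q ^ 2 = ∑ i, ‖A (Sum.inl i) (Sum.inr ())‖ ^ 2 := Real.sq_sqrt hsumA
  have hs0 : 0 ≤ s := Real.sqrt_nonneg _
  have hq0 : 0 ≤ q := Real.sqrt_nonneg _
  have hα0 : 0 ≤ α := norm_nonneg _
  have hβ0 : 0 ≤ β := norm_nonneg _
  have h1 : 1 ≤ β ^ 2 - s ^ 2 := by
    rw [hs2]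
    exact hw1
  -- the last column of `A`
  have hcol : α ^ 2 - q ^ 2 = 1 := by
    have h2 := nqC_iso hA (ee κ)
    have h3 : ∀ i, (A *ᵥ ee κ) i = A i (Sum.inr ()) := by
      intro i
      rw [Matrix.mulVec, dotProduct, Fintype.sum_sum_type]
      simp [ee]
    rw [nqC, nqC, h3] at h2
    simp only [h3] at h2
    rw [hq2]
    rw [← hα] at h2
    rw [h2]
    simp [ee]
  have hqα : q ≤ α := by nlinarith
  -- the last coordinate of `v`
  have hvn : v (Sum.inr ()) = star (A (Sum.inr ()) (Sum.inr ())) * w (Sum.inr ()) -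
      ∑ i, star (A (Sum.inl i) (Sum.inr ())) * w (Sum.inl i) := by
    have h2 : v = (JC κ * Aᴴ * JC κ) *ᵥ w := by
      rw [hw, Matrix.mulVec_mulVec, inv_left hA, Matrix.one_mulVec]
    have h3 : v (Sum.inr ()) = (JC κ *ᵥ (Aᴴ *ᵥ (JC κ *ᵥ w))) (Sum.inr ()) := by
      rw [Matrix.mulVec_mulVec, Matrix.mulVec_mulVec, ← h2]
    rw [h3, JC_mulVec_inr, Matrix.mulVec, dotProduct, Fintype.sum_sum_type]
    simp only [JC_mulVec_inl, Finset.univ_unique, Finset.sum_singleton, Matrix.conjTranspose_apply]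
    have h : (default : Unit) = () := rfl
    rw [h, JC_mulVec_inr]
    ring
  have hcs : ‖∑ i, star (A (Sum.inl i) (Sum.inr ())) * w (Sum.inl i)‖ ≤ q * s := by
    calc ‖∑ i, star (A (Sum.inl i) (Sum.inr ())) * w (Sum.inl i)‖
        ≤ ∑ i, ‖A (Sum.inl i) (Sum.inr ())‖ * ‖w (Sum.inl i)‖ := by
          refine (norm_sum_le _ _).trans (Finset.sum_le_sum fun i _ => ?_)
          rw [norm_mul, norm_star]
      _ ≤ q * s := by
          rw [hq, hs]
          exact Real.sum_mul_le_sqrt_mul_sqrt _ _ _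
  have h5 : α * β - q * s ≤ R := by
    have h6 : ‖star (A (Sum.inr ()) (Sum.inr ())) * w (Sum.inr ())‖ = α * β := by
      rw [norm_mul, norm_star]
    have h7 : ‖star (A (Sum.inr ()) (Sum.inr ())) * w (Sum.inr ())‖ ≤
        ‖v (Sum.inr ())‖ + ‖∑ i, star (A (Sum.inl i) (Sum.inr ())) * w (Sum.inl i)‖ := by
      have h8 : star (A (Sum.inr ()) (Sum.inr ())) * w (Sum.inr ()) =
          v (Sum.inr ()) + ∑ i, star (A (Sum.inl i) (Sum.inr ())) * w (Sum.inl i) := by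
        rw [hvn]
        ring
      rw [h8]
      exact norm_add_le _ _
    rw [h6] at h7
    linarith
  have h8 : α * (β - s) ≤ R := by nlinarith
  have hsβ : s ≤ β := by nlinarith
  have h9 : 1 ≤ (β - s) * (2 * R₁) := by nlinarith
  show α ≤ _
  have h10 : α * 1 ≤ α * ((β - s) * (2 * R₁)) := mul_le_mul_of_nonneg_left h9 hα0
  nlinarith

/-- the covering of a large shell -/
theorem covering {G : Type} [Group G] (σ : G →* Matrix (κ ⊕ Unit) (κ ⊕ Unit) ℂ)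
    (hσ : ∀ g, (σ g)ᴴ * JC κ * σ g = JC κ)
    (hcoc : ∃ K : Set (Matrix (κ ⊕ Unit) (κ ⊕ Unit) ℂ), IsCompact K ∧
      ∀ h, hᴴ * JC κ * h = JC κ → ∃ k ∈ K, ∃ g, h = k * σ g) :
    ∃ R₁ : ℝ, 1 ≤ R₁ ∧ ∀ R : ℝ, ∀ v ∈ ShC κ R, ∃ g : G, cc (σ g) ≤ 2 * R₁ * R ∧
      ∃ w ∈ ShC κ R₁, v = σ g⁻¹ *ᵥ w := by
  obtain ⟨K, hK, hKh⟩ := hcoc
  obtain ⟨C, hC⟩ : ∃ C : ℝ, ∀ k ∈ K, ∀ i j, ‖k i j‖ ≤ C := by
    have h1 : ∀ i j, ∃ C : ℝ, ∀ k ∈ K, ‖k i j‖ ≤ C := fun i j => by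
      have h2 : ContinuousOn (fun k : Matrix (κ ⊕ Unit) (κ ⊕ Unit) ℂ => k i j) K :=
        (continuous_id.matrix_elem i j).continuousOn
      exact hK.exists_bound_of_continuousOn h2
    choose C hC using h1
    refine ⟨∑ i, ∑ j, |C i j|, fun k hk i j => (hC i j k hk).trans ?_⟩
    calc C i j ≤ |C i j| := le_abs_self _
      _ ≤ ∑ j, |C i j| := Finset.single_le_sum (f := fun j => |C i j|)
          (fun j _ => abs_nonneg _) (Finset.mem_univ j)
      _ ≤ ∑ i, ∑ j, |C i j| := Finset.single_le_sum (f := fun i => ∑ j, |C i j|)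
          (fun i _ => Finset.sum_nonneg fun j _ => abs_nonneg _) (Finset.mem_univ i)
  refine ⟨max 1 (2 * C), le_max_left _ _, ?_⟩
  intro R v hv
  set s : ℝ := Real.sqrt (nqC v) with hs
  have hs2 : s ^ 2 = nqC v := Real.sq_sqrt (by linarith [hv.1])
  have hs0 : 0 ≤ s := Real.sqrt_nonneg _
  have hs1 : 1 ≤ s := by nlinarith [hv.1]
  have hs3 : s ≤ 2 := by nlinarith [hv.2.1]
  have hsC : (s : ℂ) ≠ 0 := by
    have : s ≠ 0 := by linarith
    exact_mod_cast this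
  have hn : nqC ((s : ℂ)⁻¹ • v) = 1 := by
    rw [nqC]
    simp only [Pi.smul_apply, smul_eq_mul, norm_mul, norm_inv, Complex.norm_real,
      Real.norm_of_nonneg hs0, mul_pow]
    rw [← Finset.mul_sum, ← mul_sub]
    have h1 : ‖v (Sum.inr ())‖ ^ 2 - ∑ i, ‖v (Sum.inl i)‖ ^ 2 = s ^ 2 := by
      rw [hs2, nqC]
    rw [h1, inv_pow, inv_mul_cancel₀]
    positivity
  obtain ⟨h, hh, hhe⟩ := exists_iso _ hn
  obtain ⟨k, hk, g, hkg⟩ := hKh _ (iso_inv hh)
  -- `k` is an isometry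
  have hk' : kᴴ * JC κ * k = JC κ := by
    have h1 : k = (JC κ * hᴴ * JC κ) * σ g⁻¹ := by
      rw [hkg, Matrix.mul_assoc, ← map_mul, mul_inv_cancel, map_one, Matrix.mul_one]
    rw [h1]
    exact iso_mul (iso_inv hh) (hσ g⁻¹)
  have hkw : k *ᵥ (σ g *ᵥ v) = (s : ℂ) • ee κ := by
    rw [Matrix.mulVec_mulVec, ← hkg]
    have h1 : v = h *ᵥ ((s : ℂ) • ee κ) := by
      rw [Matrix.mulVec_smul, hhe, smul_smul, mul_inv_cancel₀ hsC, one_smul]
    conv_lhs => rw [h1]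
    rw [Matrix.mulVec_mulVec, inv_left hh, Matrix.one_mulVec]
  have hw : σ g *ᵥ v = (JC κ * kᴴ * JC κ) *ᵥ ((s : ℂ) • ee κ) := by
    rw [← hkw, Matrix.mulVec_mulVec, inv_left hk', Matrix.one_mulVec]
  have hwb : ∀ i, ‖(σ g *ᵥ v) i‖ ≤ 2 * C := by
    intro i
    rw [hw, ← Matrix.mulVec_mulVec, ← Matrix.mulVec_mulVec]
    have h1 : JC κ *ᵥ ((s : ℂ) • ee κ) = (-(s : ℂ)) • ee κ := by
      ext j
      rcases j with j | ⟨⟩
      · rw [JC_mulVec_inl]; simp [ee]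
      · rw [JC_mulVec_inr]; simp [ee]
    rw [h1]
    have h2 : ∀ j, (kᴴ *ᵥ ((-(s : ℂ)) • ee κ)) j = -(s : ℂ) * star (k (Sum.inr ()) j) := by
      intro j
      rw [Matrix.mulVec, dotProduct, Fintype.sum_sum_type]
      simp [ee, Matrix.conjTranspose_apply]
      try ring
    have h3 : ∀ j, ‖(kᴴ *ᵥ ((-(s : ℂ)) • ee κ)) j‖ ≤ 2 * C := by
      intro j
      rw [h2, norm_mul, norm_neg, Complex.norm_real, Real.norm_of_nonneg hs0, norm_star]
      have h4 := hC k hk (Sum.inr ()) j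
      have h5 := norm_nonneg (k (Sum.inr ()) j)
      nlinarith
    rcases i with i | ⟨⟩
    · rw [JC_mulVec_inl]
      exact h3 _
    · rw [JC_mulVec_inr, norm_neg]
      exact h3 _
  have hnq : nqC (σ g *ᵥ v) = nqC v := nqC_iso (hσ g) v
  refine ⟨g, ?_, σ g *ᵥ v, ⟨?_, ?_, ?_⟩, ?_⟩
  · exact cc_bound (hσ g) (lt_of_lt_of_le one_pos (le_max_left _ _)) (hv.2.2 _)
      (by rw [hnq]; exact hv.1) ((hwb _).trans (le_max_right _ _))
  · rw [hnq]; exact hv.1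
  · rw [hnq]; exact hv.2.1
  · exact fun i => (hwb i).trans (le_max_right _ _)
  · rw [Matrix.mulVec_mulVec, ← map_mul, inv_mul_cancel, map_one, Matrix.one_mulVec]

end LowAux

open LowAux

section low

variable {κ G : Type} [Fintype κ] [DecidableEq κ] [Group G]

theorem low_count (hκ : 0 < Fintype.card κ) (σ : G →* Matrix (κ ⊕ Unit) (κ ⊕ Unit) ℂ)
    (hσ : ∀ g, (σ g)ᴴ * JC κ * σ g = JC κ)
    (hcoc : ∃ K : Set (Matrix (κ ⊕ Unit) (κ ⊕ Unit) ℂ), IsCompact K ∧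
      ∀ h, hᴴ * JC κ * h = JC κ → ∃ k ∈ K, ∃ g, h = k * σ g) :
    ∃ c₀ : ℝ, 0 < c₀ ∧ ∀ R : ℝ, 1 ≤ R → ∃ S : Finset G, (∀ g ∈ S, cc (σ g) ≤ R) ∧
      c₀ * R ^ (2 * Fintype.card κ) ≤ S.card := by
  classical
  obtain ⟨R₁, hR₁, hcov⟩ := covering σ hσ hcoc
  set m : ℕ := Fintype.card κ with hm
  set D : ℝ := 2 * R₁ with hD
  have hD0 : 0 < D := by positivity
  have hD1 : 1 ≤ D := by linarith
  set V : ℝ := (volume (ShC κ R₁)).toReal with hV
  have hV0 : 0 ≤ V := ENNReal.toReal_nonneg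
  -- the constant of the volume bound
  set c : ℝ := 3 * Real.pi * (Real.pi / (2 * m) ^ 2) ^ m with hc
  have hm0 : (0 : ℝ) < m := by exact_mod_cast hκ
  have hc0 : 0 < c := by positivity
  have hvol : ∀ R : ℝ, 3 ≤ R → ENNReal.ofReal (c * R ^ (2 * m)) ≤ volume (ShC κ R) := by
    intro R hR
    refine le_trans (le_of_eq ?_) (vol_shell_lower hκ R hR)
    have hpi : ((NNReal.pi : NNReal) : ENNReal) = ENNReal.ofReal Real.pi := by
      rw [← NNReal.coe_real_pi, ENNReal.ofReal_coe_nnreal]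
    rw [Finset.prod_const, Finset.card_univ, ← hm, hpi, ← ENNReal.ofReal_pow (by positivity),
      ← ENNReal.ofReal_mul (by positivity), ← ENNReal.ofReal_mul (by positivity),
      ← ENNReal.ofReal_pow (by positivity), ← ENNReal.ofReal_mul (by positivity)]
    congr 1
    rw [hc, pow_mul R 2 m, mul_assoc, ← mul_pow]
    congr 2
    field_simp
  have key : ∀ R : ℝ, 3 ≤ R → ∃ S : Finset G, (∀ g ∈ S, cc (σ g) ≤ D * R) ∧
      c * R ^ (2 * m) ≤ (V + 1) * S.card := by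
    intro R hR
    by_cases hfin : {g : G | cc (σ g) ≤ D * R}.Finite
    · refine ⟨hfin.toFinset, fun g hg => by simpa using hg, ?_⟩
      have h1 : ShC κ R ⊆ ⋃ g ∈ hfin.toFinset, (fun v => σ g⁻¹ *ᵥ v) '' ShC κ R₁ := by
        intro v hv
        obtain ⟨g, hg, w, hw, rfl⟩ := hcov R v hv
        rw [Set.mem_iUnion₂]
        exact ⟨g, by simpa using hg, w, hw, rfl⟩
      have h2 : volume (ShC κ R) ≤ hfin.toFinset.card * volume (ShC κ R₁) := by
        refine (measure_mono h1).trans ((measure_biUnion_finset_le _ _).trans ?_)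
        refine (Finset.sum_le_sum fun g _ => (vol_image (hσ g⁻¹) _).le).trans ?_
        rw [Finset.sum_const, nsmul_eq_mul]
      have h3 := (hvol R hR).trans h2
      have h4 : (hfin.toFinset.card : ENNReal) * volume (ShC κ R₁) ≠ ⊤ :=
        ENNReal.mul_ne_top (ENNReal.natCast_ne_top _) (vol_shell_finite R₁).ne
      rw [ENNReal.ofReal_le_iff_le_toReal h4, ENNReal.toReal_mul, ENNReal.toReal_natCast,
        ← hV] at h3
      nlinarith [Nat.cast_nonneg (α := ℝ) hfin.toFinset.card]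
    · obtain ⟨N, hN⟩ := exists_nat_ge (c * R ^ (2 * m))
      obtain ⟨S, hS, hSN⟩ := Set.Infinite.exists_subset_card_eq hfin N
      refine ⟨S, fun g hg => hS hg, ?_⟩
      rw [hSN]
      have : (N : ℝ) ≤ (V + 1) * N := by nlinarith [Nat.cast_nonneg (α := ℝ) N]
      linarith
  refine ⟨min (c / ((V + 1) * D ^ (2 * m))) (1 / (3 * D) ^ (2 * m)), by positivity, ?_⟩
  intro R hR
  have hRm : 0 ≤ R ^ (2 * m) := by positivity
  by_cases h3 : 3 * D ≤ R
  · obtain ⟨S, hS, hSc⟩ := key (R / D) (by rw [le_div_iff₀ hD0]; exact h3)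
    refine ⟨S, fun g hg => ?_, ?_⟩
    · have := hS g hg
      rwa [mul_div_cancel₀ _ hD0.ne'] at this
    · have h4 : min (c / ((V + 1) * D ^ (2 * m))) (1 / (3 * D) ^ (2 * m)) * R ^ (2 * m) ≤
          c / ((V + 1) * D ^ (2 * m)) * R ^ (2 * m) :=
        mul_le_mul_of_nonneg_right (min_le_left _ _) hRm
      refine h4.trans ?_
      rw [div_pow] at hSc
      rw [div_mul_eq_mul_div, div_le_iff₀ (by positivity)]
      have h5 : c * (R ^ (2 * m) / D ^ (2 * m)) * D ^ (2 * m) ≤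
          (V + 1) * S.card * D ^ (2 * m) := mul_le_mul_of_nonneg_right hSc (by positivity)
      have h6 : c * (R ^ (2 * m) / D ^ (2 * m)) * D ^ (2 * m) = c * R ^ (2 * m) := by
        field_simp
      rw [h6] at h5
      linarith
  · refine ⟨{1}, ?_, ?_⟩
    · intro g hg
      rw [Finset.mem_singleton] at hg
      subst hg
      rw [map_one, cc, Matrix.one_apply_eq, norm_one]
      exact hR
    · have h4 : min (c / ((V + 1) * D ^ (2 * m))) (1 / (3 * D) ^ (2 * m)) * R ^ (2 * m) ≤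
          1 / (3 * D) ^ (2 * m) * R ^ (2 * m) :=
        mul_le_mul_of_nonneg_right (min_le_right _ _) hRm
      refine h4.trans ?_
      rw [Finset.card_singleton, Nat.cast_one, div_mul_eq_mul_div, one_mul,
        div_le_one (by positivity)]
      exact pow_le_pow_left₀ (by linarith) (by linarith [not_le.mp h3]) _

end low

end Pool.Agent.MPd01a95
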