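import Mathlib
import Pool.Agent.Lib.MP_d01a95_gt.Defs

set_option autoImplicit false

open Matrix MeasureTheory

namespace Pool.Agent.MPd01a95

namespace RigidAux

variable {G : Type} [Group G]

/-- Visibility of the pattern `g₀` in `γ` at the scale `j`. -/
structure Vz (c : G → ℝ) (g₀ : G) (F : Finset G) (δ b Q : ℝ) (N₀ : ℕ) (γ : G) (j : ℕ)
    (α η β : G) : Prop where
  hα1 : Q ^ j < b * c α
  hα2 : c α ≤ Q ^ j
  hβ1 : Q ^ (N₀ + 1 - j) < b * c β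
  hβ2 : c β ≤ Q ^ (N₀ + 1 - j)
  hη : ∃ k ∈ F, ∃ k' ∈ F, η = k * g₀ * k'
  hγ : γ = α * η * β
  hlow : δ ^ 2 * c α * c g₀ * c β ≤ c γ

/-- The standing assumptions, with constants at least one. -/
structure Hyp (c Δ : G → ℝ) (C₁ C₂ C₅ C₀ kF δ : ℝ) (F : Finset G) : Prop where
  hc : ∀ g, 1 ≤ c g
  h1 : 1 ≤ C₁
  h2 : 1 ≤ C₂
  h5 : 1 ≤ C₅
  h0 : 1 ≤ C₀
  hk : 1 ≤ kF
  hδ : 0 < δ
  hcmul : ∀ g h, c (g * h) ≤ C₁ * c g * c h
  hc4 : ∀ x y z w, c (x⁻¹ * y) * c (z⁻¹ * w) ≤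
      C₂ * max (c (x⁻¹ * z) * c (y⁻¹ * w)) (c (x⁻¹ * w) * c (y⁻¹ * z))
  hcinv : ∀ g, c g⁻¹ = c g
  hΔ : ∀ g, 0 < Δ g
  hΔmul : ∀ g h, Δ (g * h) ≤ C₅ * Δ g * Δ h
  hdom : ∀ g, Δ g ≤ C₀ * c g ^ 2
  hcF : ∀ k ∈ F, c k ≤ kF
  hΔF : ∀ k ∈ F, Δ k ≤ kF

variable {c Δ : G → ℝ} {C₁ C₂ C₅ C₀ kF δ : ℝ} {F : Finset G}

theorem c_pos (H : Hyp c Δ C₁ C₂ C₅ C₀ kF δ F) (g : G) : 0 < c g :=
  lt_of_lt_of_le one_pos (H.hc g)

theorem c_eta (H : Hyp c Δ C₁ C₂ C₅ C₀ kF δ F) (g₀ η : G)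
    (hη : ∃ k ∈ F, ∃ k' ∈ F, η = k * g₀ * k') : c η ≤ C₁ ^ 2 * kF ^ 2 * c g₀ := by
  obtain ⟨k, hk, k', hk', rfl⟩ := hη
  have h1 := H.h1
  have h0 := c_pos H g₀
  have hkF := H.hk
  have hck := c_pos H k
  have hck' := c_pos H k'
  calc c (k * g₀ * k') ≤ C₁ * c (k * g₀) * c k' := H.hcmul _ _
    _ ≤ C₁ * (C₁ * c k * c g₀) * c k' := by
        gcongr
        exact H.hcmul _ _
    _ ≤ C₁ * (C₁ * kF * c g₀) * kF := by
        gcongr
        · exact H.hcF k hk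
        · exact H.hcF k' hk'
    _ = C₁ ^ 2 * kF ^ 2 * c g₀ := by ring

theorem D_eta (H : Hyp c Δ C₁ C₂ C₅ C₀ kF δ F) (g₀ η : G)
    (hη : ∃ k ∈ F, ∃ k' ∈ F, η = k * g₀ * k') : Δ η ≤ C₅ ^ 2 * kF ^ 2 * Δ g₀ := by
  obtain ⟨k, hk, k', hk', rfl⟩ := hη
  have h1 := H.h5
  have h0 := H.hΔ g₀
  have hkF := H.hk
  have hck := H.hΔ k
  have hck' := H.hΔ k'
  calc Δ (k * g₀ * k') ≤ C₅ * Δ (k * g₀) * Δ k' := H.hΔmul _ _
    _ ≤ C₅ * (C₅ * Δ k * Δ g₀) * Δ k' := by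
        gcongr
        exact H.hΔmul _ _
    _ ≤ C₅ * (C₅ * kF * Δ g₀) * kF := by
        gcongr
        · exact H.hΔF k hk
        · exact H.hΔF k' hk'
    _ = C₅ ^ 2 * kF ^ 2 * Δ g₀ := by ring

/-- The inductive step along the visible scales. -/
theorem step (H : Hyp c Δ C₁ C₂ C₅ C₀ kF δ F) (g₀ : G) (b Q K ω : ℝ) (N₀ : ℕ) (hb : 0 < b)
    (hQ1 : 1 ≤ Q) (hQ : C₂ * C₁ ^ 6 * kF ^ 4 * b * c g₀ < δ ^ 2 * Q)
    (hK : K * δ ^ 4 = C₅ ^ 4 * kF ^ 2 * C₀ * C₂ ^ 2) (hω : K * Δ g₀ = ω * c g₀ ^ 2)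
    (γ : G) (j j' : ℕ) (hjj : j < j') (α η β α' η' β' : G)
    (V : Vz c g₀ F δ b Q N₀ γ j α η β) (V' : Vz c g₀ F δ b Q N₀ γ j' α' η' β') :
    Δ α' * c α ^ 2 ≤ ω * Δ α * c α' ^ 2 := by
  have h1 := H.h1
  have h2 := H.h2
  have h5 := H.h5
  have h0 := H.h0
  have hkF := H.hk
  have hδ := H.hδ
  have cα := c_pos H α
  have cβ := c_pos H β
  have cα' := c_pos H α'
  have cβ' := c_pos H β'
  have cg := c_pos H g₀
  have cγ := c_pos H γ
  have dα := H.hΔ α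
  have dα' := H.hΔ α'
  have dg := H.hΔ g₀
  set ζ := (α * η)⁻¹ * α' with hζ
  have cζ := c_pos H ζ
  have hQ0 : 0 < Q := lt_of_lt_of_le one_pos hQ1
  have e1 : (α * η)⁻¹ * γ = β := by rw [V.hγ]; group
  have e2 : α'⁻¹ * γ = η' * β' := by rw [V'.hγ]; group
  have h4 := H.hc4 (α * η) α' 1 γ
  rw [e1, e2, ← hζ, inv_one, one_mul, mul_one, mul_one, H.hcinv, H.hcinv] at h4
  -- the first alternative is impossible
  have hsec : c ζ * c γ ≤ C₂ * (c β * c α') := by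
    rcases le_total (c (α * η) * c (η' * β')) (c β * c α') with hle | hle
    · rwa [max_eq_right hle] at h4
    · exfalso
      rw [max_eq_left hle] at h4
      have ha : c (α * η) ≤ C₁ * c α * (C₁ ^ 2 * kF ^ 2 * c g₀) :=
        (H.hcmul _ _).trans (by gcongr; exact c_eta H g₀ η V.hη)
      have hb' : c (η' * β') ≤ C₁ * (C₁ ^ 2 * kF ^ 2 * c g₀) * c β' :=
        (H.hcmul _ _).trans (by gcongr; exact c_eta H g₀ η' V'.hη)
      have hc1 : c γ ≤ c ζ * c γ := by nlinarith [H.hc ζ]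
      have h6 : c γ ≤ C₂ * ((C₁ * c α * (C₁ ^ 2 * kF ^ 2 * c g₀)) *
          (C₁ * (C₁ ^ 2 * kF ^ 2 * c g₀) * c β')) := by
        refine hc1.trans (h4.trans ?_)
        have := (c_pos H (α * η)).le
        have := (c_pos H (η' * β')).le
        gcongr
      have h7 : δ ^ 2 * c α' * (c g₀ * c β') ≤
          C₂ * C₁ ^ 6 * kF ^ 4 * c g₀ * c α * (c g₀ * c β') := by
        have := V'.hlow
        nlinarith [this, h6]
      have h8 : δ ^ 2 * c α' ≤ C₂ * C₁ ^ 6 * kF ^ 4 * c g₀ * c α :=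
        le_of_mul_le_mul_right h7 (by positivity)
      have h9 : Q ^ (j + 1) ≤ Q ^ j' := pow_le_pow_right₀ hQ1 hjj
      have h10 : Q ^ j * Q < b * c α' := by
        have := V'.hα1
        rw [pow_succ] at h9
        linarith
      have h11 : δ ^ 2 * (Q ^ j * Q) < δ ^ 2 * (b * c α') := by
        have : 0 < δ ^ 2 := by positivity
        exact mul_lt_mul_of_pos_left h10 this
      have h12 : δ ^ 2 * (b * c α') ≤ C₂ * C₁ ^ 6 * kF ^ 4 * b * c g₀ * Q ^ j := by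
        have : C₂ * C₁ ^ 6 * kF ^ 4 * b * c g₀ * c α ≤ C₂ * C₁ ^ 6 * kF ^ 4 * b * c g₀ * Q ^ j := by
          have := V.hα2
          gcongr
        nlinarith [mul_le_mul_of_nonneg_left h8 hb.le]
      have h13 : C₂ * C₁ ^ 6 * kF ^ 4 * b * c g₀ * Q ^ j < δ ^ 2 * Q * Q ^ j :=
        mul_lt_mul_of_pos_right hQ (by positivity)
      nlinarith
  have hz : c ζ * (δ ^ 2 * c α * c g₀) ≤ C₂ * c α' := by
    have h3 : c ζ * (δ ^ 2 * c α * c g₀ * c β) ≤ C₂ * (c β * c α') := by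
      refine le_trans ?_ hsec
      have := V.hlow
      gcongr
    have h3' : c ζ * (δ ^ 2 * c α * c g₀) * c β ≤ C₂ * c α' * c β := by nlinarith
    exact le_of_mul_le_mul_right h3' cβ
  have hαe : α' = α * η * ζ := by rw [hζ]; group
  have hD : Δ α' ≤ C₅ ^ 4 * kF ^ 2 * C₀ * Δ α * Δ g₀ * c ζ ^ 2 := by
    have hη := H.hΔ η
    have hζ' := H.hΔ ζ
    calc Δ α' = Δ (α * η * ζ) := by rw [← hαe]
      _ ≤ C₅ * Δ (α * η) * Δ ζ := H.hΔmul _ _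
      _ ≤ C₅ * (C₅ * Δ α * Δ η) * Δ ζ := by
          gcongr
          exact H.hΔmul _ _
      _ ≤ C₅ * (C₅ * Δ α * (C₅ ^ 2 * kF ^ 2 * Δ g₀)) * (C₀ * c ζ ^ 2) := by
          gcongr
          · exact D_eta H g₀ η V.hη
          · exact H.hdom ζ
      _ = C₅ ^ 4 * kF ^ 2 * C₀ * Δ α * Δ g₀ * c ζ ^ 2 := by ring
  have hsq : (c ζ * (δ ^ 2 * c α * c g₀)) ^ 2 ≤ (C₂ * c α') ^ 2 := by
    gcongr
  have hfin : (δ ^ 4 * c g₀ ^ 2) * (Δ α' * c α ^ 2) ≤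
      (δ ^ 4 * c g₀ ^ 2) * (ω * Δ α * c α' ^ 2) := by
    calc (δ ^ 4 * c g₀ ^ 2) * (Δ α' * c α ^ 2) = Δ α' * (δ ^ 4 * c g₀ ^ 2 * c α ^ 2) := by ring
      _ ≤ (C₅ ^ 4 * kF ^ 2 * C₀ * Δ α * Δ g₀ * c ζ ^ 2) * (δ ^ 4 * c g₀ ^ 2 * c α ^ 2) := by
          gcongr
      _ = (C₅ ^ 4 * kF ^ 2 * C₀ * Δ α * Δ g₀) * (c ζ * (δ ^ 2 * c α * c g₀)) ^ 2 := by ring
      _ ≤ (C₅ ^ 4 * kF ^ 2 * C₀ * Δ α * Δ g₀) * (C₂ * c α') ^ 2 := by
          gcongr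
      _ = (C₅ ^ 4 * kF ^ 2 * C₀ * C₂ ^ 2) * Δ g₀ * (Δ α * c α' ^ 2) := by ring
      _ = δ ^ 4 * (K * Δ g₀) * (Δ α * c α' ^ 2) := by rw [← hK]; ring
      _ = (δ ^ 4 * c g₀ ^ 2) * (ω * Δ α * c α' ^ 2) := by rw [hω]; ring
  exact le_of_mul_le_mul_left hfin (by positivity)

/-- The last step: from `α` to `γ`. -/
theorem last (H : Hyp c Δ C₁ C₂ C₅ C₀ kF δ F) (g₀ : G) (b Q K ω A : ℝ) (N₀ : ℕ) (hA : 0 ≤ A)
    (hK : K * δ ^ 4 = C₅ ^ 4 * kF ^ 2 * C₀ * C₂ ^ 2) (hω : K * Δ g₀ = ω * c g₀ ^ 2)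
    (γ : G) (j : ℕ) (α η β : G) (V : Vz c g₀ F δ b Q N₀ γ j α η β)
    (h : Δ α ≤ A * c α ^ 2) : Δ γ ≤ ω * A * c γ ^ 2 := by
  have h1 := H.h1
  have h2 := H.h2
  have h5 := H.h5
  have h0 := H.h0
  have hkF := H.hk
  have hδ := H.hδ
  have cα := c_pos H α
  have cβ := c_pos H β
  have cg := c_pos H g₀
  have cγ := c_pos H γ
  have dα := H.hΔ α
  have dβ := H.hΔ β
  have dη := H.hΔ η
  have dg := H.hΔ g₀
  have hω0 : 0 < ω := by
    have hK0 : 0 < K := by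
      have : 0 < K * δ ^ 4 := by rw [hK]; positivity
      exact (pos_iff_pos_of_mul_pos this).mpr (by positivity)
    have : 0 < ω * c g₀ ^ 2 := by rw [← hω]; positivity
    exact (pos_iff_pos_of_mul_pos this).mpr (by positivity)
  calc Δ γ = Δ (α * η * β) := by rw [← V.hγ]
    _ ≤ C₅ * Δ (α * η) * Δ β := H.hΔmul _ _
    _ ≤ C₅ * (C₅ * Δ α * Δ η) * Δ β := by
        gcongr
        exact H.hΔmul _ _
    _ ≤ C₅ * (C₅ * (A * c α ^ 2) * (C₅ ^ 2 * kF ^ 2 * Δ g₀)) * (C₀ * c β ^ 2) := by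
        gcongr
        · exact D_eta H g₀ η V.hη
        · exact H.hdom β
    _ = (C₅ ^ 4 * kF ^ 2 * C₀ * 1) * Δ g₀ * (A * (c α ^ 2 * c β ^ 2)) := by ring
    _ ≤ (C₅ ^ 4 * kF ^ 2 * C₀ * C₂ ^ 2) * Δ g₀ * (A * (c α ^ 2 * c β ^ 2)) := by
        gcongr
        exact one_le_pow₀ h2
    _ = δ ^ 4 * (K * Δ g₀) * (A * (c α ^ 2 * c β ^ 2)) := by rw [← hK]; ring
    _ = ω * A * (δ ^ 2 * c α * c g₀ * c β) ^ 2 := by rw [hω]; ring
    _ ≤ ω * A * c γ ^ 2 := by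
        have := V.hlow
        gcongr

/-- The decay of the determinant in the number of visible scales. -/
theorem decay (H : Hyp c Δ C₁ C₂ C₅ C₀ kF δ F) (g₀ : G) (b Q K ω : ℝ) (N₀ : ℕ) (hb : 0 < b)
    (hQ1 : 1 ≤ Q) (hQ : C₂ * C₁ ^ 6 * kF ^ 4 * b * c g₀ < δ ^ 2 * Q)
    (hK : K * δ ^ 4 = C₅ ^ 4 * kF ^ 2 * C₀ * C₂ ^ 2) (hω : K * Δ g₀ = ω * c g₀ ^ 2)
    (hω0 : 0 ≤ ω) (γ : G) (s : Finset ℕ)
    (hs : ∀ j ∈ s, ∃ α η β, Vz c g₀ F δ b Q N₀ γ j α η β) :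
    Δ γ ≤ C₀ * ω ^ s.card * c γ ^ 2 := by
  classical
  have h0 := H.h0
  have key : ∀ t : Finset ℕ, (∀ j ∈ t, ∃ α η β, Vz c g₀ F δ b Q N₀ γ j α η β) →
      ∀ a : ℕ, (∀ x ∈ t, x < a) → ∀ α η β, Vz c g₀ F δ b Q N₀ γ a α η β →
        Δ α ≤ C₀ * ω ^ t.card * c α ^ 2 := by
    intro t
    induction t using Finset.induction_on_max with
    | empty =>
      intro _ a _ α η β _
      simpa using H.hdom α
    | insert a' t hmax ih =>
      intro ht a ha α η β V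
      obtain ⟨α', η', β', V'⟩ := ht a' (Finset.mem_insert_self _ _)
      have h1 := ih (fun j hj => ht j (Finset.mem_insert_of_mem hj)) a' hmax α' η' β' V'
      have h2 := step H g₀ b Q K ω N₀ hb hQ1 hQ hK hω γ a' a
        (ha a' (Finset.mem_insert_self _ _)) α' η' β' α η β V' V
      have hnot : a' ∉ t := fun h => lt_irrefl _ (hmax a' h)
      rw [Finset.card_insert_of_notMem hnot, pow_succ]
      have cα := c_pos H α
      have cα' := c_pos H α'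
      have h3 : Δ α * c α' ^ 2 ≤ C₀ * (ω ^ t.card * ω) * c α ^ 2 * c α' ^ 2 := by
        refine h2.trans ?_
        calc ω * Δ α' * c α ^ 2 ≤ ω * (C₀ * ω ^ t.card * c α' ^ 2) * c α ^ 2 := by gcongr
          _ = C₀ * (ω ^ t.card * ω) * c α ^ 2 * c α' ^ 2 := by ring
      exact le_of_mul_le_mul_right h3 (by positivity)
  induction s using Finset.induction_on_max with
  | empty => simpa using H.hdom γ
  | insert a t hmax _ =>
    obtain ⟨α, η, β, V⟩ := hs a (Finset.mem_insert_self _ _)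
    have h1 := key t (fun j hj => hs j (Finset.mem_insert_of_mem hj)) a hmax α η β V
    have hnot : a ∉ t := fun h => lt_irrefl _ (hmax a h)
    rw [Finset.card_insert_of_notMem hnot, pow_succ]
    have h2 := last H g₀ b Q K ω (C₀ * ω ^ t.card) N₀ (by positivity) hK hω γ a α η β V h1
    calc Δ γ ≤ ω * (C₀ * ω ^ t.card) * c γ ^ 2 := h2
      _ = C₀ * (ω ^ t.card * ω) * c γ ^ 2 := by ring

/-- Counting elements with bounded `c`. -/
theorem card_le (H : Hyp c Δ C₁ C₂ C₅ C₀ kF δ F) (n : ℕ) (CA : ℝ)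
    (hA : ∀ R : ℝ, 1 ≤ R → ∀ S : Finset G, (∀ g ∈ S, c g ≤ R) →
      R ^ 2 * ∑ g ∈ S, (Δ g)⁻¹ ≤ CA * R ^ n) (X : ℝ) (hX : 1 ≤ X) (S : Finset G)
    (hS : ∀ g ∈ S, c g ≤ X) : (S.card : ℝ) ≤ C₀ * CA * X ^ n := by
  have h0 := H.h0
  have h1 : (S.card : ℝ) * (C₀ * X ^ 2)⁻¹ ≤ ∑ g ∈ S, (Δ g)⁻¹ := by
    rw [← nsmul_eq_mul]
    refine Finset.card_nsmul_le_sum S _ _ fun g hg => ?_
    have := H.hΔ g
    have h2 : Δ g ≤ C₀ * X ^ 2 := (H.hdom g).trans (by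
      have := c_pos H g
      have := hS g hg
      gcongr)
    exact inv_anti₀ this h2
  have h3 := hA X hX S hS
  have h4 : X ^ 2 * ((S.card : ℝ) * (C₀ * X ^ 2)⁻¹) ≤ CA * X ^ n :=
    le_trans (by gcongr) h3
  have h5 : X ^ 2 * ((S.card : ℝ) * (C₀ * X ^ 2)⁻¹) = S.card / C₀ := by
    field_simp
  rw [h5, div_le_iff₀ (by linarith)] at h4
  linarith

theorem finite_c (H : Hyp c Δ C₁ C₂ C₅ C₀ kF δ F) (n : ℕ) (CA : ℝ)
    (hA : ∀ R : ℝ, 1 ≤ R → ∀ S : Finset G, (∀ g ∈ S, c g ≤ R) →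
      R ^ 2 * ∑ g ∈ S, (Δ g)⁻¹ ≤ CA * R ^ n) (X : ℝ) : {g | c g ≤ X}.Finite := by
  by_contra hinf
  set Y := max X 1
  obtain ⟨N, hN⟩ := exists_nat_gt (C₀ * CA * Y ^ n)
  obtain ⟨t, ht, htc⟩ := Set.Infinite.exists_subset_card_eq (Set.not_infinite.not_right.mpr hinf) N
  have := card_le H n CA hA Y (le_max_right _ _) t (fun g hg => le_trans (ht hg) (le_max_left _ _))
  rw [htc] at this
  linarith

/-- Many elements see the pattern at a given scale. -/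
theorem many (H : Hyp c Δ C₁ C₂ C₅ C₀ kF δ F)
    (hF : ∀ a b, ∃ k ∈ F, δ * c a * c b ≤ c (a * k * b))
    (g₀ : G) (b Q : ℝ) (N₀ : ℕ) (hb : 0 < b) (hQ1 : 1 ≤ Q)
    (Cf : ∀ X : ℝ, {g | c g ≤ X}.Finite) (j : ℕ) (hj : j ≤ N₀) (C₇ : ℝ)
    (hC₇ : C₂ * C₁ ^ 3 * kF ^ 2 * b ^ 2 = δ ^ 2 * C₇)
    (S T : Finset G) (hS : ∀ g ∈ S, Q ^ j < b * c g ∧ c g ≤ Q ^ j)
    (hT : ∀ g ∈ T, Q ^ (N₀ + 1 - j) < b * c g ∧ c g ≤ Q ^ (N₀ + 1 - j)) (B : Finset G)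
    (hB : ∀ γ : G, c γ ≤ C₁ ^ 4 * kF ^ 2 * c g₀ * Q ^ (N₀ + 1) → γ ∈ B)
    [DecidablePred fun γ : G => ∃ α η β, Vz c g₀ F δ b Q N₀ γ j α η β] :
    S.card * T.card ≤ (F.card ^ 2 * (Cf C₇).toFinset.card) *
      (B.filter fun γ => ∃ α η β, Vz c g₀ F δ b Q N₀ γ j α η β).card := by
  classical
  have h1 := H.h1
  have h2 := H.h2
  have hkF := H.hk
  have hδ := H.hδ
  have cg := c_pos H g₀
  choose kk hkk hkk2 using hF
  set f : G × G → G := fun p =>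
    p.1 * (kk p.1 (g₀ * kk g₀ p.2 * p.2) * g₀ * kk g₀ p.2) * p.2 with hf
  have hQQ : Q ^ j * Q ^ (N₀ + 1 - j) = Q ^ (N₀ + 1) := by
    rw [← pow_add]
    congr 1
    omega
  have hQ0 : 0 < Q := lt_of_lt_of_le one_pos hQ1
  have hlow : ∀ p : G × G, δ ^ 2 * c p.1 * c g₀ * c p.2 ≤ c (f p) := by
    intro p
    have e1 := hkk2 p.1 (g₀ * kk g₀ p.2 * p.2)
    have e2 := hkk2 g₀ p.2
    have e3 : f p = p.1 * kk p.1 (g₀ * kk g₀ p.2 * p.2) * (g₀ * kk g₀ p.2 * p.2) := by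
      simp only [hf]
      group
    rw [e3]
    have := c_pos H p.1
    calc δ ^ 2 * c p.1 * c g₀ * c p.2 = δ * c p.1 * (δ * c g₀ * c p.2) := by ring
      _ ≤ δ * c p.1 * c (g₀ * kk g₀ p.2 * p.2) := by gcongr
      _ ≤ _ := e1
  have hup : ∀ p : G × G, c (f p) ≤ C₁ ^ 4 * kF ^ 2 * c g₀ * (c p.1 * c p.2) := by
    intro p
    have e1 := c_eta H g₀ (kk p.1 (g₀ * kk g₀ p.2 * p.2) * g₀ * kk g₀ p.2)
      ⟨_, hkk _ _, _, hkk _ _, rfl⟩
    have := c_pos H p.1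
    have := c_pos H p.2
    calc c (f p) ≤ C₁ * c (p.1 * (kk p.1 (g₀ * kk g₀ p.2 * p.2) * g₀ * kk g₀ p.2)) * c p.2 :=
          H.hcmul _ _
      _ ≤ C₁ * (C₁ * c p.1 * c (kk p.1 (g₀ * kk g₀ p.2 * p.2) * g₀ * kk g₀ p.2)) * c p.2 := by
          gcongr
          exact H.hcmul _ _
      _ ≤ C₁ * (C₁ * c p.1 * (C₁ ^ 2 * kF ^ 2 * c g₀)) * c p.2 := by
          gcongr
      _ = C₁ ^ 4 * kF ^ 2 * c g₀ * (c p.1 * c p.2) := by ring
  have himg : (S ×ˢ T).image f ⊆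
      B.filter fun γ => ∃ α η β, Vz c g₀ F δ b Q N₀ γ j α η β := by
    intro γ hγ
    rw [Finset.mem_image] at hγ
    obtain ⟨p, hp, rfl⟩ := hγ
    rw [Finset.mem_product] at hp
    have hp1 := hS _ hp.1
    have hp2 := hT _ hp.2
    rw [Finset.mem_filter]
    refine ⟨hB _ ((hup p).trans ?_), p.1, _, p.2, hp1.1, hp1.2, hp2.1, hp2.2,
      ⟨_, hkk p.1 (g₀ * kk g₀ p.2 * p.2), _, hkk g₀ p.2, rfl⟩, rfl, hlow p⟩
    rw [← hQQ]
    have := c_pos H p.1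
    have := c_pos H p.2
    have := hp1.2
    have := hp2.2
    gcongr
  have hfib : ∀ γ ∈ (S ×ˢ T).image f, ((S ×ˢ T).filter fun p => f p = γ).card ≤
      F.card ^ 2 * (Cf C₇).toFinset.card := by
    intro γ hγ
    rw [Finset.mem_image] at hγ
    obtain ⟨p₀, hp₀, hp₀γ⟩ := hγ
    rw [Finset.mem_product] at hp₀
    have hcard : F.card ^ 2 * (Cf C₇).toFinset.card = ((F ×ˢ F) ×ˢ (Cf C₇).toFinset).card := by
      rw [Finset.card_product, Finset.card_product, sq]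
    rw [hcard]
    refine Finset.card_le_card_of_injOn
      (fun p => ((kk p.1 (g₀ * kk g₀ p.2 * p.2), kk g₀ p.2), p₀.1⁻¹ * p.1)) ?_ ?_
    · intro p hp
      rw [Finset.mem_coe, Finset.mem_filter, Finset.mem_product] at hp
      rw [Finset.mem_coe, Finset.mem_product, Finset.mem_product]
      refine ⟨⟨hkk _ _, hkk _ _⟩, ?_⟩
      rw [Set.Finite.mem_toFinset, Set.mem_ofPred_eq]
      obtain ⟨⟨hp1, hp2⟩, hpγ⟩ := hp
      have s1 := hS _ hp1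
      have s2 := hT _ hp2
      have s3 := hS _ hp₀.1
      have s4 := hT _ hp₀.2
      have c1 := c_pos H p.1
      have c2 := c_pos H p.2
      have c3 := c_pos H p₀.1
      have c4 := c_pos H p₀.2
      have e4 := H.hc4 p₀.1 p.1 1 γ
      rw [inv_one, one_mul, mul_one, mul_one, H.hcinv, H.hcinv] at e4
      have e5 : ∀ q : G × G, q ∈ S ×ˢ T → f q = γ →
          c (q.1⁻¹ * γ) ≤ C₁ ^ 3 * kF ^ 2 * c g₀ * Q ^ (N₀ + 1 - j) := by
        intro q hq hqγ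
        rw [Finset.mem_product] at hq
        have e6 : q.1⁻¹ * γ = (kk q.1 (g₀ * kk g₀ q.2 * q.2) * g₀ * kk g₀ q.2) * q.2 := by
          rw [← hqγ]
          simp only [hf]
          group
        rw [e6]
        have e1 := c_eta H g₀ (kk q.1 (g₀ * kk g₀ q.2 * q.2) * g₀ * kk g₀ q.2)
          ⟨_, hkk _ _, _, hkk _ _, rfl⟩
        have := c_pos H q.2
        have := (hT _ hq.2).2
        calc c ((kk q.1 (g₀ * kk g₀ q.2 * q.2) * g₀ * kk g₀ q.2) * q.2)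
            ≤ C₁ * c (kk q.1 (g₀ * kk g₀ q.2 * q.2) * g₀ * kk g₀ q.2) * c q.2 := H.hcmul _ _
          _ ≤ C₁ * (C₁ ^ 2 * kF ^ 2 * c g₀) * Q ^ (N₀ + 1 - j) := by gcongr
          _ = _ := by ring
      have e7 := e5 p₀ (Finset.mem_product.mpr hp₀) hp₀γ
      have e8 := e5 p (Finset.mem_product.mpr ⟨hp1, hp2⟩) hpγ
      have e9 : max (c p₀.1 * c (p.1⁻¹ * γ)) (c (p₀.1⁻¹ * γ) * c p.1) ≤
          C₁ ^ 3 * kF ^ 2 * c g₀ * Q ^ (N₀ + 1) := by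
        refine max_le ?_ ?_
        · calc c p₀.1 * c (p.1⁻¹ * γ) ≤ Q ^ j * (C₁ ^ 3 * kF ^ 2 * c g₀ * Q ^ (N₀ + 1 - j)) := by
                have := s3.2
                have := (c_pos H (p.1⁻¹ * γ)).le
                gcongr
            _ = C₁ ^ 3 * kF ^ 2 * c g₀ * (Q ^ j * Q ^ (N₀ + 1 - j)) := by ring
            _ = _ := by rw [hQQ]
        · calc c (p₀.1⁻¹ * γ) * c p.1 ≤ (C₁ ^ 3 * kF ^ 2 * c g₀ * Q ^ (N₀ + 1 - j)) * Q ^ j := by
                have := s1.2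
                have := (c_pos H (p₀.1⁻¹ * γ)).le
                gcongr
            _ = C₁ ^ 3 * kF ^ 2 * c g₀ * (Q ^ j * Q ^ (N₀ + 1 - j)) := by ring
            _ = _ := by rw [hQQ]
      have e10 : c (p₀.1⁻¹ * p.1) * c γ ≤ C₂ * (C₁ ^ 3 * kF ^ 2 * c g₀ * Q ^ (N₀ + 1)) :=
        e4.trans (by gcongr)
      have e11 : δ ^ 2 * c g₀ * Q ^ (N₀ + 1) ≤ b ^ 2 * c γ := by
        have t1 := hlow p
        rw [hpγ] at t1
        have t2 : Q ^ j * Q ^ (N₀ + 1 - j) ≤ (b * c p.1) * (b * c p.2) := by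
          have := s1.1.le
          have := s2.1.le
          gcongr
        rw [hQQ] at t2
        calc δ ^ 2 * c g₀ * Q ^ (N₀ + 1) ≤ δ ^ 2 * c g₀ * ((b * c p.1) * (b * c p.2)) := by gcongr
          _ = b ^ 2 * (δ ^ 2 * c p.1 * c g₀ * c p.2) := by ring
          _ ≤ b ^ 2 * c γ := by gcongr
      have cz := c_pos H (p₀.1⁻¹ * p.1)
      have e12 : c (p₀.1⁻¹ * p.1) * (δ ^ 2 * c g₀ * Q ^ (N₀ + 1)) ≤
          C₇ * (δ ^ 2 * c g₀ * Q ^ (N₀ + 1)) := by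
        calc c (p₀.1⁻¹ * p.1) * (δ ^ 2 * c g₀ * Q ^ (N₀ + 1))
            ≤ c (p₀.1⁻¹ * p.1) * (b ^ 2 * c γ) := by gcongr
          _ = b ^ 2 * (c (p₀.1⁻¹ * p.1) * c γ) := by ring
          _ ≤ b ^ 2 * (C₂ * (C₁ ^ 3 * kF ^ 2 * c g₀ * Q ^ (N₀ + 1))) := by gcongr
          _ = (C₂ * C₁ ^ 3 * kF ^ 2 * b ^ 2) * (c g₀ * Q ^ (N₀ + 1)) := by ring
          _ = C₇ * (δ ^ 2 * c g₀ * Q ^ (N₀ + 1)) := by rw [hC₇]; ring
      exact le_of_mul_le_mul_right e12 (by positivity)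
    · intro p hp p' hp' hpp
      rw [Finset.mem_coe, Finset.mem_filter] at hp hp'
      simp only [Prod.mk.injEq, mul_right_inj] at hpp
      obtain ⟨⟨q1, q2⟩, q3⟩ := hpp
      have e1 := hp.2.trans hp'.2.symm
      simp only [hf] at e1
      rw [q1, q2, q3] at e1
      have e2 : p.2 = p'.2 := mul_left_cancel e1
      exact Prod.ext q3 e2
  have := Finset.card_le_mul_card_image_of_maps_to (s := S ×ˢ T)
    (t := (S ×ˢ T).image f) (f := f) (fun x hx => Finset.mem_image_of_mem f hx) _ hfib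
  rw [Finset.card_product] at this
  exact this.trans (Nat.mul_le_mul_left _ (Finset.card_le_card himg))

/-- Shells contain many elements. -/
theorem shell (H : Hyp c Δ C₁ C₂ C₅ C₀ kF δ F) (n : ℕ) (hn : 0 < n) (CA c₀ b : ℝ)
    (hCA : 0 ≤ CA) (hc₀ : 0 < c₀) (hb : 1 ≤ b) (hb2 : 2 * (C₀ * CA) ≤ c₀ * b)
    (hA : ∀ R : ℝ, 1 ≤ R → ∀ S : Finset G, (∀ g ∈ S, c g ≤ R) →
      R ^ 2 * ∑ g ∈ S, (Δ g)⁻¹ ≤ CA * R ^ n)
    (hlow : ∀ R : ℝ, 1 ≤ R → ∃ S : Finset G, (∀ g ∈ S, c g ≤ R) ∧ c₀ * R ^ n ≤ S.card)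
    (X : ℝ) (hX : 1 ≤ X) : ∃ S : Finset G, (∀ g ∈ S, X < b * c g ∧ c g ≤ X) ∧
      c₀ / 2 * X ^ n ≤ S.card := by
  classical
  have h0 := H.h0
  obtain ⟨T, hT, hTc⟩ := hlow X hX
  refine ⟨T.filter fun g => X < b * c g, fun g hg => ?_, ?_⟩
  · rw [Finset.mem_filter] at hg
    exact ⟨hg.2, hT g hg.1⟩
  · have hsum : (T.filter fun g => X < b * c g).card + (T.filter fun g => ¬ X < b * c g).card =
        T.card := Finset.card_filter_add_card_filter_not _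
    have hb0 : 0 < b := by linarith
    have hsmall : ((T.filter fun g => ¬ X < b * c g).card : ℝ) ≤ c₀ / 2 * X ^ n := by
      rcases le_or_gt 1 (X / b) with h | h
      · have h1 := card_le H n CA hA (X / b) h (T.filter fun g => ¬ X < b * c g) (fun g hg => by
          rw [Finset.mem_filter, not_lt] at hg
          rw [le_div_iff₀ hb0]
          linarith [hg.2])
        refine h1.trans ?_
        have h2 : (X / b) ^ n ≤ X ^ n / b := by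
          rw [div_pow]
          gcongr
          exact le_self_pow₀ hb hn.ne'
        calc C₀ * CA * (X / b) ^ n ≤ C₀ * CA * (X ^ n / b) := by gcongr
          _ = (2 * (C₀ * CA)) * (X ^ n / b) / 2 := by ring
          _ ≤ (c₀ * b) * (X ^ n / b) / 2 := by gcongr
          _ = c₀ / 2 * X ^ n := by field_simp
      · have h1 : T.filter (fun g => ¬ X < b * c g) = ∅ := by
          rw [Finset.filter_eq_empty_iff]
          intro g _
          rw [not_not]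
          rw [div_lt_one hb0] at h
          have := H.hc g
          nlinarith
        rw [h1]
        simp
        positivity
    have h3 : ((T.filter fun g => X < b * c g).card : ℝ) +
        (T.filter fun g => ¬ X < b * c g).card = T.card := by exact_mod_cast hsum
    linarith

/-- The core of the rigidity lemma. -/
theorem core (H : Hyp c Δ C₁ C₂ C₅ C₀ kF δ F) (n : ℕ) (hn : 0 < n) (CA c₀ K : ℝ)
    (hCA : 0 ≤ CA) (hc₀ : 0 < c₀)
    (hF : ∀ a b, ∃ k ∈ F, δ * c a * c b ≤ c (a * k * b))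
    (hA : ∀ R : ℝ, 1 ≤ R → ∀ S : Finset G, (∀ g ∈ S, c g ≤ R) →
      R ^ 2 * ∑ g ∈ S, (Δ g)⁻¹ ≤ CA * R ^ n)
    (hlow : ∀ R : ℝ, 1 ≤ R → ∃ S : Finset G, (∀ g ∈ S, c g ≤ R) ∧ c₀ * R ^ n ≤ S.card)
    (hK : K * δ ^ 4 = C₅ ^ 4 * kF ^ 2 * C₀ * C₂ ^ 2) (g₀ : G) : c g₀ ^ 2 ≤ K * Δ g₀ := by
  classical
  by_contra hcon
  rw [not_le] at hcon
  have h1 := H.h1
  have h2 := H.h2
  have h5 := H.h5
  have h0 := H.h0
  have hkF := H.hk
  have hδ := H.hδ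
  have cg := c_pos H g₀
  have dg := H.hΔ g₀
  have hK0 : 0 < K := by
    have : 0 < K * δ ^ 4 := by rw [hK]; positivity
    exact (pos_iff_pos_of_mul_pos this).mpr (by positivity)
  set ω := K * Δ g₀ / c g₀ ^ 2 with hωdef
  have hω : K * Δ g₀ = ω * c g₀ ^ 2 := by
    rw [hωdef]
    field_simp
  have hω0 : 0 < ω := by positivity
  have hω1 : ω < 1 := by
    rw [hωdef, div_lt_one (by positivity)]
    exact hcon
  set lam := 1 / ω - 1 with hlam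
  have hlam0 : 0 < lam := by
    rw [hlam]
    have : 1 < 1 / ω := by
      rw [lt_div_iff₀ hω0]
      linarith
    linarith
  set b := max 1 (2 * (C₀ * CA) / c₀) with hbdef
  have hb1 : 1 ≤ b := le_max_left _ _
  have hb0 : 0 < b := by linarith
  have hb2 : 2 * (C₀ * CA) ≤ c₀ * b := by
    have : 2 * (C₀ * CA) / c₀ ≤ b := le_max_right _ _
    rw [div_le_iff₀ hc₀] at this
    linarith
  set Q := C₂ * C₁ ^ 6 * kF ^ 4 * b * c g₀ / δ ^ 2 + 1 with hQdef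
  have hQ1 : 1 ≤ Q := by
    rw [hQdef]
    have : 0 ≤ C₂ * C₁ ^ 6 * kF ^ 4 * b * c g₀ / δ ^ 2 := by positivity
    linarith
  have hQ : C₂ * C₁ ^ 6 * kF ^ 4 * b * c g₀ < δ ^ 2 * Q := by
    have hd : 0 < δ ^ 2 := by positivity
    have : δ ^ 2 * Q = C₂ * C₁ ^ 6 * kF ^ 4 * b * c g₀ + δ ^ 2 := by
      rw [hQdef]
      field_simp
    linarith
  have hQ0 : 0 < Q := by linarith
  set C₇ := C₂ * C₁ ^ 3 * kF ^ 2 * b ^ 2 / δ ^ 2 with hC₇def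
  have hC₇ : C₂ * C₁ ^ 3 * kF ^ 2 * b ^ 2 = δ ^ 2 * C₇ := by
    rw [hC₇def]
    field_simp
  have Cf := finite_c H n CA hA
  set M : ℝ := ((F.card ^ 2 * (Cf C₇).toFinset.card : ℕ) : ℝ) with hM
  set C₆ := C₁ ^ 4 * kF ^ 2 * c g₀ with hC₆
  have hC₆1 : 1 ≤ C₆ := by
    have e1 : 1 ≤ C₁ ^ 4 := one_le_pow₀ h1
    have e2 : 1 ≤ kF ^ 2 := one_le_pow₀ hkF
    have e3 := H.hc g₀
    have e4 : 1 ≤ C₁ ^ 4 * kF ^ 2 := one_le_mul_of_one_le_of_one_le e1 e2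
    exact one_le_mul_of_one_le_of_one_le e4 e3
  clear_value M C₆ C₇ Q b lam ω
  -- the main inequality for every number of scales
  have main : ∀ N₀ : ℕ, lam * (N₀ * (c₀ / 2) ^ 2) ≤ M * (C₀ * CA) * C₆ ^ n := by
    intro N₀
    set R := C₆ * Q ^ (N₀ + 1) with hR
    have hR1 : 1 ≤ R := one_le_mul_of_one_le_of_one_le hC₆1 (one_le_pow₀ hQ1)
    set B := (Cf R).toFinset with hB
    set V : G → ℕ → Prop := fun γ j => ∃ α η β, Vz c g₀ F δ b Q N₀ γ j α η β with hV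
    have hBmem : ∀ γ, c γ ≤ R → γ ∈ B := fun γ hγ => by
      rw [hB, Set.Finite.mem_toFinset]
      exact hγ
    have hBle : ∀ γ ∈ B, c γ ≤ R := fun γ hγ => by
      rw [hB, Set.Finite.mem_toFinset] at hγ
      exact hγ
    -- lower bound of the number of visible pairs
    have hcol : ∀ j ∈ Finset.range N₀, (c₀ / 2) ^ 2 * (Q ^ (N₀ + 1)) ^ n ≤
        M * ((B.filter fun γ => V γ j).card : ℝ) := by
      intro j hj
      rw [Finset.mem_range] at hj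
      obtain ⟨S, hS, hSc⟩ := shell H n hn CA c₀ b hCA hc₀ hb1 hb2 hA hlow (Q ^ j)
        (one_le_pow₀ hQ1)
      obtain ⟨T, hT, hTc⟩ := shell H n hn CA c₀ b hCA hc₀ hb1 hb2 hA hlow (Q ^ (N₀ + 1 - j))
        (one_le_pow₀ hQ1)
      have h3 := many H hF g₀ b Q N₀ hb0 hQ1 Cf j hj.le C₇ hC₇ S T hS hT B (fun γ hγ => hBmem γ (by
        rw [hR, hC₆]
        exact hγ))
      have h4 : (S.card : ℝ) * T.card ≤ M * ((B.filter fun γ => V γ j).card : ℝ) := by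
        rw [hM]
        exact_mod_cast h3
      refine le_trans ?_ h4
      have hQQ : Q ^ j * Q ^ (N₀ + 1 - j) = Q ^ (N₀ + 1) := by
        rw [← pow_add]
        congr 1
        omega
      calc (c₀ / 2) ^ 2 * (Q ^ (N₀ + 1)) ^ n
          = (c₀ / 2 * (Q ^ j) ^ n) * (c₀ / 2 * (Q ^ (N₀ + 1 - j)) ^ n) := by
            rw [← hQQ, mul_pow]
            ring
        _ ≤ S.card * T.card :=
            mul_le_mul hSc hTc (mul_nonneg (by linarith) (pow_nonneg (pow_nonneg hQ0.le _) _))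
              (Nat.cast_nonneg _)
    have hcols : N₀ * ((c₀ / 2) ^ 2 * (Q ^ (N₀ + 1)) ^ n) ≤
        M * ∑ j ∈ Finset.range N₀, ((B.filter fun γ => V γ j).card : ℝ) := by
      rw [Finset.mul_sum]
      have := Finset.card_nsmul_le_sum (Finset.range N₀)
        (fun j => M * ((B.filter fun γ => V γ j).card : ℝ)) _ hcol
      rw [Finset.card_range, nsmul_eq_mul] at this
      exact this
    -- double counting
    have hswap : ∑ j ∈ Finset.range N₀, ((B.filter fun γ => V γ j).card : ℝ) =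
        ∑ γ ∈ B, (((Finset.range N₀).filter fun j => V γ j).card : ℝ) := by
      simp_rw [Finset.card_filter]
      push_cast
      exact Finset.sum_comm
    -- upper bound
    have hrow : ∀ γ ∈ B, lam * (((Finset.range N₀).filter fun j => V γ j).card : ℝ) ≤
        C₀ * R ^ 2 * (Δ γ)⁻¹ := by
      intro γ hγ
      set s := (Finset.range N₀).filter fun j => V γ j with hs
      have h3 := decay H g₀ b Q K ω N₀ hb0 hQ1 hQ hK hω hω0.le γ s (fun j hj => by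
        rw [hs, Finset.mem_filter] at hj
        exact hj.2)
      have h4 : Δ γ ≤ C₀ * ω ^ s.card * R ^ 2 := h3.trans (by
        have := c_pos H γ
        have := hBle γ hγ
        gcongr)
      have h6 : lam * s.card ≤ (1 / ω) ^ s.card := by
        have h7 := one_add_mul_le_pow (a := lam) (by linarith) s.card
        have h8 : 1 + lam = 1 / ω := by rw [hlam]; ring
        rw [h8] at h7
        linarith
      refine h6.trans ?_
      have hd := H.hΔ γ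
      rw [one_div, inv_pow, ← div_eq_mul_inv, le_div_iff₀ hd, inv_mul_le_iff₀ (by positivity)]
      calc Δ γ ≤ C₀ * ω ^ s.card * R ^ 2 := h4
        _ = ω ^ s.card * (C₀ * R ^ 2) := by ring
    have hsum : lam * ∑ γ ∈ B, (((Finset.range N₀).filter fun j => V γ j).card : ℝ) ≤
        C₀ * (CA * R ^ n) := by
      rw [Finset.mul_sum]
      calc ∑ γ ∈ B, lam * (((Finset.range N₀).filter fun j => V γ j).card : ℝ)
          ≤ ∑ γ ∈ B, C₀ * R ^ 2 * (Δ γ)⁻¹ := Finset.sum_le_sum hrow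
        _ = C₀ * (R ^ 2 * ∑ γ ∈ B, (Δ γ)⁻¹) := by rw [← Finset.mul_sum]; ring
        _ ≤ C₀ * (CA * R ^ n) := by
            have := hA R hR1 B hBle
            gcongr
    have hM0 : 0 ≤ M := by rw [hM]; exact Nat.cast_nonneg _
    have hC0 : 0 < C₀ := by linarith
    clear_value B R V
    have hfin : (lam * (N₀ * (c₀ / 2) ^ 2)) * (Q ^ (N₀ + 1)) ^ n ≤
        (M * (C₀ * CA) * C₆ ^ n) * (Q ^ (N₀ + 1)) ^ n := by
      calc (lam * (N₀ * (c₀ / 2) ^ 2)) * (Q ^ (N₀ + 1)) ^ n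
          = lam * (N₀ * ((c₀ / 2) ^ 2 * (Q ^ (N₀ + 1)) ^ n)) := by ring
        _ ≤ lam * (M * ∑ j ∈ Finset.range N₀, ((B.filter fun γ => V γ j).card : ℝ)) := by
            gcongr
        _ = M * (lam * ∑ γ ∈ B, (((Finset.range N₀).filter fun j => V γ j).card : ℝ)) := by
            rw [hswap]; ring
        _ ≤ M * (C₀ * (CA * R ^ n)) := by gcongr
        _ = (M * (C₀ * CA) * C₆ ^ n) * (Q ^ (N₀ + 1)) ^ n := by
            rw [hR, mul_pow]; ring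
    exact le_of_mul_le_mul_right hfin (by positivity)
  obtain ⟨N₀, hN₀⟩ := exists_nat_gt (M * (C₀ * CA) * C₆ ^ n / (lam * (c₀ / 2) ^ 2))
  rw [div_lt_iff₀ (by positivity)] at hN₀
  have := main N₀
  linarith

end RigidAux

theorem rigid {G : Type} [Group G] (n : ℕ) (hn : 0 < n) (c Δ : G → ℝ) (hc : ∀ g, 1 ≤ c g)
    (hcmul : ∃ C : ℝ, ∀ g h, c (g * h) ≤ C * c g * c h)
    (hc4 : ∃ C : ℝ, ∀ x y z w, c (x⁻¹ * y) * c (z⁻¹ * w) ≤
      C * max (c (x⁻¹ * z) * c (y⁻¹ * w)) (c (x⁻¹ * w) * c (y⁻¹ * z)))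
    (hcinv : ∀ g, c g⁻¹ = c g)
    (hF : ∃ (F : Finset G) (δ : ℝ), 0 < δ ∧ ∀ a b, ∃ k ∈ F, δ * c a * c b ≤ c (a * k * b))
    (hlow : ∃ c₀ : ℝ, 0 < c₀ ∧ ∀ R : ℝ, 1 ≤ R → ∃ S : Finset G, (∀ g ∈ S, c g ≤ R) ∧
      c₀ * R ^ n ≤ S.card)
    (hΔ : ∀ g, 0 < Δ g)
    (hΔmul : ∃ C : ℝ, ∀ g h, Δ (g * h) ≤ C * Δ g * Δ h)
    (hdom : ∃ C : ℝ, ∀ g, Δ g ≤ C * c g ^ 2)
    (hA : ∃ C : ℝ, ∀ R : ℝ, 1 ≤ R → ∀ S : Finset G, (∀ g ∈ S, c g ≤ R) →
      R ^ 2 * ∑ g ∈ S, (Δ g)⁻¹ ≤ C * R ^ n) :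
    ∃ ε : ℝ, 0 < ε ∧ ∀ g, ε * c g ^ 2 ≤ Δ g := by
  classical
  obtain ⟨C₁, hC₁⟩ := hcmul
  obtain ⟨C₂, hC₂⟩ := hc4
  obtain ⟨C₅, hC₅⟩ := hΔmul
  obtain ⟨C₀, hC₀⟩ := hdom
  obtain ⟨CA, hCA⟩ := hA
  obtain ⟨F, δ, hδ, hF⟩ := hF
  obtain ⟨c₀, hc₀, hlow⟩ := hlow
  obtain ⟨kF, hkF⟩ := Finset.exists_le (F.image c ∪ F.image Δ ∪ {1})
  have cpos : ∀ g, 0 < c g := fun g => lt_of_lt_of_le one_pos (hc g)
  have H : RigidAux.Hyp c Δ (max C₁ 1) (max C₂ 1) (max C₅ 1) (max C₀ 1) kF δ F :=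
    { hc := hc
      h1 := le_max_right _ _
      h2 := le_max_right _ _
      h5 := le_max_right _ _
      h0 := le_max_right _ _
      hk := hkF 1 (by simp)
      hδ := hδ
      hcmul := fun g h => (hC₁ g h).trans (by
        have := cpos g
        have := cpos h
        gcongr
        exact le_max_left _ _)
      hc4 := fun x y z w => (hC₂ x y z w).trans (by
        have h3 : 0 ≤ max (c (x⁻¹ * z) * c (y⁻¹ * w)) (c (x⁻¹ * w) * c (y⁻¹ * z)) :=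
          le_max_of_le_left (mul_nonneg (cpos _).le (cpos _).le)
        gcongr
        exact le_max_left _ _)
      hcinv := hcinv
      hΔ := hΔ
      hΔmul := fun g h => (hC₅ g h).trans (by
        have := hΔ g
        have := hΔ h
        gcongr
        exact le_max_left _ _)
      hdom := fun g => (hC₀ g).trans (by
        have := cpos g
        gcongr
        exact le_max_left _ _)
      hcF := fun k hk => hkF _ (by
        simp only [Finset.mem_union, Finset.mem_image]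
        exact Or.inl (Or.inl ⟨k, hk, rfl⟩))
      hΔF := fun k hk => hkF _ (by
        simp only [Finset.mem_union, Finset.mem_image]
        exact Or.inl (Or.inr ⟨k, hk, rfl⟩)) }
  have hk1 : 1 ≤ kF := H.hk
  set K : ℝ := (max C₅ 1) ^ 4 * kF ^ 2 * (max C₀ 1) * (max C₂ 1) ^ 2 / δ ^ 4 with hK
  have hKpos : 0 < K := by positivity
  refine ⟨1 / K, by positivity, fun g => ?_⟩
  have h := RigidAux.core H n hn (max CA 1) c₀ K (le_trans zero_le_one (le_max_right _ _)) hc₀ hF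
    (fun R hR S hS => (hCA R hR S hS).trans (by
      gcongr
      exact le_max_left _ _)) hlow (by rw [hK]; field_simp) g
  rw [one_div, inv_mul_le_iff₀ hKpos]
  exact h

end Pool.Agent.MPd01a95
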