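import Mathlib
import Pool.Agent.Lib.MP_d01a95_gt.Defs

set_option autoImplicit false

open Matrix MeasureTheory

namespace Pool.Agent.MPd01a95

namespace TraceAux

variable {N : Type} [Fintype N] [DecidableEq N]

/-- the 2 by 2 minors of a matrix -/
def mm (X : Matrix N N ℝ) : N × N × N × N → ℝ :=
  fun q => X q.1 q.2.2.1 * X q.2.1 q.2.2.2 - X q.1 q.2.2.2 * X q.2.1 q.2.2.1

/-- the quadratic form in the signs -/
def qq (μ : N → N → ℝ) (e : N → ℝ) : ℝ := ∑ k, ∑ l, e k * e l * μ k l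

/-- the signs of the flip of a pair -/
def sg (a b : N) (k : N) : ℝ := if k = a ∨ k = b then -1 else 1

omit [Fintype N] in
theorem sg_sq (a b k : N) : sg a b k * sg a b k = 1 := by
  unfold sg
  split_ifs <;> norm_num

theorem sg_prod {a b : N} (h : a ≠ b) : ∏ k, sg a b k = 1 := by
  have h1 : ∀ k, sg a b k = if k ∈ ({a, b} : Finset N) then (-1 : ℝ) else 1 := by
    intro k
    simp [sg]
  rw [Finset.prod_congr rfl (fun k _ => h1 k), Finset.prod_ite_mem, Finset.univ_inter,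
    Finset.prod_const, Finset.card_pair h]
  norm_num

theorem qq_step {μ : N → N → ℝ} (hμ : ∀ e : N → ℝ, (∀ k, e k * e k = 1) → ∏ k, e k = 1 →
    qq μ e = 0) {a b : N} (h : a ≠ b) (e : N → ℝ) (he : ∀ k, e k * e k = 1)
    (he' : ∏ k, e k = 1) :
    qq (fun k l => (1 - sg a b k * sg a b l) * μ k l) e = 0 := by
  have h1 := hμ e he he'
  have h2 := hμ (fun k => sg a b k * e k) (fun k => by
    have := he k
    have := sg_sq a b k
    calc sg a b k * e k * (sg a b k * e k) = (sg a b k * sg a b k) * (e k * e k) := by ring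
      _ = 1 := by rw [sg_sq, he]; norm_num) (by
    rw [Finset.prod_mul_distrib, sg_prod h, he', one_mul])
  have h3 : qq (fun k l => (1 - sg a b k * sg a b l) * μ k l) e =
      qq μ e - qq μ (fun k => sg a b k * e k) := by
    unfold qq
    rw [← Finset.sum_sub_distrib]
    refine Finset.sum_congr rfl (fun k _ => ?_)
    rw [← Finset.sum_sub_distrib]
    refine Finset.sum_congr rfl (fun l _ => ?_)
    ring
  rw [h3, h1, h2, sub_zero]

omit [Fintype N] in
theorem fac (a b k l : N) : 1 - sg a b k * sg a b l =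
    if ((k = a ∨ k = b) ↔ (l = a ∨ l = b)) then 0 else 2 := by
  unfold sg
  by_cases h1 : k = a ∨ k = b <;> by_cases h2 : l = a ∨ l = b <;> simp [h1, h2] <;> norm_num

omit [Fintype N] [DecidableEq N] in
theorem key {x y a b c : N} (hxy : x ≠ y) (hxa : x ≠ a) (hxc : x ≠ c) (hyb : y ≠ b)
    (hyc : y ≠ c) (hya : y ≠ a) (hxb : x ≠ b) (hab : a ≠ b) (hac : a ≠ c) (hbc : b ≠ c)
    (k l : N) : (¬ ((k = x ∨ k = a) ↔ (l = x ∨ l = a)) ∧ ¬ ((k = y ∨ k = b) ↔ (l = y ∨ l = b)) ∧
      ¬ ((k = x ∨ k = c) ↔ (l = x ∨ l = c)) ∧ ¬ ((k = y ∨ k = c) ↔ (l = y ∨ l = c))) ↔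
      ((k = x ∧ l = y) ∨ (k = y ∧ l = x)) := by
  grind

theorem qq_zero {μ : N → N → ℝ} (hμ : ∀ e : N → ℝ, (∀ k, e k * e k = 1) → ∏ k, e k = 1 →
    qq μ e = 0) {x y a b c : N} (hxy : x ≠ y) (hxa : x ≠ a) (hxc : x ≠ c) (hyb : y ≠ b)
    (hyc : y ≠ c) (hya : y ≠ a) (hxb : x ≠ b) (hab : a ≠ b) (hac : a ≠ c) (hbc : b ≠ c) :
    μ x y + μ y x = 0 := by
  have h1 := qq_step hμ hxa
  have h2 := qq_step h1 hyb
  have h3 := qq_step h2 hxc
  have h4 := qq_step h3 hyc (fun _ => 1) (fun _ => by norm_num) (by simp)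
  unfold qq at h4
  have h5 : ∀ k l : N, (1 : ℝ) * 1 * ((1 - sg y c k * sg y c l) * ((1 - sg x c k * sg x c l) *
      ((1 - sg y b k * sg y b l) * ((1 - sg x a k * sg x a l) * μ k l)))) =
      (if k = x then (if l = y then 16 * μ k l else 0) else 0) +
        (if k = y then (if l = x then 16 * μ k l else 0) else 0) := by
    intro k l
    have hk := key hxy hxa hxc hyb hyc hya hxb hab hac hbc k l
    simp only [fac]
    by_cases c1 : (k = x ∧ l = y) ∨ (k = y ∧ l = x)
    · obtain ⟨d1, d2, d3, d4⟩ := hk.2 c1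
      rw [if_neg d1, if_neg d2, if_neg d3, if_neg d4]
      rcases c1 with ⟨rfl, rfl⟩ | ⟨rfl, rfl⟩
      · simp [hxy]
        ring
      · simp [hxy.symm]
        ring
    · have e1 : (if k = x then (if l = y then 16 * μ k l else 0) else 0) = 0 := by
        split_ifs with u v
        · exact absurd (Or.inl ⟨u, v⟩) c1
        · rfl
        · rfl
      have e2 : (if k = y then (if l = x then 16 * μ k l else 0) else 0) = 0 := by
        split_ifs with u v
        · exact absurd (Or.inr ⟨u, v⟩) c1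
        · rfl
        · rfl
      rw [e1, e2]
      have c2 := mt hk.1 c1
      by_cases d1 : ((k = x ∨ k = a) ↔ (l = x ∨ l = a))
      · rw [if_pos d1]; ring
      · by_cases d2 : ((k = y ∨ k = b) ↔ (l = y ∨ l = b))
        · rw [if_pos d2]; ring
        · by_cases d3 : ((k = x ∨ k = c) ↔ (l = x ∨ l = c))
          · rw [if_pos d3]; ring
          · by_cases d4 : ((k = y ∨ k = c) ↔ (l = y ∨ l = c))
            · rw [if_pos d4]; ring
            · exact absurd ⟨d1, d2, d3, d4⟩ c2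
  rw [Finset.sum_congr rfl (fun k _ => Finset.sum_congr rfl (fun l _ => h5 k l))] at h4
  simp [Finset.sum_add_distrib] at h4
  linarith

/-- the polynomial attached to a functional -/
noncomputable def pol (f : (N × N × N × N → ℝ) →ₗ[ℝ] ℝ) : MvPolynomial (N × N) ℝ :=
  ∑ q : N × N × N × N, MvPolynomial.C (f (Pi.single q 1)) *
    (MvPolynomial.X (q.1, q.2.2.1) * MvPolynomial.X (q.2.1, q.2.2.2) -
      MvPolynomial.X (q.1, q.2.2.2) * MvPolynomial.X (q.2.1, q.2.2.1))

theorem apply_eq (f : (N × N × N × N → ℝ) →ₗ[ℝ] ℝ) (m : N × N × N × N → ℝ) :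
    f m = ∑ q, f (Pi.single q 1) * m q := by
  have h1 : m = ∑ q, m q • (Pi.single q 1 : N × N × N × N → ℝ) := by
    funext r
    rw [Finset.sum_apply, Finset.sum_eq_single r]
    · simp
    · intro b _ hb
      simp [Ne.symm hb]
    · intro h'; exact absurd (Finset.mem_univ _) h'
  conv_lhs => rw [h1]
  rw [map_sum]
  refine Finset.sum_congr rfl (fun q _ => ?_)
  rw [map_smul, smul_eq_mul, mul_comm]

theorem eval_pol (f : (N × N × N × N → ℝ) →ₗ[ℝ] ℝ) (X : Matrix N N ℝ) :
    MvPolynomial.eval (fun ij => X ij.1 ij.2) (pol f) = f (mm X) := by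
  rw [apply_eq, pol, map_sum]
  refine Finset.sum_congr rfl (fun q _ => ?_)
  simp [mm]

theorem apply_diag (f : (N × N × N × N → ℝ) →ₗ[ℝ] ℝ) (e : N → ℝ) :
    f (mm (Matrix.diagonal e)) =
      qq (fun k l => f (Pi.single (k, l, k, l) 1) - f (Pi.single (k, l, l, k) 1)) e := by
  rw [apply_eq, qq]
  rw [Fintype.sum_prod_type]
  refine Finset.sum_congr rfl (fun k _ => ?_)
  rw [Fintype.sum_prod_type]
  refine Finset.sum_congr rfl (fun l _ => ?_)
  rw [Fintype.sum_prod_type]
  have h1 : ∀ i j : N, f (Pi.single (k, l, i, j) 1) * mm (Matrix.diagonal e) (k, l, i, j) =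
      (if k = i then (if l = j then e k * e l * f (Pi.single (k, l, i, j) 1) else 0) else 0) -
        (if l = i then (if k = j then e k * e l * f (Pi.single (k, l, i, j) 1) else 0) else 0) := by
    intro i j
    simp only [mm, Matrix.diagonal_apply]
    generalize f (Pi.single (k, l, i, j) 1) = A
    split_ifs <;> ring
  rw [Finset.sum_congr rfl (fun i _ => Finset.sum_congr rfl (fun j _ => h1 i j))]
  simp only [Finset.sum_sub_distrib]
  simp
  ring

/-- the target -/
def yy (x y : N) : N × N × N × N → ℝ :=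
  Pi.single (x, y, x, y) 1 - Pi.single (x, y, y, x) 1 - Pi.single (y, x, x, y) 1 +
    Pi.single (y, x, y, x) 1

omit [DecidableEq N] in
theorem pair_mm (X h : Matrix N N ℝ) :
    ∑ q : N × N × N × N, X q.2.2.1 q.1 * X q.2.2.2 q.2.1 * mm h q =
      (X * h).trace ^ 2 - (X * h * (X * h)).trace := by
  have e1 : (X * h).trace = ∑ k, ∑ i, X i k * h k i := by
    rw [Matrix.trace, Finset.sum_comm]
    rfl
  have e2 : (X * h * (X * h)).trace = ∑ k, ∑ l, ∑ i, ∑ j, X i k * X j l * (h k j * h l i) := by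
    have : (X * h * (X * h)).trace = ∑ i, ∑ j, (∑ k, X i k * h k j) * (∑ l, X j l * h l i) := rfl
    rw [this]
    have h3 : ∀ i j : N, (∑ k, X i k * h k j) * (∑ l, X j l * h l i) =
        ∑ k, ∑ l, X i k * X j l * (h k j * h l i) := by
      intro i j
      rw [Finset.sum_mul_sum]
      refine Finset.sum_congr rfl (fun k _ => Finset.sum_congr rfl (fun l _ => ?_))
      ring
    rw [Finset.sum_congr rfl (fun i _ => Finset.sum_congr rfl (fun j _ => h3 i j))]
    calc ∑ i, ∑ j, ∑ k, ∑ l, X i k * X j l * (h k j * h l i)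
        = ∑ i, ∑ k, ∑ j, ∑ l, X i k * X j l * (h k j * h l i) :=
          Finset.sum_congr rfl (fun i _ => Finset.sum_comm)
      _ = ∑ i, ∑ k, ∑ l, ∑ j, X i k * X j l * (h k j * h l i) :=
          Finset.sum_congr rfl (fun i _ => Finset.sum_congr rfl (fun k _ => Finset.sum_comm))
      _ = ∑ k, ∑ i, ∑ l, ∑ j, X i k * X j l * (h k j * h l i) := Finset.sum_comm
      _ = _ := Finset.sum_congr rfl (fun k _ => Finset.sum_comm)
  rw [e1, e2, sq, Finset.sum_mul_sum, Fintype.sum_prod_type, ← Finset.sum_sub_distrib]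
  refine Finset.sum_congr rfl (fun k _ => ?_)
  rw [Fintype.sum_prod_type, ← Finset.sum_sub_distrib]
  refine Finset.sum_congr rfl (fun l _ => ?_)
  rw [Finset.sum_mul_sum, Fintype.sum_prod_type, ← Finset.sum_sub_distrib]
  refine Finset.sum_congr rfl (fun i _ => ?_)
  rw [← Finset.sum_sub_distrib]
  refine Finset.sum_congr rfl (fun j _ => ?_)
  simp only [mm]
  ring

theorem pair_yy (X : Matrix N N ℝ) (x y : N) :
    ∑ q : N × N × N × N, X q.2.2.1 q.1 * X q.2.2.2 q.2.1 * yy x y q =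
      2 * (X x x * X y y - X x y * X y x) := by
  have h1 : ∀ r : N × N × N × N, ∑ q : N × N × N × N, X q.2.2.1 q.1 * X q.2.2.2 q.2.1 *
      (Pi.single r 1 : N × N × N × N → ℝ) q = X r.2.2.1 r.1 * X r.2.2.2 r.2.1 := by
    intro r
    rw [Finset.sum_eq_single r]
    · simp
    · intro b _ hb
      simp [hb]
    · intro h'; exact absurd (Finset.mem_univ _) h'
  have h2 : ∀ q : N × N × N × N, X q.2.2.1 q.1 * X q.2.2.2 q.2.1 * yy x y q =
      X q.2.2.1 q.1 * X q.2.2.2 q.2.1 * (Pi.single (x, y, x, y) 1 : N × N × N × N → ℝ) q -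
      X q.2.2.1 q.1 * X q.2.2.2 q.2.1 * (Pi.single (x, y, y, x) 1 : N × N × N × N → ℝ) q -
      X q.2.2.1 q.1 * X q.2.2.2 q.2.1 * (Pi.single (y, x, x, y) 1 : N × N × N × N → ℝ) q +
      X q.2.2.1 q.1 * X q.2.2.2 q.2.1 * (Pi.single (y, x, y, x) 1 : N × N × N × N → ℝ) q := by
    intro q
    simp only [yy, Pi.add_apply, Pi.sub_apply]
    ring
  rw [Finset.sum_congr rfl (fun q _ => h2 q), Finset.sum_add_distrib, Finset.sum_sub_distrib,
    Finset.sum_sub_distrib, h1, h1, h1, h1]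
  simp only
  ring

end TraceAux

open TraceAux

/-- module Trace -/
theorem trace_dom {ι G : Type} [Fintype ι] [DecidableEq ι] [Group G]
    (hι : 3 ≤ Fintype.card ι) (ρ : G →* Matrix (ι ⊕ Fin 2) (ι ⊕ Fin 2) ℝ)
    (hz : ZDense ρ) : ∃ (F : Finset G) (C : ℝ), ∀ g, ∃ f ∈ F,
      Del (ρ g) ≤ C * |(ρ (g * f)).trace ^ 2 - (ρ (g * f) * ρ (g * f)).trace| := by
  classical
  obtain ⟨a, b, c, hab, hac, hbc⟩ := Fintype.two_lt_card_iff.1 (show 2 < Fintype.card ι from hι)
  have hmem : yy (N := ι ⊕ Fin 2) (Sum.inr 0) (Sum.inr 1) ∈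
      Submodule.span ℝ (Set.range fun g => mm (ρ g)) := by
    by_contra hcon
    obtain ⟨f, hfY, hf⟩ := Submodule.exists_le_ker_of_notMem hcon
    apply hfY
    have h1 : ∀ g : G, MvPolynomial.eval (fun ij => ρ g ij.1 ij.2) (pol f) = 0 := by
      intro g
      rw [eval_pol]
      exact hf (Submodule.subset_span ⟨g, rfl⟩)
    have h2 := hz (pol f) h1
    have h3 : ∀ e : ι ⊕ Fin 2 → ℝ, (∀ k, e k * e k = 1) → ∏ k, e k = 1 →
        qq (fun k l => f (Pi.single (k, l, k, l) 1) - f (Pi.single (k, l, l, k) 1)) e = 0 := by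
      intro e he he'
      rw [← apply_diag, ← eval_pol]
      apply h2
      · have hJ : J ι = Matrix.diagonal (Sum.elim (fun _ => (1 : ℝ)) (fun _ => -1)) := by
          unfold J
          ext i j
          rcases i with i | i <;> rcases j with j | j <;>
            simp [Matrix.diagonal_apply, Matrix.one_apply]
          split_ifs <;> simp
        rw [hJ, Matrix.diagonal_transpose, Matrix.diagonal_mul_diagonal,
          Matrix.diagonal_mul_diagonal]
        congr 1
        funext k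
        have := he k
        calc e k * Sum.elim (fun _ => (1 : ℝ)) (fun _ => -1) k * e k
            = (e k * e k) * Sum.elim (fun _ => (1 : ℝ)) (fun _ => -1) k := by ring
          _ = _ := by rw [this, one_mul]
      · rw [Matrix.det_diagonal, he']
    have h4 := qq_zero h3 (x := Sum.inr 0) (y := Sum.inr 1) (a := Sum.inl a) (b := Sum.inl b)
      (c := Sum.inl c) (by simp) (by simp) (by simp) (by simp) (by simp) (by simp) (by simp)
      (by simpa using hab) (by simpa using hac) (by simpa using hbc)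
    unfold yy
    rw [map_add, map_sub, map_sub]
    linarith
  rw [Finsupp.mem_span_range_iff_exists_finsupp] at hmem
  obtain ⟨cf, hcf⟩ := hmem
  let t : G → ℝ := fun g => |(ρ g).trace ^ 2 - (ρ g * ρ g).trace|
  refine ⟨insert 1 cf.support, (∑ f ∈ cf.support, |cf f|) / 2, fun g => ?_⟩
  obtain ⟨f, hf, hmax⟩ := Finset.exists_max_image (insert 1 cf.support) (fun f => t (g * f))
    ⟨1, Finset.mem_insert_self _ _⟩
  refine ⟨f, hf, ?_⟩
  have h1 := pair_yy (ρ g) (Sum.inr 0) (Sum.inr 1)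
  rw [← hcf] at h1
  have h2 : ∑ q : (ι ⊕ Fin 2) × (ι ⊕ Fin 2) × (ι ⊕ Fin 2) × (ι ⊕ Fin 2),
      ρ g q.2.2.1 q.1 * ρ g q.2.2.2 q.2.1 * (cf.sum fun i a => a • mm (ρ i)) q =
      ∑ f ∈ cf.support, cf f * ((ρ (g * f)).trace ^ 2 - (ρ (g * f) * ρ (g * f)).trace) := by
    have h3 : ∀ q, ρ g q.2.2.1 q.1 * ρ g q.2.2.2 q.2.1 * (cf.sum fun i a => a • mm (ρ i)) q =
        ∑ f ∈ cf.support, cf f * (ρ g q.2.2.1 q.1 * ρ g q.2.2.2 q.2.1 * mm (ρ f) q) := by
      intro q
      rw [Finsupp.sum, Finset.sum_apply, Finset.mul_sum]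
      refine Finset.sum_congr rfl (fun f _ => ?_)
      rw [Pi.smul_apply, smul_eq_mul]
      ring
    rw [Finset.sum_congr rfl (fun q _ => h3 q), Finset.sum_comm]
    refine Finset.sum_congr rfl (fun f _ => ?_)
    rw [← Finset.mul_sum, pair_mm, map_mul]
  rw [h2] at h1
  have h4 : Del (ρ g) = |ρ g (Sum.inr 0) (Sum.inr 0) * ρ g (Sum.inr 1) (Sum.inr 1) -
      ρ g (Sum.inr 0) (Sum.inr 1) * ρ g (Sum.inr 1) (Sum.inr 0)| := by
    unfold Del
    rw [Matrix.det_fin_two]
    rfl
  have h5 : 2 * Del (ρ g) ≤ (∑ f ∈ cf.support, |cf f|) * t (g * f) := by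
    rw [h4, ← abs_two, ← abs_mul, ← h1, Finset.sum_mul]
    refine (Finset.abs_sum_le_sum_abs _ _).trans (Finset.sum_le_sum (fun f' hf' => ?_))
    rw [abs_mul]
    exact mul_le_mul_of_nonneg_left (hmax f' (Finset.mem_insert_of_mem hf')) (abs_nonneg _)
  have h6 : t (g * f) = |(ρ (g * f)).trace ^ 2 - (ρ (g * f) * ρ (g * f)).trace| := rfl
  rw [← h6]
  linarith

end Pool.Agent.MPd01a95
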