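import Mathlib
import Pool.Agent.Lib.MP_d01a95_gt.Defs

set_option autoImplicit false

open Matrix MeasureTheory

namespace Pool.Agent.MPd01a95

namespace TransAux

open ComplexConjugate

variable {κ : Type} [Fintype κ] [DecidableEq κ]

/-- the Hermitian form -/
noncomputable def H (x y : κ ⊕ Unit → ℂ) : ℂ := star x ⬝ᵥ (JC κ *ᵥ y)

theorem H_eq (x y : κ ⊕ Unit → ℂ) : H x y =
    ∑ i : κ, conj (x (Sum.inl i)) * y (Sum.inl i) - conj (x (Sum.inr ())) * y (Sum.inr ()) := by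
  have h1 : ∀ i, (JC κ *ᵥ y) (Sum.inl i) = y (Sum.inl i) := by
    intro i
    simp [JC, Matrix.mulVec, dotProduct, Fintype.sum_sum_type, Matrix.one_apply]
  have h2 : (JC κ *ᵥ y) (Sum.inr ()) = - y (Sum.inr ()) := by
    simp [JC, Matrix.mulVec, dotProduct, Fintype.sum_sum_type]
  unfold H
  rw [dotProduct, Fintype.sum_sum_type]
  simp only [h1, h2, Pi.star_apply, Finset.univ_unique, Finset.sum_singleton, RCLike.star_def,
    PUnit.default_eq_unit]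
  ring

theorem H_conj (x y : κ ⊕ Unit → ℂ) : conj (H x y) = H y x := by
  rw [H_eq, H_eq, map_sub, map_sum, map_mul, Complex.conj_conj]
  congr 1
  · apply Finset.sum_congr rfl
    intro i _
    rw [map_mul, Complex.conj_conj, mul_comm]
  · rw [mul_comm]

theorem H_add_right (x y z : κ ⊕ Unit → ℂ) : H x (y + z) = H x y + H x z := by
  unfold H
  rw [Matrix.mulVec_add, dotProduct_add]

theorem H_smul_right (x y : κ ⊕ Unit → ℂ) (a : ℂ) : H x (a • y) = a * H x y := by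
  unfold H
  rw [Matrix.mulVec_smul, dotProduct_smul, smul_eq_mul]

theorem H_add_left (x y z : κ ⊕ Unit → ℂ) : H (x + y) z = H x z + H y z := by
  rw [← H_conj z, H_add_right, map_add, H_conj, H_conj]

theorem H_smul_left (x y : κ ⊕ Unit → ℂ) (a : ℂ) : H (a • x) y = conj a * H x y := by
  rw [← H_conj y, H_smul_right, map_mul, H_conj]

theorem H_iso (g : Matrix (κ ⊕ Unit) (κ ⊕ Unit) ℂ) (hg : gᴴ * JC κ * g = JC κ)
    (x y : κ ⊕ Unit → ℂ) : H (g *ᵥ x) (g *ᵥ y) = H x y := by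
  unfold H
  rw [star_mulVec, ← dotProduct_mulVec, mulVec_mulVec, mulVec_mulVec, hg]

/-- the sum of the squares of the first coordinates -/
noncomputable def N (x : κ ⊕ Unit → ℂ) : ℝ := ∑ i : κ, ‖x (Sum.inl i)‖ ^ 2

omit [DecidableEq κ] in
theorem N_nonneg (x : κ ⊕ Unit → ℂ) : 0 ≤ N x := Finset.sum_nonneg fun _ _ => by positivity

theorem H_self (x : κ ⊕ Unit → ℂ) : H x x = ((N x - ‖x (Sum.inr ())‖ ^ 2 : ℝ) : ℂ) := by
  rw [H_eq, N]
  push_cast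
  congr 1
  · apply Finset.sum_congr rfl
    intro i _
    rw [mul_comm, Complex.mul_conj, Complex.normSq_eq_norm_sq]
    push_cast; rfl
  · rw [mul_comm, Complex.mul_conj, Complex.normSq_eq_norm_sq]
    push_cast; rfl

theorem N_of_H {x : κ ⊕ Unit → ℂ} {r : ℝ} (h : H x x = (r : ℂ)) :
    N x = ‖x (Sum.inr ())‖ ^ 2 + r := by
  rw [H_self] at h
  have := Complex.ofReal_injective h
  linarith

/-- lower bound of the form for nonpositive vectors -/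
theorem H_lower (x y : κ ⊕ Unit → ℂ) (hy : N y ≤ ‖y (Sum.inr ())‖ ^ 2) :
    (‖x (Sum.inr ())‖ - √(N x)) * ‖y (Sum.inr ())‖ ≤ ‖H x y‖ := by
  rw [H_eq]
  have h1 : ‖∑ i : κ, conj (x (Sum.inl i)) * y (Sum.inl i)‖ ≤ √(N x) * √(N y) := by
    refine (norm_sum_le _ _).trans ?_
    have := Real.sum_mul_le_sqrt_mul_sqrt Finset.univ (fun i : κ => ‖x (Sum.inl i)‖)
      (fun i : κ => ‖y (Sum.inl i)‖)
    refine le_trans (le_of_eq ?_) this
    apply Finset.sum_congr rfl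
    intro i _
    rw [norm_mul, RCLike.norm_conj]
  have h2 : √(N y) ≤ ‖y (Sum.inr ())‖ := by
    rw [← Real.sqrt_sq (norm_nonneg (y (Sum.inr ())))]
    exact Real.sqrt_le_sqrt hy
  have h3 : √(N x) * √(N y) ≤ √(N x) * ‖y (Sum.inr ())‖ :=
    mul_le_mul_of_nonneg_left h2 (Real.sqrt_nonneg _)
  have h4 := norm_sub_norm_le (conj (x (Sum.inr ())) * y (Sum.inr ()))
    (∑ i : κ, conj (x (Sum.inl i)) * y (Sum.inl i))
  rw [norm_mul, RCLike.norm_conj, norm_sub_rev] at h4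
  have h5 : (‖x (Sum.inr ())‖ - √(N x)) * ‖y (Sum.inr ())‖ =
      ‖x (Sum.inr ())‖ * ‖y (Sum.inr ())‖ - √(N x) * ‖y (Sum.inr ())‖ := by ring
  linarith

/-- two orthogonal isotropic vectors are proportional -/
theorem isotropic_prop (x y : κ ⊕ Unit → ℂ) (hx : x (Sum.inr ()) ≠ 0) (hxx : H x x = 0)
    (hyy : H y y = 0) (hxy : H x y = 0) : y = (y (Sum.inr ()) / x (Sum.inr ())) • x := by
  obtain ⟨c, hc⟩ : ∃ c, c = y (Sum.inr ()) / x (Sum.inr ()) := ⟨_, rfl⟩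
  rw [← hc]
  have hyx : H y x = 0 := by rw [← H_conj, hxy, map_zero]
  have hz : H (y + (-c) • x) (y + (-c) • x) = ((0 : ℝ) : ℂ) := by
    rw [H_add_left, H_add_right, H_add_right, H_smul_left, H_smul_left, H_smul_right,
      H_smul_right, hxx, hyy, hxy, hyx]
    simp
  have hN := N_of_H hz
  have hzn : (y + (-c) • x) (Sum.inr ()) = 0 := by
    simp only [Pi.add_apply, Pi.smul_apply, smul_eq_mul]
    rw [hc]; field_simp; ring
  rw [hzn] at hN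
  simp only [norm_zero, ne_eq, OfNat.ofNat_ne_zero, not_false_eq_true, zero_pow, add_zero] at hN
  have h0 : ∀ i : κ, (y + (-c) • x) (Sum.inl i) = 0 := by
    intro i
    have := (Finset.sum_eq_zero_iff_of_nonneg (fun i _ => by positivity)).1 hN i (Finset.mem_univ i)
    have h2 : ‖(y + (-c) • x) (Sum.inl i)‖ = 0 := by
      exact pow_eq_zero_iff (two_ne_zero) |>.1 this
    exact norm_eq_zero.1 h2
  funext j
  have h1 : (y + (-c) • x) j = 0 := by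
    rcases j with i | u
    · exact h0 i
    · cases u; exact hzn
  simp only [Pi.add_apply, Pi.smul_apply, smul_eq_mul] at h1 ⊢
  linear_combination h1

/-- the negative basis vector -/
def e0 (κ : Type) [DecidableEq κ] : κ ⊕ Unit → ℂ := Pi.single (Sum.inr ()) 1

theorem mul_e0 (g : Matrix (κ ⊕ Unit) (κ ⊕ Unit) ℂ) (i : κ ⊕ Unit) :
    (g *ᵥ e0 κ) i = g i (Sum.inr ()) := by
  simp [e0]

theorem H_e0_left (x : κ ⊕ Unit → ℂ) : H (e0 κ) x = - x (Sum.inr ()) := by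
  rw [H_eq]
  simp [e0]

theorem H_e0_e0 : H (e0 κ) (e0 κ) = ((-1 : ℝ) : ℂ) := by
  rw [H_e0_left]; simp [e0]

theorem JC_sq : JC κ * JC κ = 1 := by
  simp [JC, Matrix.fromBlocks_multiply]

theorem iso_adj (g : Matrix (κ ⊕ Unit) (κ ⊕ Unit) ℂ) (hg : gᴴ * JC κ * g = JC κ) :
    gᴴᴴ * JC κ * gᴴ = JC κ := by
  rw [conjTranspose_conjTranspose]
  have h1 : (JC κ * gᴴ * JC κ) * g = 1 := by
    rw [mul_assoc, mul_assoc, ← mul_assoc gᴴ, hg, JC_sq]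
  have h2 := mul_eq_one_comm.1 h1
  have h3 : g * JC κ * gᴴ * JC κ = 1 := by
    rw [← h2]; simp only [mul_assoc]
  calc g * JC κ * gᴴ = g * JC κ * gᴴ * (JC κ * JC κ) := by rw [JC_sq, mul_one]
    _ = (g * JC κ * gᴴ * JC κ) * JC κ := by simp only [mul_assoc]
    _ = JC κ := by rw [h3, one_mul]

theorem col_norm (g : Matrix (κ ⊕ Unit) (κ ⊕ Unit) ℂ) (hg : gᴴ * JC κ * g = JC κ) :
    N (g *ᵥ e0 κ) = cc g ^ 2 - 1 := by
  have h : H (g *ᵥ e0 κ) (g *ᵥ e0 κ) = ((-1 : ℝ) : ℂ) := by rw [H_iso g hg, H_e0_e0]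
  rw [N_of_H h, mul_e0]
  rfl

theorem cc_one_le (g : Matrix (κ ⊕ Unit) (κ ⊕ Unit) ℂ) (hg : gᴴ * JC κ * g = JC κ) :
    1 ≤ cc g := by
  have h1 := col_norm g hg
  have h2 := N_nonneg (g *ᵥ e0 κ)
  have h3 : 0 ≤ cc g := norm_nonneg _
  nlinarith

omit [DecidableEq κ] in
theorem N_le (x : κ ⊕ Unit → ℂ) (i : κ) {r : ℝ} (h : N x ≤ r ^ 2) (hr : 0 ≤ r) :
    ‖x (Sum.inl i)‖ ≤ r := by
  have h1 : ‖x (Sum.inl i)‖ ^ 2 ≤ N x :=
    Finset.single_le_sum (f := fun i : κ => ‖x (Sum.inl i)‖ ^ 2) (fun _ _ => by positivity)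
      (Finset.mem_univ i)
  exact abs_le_of_sq_le_sq' (h1.trans h) hr |>.2

theorem entry (g : Matrix (κ ⊕ Unit) (κ ⊕ Unit) ℂ) (hg : gᴴ * JC κ * g = JC κ)
    (i j : κ ⊕ Unit) : ‖g i j‖ ≤ cc g := by
  have hc1 := cc_one_le g hg
  have hc0 : 0 ≤ cc g := by linarith
  -- the last row
  have hrow : ∀ j : κ, ‖g (Sum.inr ()) (Sum.inl j)‖ ^ 2 ≤ cc g ^ 2 - 1 := by
    intro j
    have h1 := col_norm gᴴ (iso_adj g hg)
    have h2 : cc gᴴ = cc g := by simp [cc, conjTranspose_apply]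
    have h3 : ‖(gᴴ *ᵥ e0 κ) (Sum.inl j)‖ ^ 2 ≤ N (gᴴ *ᵥ e0 κ) :=
      Finset.single_le_sum (f := fun i : κ => ‖(gᴴ *ᵥ e0 κ) (Sum.inl i)‖ ^ 2)
        (fun _ _ => by positivity) (Finset.mem_univ j)
    rw [h1, h2, mul_e0, conjTranspose_apply, norm_star] at h3
    exact h3
  rcases j with j | u
  · rcases i with i | u
    · have h : H (g *ᵥ Pi.single (Sum.inl j) 1) (g *ᵥ Pi.single (Sum.inl j) 1) = ((1 : ℝ) : ℂ) := by
        rw [H_iso g hg, H_eq]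
        simp [Pi.single_apply]
      have h2 := N_of_H h
      have h3 : (g *ᵥ (Pi.single (Sum.inl j) 1 : κ ⊕ Unit → ℂ)) (Sum.inr ()) =
          g (Sum.inr ()) (Sum.inl j) := by simp
      have h4 : (g *ᵥ (Pi.single (Sum.inl j) 1 : κ ⊕ Unit → ℂ)) (Sum.inl i) =
          g (Sum.inl i) (Sum.inl j) := by simp
      rw [h3] at h2
      have h5 := hrow j
      have h6 := N_le (g *ᵥ (Pi.single (Sum.inl j) 1 : κ ⊕ Unit → ℂ)) i (r := cc g)
        (by linarith) hc0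
      rwa [h4] at h6
    · cases u
      have h5 := hrow j
      exact abs_le_of_sq_le_sq' (by linarith) hc0 |>.2
  · cases u
    rcases i with i | u
    · have h2 := N_le (g *ᵥ e0 κ) i (r := cc g) (by rw [col_norm g hg]; linarith) hc0
      rwa [mul_e0] at h2
    · cases u; exact le_rfl

/-- a negative vector controls the size of an isometry -/
theorem cc_bound (p : κ ⊕ Unit → ℂ) (r : ℝ) (hr : 0 < r) (hp : H p p = ((-r : ℝ) : ℂ)) :
    ∃ C : ℝ, 0 < C ∧ ∀ D : Matrix (κ ⊕ Unit) (κ ⊕ Unit) ℂ, Dᴴ * JC κ * D = JC κ →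
      cc D ≤ C * ‖H p (D *ᵥ p)‖ := by
  have hN := N_of_H hp
  have hN0 := N_nonneg p
  have hpn : 0 < ‖p (Sum.inr ())‖ := by
    rcases (norm_nonneg (p (Sum.inr ()))).lt_or_eq with h | h
    · exact h
    · rw [← h] at hN; nlinarith
  have hμ : 0 < ‖p (Sum.inr ())‖ - √(N p) := by
    rw [sub_pos, Real.sqrt_lt' hpn]; linarith
  refine ⟨2 * ‖p (Sum.inr ())‖ / ((‖p (Sum.inr ())‖ - √(N p)) * r), by positivity, ?_⟩
  intro D hD
  have hq : H (D *ᵥ p) (D *ᵥ p) = ((-r : ℝ) : ℂ) := by rw [H_iso D hD, hp]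
  have hNq := N_of_H hq
  have hx : H (D *ᵥ e0 κ) (D *ᵥ e0 κ) = ((-1 : ℝ) : ℂ) := by rw [H_iso D hD, H_e0_e0]
  have hNx := N_of_H hx
  have hNq0 := N_nonneg (D *ᵥ p)
  have h1 := H_lower p (D *ᵥ p) (by linarith)
  have h2 := H_lower (D *ᵥ p) (D *ᵥ e0 κ) (by linarith)
  rw [H_iso D hD, ← H_conj, H_e0_left, RCLike.norm_conj, norm_neg, mul_e0] at h2
  have hcc : ‖D (Sum.inr ()) (Sum.inr ())‖ = cc D := rfl
  rw [hcc] at h2
  have hc1 := cc_one_le D hD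
  obtain ⟨q, hqe⟩ : ∃ q, q = ‖(D *ᵥ p) (Sum.inr ())‖ := ⟨_, rfl⟩
  rw [← hqe] at h1 h2 hNq
  have hq0 : 0 ≤ q := by rw [hqe]; exact norm_nonneg _
  have hqp : 0 < q := by nlinarith
  have hs : √(N (D *ᵥ p)) ≤ q := by
    rw [← Real.sqrt_sq hq0]; exact Real.sqrt_le_sqrt (by linarith)
  have hs0 := Real.sqrt_nonneg (N (D *ᵥ p))
  have hss := Real.sq_sqrt hNq0
  have h3 : r ≤ (q - √(N (D *ᵥ p))) * (2 * q) := by nlinarith
  have h4 : r * cc D ≤ 2 * q * ‖p (Sum.inr ())‖ := by nlinarith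
  have h5 : (‖p (Sum.inr ())‖ - √(N p)) * (r * cc D) ≤
      2 * ‖p (Sum.inr ())‖ * ‖H p (D *ᵥ p)‖ := by
    calc (‖p (Sum.inr ())‖ - √(N p)) * (r * cc D)
        ≤ (‖p (Sum.inr ())‖ - √(N p)) * (2 * q * ‖p (Sum.inr ())‖) :=
          mul_le_mul_of_nonneg_left h4 hμ.le
      _ = 2 * ‖p (Sum.inr ())‖ * ((‖p (Sum.inr ())‖ - √(N p)) * q) := by ring
      _ ≤ 2 * ‖p (Sum.inr ())‖ * ‖H p (D *ᵥ p)‖ :=
          mul_le_mul_of_nonneg_left h1 (by positivity)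
  rw [div_mul_eq_mul_div, le_div_iff₀ (by positivity)]
  linarith

section grp

variable {G : Type} [Group G] (σ : G →* Matrix (κ ⊕ Unit) (κ ⊕ Unit) ℂ)

theorem compact_iso (R : ℝ) :
    IsCompact {g : Matrix (κ ⊕ Unit) (κ ⊕ Unit) ℂ | gᴴ * JC κ * g = JC κ ∧ cc g ≤ R} := by
  have h0 : IsCompact {g : κ ⊕ Unit → κ ⊕ Unit → ℂ | ∀ i j, ‖g i j‖ ≤ R} := by
    have h : IsCompact (Set.pi Set.univ (fun _ : κ ⊕ Unit =>
        Set.pi Set.univ (fun _ : κ ⊕ Unit => Metric.closedBall (0 : ℂ) R))) :=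
      isCompact_univ_pi fun _ => isCompact_univ_pi fun _ => isCompact_closedBall _ _
    convert h using 1
    ext g
    simp only [Set.mem_ofPred_eq, Set.mem_pi, Set.mem_univ, forall_true_left,
      mem_closedBall_zero_iff]
  have h1 : IsCompact {g : Matrix (κ ⊕ Unit) (κ ⊕ Unit) ℂ | ∀ i j, ‖g i j‖ ≤ R} := h0
  refine IsCompact.of_isClosed_subset h1 ?_ ?_
  · have hA : IsClosed {g : Matrix (κ ⊕ Unit) (κ ⊕ Unit) ℂ | gᴴ * JC κ * g = JC κ} :=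
      isClosed_eq (by fun_prop) continuous_const
    have hB : IsClosed {g : Matrix (κ ⊕ Unit) (κ ⊕ Unit) ℂ | cc g ≤ R} := by
      refine isClosed_le ?_ continuous_const
      unfold cc
      fun_prop
    exact hA.inter hB
  · rintro g ⟨hg, hR⟩ i j
    exact (entry g hg i j).trans hR

omit [Fintype κ] [DecidableEq κ] in
theorem nhds_sq {X Y : Type} [TopologicalSpace X] [TopologicalSpace Y] (f : X × X → Y)
    (hf : Continuous f) (x : X) (U : Set Y) (hU : IsOpen U) (hx : f (x, x) ∈ U) :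
    ∃ W ∈ nhds x, ∀ a ∈ W, ∀ b ∈ W, f (a, b) ∈ U := by
  have h2 : f ⁻¹' U ∈ nhds (x, x) := hf.continuousAt.preimage_mem_nhds (hU.mem_nhds hx)
  rw [nhds_prod_eq, Filter.mem_prod_self_iff] at h2
  obtain ⟨W, hW, hW2⟩ := h2
  exact ⟨W, hW, fun a ha b hb => hW2 (Set.mk_mem_prod ha hb)⟩

theorem inv_eq (hσ : ∀ g, (σ g)ᴴ * JC κ * σ g = JC κ) (g : G) :
    σ g⁻¹ = JC κ * (σ g)ᴴ * JC κ := by
  have h1 : σ g * σ g⁻¹ = 1 := by rw [← map_mul, mul_inv_cancel, map_one]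
  calc σ g⁻¹ = (JC κ * JC κ) * σ g⁻¹ := by rw [JC_sq, one_mul]
    _ = JC κ * ((σ g)ᴴ * JC κ * σ g) * σ g⁻¹ := by rw [hσ g]
    _ = JC κ * (σ g)ᴴ * JC κ * (σ g * σ g⁻¹) := by simp only [mul_assoc]
    _ = _ := by rw [h1, mul_one]

theorem finite_cc (hσ : ∀ g, (σ g)ᴴ * JC κ * σ g = JC κ)
    (hdisc : ∃ U : Set (Matrix (κ ⊕ Unit) (κ ⊕ Unit) ℂ), IsOpen U ∧ 1 ∈ U ∧
      ∀ g, σ g ∈ U → g = 1) (R : ℝ) : {g : G | cc (σ g) ≤ R}.Finite := by
  classical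
  obtain ⟨U, hU, hU1, hU2⟩ := hdisc
  have hc := compact_iso (κ := κ) R
  have hW : ∀ M : Matrix (κ ⊕ Unit) (κ ⊕ Unit) ℂ, Mᴴ * JC κ * M = JC κ →
      ∃ W ∈ nhds M, ∀ a ∈ W, ∀ b ∈ W, JC κ * aᴴ * JC κ * b ∈ U := by
    intro M hM
    have h1 : JC κ * Mᴴ * JC κ * M = 1 := by
      rw [mul_assoc, mul_assoc, ← mul_assoc Mᴴ, hM, JC_sq]
    exact nhds_sq (fun p : Matrix (κ ⊕ Unit) (κ ⊕ Unit) ℂ ×
        Matrix (κ ⊕ Unit) (κ ⊕ Unit) ℂ => JC κ * p.1ᴴ * JC κ * p.2) (by fun_prop) M U hU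
      (by rw [h1]; exact hU1)
  choose! W hW1 hW2 using hW
  obtain ⟨t, ht1, ht2⟩ := hc.elim_nhds_subcover W (fun x hx => hW1 x hx.1)
  refine Set.Finite.subset (s := ⋃ M ∈ t, {g : G | σ g ∈ W M}) ?_ ?_
  · apply Set.Finite.biUnion t.finite_toSet
    intro M hM
    apply Set.Subsingleton.finite
    intro a ha b hb
    have h1 := hW2 M (ht1 M hM).1 (σ a) ha (σ b) hb
    rw [← inv_eq σ hσ, ← map_mul] at h1
    have := hU2 _ h1
    exact (inv_mul_eq_one.1 this)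
  · intro g hg
    have := ht2 (show σ g ∈ _ from ⟨hσ g, hg⟩)
    simpa using this

/-- the two null vectors of a boost -/
def nu (c : κ → ℂ) (s : ℂ) : κ ⊕ Unit → ℂ := Sum.elim c (fun _ => s)

/-- the boost -/
noncomputable def boost (c : κ → ℂ) (T : ℝ) : Matrix (κ ⊕ Unit) (κ ⊕ Unit) ℂ :=
  1 + (((T - 1) / 2 : ℝ) : ℂ) • Matrix.vecMulVec (nu c 1) (star (nu c 1)) +
    (((T⁻¹ - 1) / 2 : ℝ) : ℂ) • Matrix.vecMulVec (nu c (-1)) (star (nu c (-1)))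

theorem boost_last (c : κ → ℂ) (T : ℝ) (x : κ ⊕ Unit → ℂ) :
    (boost c T *ᵥ x) (Sum.inr ()) = (((T - T⁻¹) / 2 : ℝ) : ℂ) * ∑ i, conj (c i) * x (Sum.inl i) +
      (((T + T⁻¹) / 2 : ℝ) : ℂ) * x (Sum.inr ()) := by
  rw [boost, Matrix.add_mulVec, Matrix.add_mulVec, Matrix.one_mulVec, Matrix.smul_mulVec,
    Matrix.smul_mulVec, Matrix.vecMulVec_mulVec, Matrix.vecMulVec_mulVec]
  simp only [Pi.add_apply, Pi.smul_apply, smul_eq_mul, MulOpposite.smul_eq_mul_unop, MulOpposite.unop_op]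
  have h1 : star (nu c 1) ⬝ᵥ x = ∑ i, conj (c i) * x (Sum.inl i) + x (Sum.inr ()) := by
    rw [dotProduct, Fintype.sum_sum_type]
    simp [nu]
  have h2 : star (nu c (-1)) ⬝ᵥ x = ∑ i, conj (c i) * x (Sum.inl i) - x (Sum.inr ()) := by
    rw [dotProduct, Fintype.sum_sum_type]
    simp [nu]
    ring
  have h3 : nu c 1 (Sum.inr ()) = 1 := rfl
  have h4 : nu c (-1) (Sum.inr ()) = -1 := rfl
  rw [h1, h2, h3, h4]
  push_cast
  ring

theorem JC_nu (c : κ → ℂ) (s : ℂ) : JC κ *ᵥ nu c s = nu c (-s) := by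
  funext i
  rcases i with i | u
  · simp [JC, nu, Matrix.mulVec, dotProduct, Fintype.sum_sum_type, Matrix.one_apply]
  · simp [JC, nu, Matrix.mulVec, dotProduct, Fintype.sum_sum_type]

omit [Fintype κ] in
theorem JC_herm : (JC κ)ᴴ = JC κ := by
  rw [JC, Matrix.fromBlocks_conjTranspose]
  simp

theorem star_nu_JC (c : κ → ℂ) (s : ℂ) : star (nu c s) ᵥ* JC κ = star (nu c (-s)) := by
  rw [← JC_nu, star_mulVec, JC_herm]

theorem boost_iso (c : κ → ℂ) (hc : ∑ i, ‖c i‖ ^ 2 = 1) (T : ℝ) (hT : T ≠ 0) :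
    (boost c T)ᴴ * JC κ * boost c T = JC κ := by
  have hcc : ∑ i, conj (c i) * c i = 1 := by
    have h : ((∑ i, ‖c i‖ ^ 2 : ℝ) : ℂ) = 1 := by rw [hc]; simp
    rw [← h]
    push_cast
    apply Finset.sum_congr rfl
    intro i _
    rw [mul_comm, Complex.mul_conj, Complex.normSq_eq_norm_sq]
    push_cast; rfl
  have hdot : ∀ s t : ℂ, star (nu c s) ⬝ᵥ nu c t = 1 + conj s * t := by
    intro s t
    rw [dotProduct, Fintype.sum_sum_type, ← hcc]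
    simp [nu]
  obtain ⟨α, hα⟩ : ∃ α : ℂ, α = (((T - 1) / 2 : ℝ) : ℂ) := ⟨_, rfl⟩
  obtain ⟨β, hβ⟩ : ∃ β : ℂ, β = (((T⁻¹ - 1) / 2 : ℝ) : ℂ) := ⟨_, rfl⟩
  have hαβ : α + β + 2 * α * β = 0 := by
    have : (T - 1) / 2 + (T⁻¹ - 1) / 2 + 2 * ((T - 1) / 2) * ((T⁻¹ - 1) / 2) = 0 := by
      field_simp; ring
    rw [hα, hβ]
    exact_mod_cast this
  have hherm : (boost c T)ᴴ = boost c T := by
    unfold boost
    rw [conjTranspose_add, conjTranspose_add, conjTranspose_one, conjTranspose_smul,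
      conjTranspose_smul, conjTranspose_vecMulVec, conjTranspose_vecMulVec, star_star, star_star]
    simp only [RCLike.star_def, Complex.conj_ofReal]
  rw [hherm]
  unfold boost
  rw [← hα, ← hβ]
  obtain ⟨P, hP⟩ : ∃ P, P = Matrix.vecMulVec (nu c 1) (star (nu c 1)) := ⟨_, rfl⟩
  obtain ⟨Q, hQ⟩ : ∃ Q, Q = Matrix.vecMulVec (nu c (-1)) (star (nu c (-1))) := ⟨_, rfl⟩
  obtain ⟨X, hX⟩ : ∃ X, X = Matrix.vecMulVec (nu c (-1)) (star (nu c 1)) := ⟨_, rfl⟩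
  obtain ⟨Y, hY⟩ : ∃ Y, Y = Matrix.vecMulVec (nu c 1) (star (nu c (-1))) := ⟨_, rfl⟩
  have a1 : JC κ * P = X := by rw [hP, hX, Matrix.mul_vecMulVec, JC_nu]
  have a2 : JC κ * Q = Y := by rw [hQ, hY, Matrix.mul_vecMulVec, JC_nu, neg_neg]
  have a3 : P * JC κ = Y := by rw [hP, hY, Matrix.vecMulVec_mul, star_nu_JC]
  have a4 : Q * JC κ = X := by rw [hQ, hX, Matrix.vecMulVec_mul, star_nu_JC, neg_neg]
  have a5 : Y * P = 0 := by
    rw [hP, hY, Matrix.vecMulVec_mul_vecMulVec, hdot]; simp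
  have a6 : X * P = (2 : ℂ) • X := by
    rw [hP, hX, Matrix.vecMulVec_mul_vecMulVec, hdot]; norm_num
  have a7 : Y * Q = (2 : ℂ) • Y := by
    rw [hQ, hY, Matrix.vecMulVec_mul_vecMulVec, hdot]; norm_num
  have a8 : X * Q = 0 := by
    rw [hQ, hX, Matrix.vecMulVec_mul_vecMulVec, hdot]; simp
  rw [← hP, ← hQ]
  simp only [mul_add, add_mul, mul_one, one_mul, mul_smul_comm, smul_mul_assoc,
    a1, a2, a3, a4, a5, a6, a7, a8, smul_zero, add_zero]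
  have e : JC κ + α • Y + β • X + α • (X + β • (2 : ℂ) • X) + β • (Y + α • (2 : ℂ) • Y) =
      JC κ + (α + β + 2 * α * β) • X + (α + β + 2 * α * β) • Y := by
    module
  rw [e, hαβ]
  simp

theorem boost_big (c : κ → ℂ) (x : κ ⊕ Unit → ℂ)
    (hx : x (Sum.inr ()) + ∑ i, conj (c i) * x (Sum.inl i) ≠ 0) (C : ℝ) :
    ∃ T₀ : ℝ, 1 ≤ T₀ ∧ ∀ T, T₀ ≤ T → C ≤ ‖(boost c T *ᵥ x) (Sum.inr ())‖ := by
  obtain ⟨S, hS⟩ : ∃ S, S = ∑ i, conj (c i) * x (Sum.inl i) := ⟨_, rfl⟩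
  rw [← hS] at hx
  have hP : 0 < ‖x (Sum.inr ()) + S‖ := norm_pos_iff.2 hx
  refine ⟨max 1 ((2 * C + ‖x (Sum.inr ()) - S‖) / ‖x (Sum.inr ()) + S‖), le_max_left _ _, ?_⟩
  intro T hT
  have hT1 : 1 ≤ T := (le_max_left _ _).trans hT
  have hT2 := (le_max_right _ _).trans hT
  rw [div_le_iff₀ hP] at hT2
  have hT0 : 0 < T := by linarith
  have hTi : T⁻¹ ≤ 1 := inv_le_one_of_one_le₀ hT1
  have hTi0 : 0 < T⁻¹ := inv_pos.2 hT0
  rw [boost_last, ← hS]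
  have e : (((T - T⁻¹) / 2 : ℝ) : ℂ) * S + (((T + T⁻¹) / 2 : ℝ) : ℂ) * x (Sum.inr ()) =
      ((T / 2 : ℝ) : ℂ) * (x (Sum.inr ()) + S) - (-((T⁻¹ / 2 : ℝ) : ℂ) * (x (Sum.inr ()) - S)) := by
    push_cast; ring
  rw [e]
  have h1 := norm_sub_norm_le (((T / 2 : ℝ) : ℂ) * (x (Sum.inr ()) + S))
    (-((T⁻¹ / 2 : ℝ) : ℂ) * (x (Sum.inr ()) - S))
  rw [norm_mul, norm_mul, norm_neg, Complex.norm_real, Complex.norm_real, Real.norm_eq_abs,
    Real.norm_eq_abs, abs_of_pos (by positivity), abs_of_pos (by positivity)] at h1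
  have h2 : T⁻¹ / 2 * ‖x (Sum.inr ()) - S‖ ≤ 1 / 2 * ‖x (Sum.inr ()) - S‖ :=
    mul_le_mul_of_nonneg_right (by linarith) (norm_nonneg _)
  linarith

theorem bounded_inv
    (hcoc : ∃ K : Set (Matrix (κ ⊕ Unit) (κ ⊕ Unit) ℂ), IsCompact K ∧
      ∀ h, hᴴ * JC κ * h = JC κ → ∃ k ∈ K, ∃ g, h = k * σ g)
    (Φ : Matrix (κ ⊕ Unit) (κ ⊕ Unit) ℂ → ℝ) (hΦ : Continuous Φ)
    (hinv : ∀ h g, Φ (h * σ g) = Φ h) :
    ∃ C : ℝ, ∀ h, hᴴ * JC κ * h = JC κ → Φ h ≤ C := by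
  obtain ⟨K, hK, hK2⟩ := hcoc
  obtain ⟨C, hC⟩ := (hK.image hΦ).bddAbove
  refine ⟨C, fun h hh => ?_⟩
  obtain ⟨k, hk, g, rfl⟩ := hK2 h hh
  rw [hinv]
  exact hC ⟨k, hk, rfl⟩

theorem pow_mulVec {A : Matrix (κ ⊕ Unit) (κ ⊕ Unit) ℂ} {v : κ ⊕ Unit → ℂ} {a : ℂ}
    (h : A *ᵥ v = a • v) (n : ℕ) : (A ^ n) *ᵥ v = a ^ n • v := by
  induction n with
  | zero => simp
  | succ n ih =>
    rw [pow_succ, ← mulVec_mulVec, h, mulVec_smul, ih, smul_smul, pow_succ, mul_comm]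

theorem isotropic_last (x : κ ⊕ Unit → ℂ) (hx : H x x = 0) (h0 : x ≠ 0) : x (Sum.inr ()) ≠ 0 := by
  intro h
  apply h0
  have h1 : H x x = ((0 : ℝ) : ℂ) := by rw [hx]; simp
  have hN := N_of_H h1
  rw [h] at hN
  simp only [norm_zero, ne_eq, OfNat.ofNat_ne_zero, not_false_eq_true, zero_pow, add_zero] at hN
  funext j
  rcases j with i | u
  · have := (Finset.sum_eq_zero_iff_of_nonneg (fun i _ => by positivity)).1 hN i (Finset.mem_univ i)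
    have h2 : ‖x (Sum.inl i)‖ = 0 := pow_eq_zero_iff (two_ne_zero) |>.1 this
    exact norm_eq_zero.1 h2
  · cases u; exact h

/-- the second fixed line commutes with everything -/
theorem second_line (hσ : ∀ g, (σ g)ᴴ * JC κ * σ g = JC κ)
    (hdisc : ∃ U : Set (Matrix (κ ⊕ Unit) (κ ⊕ Unit) ℂ), IsOpen U ∧ 1 ∈ U ∧
      ∀ g, σ g ∈ U → g = 1) (v v' : κ ⊕ Unit → ℂ) (χ : G → ℂ)
    (hχ : ∀ g, σ g *ᵥ v = χ g • v) (hvv : H v v = 0) (hvv' : H v' v' = 0)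
    (hne : H v v' ≠ 0) (hn : v' (Sum.inr ()) ≠ 0) (g₀ : G) (a : ℂ) (ha : ‖a‖ < 1)
    (haχ : conj (χ g₀) * a = 1) (hav : σ g₀ *ᵥ v' = a • v') (d : G) :
    ∃ c : ℂ, σ d *ᵥ v' = c • v' := by
  obtain ⟨τ, hτ⟩ : ∃ τ, τ = -conj (H v v') := ⟨_, rfl⟩
  have hp : H (v + τ • v') (v + τ • v') = ((-(2 * ‖H v v'‖ ^ 2) : ℝ) : ℂ) := by
    rw [H_add_left, H_add_right, H_add_right, H_smul_left, H_smul_left, H_smul_right,
      H_smul_right, hvv, hvv', ← H_conj v v', hτ]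
    have : ((‖H v v'‖ ^ 2 : ℝ) : ℂ) = H v v' * conj (H v v') := by
      rw [Complex.mul_conj, Complex.normSq_eq_norm_sq]
    push_cast at this ⊢
    rw [this, map_neg, Complex.conj_conj]
    ring
  have hr : 0 < 2 * ‖H v v'‖ ^ 2 := by
    have := norm_pos_iff.2 hne
    positivity
  obtain ⟨C, hC0, hC⟩ := cc_bound _ _ hr hp
  have hn0 : ∀ n : ℕ, σ (g₀ ^ n) *ᵥ v = χ g₀ ^ n • v := by
    intro n; rw [map_pow]; exact pow_mulVec (hχ g₀) n
  have hn1 : ∀ n : ℕ, σ (g₀ ^ n) *ᵥ v' = a ^ n • v' := by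
    intro n; rw [map_pow]; exact pow_mulVec hav n
  have hc1 : ∀ n : ℕ, conj (χ g₀ ^ n) * a ^ n = 1 := by
    intro n; rw [map_pow, ← mul_pow, haχ, one_pow]
  have hc2 : ∀ n : ℕ, conj (a ^ n) * χ g₀ ^ n = 1 := by
    intro n
    have := congrArg conj (hc1 n)
    rw [map_mul, Complex.conj_conj, map_one, mul_comm] at this
    exact this
  have hbd : ∀ n : ℕ, ‖H (v + τ • v') (σ ((g₀ ^ n)⁻¹ * d * g₀ ^ n) *ᵥ (v + τ • v'))‖ ≤
      ‖τ‖ * ‖H v (σ d *ᵥ v')‖ + ‖τ‖ * ‖χ d‖ * ‖H v' v‖ +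
      ‖τ‖ * ‖τ‖ * ‖H v' (σ d *ᵥ v')‖ := by
    intro n
    have e1 : H (v + τ • v') (σ ((g₀ ^ n)⁻¹ * d * g₀ ^ n) *ᵥ (v + τ • v')) =
        H (σ (g₀ ^ n) *ᵥ (v + τ • v')) (σ d *ᵥ (σ (g₀ ^ n) *ᵥ (v + τ • v'))) := by
      have hg : g₀ ^ n * ((g₀ ^ n)⁻¹ * d * g₀ ^ n) = d * g₀ ^ n := by group
      rw [← H_iso (σ (g₀ ^ n)) (hσ _), mulVec_mulVec, mulVec_mulVec, ← map_mul, ← map_mul, hg]
    have e2 : σ (g₀ ^ n) *ᵥ (v + τ • v') = χ g₀ ^ n • v + (τ * a ^ n) • v' := by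
      rw [mulVec_add, mulVec_smul, hn0, hn1, smul_smul]
    have e3 : σ d *ᵥ (χ g₀ ^ n • v + (τ * a ^ n) • v') =
        (χ g₀ ^ n * χ d) • v + (τ * a ^ n) • (σ d *ᵥ v') := by
      rw [mulVec_add, mulVec_smul, mulVec_smul, hχ d, smul_smul]
    rw [e1, e2, e3, H_add_left, H_add_right, H_add_right, H_smul_left, H_smul_left, H_smul_left,
      H_smul_left, H_smul_right, H_smul_right, H_smul_right, H_smul_right, hvv]
    have e4 : conj (χ g₀ ^ n) * (χ g₀ ^ n * χ d * 0) + conj (χ g₀ ^ n) * (τ * a ^ n * H v (σ d *ᵥ v')) +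
        (conj (τ * a ^ n) * (χ g₀ ^ n * χ d * H v' v) +
          conj (τ * a ^ n) * (τ * a ^ n * H v' (σ d *ᵥ v'))) =
        τ * H v (σ d *ᵥ v') + conj τ * χ d * H v' v +
          conj τ * τ * (conj (a ^ n) * a ^ n) * H v' (σ d *ᵥ v') := by
      rw [map_mul conj τ]
      linear_combination (τ * H v (σ d *ᵥ v')) * hc1 n + (conj τ * χ d * H v' v) * hc2 n
    rw [e4]
    refine (norm_add₃_le).trans ?_
    rw [norm_mul, norm_mul, norm_mul, norm_mul, norm_mul, norm_mul, norm_mul, RCLike.norm_conj,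
      RCLike.norm_conj, norm_pow]
    have h3 : ‖a‖ ^ n ≤ 1 := pow_le_one₀ (norm_nonneg _) ha.le
    have h4 : ‖a‖ ^ n * ‖a‖ ^ n ≤ 1 := by
      have := pow_nonneg (norm_nonneg a) n
      nlinarith
    have h5 : ‖τ‖ * ‖τ‖ * (‖a‖ ^ n * ‖a‖ ^ n) * ‖H v' (σ d *ᵥ v')‖ ≤
        ‖τ‖ * ‖τ‖ * ‖H v' (σ d *ᵥ v')‖ := by
      have := mul_nonneg (mul_nonneg (norm_nonneg τ) (norm_nonneg τ)) (norm_nonneg (H v' (σ d *ᵥ v')))
      nlinarith
    linarith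
  obtain ⟨R, hR⟩ : ∃ R, R = C * (‖τ‖ * ‖H v (σ d *ᵥ v')‖ + ‖τ‖ * ‖χ d‖ * ‖H v' v‖ +
      ‖τ‖ * ‖τ‖ * ‖H v' (σ d *ᵥ v')‖) := ⟨_, rfl⟩
  have hmem : ∀ n : ℕ, (g₀ ^ n)⁻¹ * d * g₀ ^ n ∈ {g : G | cc (σ g) ≤ R} := by
    intro n
    rw [Set.mem_ofPred_eq, hR]
    exact (hC _ (hσ _)).trans (mul_le_mul_of_nonneg_left (hbd n) hC0.le)
  obtain ⟨n, m, hnm, heq⟩ := Set.Finite.exists_lt_map_eq_of_forall_mem hmem
    (finite_cc σ hσ hdisc R)
  obtain ⟨k, rfl⟩ := Nat.exists_eq_add_of_lt hnm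
  have hcomm : d * g₀ ^ (k + 1) = g₀ ^ (k + 1) * d := by
    have h1 : g₀ ^ (n + k + 1) = g₀ ^ (k + 1) * g₀ ^ n := by rw [← pow_add]; congr 1; omega
    rw [h1] at heq
    have h2 : d = (g₀ ^ (k + 1))⁻¹ * d * g₀ ^ (k + 1) := by
      have h3 := congrArg (fun x => g₀ ^ n * x * (g₀ ^ n)⁻¹) heq
      have h4 : g₀ ^ n * ((g₀ ^ n)⁻¹ * d * g₀ ^ n) * (g₀ ^ n)⁻¹ = d := by group
      have h5 : g₀ ^ n * ((g₀ ^ (k + 1) * g₀ ^ n)⁻¹ * d * (g₀ ^ (k + 1) * g₀ ^ n)) * (g₀ ^ n)⁻¹ =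
          (g₀ ^ (k + 1))⁻¹ * d * g₀ ^ (k + 1) := by
        group
      rw [h4, h5] at h3
      exact h3
    calc d * g₀ ^ (k + 1) = g₀ ^ (k + 1) * ((g₀ ^ (k + 1))⁻¹ * d * g₀ ^ (k + 1)) := by group
      _ = g₀ ^ (k + 1) * d := by rw [← h2]
  have hzero : H v' (σ d *ᵥ v') = 0 := by
    have h1 : H v' (σ d *ᵥ v') = conj (a ^ (k + 1)) * a ^ (k + 1) * H v' (σ d *ᵥ v') := by
      conv_lhs => rw [← H_iso (σ (g₀ ^ (k + 1))) (hσ _), mulVec_mulVec, ← map_mul, ← hcomm, map_mul,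
        ← mulVec_mulVec, hn1, mulVec_smul, H_smul_left, H_smul_right]
      ring
    have h2 : conj (a ^ (k + 1)) * a ^ (k + 1) = ((‖a‖ ^ (k + 1) * ‖a‖ ^ (k + 1) : ℝ) : ℂ) := by
      rw [mul_comm, Complex.mul_conj, Complex.normSq_eq_norm_sq, norm_pow]
      push_cast; ring
    have h3 : ‖a‖ ^ (k + 1) < 1 := pow_lt_one₀ (norm_nonneg _) ha (by omega)
    have h4 : ‖a‖ ^ (k + 1) * ‖a‖ ^ (k + 1) < 1 := by
      have := pow_nonneg (norm_nonneg a) (k + 1)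
      nlinarith
    rw [h2] at h1
    have h5 : (1 - ((‖a‖ ^ (k + 1) * ‖a‖ ^ (k + 1) : ℝ) : ℂ)) * H v' (σ d *ᵥ v') = 0 := by
      linear_combination h1
    rcases mul_eq_zero.1 h5 with h6 | h6
    · exfalso
      have : (1 : ℝ) - ‖a‖ ^ (k + 1) * ‖a‖ ^ (k + 1) = 0 := by exact_mod_cast h6
      linarith
    · exact h6
  exact ⟨_, isotropic_prop v' (σ d *ᵥ v') hn hvv' (by rw [H_iso _ (hσ d), hvv']) hzero⟩

/-- a discrete cocompact group fixes no isotropic line -/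
theorem no_line (hσ : ∀ g, (σ g)ᴴ * JC κ * σ g = JC κ)
    (hdisc : ∃ U : Set (Matrix (κ ⊕ Unit) (κ ⊕ Unit) ℂ), IsOpen U ∧ 1 ∈ U ∧
      ∀ g, σ g ∈ U → g = 1)
    (hcoc : ∃ K : Set (Matrix (κ ⊕ Unit) (κ ⊕ Unit) ℂ), IsCompact K ∧
      ∀ h, hᴴ * JC κ * h = JC κ → ∃ k ∈ K, ∃ g, h = k * σ g)
    (v : κ ⊕ Unit → ℂ) (hvn : v (Sum.inr ()) = 1) (hvv : H v v = 0)
    (hfix : ∀ g, ∃ c : ℂ, σ g *ᵥ v = c • v) : False := by
  choose χ hχ using hfix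
  have hv0 : v ≠ 0 := by
    rintro rfl
    simp at hvn
  have hN : N v = 1 := by
    have := N_of_H (r := 0) (by rw [hvv]; simp : H v v = ((0 : ℝ) : ℂ))
    rw [this, hvn]; simp
  have hS : ∑ i, conj (v (Sum.inl i)) * v (Sum.inl i) = 1 := by
    rw [H_eq, hvn] at hvv
    simp only [map_one, mul_one] at hvv
    exact sub_eq_zero.1 hvv
  have hχi : ∀ g, χ g * χ g⁻¹ = 1 := by
    intro g
    have h1 : σ g *ᵥ (σ g⁻¹ *ᵥ v) = v := by
      rw [mulVec_mulVec, ← map_mul, mul_inv_cancel, map_one, one_mulVec]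
    rw [hχ g⁻¹, mulVec_smul, hχ g, smul_smul] at h1
    have h2 := congrFun h1 (Sum.inr ())
    rw [Pi.smul_apply, hvn, smul_eq_mul, mul_one, mul_comm] at h2
    exact h2
  by_cases hone : ∀ g, ‖χ g‖ = 1
  · obtain ⟨C, hC⟩ := bounded_inv σ hcoc (fun h => ‖(h *ᵥ v) (Sum.inr ())‖) (by
      refine continuous_norm.comp ?_
      simp only [Matrix.mulVec, dotProduct]
      fun_prop) (by
      intro h g
      rw [← mulVec_mulVec, hχ g, mulVec_smul, Pi.smul_apply, norm_smul, hone g, one_mul])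
    obtain ⟨T, hT1, hT⟩ := boost_big (fun i => v (Sum.inl i)) v (by
      rw [hvn, hS]; norm_num) (C + 1)
    have h1 := hC (boost (fun i => v (Sum.inl i)) T) (boost_iso _ hN T (by positivity))
    have h2 := hT T le_rfl
    linarith
  · have hg0 : ∃ g, 1 < ‖χ g‖ := by
      push Not at hone
      obtain ⟨g, hg⟩ := hone
      rcases lt_or_gt_of_ne hg with h | h
      · refine ⟨g⁻¹, ?_⟩
        have h1 := congrArg norm (hχi g)
        rw [norm_mul, norm_one] at h1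
        by_contra hcon
        push Not at hcon
        have h2 := mul_le_mul_of_nonneg_left hcon (norm_nonneg (χ g))
        linarith
      · exact ⟨g, h⟩
    obtain ⟨g₀, hg₀⟩ := hg0
    have hχ0 : χ g₀ ≠ 0 := by
      intro h; rw [h, norm_zero] at hg₀; linarith
    have hcχ0 : conj (χ g₀) ≠ 0 := by simpa using hχ0
    obtain ⟨a, ha⟩ : ∃ a, a = (conj (χ g₀))⁻¹ := ⟨_, rfl⟩
    have haχ : conj (χ g₀) * a = 1 := by rw [ha, mul_inv_cancel₀ hcχ0]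
    have han : ‖a‖ < 1 := by
      rw [ha, norm_inv, RCLike.norm_conj]
      exact inv_lt_one_of_one_lt₀ hg₀
    -- the second eigenvector
    have hdet : (σ g₀ - χ g₀ • (1 : Matrix (κ ⊕ Unit) (κ ⊕ Unit) ℂ)).det = 0 := by
      rw [← Matrix.exists_mulVec_eq_zero_iff]
      refine ⟨v, hv0, ?_⟩
      rw [sub_mulVec, hχ, smul_mulVec, one_mulVec, sub_self]
    have hdet2 : ((σ g₀ - χ g₀ • (1 : Matrix (κ ⊕ Unit) (κ ⊕ Unit) ℂ))ᴴ).det = 0 := by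
      rw [det_conjTranspose, hdet, star_zero]
    rw [← Matrix.exists_mulVec_eq_zero_iff] at hdet2
    obtain ⟨u, hu0, hu⟩ := hdet2
    rw [conjTranspose_sub, conjTranspose_smul, conjTranspose_one, sub_mulVec, smul_mulVec,
      one_mulVec, sub_eq_zero] at hu
    obtain ⟨v', hv'⟩ : ∃ v', v' = JC κ *ᵥ u := ⟨_, rfl⟩
    have hJv' : JC κ *ᵥ v' = u := by rw [hv', mulVec_mulVec, JC_sq, one_mulVec]
    have hv'0 : v' ≠ 0 := by
      rintro h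
      apply hu0
      rw [← hJv', h, mulVec_zero]
    have hinv : σ g₀⁻¹ *ᵥ v' = conj (χ g₀) • v' := by
      rw [inv_eq σ hσ, ← mulVec_mulVec, ← mulVec_mulVec, hJv', hu, mulVec_smul, ← hv']
      rfl
    have hav : σ g₀ *ᵥ v' = a • v' := by
      have h1 : σ g₀ *ᵥ (σ g₀⁻¹ *ᵥ v') = v' := by
        rw [mulVec_mulVec, ← map_mul, mul_inv_cancel, map_one, one_mulVec]
      rw [hinv, mulVec_smul] at h1
      calc σ g₀ *ᵥ v' = (a * conj (χ g₀)) • (σ g₀ *ᵥ v') := by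
            rw [mul_comm, haχ, one_smul]
        _ = a • v' := by rw [← smul_smul, h1]
    have hvv' : H v' v' = 0 := by
      have h1 : H v' v' = conj a * a * H v' v' := by
        conv_lhs => rw [← H_iso (σ g₀) (hσ _), hav, H_smul_left, H_smul_right]
        ring
      have h2 : conj a * a = ((‖a‖ * ‖a‖ : ℝ) : ℂ) := by
        rw [mul_comm, Complex.mul_conj, Complex.normSq_eq_norm_sq]
        push_cast; ring
      have h4 : ‖a‖ * ‖a‖ < 1 := by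
        have := norm_nonneg a
        nlinarith
      rw [h2] at h1
      have h5 : (1 - ((‖a‖ * ‖a‖ : ℝ) : ℂ)) * H v' v' = 0 := by
        linear_combination h1
      rcases mul_eq_zero.1 h5 with h6 | h6
      · exfalso
        have : (1 : ℝ) - ‖a‖ * ‖a‖ = 0 := by exact_mod_cast h6
        linarith
      · exact h6
    have hn : v' (Sum.inr ()) ≠ 0 := isotropic_last v' hvv' hv'0
    have hne : H v v' ≠ 0 := by
      intro h
      have h1 := isotropic_prop v v' (by rw [hvn]; exact one_ne_zero) hvv hvv' h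
      have h2 : σ g₀ *ᵥ v' = χ g₀ • v' := by
        rw [h1, mulVec_smul, hχ, smul_smul, smul_smul, mul_comm]
      rw [hav] at h2
      have h3 := congrFun h2 (Sum.inr ())
      rw [Pi.smul_apply, Pi.smul_apply, smul_eq_mul, smul_eq_mul] at h3
      have h4 := mul_right_cancel₀ hn h3
      rw [h4] at han
      linarith
    have hfix' := second_line σ hσ hdisc v v' χ hχ hvv hvv' hne hn g₀ a han haχ hav
    choose χ' hχ' using hfix'
    have hprod : ∀ g, ‖χ g‖ * ‖χ' g‖ = 1 := by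
      intro g
      have h1 := H_iso (σ g) (hσ g) v v'
      rw [hχ, hχ', H_smul_left, H_smul_right, ← mul_assoc] at h1
      have h2 : conj (χ g) * χ' g = 1 := by
        have : (conj (χ g) * χ' g) * H v v' = 1 * H v v' := by rw [h1, one_mul]
        exact mul_right_cancel₀ hne this
      have h3 := congrArg norm h2
      rwa [norm_mul, RCLike.norm_conj, norm_one] at h3
    obtain ⟨C, hC⟩ := bounded_inv σ hcoc
      (fun h => ‖(h *ᵥ v) (Sum.inr ())‖ * ‖(h *ᵥ v') (Sum.inr ())‖) (by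
      refine Continuous.mul (continuous_norm.comp ?_) (continuous_norm.comp ?_) <;>
      · simp only [Matrix.mulVec, dotProduct]
        fun_prop) (by
      intro h g
      rw [← mulVec_mulVec, ← mulVec_mulVec, hχ g, hχ' g, mulVec_smul, mulVec_smul, Pi.smul_apply,
        Pi.smul_apply, norm_smul, norm_smul]
      linear_combination (‖(h *ᵥ v) (Sum.inr ())‖ * ‖(h *ᵥ v') (Sum.inr ())‖) * hprod g)
    obtain ⟨S, hSe⟩ : ∃ S, S = ∑ i, conj (v (Sum.inl i)) * v' (Sum.inl i) := ⟨_, rfl⟩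
    have hε : ∃ ε : ℂ, ‖ε‖ = 1 ∧ 1 + conj ε ≠ 0 ∧ v' (Sum.inr ()) + conj ε * S ≠ 0 := by
      by_cases h1 : v' (Sum.inr ()) + S = 0
      · refine ⟨Complex.I, by simp, ?_, ?_⟩
        · rw [Complex.conj_I]
          intro h
          have := congrArg Complex.re h
          simp at this
        · rw [Complex.conj_I]
          intro h
          have h2 : S = - v' (Sum.inr ()) := by linear_combination h1
          rw [h2] at h
          have h3 : v' (Sum.inr ()) * (1 + Complex.I) = 0 := by linear_combination h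
          rcases mul_eq_zero.1 h3 with h4 | h4
          · exact hn h4
          · have := congrArg Complex.re h4
            simp at this
      · exact ⟨1, by simp, by norm_num, by simpa using h1⟩
    obtain ⟨ε, hε1, hε2, hε3⟩ := hε
    obtain ⟨c, hc⟩ : ∃ c : κ → ℂ, c = fun i => ε * v (Sum.inl i) := ⟨_, rfl⟩
    have hcN : ∑ i, ‖c i‖ ^ 2 = 1 := by
      rw [← hN, N, hc]
      apply Finset.sum_congr rfl
      intro i _
      rw [norm_mul, hε1, one_mul]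
    have hs : ∀ x : κ ⊕ Unit → ℂ, ∑ i, conj (c i) * x (Sum.inl i) =
        conj ε * ∑ i, conj (v (Sum.inl i)) * x (Sum.inl i) := by
      intro x
      rw [Finset.mul_sum, hc]
      apply Finset.sum_congr rfl
      intro i _
      simp only [map_mul]
      ring
    obtain ⟨T₁, hT1, hT2⟩ := boost_big c v (by rw [hs, hS, hvn, mul_one]; exact hε2) 1
    obtain ⟨T₂, hT3, hT4⟩ := boost_big c v' (by rw [hs, ← hSe]; exact hε3) (|C| + 1)
    have hTm : (0 : ℝ) < max T₁ T₂ := lt_of_lt_of_le (by linarith) (le_max_left _ _)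
    have h1 := hC (boost c (max T₁ T₂)) (boost_iso c hcN _ hTm.ne')
    have h2 := hT2 (max T₁ T₂) (le_max_left _ _)
    have h3 := hT4 (max T₁ T₂) (le_max_right _ _)
    have h4 := le_abs_self C
    have h5 := abs_nonneg C
    nlinarith

/-- some translate is transversal -/
theorem exists_trans (hσ : ∀ g, (σ g)ᴴ * JC κ * σ g = JC κ)
    (hdisc : ∃ U : Set (Matrix (κ ⊕ Unit) (κ ⊕ Unit) ℂ), IsOpen U ∧ 1 ∈ U ∧
      ∀ g, σ g ∈ U → g = 1)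
    (hcoc : ∃ K : Set (Matrix (κ ⊕ Unit) (κ ⊕ Unit) ℂ), IsCompact K ∧
      ∀ h, hᴴ * JC κ * h = JC κ → ∃ k ∈ K, ∃ g, h = k * σ g)
    (x y : κ ⊕ Unit → ℂ) (hx : x (Sum.inr ()) = 1) (hxN : N x ≤ 1) (hy : y (Sum.inr ()) = 1)
    (hyN : N y ≤ 1) : ∃ k, H x (σ k *ᵥ y) ≠ 0 := by
  by_contra hcon
  push Not at hcon
  have h1 := hcon 1
  rw [map_one, one_mulVec, H_eq, hx, hy, map_one, mul_one] at h1
  have hS : ∑ i, conj (x (Sum.inl i)) * y (Sum.inl i) = 1 := sub_eq_zero.1 h1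
  have hsum : ∑ i : κ, ‖x (Sum.inl i) - y (Sum.inl i)‖ ^ 2 ≤ 0 := by
    have e : ∀ i : κ, ‖x (Sum.inl i) - y (Sum.inl i)‖ ^ 2 = ‖x (Sum.inl i)‖ ^ 2 +
        ‖y (Sum.inl i)‖ ^ 2 - 2 * (conj (x (Sum.inl i)) * y (Sum.inl i)).re := by
      intro i
      rw [← Complex.normSq_eq_norm_sq, ← Complex.normSq_eq_norm_sq, ← Complex.normSq_eq_norm_sq,
        Complex.normSq_sub]
      congr 2
      rw [Complex.mul_re, Complex.mul_re, Complex.conj_re, Complex.conj_im, Complex.conj_re,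
        Complex.conj_im]
      ring
    simp only [e]
    rw [Finset.sum_sub_distrib, Finset.sum_add_distrib, ← Finset.mul_sum, ← Complex.re_sum, hS,
      Complex.one_re]
    unfold N at hxN hyN
    linarith
  have hxy : x = y := by
    funext j
    rcases j with i | u
    · have h2 : ∑ i : κ, ‖x (Sum.inl i) - y (Sum.inl i)‖ ^ 2 = 0 :=
        le_antisymm hsum (Finset.sum_nonneg fun _ _ => by positivity)
      have h3 := (Finset.sum_eq_zero_iff_of_nonneg (fun i _ => by positivity)).1 h2 i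
        (Finset.mem_univ i)
      have h4 : ‖x (Sum.inl i) - y (Sum.inl i)‖ = 0 := pow_eq_zero_iff (two_ne_zero) |>.1 h3
      exact sub_eq_zero.1 (norm_eq_zero.1 h4)
    · cases u; rw [hx, hy]
  subst hxy
  have hxx : H x x = 0 := by
    have := hcon 1
    rwa [map_one, one_mulVec] at this
  exact no_line σ hσ hdisc hcoc x hx hxx (fun g => ⟨_, isotropic_prop x (σ g *ᵥ x)
    (by rw [hx]; exact one_ne_zero) hxx (by rw [H_iso _ (hσ g), hxx]) (hcon g)⟩)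

omit [DecidableEq κ] in
theorem compact_ball : IsCompact {x : κ ⊕ Unit → ℂ | x (Sum.inr ()) = 1 ∧ N x ≤ 1} := by
  have h : IsCompact (Set.pi Set.univ (fun _ : κ ⊕ Unit => Metric.closedBall (0 : ℂ) 1)) :=
    isCompact_univ_pi fun _ => isCompact_closedBall _ _
  refine IsCompact.of_isClosed_subset h ?_ ?_
  · have hA : IsClosed {x : κ ⊕ Unit → ℂ | x (Sum.inr ()) = 1} :=
      isClosed_eq (by fun_prop) continuous_const
    have hB : IsClosed {x : κ ⊕ Unit → ℂ | N x ≤ 1} := by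
      refine isClosed_le ?_ continuous_const
      unfold N
      fun_prop
    exact hA.inter hB
  · rintro x ⟨hx, hN⟩
    simp only [Set.mem_pi, Set.mem_univ, forall_true_left, mem_closedBall_zero_iff]
    intro j
    rcases j with i | u
    · exact N_le x i (by linarith) zero_le_one
    · cases u; rw [hx]; simp

theorem continuous_H (g : Matrix (κ ⊕ Unit) (κ ⊕ Unit) ℂ) :
    Continuous fun p : (κ ⊕ Unit → ℂ) × (κ ⊕ Unit → ℂ) => H p.1 (g *ᵥ p.2) := by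
  unfold H
  simp only [Matrix.mulVec, dotProduct, Pi.star_apply]
  fun_prop

theorem exists_delta (hσ : ∀ g, (σ g)ᴴ * JC κ * σ g = JC κ)
    (hdisc : ∃ U : Set (Matrix (κ ⊕ Unit) (κ ⊕ Unit) ℂ), IsOpen U ∧ 1 ∈ U ∧
      ∀ g, σ g ∈ U → g = 1)
    (hcoc : ∃ K : Set (Matrix (κ ⊕ Unit) (κ ⊕ Unit) ℂ), IsCompact K ∧
      ∀ h, hᴴ * JC κ * h = JC κ → ∃ k ∈ K, ∃ g, h = k * σ g) :
    ∃ (F : Finset G) (δ : ℝ), 0 < δ ∧ ∀ x y : κ ⊕ Unit → ℂ, x (Sum.inr ()) = 1 → N x ≤ 1 →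
      y (Sum.inr ()) = 1 → N y ≤ 1 → ∃ k ∈ F, δ ≤ ‖H x (σ k *ᵥ y)‖ := by
  classical
  have hc : IsCompact ({x : κ ⊕ Unit → ℂ | x (Sum.inr ()) = 1 ∧ N x ≤ 1} ×ˢ
      {x : κ ⊕ Unit → ℂ | x (Sum.inr ()) = 1 ∧ N x ≤ 1}) := compact_ball.prod compact_ball
  obtain ⟨F, hF⟩ := hc.elim_finite_subcover
    (fun k : G => {p : (κ ⊕ Unit → ℂ) × (κ ⊕ Unit → ℂ) | H p.1 (σ k *ᵥ p.2) ≠ 0})
    (fun k => isOpen_ne.preimage (continuous_H (σ k))) (by
      rintro ⟨x, y⟩ ⟨⟨hx, hxN⟩, hy, hyN⟩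
      obtain ⟨k, hk⟩ := exists_trans σ hσ hdisc hcoc x y hx hxN hy hyN
      exact Set.mem_iUnion.2 ⟨k, hk⟩)
  have hcont : Continuous fun p : (κ ⊕ Unit → ℂ) × (κ ⊕ Unit → ℂ) =>
      ∑ k ∈ F, ‖H p.1 (σ k *ᵥ p.2)‖ :=
    continuous_finsetSum _ fun k _ => (continuous_H (σ k)).norm
  have hne : ({x : κ ⊕ Unit → ℂ | x (Sum.inr ()) = 1 ∧ N x ≤ 1} ×ˢ
      {x : κ ⊕ Unit → ℂ | x (Sum.inr ()) = 1 ∧ N x ≤ 1}).Nonempty := by
    have : e0 κ ∈ {x : κ ⊕ Unit → ℂ | x (Sum.inr ()) = 1 ∧ N x ≤ 1} := by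
      constructor
      · simp [e0]
      · simp [e0, N]
    exact ⟨(e0 κ, e0 κ), this, this⟩
  obtain ⟨p, hp, hmin⟩ := hc.exists_isMinOn hne hcont.continuousOn
  have hpos : 0 < ∑ k ∈ F, ‖H p.1 (σ k *ᵥ p.2)‖ := by
    have h1 := hF hp
    simp only [Set.mem_iUnion] at h1
    obtain ⟨k, hk, h2⟩ := h1
    exact Finset.sum_pos' (fun _ _ => norm_nonneg _) ⟨k, hk, norm_pos_iff.2 h2⟩
  obtain ⟨m, hm⟩ : ∃ m, m = ∑ k ∈ F, ‖H p.1 (σ k *ᵥ p.2)‖ := ⟨_, rfl⟩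
  rw [← hm] at hpos
  refine ⟨F, m / (F.card + 1), by positivity, ?_⟩
  intro x y hx hxN hy hyN
  by_contra hcon
  push Not at hcon
  have h1 : m ≤ ∑ k ∈ F, ‖H x (σ k *ᵥ y)‖ := by
    rw [hm]
    have hxy : (x, y) ∈ ({x : κ ⊕ Unit → ℂ | x (Sum.inr ()) = 1 ∧ N x ≤ 1} ×ˢ
        {x : κ ⊕ Unit → ℂ | x (Sum.inr ()) = 1 ∧ N x ≤ 1}) :=
      Set.mk_mem_prod ⟨hx, hxN⟩ ⟨hy, hyN⟩
    have h0 := isMinOn_iff.1 hmin (x, y) hxy
    exact h0
  have h2 : ∑ k ∈ F, ‖H x (σ k *ᵥ y)‖ ≤ ∑ k ∈ F, m / (F.card + 1) :=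
    Finset.sum_le_sum fun k hk => (hcon k hk).le
  rw [Finset.sum_const, nsmul_eq_mul] at h2
  have h3 : (F.card : ℝ) * (m / (F.card + 1)) < m := by
    rw [← mul_div_assoc, div_lt_iff₀ (by positivity)]
    nlinarith
  linarith

theorem norm_col (g : Matrix (κ ⊕ Unit) (κ ⊕ Unit) ℂ) (hg : gᴴ * JC κ * g = JC κ) :
    ∃ x : κ ⊕ Unit → ℂ, x (Sum.inr ()) = 1 ∧ N x ≤ 1 ∧
      g *ᵥ e0 κ = (g (Sum.inr ()) (Sum.inr ())) • x := by
  have h1 := cc_one_le g hg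
  have h0 : g (Sum.inr ()) (Sum.inr ()) ≠ 0 := by
    intro h
    unfold cc at h1
    rw [h, norm_zero] at h1
    linarith
  refine ⟨(g (Sum.inr ()) (Sum.inr ()))⁻¹ • (g *ᵥ e0 κ), ?_, ?_, ?_⟩
  · rw [Pi.smul_apply, mul_e0, smul_eq_mul, inv_mul_cancel₀ h0]
  · have h2 := col_norm g hg
    have h3 : N ((g (Sum.inr ()) (Sum.inr ()))⁻¹ • (g *ᵥ e0 κ)) =
        ((cc g) ^ 2)⁻¹ * N (g *ᵥ e0 κ) := by
      unfold N cc
      rw [Finset.mul_sum]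
      apply Finset.sum_congr rfl
      intro i _
      rw [Pi.smul_apply, norm_smul, mul_pow, norm_inv, inv_pow]
    rw [h3, h2, inv_mul_le_iff₀ (by positivity)]
    linarith
  · rw [smul_smul, mul_inv_cancel₀ h0, one_smul]

end grp

end TransAux

section main

variable {κ G : Type} [Fintype κ] [DecidableEq κ] [Group G]

theorem trans_fin (hκ : 0 < Fintype.card κ) (σ : G →* Matrix (κ ⊕ Unit) (κ ⊕ Unit) ℂ)
    (hσ : ∀ g, (σ g)ᴴ * JC κ * σ g = JC κ)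
    (hdisc : ∃ U : Set (Matrix (κ ⊕ Unit) (κ ⊕ Unit) ℂ), IsOpen U ∧ 1 ∈ U ∧
      ∀ g, σ g ∈ U → g = 1)
    (hcoc : ∃ K : Set (Matrix (κ ⊕ Unit) (κ ⊕ Unit) ℂ), IsCompact K ∧
      ∀ h, hᴴ * JC κ * h = JC κ → ∃ k ∈ K, ∃ g, h = k * σ g) :
    ∃ (F : Finset G) (δ : ℝ), 0 < δ ∧
      ∀ a b, ∃ k ∈ F, δ * cc (σ a) * cc (σ b) ≤ cc (σ (a * k * b)) := by
  obtain ⟨F, δ, hδ, hF⟩ := TransAux.exists_delta σ hσ hdisc hcoc
  refine ⟨F, δ, hδ, fun a b => ?_⟩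
  obtain ⟨x, hx, hxN, hxe⟩ := TransAux.norm_col (σ a⁻¹) (hσ _)
  obtain ⟨y, hy, hyN, hye⟩ := TransAux.norm_col (σ b) (hσ _)
  obtain ⟨k, hk, hkδ⟩ := hF x y hx hxN hy hyN
  refine ⟨k, hk, ?_⟩
  have e1 : TransAux.H (TransAux.e0 κ) (σ (a * k * b) *ᵥ TransAux.e0 κ) =
      TransAux.H (σ a⁻¹ *ᵥ TransAux.e0 κ) (σ k *ᵥ (σ b *ᵥ TransAux.e0 κ)) := by
    rw [← TransAux.H_iso (σ a⁻¹) (hσ _) (TransAux.e0 κ), mulVec_mulVec, mulVec_mulVec, ← map_mul,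
      ← map_mul]
    congr 3
    group
  rw [TransAux.H_e0_left, TransAux.mul_e0, hxe, hye, mulVec_smul, TransAux.H_smul_left,
    TransAux.H_smul_right] at e1
  have e2 := congrArg norm e1
  rw [norm_neg, norm_mul, norm_mul, RCLike.norm_conj] at e2
  have e3 : ‖σ a⁻¹ (Sum.inr ()) (Sum.inr ())‖ = cc (σ a) := by
    have h1 := congrArg norm (TransAux.H_iso (σ a) (hσ a) (σ a⁻¹ *ᵥ TransAux.e0 κ) (TransAux.e0 κ))
    rw [mulVec_mulVec, ← map_mul, mul_inv_cancel, map_one, one_mulVec, TransAux.H_e0_left,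
      ← TransAux.H_conj, TransAux.H_e0_left, TransAux.mul_e0, TransAux.mul_e0, RCLike.norm_conj,
      norm_neg, norm_neg] at h1
    exact h1.symm
  have e4 : ‖σ (a * k * b) (Sum.inr ()) (Sum.inr ())‖ = cc (σ (a * k * b)) := rfl
  have e5 : ‖σ b (Sum.inr ()) (Sum.inr ())‖ = cc (σ b) := rfl
  rw [e3, e4, e5] at e2
  rw [e2]
  have h1 : 0 ≤ cc (σ a) * cc (σ b) := mul_nonneg (norm_nonneg _) (norm_nonneg _)
  nlinarith

end main

end Pool.Agent.MPd01a95
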