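import Mathlib
import Pool.Agent.Lib.MP_d01a95_gt.Defs
import Pool.Agent.Lib.MP_d01a95_gt.Minor
import Pool.Agent.Lib.MP_d01a95_gt.PropA
import Pool.Agent.Lib.MP_d01a95_gt.Rigid
import Pool.Agent.Lib.MP_d01a95_gt.Hyp
import Pool.Agent.Lib.MP_d01a95_gt.Trans
import Pool.Agent.Lib.MP_d01a95_gt.Low
import Pool.Agent.Lib.MP_d01a95_gt.Limit
import Pool.Agent.Lib.MP_d01a95_gt.Contra
import Pool.Agent.Lib.MP_d01a95_gt.Trace
import Pool.Agent.Lib.MP_d01a95_gt.Eig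

set_option autoImplicit false

open Matrix MeasureTheory

namespace Pool.Agent.MPd01a95

section core

variable {ι κ G : Type} [Fintype ι] [DecidableEq ι] [Fintype κ] [DecidableEq κ] [Group G]

/-- module Core -/
theorem core (hκ : 2 ≤ Fintype.card κ) (hι : Fintype.card ι = 2 * Fintype.card κ)
    (ρ : G →* Matrix (ι ⊕ Fin 2) (ι ⊕ Fin 2) ℝ)
    (hρ : ∀ g, (ρ g)ᵀ * J ι * ρ g = J ι) (hp : PropAdS ρ) (hz : ZDense ρ)
    (σ : G →* Matrix (κ ⊕ Unit) (κ ⊕ Unit) ℂ)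
    (hσ : ∀ g, (σ g)ᴴ * JC κ * σ g = JC κ)
    (hdisc : ∃ U : Set (Matrix (κ ⊕ Unit) (κ ⊕ Unit) ℂ), IsOpen U ∧ 1 ∈ U ∧
      ∀ g, σ g ∈ U → g = 1)
    (hcoc : ∃ K : Set (Matrix (κ ⊕ Unit) (κ ⊕ Unit) ℂ), IsCompact K ∧
      ∀ h, hᴴ * JC κ * h = JC κ → ∃ k ∈ K, ∃ g, h = k * σ g)
    (hdom : ∃ C : ℝ, ∀ g, Del (ρ g) ≤ C * cc (σ g) ^ 2) : False := by
  have hc1 : ∀ g, 1 ≤ cc (σ g) := fun g => cc_ge_one _ (hσ g)
  have hlow := low_count (by omega) σ hσ hcoc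
  have hn : 0 < 2 * Fintype.card κ := by omega
  have hunb : ∀ R : ℝ, ∃ g, R ≤ cc (σ g) := by
    by_contra hcon
    push Not at hcon
    obtain ⟨R, hR⟩ := hcon
    obtain ⟨c₀, hc₀, hS⟩ := hlow
    obtain ⟨C, hC, hA⟩ := propA (by omega) ρ hρ hp (fun g => cc (σ g)) hc1 (hdom.choose)
      hdom.choose_spec
    obtain ⟨C₀, hC₀⟩ := hdom
    have hR1 : 1 < R := lt_of_le_of_lt (hc1 1) (hR 1)
    -- all finite sets have bounded cardinality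
    have hC₀pos : 0 < C₀ := by
      have h1 := hC₀ 1
      have h2 := (rr_le_Del (ρ 1) (hρ 1)).1
      have h3 := hc1 1
      by_contra hneg
      push Not at hneg
      nlinarith [sq_nonneg (cc (σ 1))]
    have hcard : ∀ S : Finset G, (S.card : ℝ) ≤ C₀ * (C * R ^ Fintype.card ι) := by
      intro S
      have h1 := hA R hR1.le S (fun g _ => (hR g).le)
      have h2 : ∀ g ∈ S, (C₀ * R ^ 2)⁻¹ ≤ (Del (ρ g))⁻¹ := by
        intro g _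
        apply inv_anti₀
        · exact lt_of_lt_of_le one_pos (rr_le_Del (ρ g) (hρ g)).1
        · refine (hC₀ g).trans ?_
          have := hc1 g
          have := (hR g).le
          gcongr
      have h3 : (S.card : ℝ) * (C₀ * R ^ 2)⁻¹ ≤ ∑ g ∈ S, (Del (ρ g))⁻¹ := by
        rw [← nsmul_eq_mul]
        exact Finset.card_nsmul_le_sum S _ _ h2
      have hR2 : 0 < R ^ 2 := by positivity
      have h4 : R ^ 2 * ((S.card : ℝ) * (C₀ * R ^ 2)⁻¹) ≤ C * R ^ Fintype.card ι :=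
        (mul_le_mul_of_nonneg_left h3 hR2.le).trans h1
      have h5 : R ^ 2 * ((S.card : ℝ) * (C₀ * R ^ 2)⁻¹) = S.card / C₀ := by
        field_simp
      rw [h5, div_le_iff₀ hC₀pos] at h4
      linarith
    obtain ⟨N, hN⟩ := exists_nat_gt (C₀ * (C * R ^ Fintype.card ι) / c₀)
    obtain ⟨S, -, hS2⟩ := hS ((N : ℝ) + 1) (by linarith [(Nat.cast_nonneg N : (0 : ℝ) ≤ N)])
    have h6 := hcard S
    have h7 : ((N : ℝ) + 1) ≤ ((N : ℝ) + 1) ^ (2 * Fintype.card κ) :=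
      le_self_pow₀ (by linarith [(Nat.cast_nonneg N : (0 : ℝ) ≤ N)]) (by omega)
    rw [div_lt_iff₀ hc₀] at hN
    nlinarith
  have hlo : ∃ ε : ℝ, 0 < ε ∧ ∀ g, ε * cc (σ g) ^ 2 ≤ Del (ρ g) := by
    refine rigid (2 * Fintype.card κ) hn (fun g => cc (σ g)) (fun g => Del (ρ g)) hc1 ?_ ?_ ?_ ?_
      hlow ?_ ?_ hdom ?_
    · refine ⟨2, fun g h => ?_⟩
      rw [map_mul]
      exact cc_mul _ _ (hσ g) (hσ h)
    · exact ⟨8, fun x y z w => cc_four σ hσ x y z w⟩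
    · intro g
      refine cc_inv _ _ (hσ g) ?_
      rw [← map_mul, inv_mul_cancel, map_one]
    · exact trans_fin (by omega) σ hσ hdisc hcoc
    · intro g
      exact lt_of_lt_of_le one_pos (rr_le_Del (ρ g) (hρ g)).1
    · refine ⟨25 * ((Fintype.card ι : ℝ) + 2) ^ 2, fun g h => ?_⟩
      rw [map_mul]
      exact Del_mul _ _ (hρ g) (hρ h)
    · obtain ⟨C, -, hA⟩ := propA (by omega) ρ hρ hp (fun g => cc (σ g)) hc1 (hdom.choose)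
        hdom.choose_spec
      rw [hι] at hA
      exact ⟨C, hA⟩
  obtain ⟨a, b, x, y, ha, ha0, hb, hab⟩ := limit_id ρ hρ hp σ hσ hunb hdom hlo
  exact contra hκ hι ρ hz σ a b x y ha ha0 hb hab

/-- module Core -/
theorem nondom (hκ : 2 ≤ Fintype.card κ) (hι : Fintype.card ι = 2 * Fintype.card κ)
    (ρ : G →* Matrix (ι ⊕ Fin 2) (ι ⊕ Fin 2) ℝ)
    (hρ : ∀ g, (ρ g)ᵀ * J ι * ρ g = J ι) (hp : PropAdS ρ) (hz : ZDense ρ)
    (σ : G →* Matrix (κ ⊕ Unit) (κ ⊕ Unit) ℂ)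
    (hσ : ∀ g, (σ g)ᴴ * JC κ * σ g = JC κ)
    (hdisc : ∃ U : Set (Matrix (κ ⊕ Unit) (κ ⊕ Unit) ℂ), IsOpen U ∧ 1 ∈ U ∧
      ∀ g, σ g ∈ U → g = 1)
    (hcoc : ∃ K : Set (Matrix (κ ⊕ Unit) (κ ⊕ Unit) ℂ), IsCompact K ∧
      ∀ h, hᴴ * JC κ * h = JC κ → ∃ k ∈ K, ∃ g, h = k * σ g) :
    ∃ g, ∃ a b : ℂ, ({a, b} : Multiset ℂ) ≤ ((ρ g).map ((↑) : ℝ → ℂ)).charpoly.roots ∧
      ∀ z ∈ (σ g).charpoly.roots, ‖z‖ ^ 2 < ‖a‖ * ‖b‖ := by
  by_contra hcon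
  push Not at hcon
  refine core hκ hι ρ hρ hp hz σ hσ hdisc hcoc ?_
  obtain ⟨F, C, hF⟩ := trace_dom (by omega) ρ hz
  set N : ℝ := (Fintype.card (ι ⊕ Fin 2) : ℝ) with hN
  set M : ℝ := 2 * ((Fintype.card κ : ℝ) + 1) with hM
  -- bound for the trace
  have ht : ∀ g, |(ρ g).trace ^ 2 - (ρ g * ρ g).trace| ≤ N ^ 2 * (M * cc (σ g)) ^ 2 := by
    intro g
    obtain ⟨a, b, hab, h1⟩ := eig_pair (by simp [Fintype.card_sum]) (ρ g)
    obtain ⟨z, hz1, hz2⟩ := hcon g a b hab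
    refine h1.trans ?_
    have h2 := eig_le (σ g) (hσ g) z hz1
    have h3 : ‖z‖ ^ 2 ≤ (M * cc (σ g)) ^ 2 := by
      apply pow_le_pow_left₀ (norm_nonneg _) h2
    exact mul_le_mul_of_nonneg_left (hz2.trans h3) (sq_nonneg N)
  obtain ⟨K, hK⟩ : ∃ K : ℝ, ∀ f ∈ F, cc (σ f) ≤ K := by
    obtain ⟨K, hK⟩ := (F.image fun f => cc (σ f)).bddAbove
    exact ⟨K, fun f hf => hK (by simpa using ⟨f, hf, rfl⟩)⟩
  refine ⟨|C| * (N ^ 2 * (M * (2 * K)) ^ 2), fun g => ?_⟩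
  obtain ⟨f, hf, h1⟩ := hF g
  have h2 := ht (g * f)
  have h3 : cc (σ (g * f)) ≤ 2 * cc (σ g) * K := by
    rw [map_mul]
    refine (cc_mul _ _ (hσ g) (hσ f)).trans ?_
    have := cc_ge_one _ (hσ g)
    have := hK f hf
    gcongr
  have h0 : 0 ≤ cc (σ (g * f)) := by
    have := cc_ge_one _ (hσ (g * f))
    linarith
  have hM0 : 0 ≤ M := by positivity
  calc Del (ρ g) ≤ C * |(ρ (g * f)).trace ^ 2 - (ρ (g * f) * ρ (g * f)).trace| := h1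
    _ ≤ |C| * |(ρ (g * f)).trace ^ 2 - (ρ (g * f) * ρ (g * f)).trace| :=
        mul_le_mul_of_nonneg_right (le_abs_self C) (abs_nonneg _)
    _ ≤ |C| * (N ^ 2 * (M * cc (σ (g * f))) ^ 2) :=
        mul_le_mul_of_nonneg_left h2 (abs_nonneg _)
    _ ≤ |C| * (N ^ 2 * (M * (2 * cc (σ g) * K)) ^ 2) := by gcongr
    _ = |C| * (N ^ 2 * (M * (2 * K)) ^ 2) * cc (σ g) ^ 2 := by ring

end core

end Pool.Agent.MPd01a95
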