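import Mathlib
import Pool.Agent.Lib.MP_d01a95_gt.Hyp

set_option autoImplicit false

open Matrix MeasureTheory

namespace Pool.Agent.MPd01a95

namespace EigAux

open Polynomial

variable {n : Type} [Fintype n] [DecidableEq n]

theorem eval_charpoly_eq (A : Matrix n n ℂ) (z : ℂ) :
    A.charpoly.eval z = (A.charpoly.roots.map fun l => z - l).prod := by
  have h := (IsAlgClosed.splits A.charpoly).eq_prod_roots_of_monic A.charpoly_monic
  conv_lhs => rw [h]
  rw [Polynomial.eval_multiset_prod, Multiset.map_map]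
  simp

theorem card_roots (A : Matrix n n ℂ) : Multiset.card A.charpoly.roots = Fintype.card n := by
  rw [← (IsAlgClosed.splits A.charpoly).natDegree_eq_card_roots, Matrix.charpoly_natDegree_eq_dim]

theorem eval_charpoly_sq (A : Matrix n n ℂ) (z : ℂ) :
    (A * A).charpoly.eval (z ^ 2) = (A.charpoly.roots.map fun l => z ^ 2 - l ^ 2).prod := by
  have h1 : (A * A).charpoly.eval (z ^ 2) = A.charpoly.eval z *
      ((-1) ^ Fintype.card n * A.charpoly.eval (-z)) := by
    rw [Matrix.eval_charpoly, Matrix.eval_charpoly, Matrix.eval_charpoly]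
    rw [← Matrix.det_neg, ← Matrix.det_mul]
    congr 1
    have : (Matrix.scalar n) (-z) = -(Matrix.scalar n) z := by
      rw [map_neg]
    rw [this]
    have h2 : (Matrix.scalar n) (z ^ 2) = (Matrix.scalar n) z * (Matrix.scalar n) z := by
      rw [sq, map_mul]
    rw [h2]
    have h3 : A * (Matrix.scalar n) z = (Matrix.scalar n) z * A :=
      (Matrix.scalar_commute z (fun _ => Commute.all _ _) A).eq.symm
    rw [neg_sub, sub_neg_eq_add, sub_mul, mul_add, mul_add, h3]
    abel
  rw [h1, eval_charpoly_eq, eval_charpoly_eq, ← card_roots A]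
  have h4 : (-1 : ℂ) ^ Multiset.card A.charpoly.roots *
      (A.charpoly.roots.map fun l => -z - l).prod = (A.charpoly.roots.map fun l => z + l).prod := by
    rw [← Multiset.prod_replicate, ← Multiset.map_const', ← Multiset.prod_map_mul]
    congr 1
    refine Multiset.map_congr rfl fun l _ => ?_
    ring
  rw [h4, ← Multiset.prod_map_mul]
  congr 1
  refine Multiset.map_congr rfl fun l _ => ?_
  ring

theorem charpoly_sq (A : Matrix n n ℂ) :
    (A * A).charpoly = (A.charpoly.roots.map fun l => X - C (l ^ 2)).prod := by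
  refine Polynomial.funext fun w => ?_
  obtain ⟨z, rfl⟩ : ∃ z : ℂ, w = z ^ 2 := by
    obtain ⟨z, hz⟩ := IsAlgClosed.exists_pow_nat_eq w (n := 2) (by norm_num)
    exact ⟨z, hz.symm⟩
  rw [eval_charpoly_sq, Polynomial.eval_multiset_prod, Multiset.map_map]
  simp

theorem trace_sq (A : Matrix n n ℂ) :
    (A * A).trace = (A.charpoly.roots.map fun l => l ^ 2).sum := by
  rw [Matrix.trace_eq_sum_roots_charpoly, charpoly_sq]
  congr 1
  have : (A.charpoly.roots.map fun l => (X : ℂ[X]) - C (l ^ 2)) =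
      ((A.charpoly.roots.map fun l => l ^ 2).map fun a => X - C a) := by
    rw [Multiset.map_map]
    rfl
  rw [this, Polynomial.roots_multiset_prod_X_sub_C]

/-- the largest product of two different members of a family -/
theorem exists_pair {m : ℕ} (hm : 2 ≤ m) (l : Fin m → ℂ) :
    ∃ i j : Fin m, i ≠ j ∧ ‖(∑ i, l i) ^ 2 - ∑ i, l i ^ 2‖ ≤ (m : ℝ) ^ 2 * (‖l i‖ * ‖l j‖) := by
  classical
  have hne : (Finset.univ.offDiag : Finset (Fin m × Fin m)).Nonempty := by
    refine ⟨(⟨0, by omega⟩, ⟨1, by omega⟩), ?_⟩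
    simp
  obtain ⟨p, hp, hmax⟩ := Finset.exists_max_image (Finset.univ.offDiag : Finset (Fin m × Fin m))
    (fun p => ‖l p.1‖ * ‖l p.2‖) hne
  refine ⟨p.1, p.2, (Finset.mem_offDiag.mp hp).2.2, ?_⟩
  have h1 : (∑ i, l i) ^ 2 - ∑ i, l i ^ 2 =
      ∑ q ∈ (Finset.univ.offDiag : Finset (Fin m × Fin m)), l q.1 * l q.2 := by
    rw [sq, Finset.sum_mul_sum, ← Finset.sum_product',
      ← Finset.diag_union_offDiag, Finset.sum_union (Finset.disjoint_diag_offDiag _),
      Finset.sum_diag]
    have : ∑ i, l i ^ 2 = ∑ i, l i * l i := Finset.sum_congr rfl fun i _ => sq _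
    rw [this]
    ring
  rw [h1]
  refine (norm_sum_le _ _).trans ?_
  refine (Finset.sum_le_card_nsmul _ _ (‖l p.1‖ * ‖l p.2‖) ?_).trans ?_
  · intro q hq
    rw [norm_mul]
    exact hmax q hq
  · rw [nsmul_eq_mul]
    refine mul_le_mul_of_nonneg_right ?_ (by positivity)
    rw [Finset.offDiag_card, Finset.card_univ, Fintype.card_fin]
    have : m * m - m ≤ m * m := Nat.sub_le _ _
    calc ((m * m - m : ℕ) : ℝ) ≤ ((m * m : ℕ) : ℝ) := by exact_mod_cast this
      _ = (m : ℝ) ^ 2 := by push_cast; ring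

end EigAux

open EigAux

/-- module Eig -/
theorem eig_pair {n : Type} [Fintype n] [DecidableEq n] (hn : 2 ≤ Fintype.card n)
    (M : Matrix n n ℝ) :
    ∃ a b : ℂ, ({a, b} : Multiset ℂ) ≤ (M.map ((↑) : ℝ → ℂ)).charpoly.roots ∧
      |M.trace ^ 2 - (M * M).trace| ≤ (Fintype.card n : ℝ) ^ 2 * (‖a‖ * ‖b‖) := by
  set A : Matrix n n ℂ := M.map ((↑) : ℝ → ℂ) with hA
  obtain ⟨L, hL⟩ := Quot.exists_rep A.charpoly.roots
  have hL' : (L : Multiset ℂ) = A.charpoly.roots := hL
  have hlen : L.length = Fintype.card n := by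
    rw [← card_roots A, ← hL', Multiset.coe_card]
  set l : Fin L.length → ℂ := fun i => L.get i with hl
  have hroots : A.charpoly.roots = Multiset.map l Finset.univ.val := by
    rw [← hL', Fin.univ_val_map, hl]
    rw [List.ofFn_get]
  obtain ⟨i, j, hij, hbd⟩ := exists_pair (by omega) l
  refine ⟨l i, l j, ?_, ?_⟩
  · rw [hroots]
    have h1 : ({l i, l j} : Multiset ℂ) = Multiset.map l {i, j} := by simp
    rw [h1]
    refine Multiset.map_le_map ?_
    rw [Multiset.le_iff_subset]
    · intro x _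
      simp
    · simpa using hij
  · have htr : A.trace = ((M.trace : ℝ) : ℂ) := by
      simp [hA, Matrix.trace]
    have htr2 : (A * A).trace = (((M * M).trace : ℝ) : ℂ) := by
      have : A * A = (M * M).map ((↑) : ℝ → ℂ) := by
        ext a b
        simp [hA, Matrix.mul_apply]
      rw [this]
      simp [Matrix.trace]
    have h1 : A.trace = ∑ i, l i := by
      rw [Matrix.trace_eq_sum_roots_charpoly, hroots]
      rfl
    have h2 : (A * A).trace = ∑ i, l i ^ 2 := by
      rw [trace_sq, hroots, Multiset.map_map]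
      rfl
    rw [← h1, ← h2, htr, htr2, hlen] at hbd
    have h3 : ‖((M.trace : ℝ) : ℂ) ^ 2 - (((M * M).trace : ℝ) : ℂ)‖ =
        |M.trace ^ 2 - (M * M).trace| := by
      rw [← Complex.ofReal_pow, ← Complex.ofReal_sub, Complex.norm_real, Real.norm_eq_abs]
    rw [h3] at hbd
    exact hbd

/-- module Eig -/
theorem eig_le {κ : Type} [Fintype κ] [DecidableEq κ] (g : Matrix (κ ⊕ Unit) (κ ⊕ Unit) ℂ)
    (hg : gᴴ * JC κ * g = JC κ) (z : ℂ) (hz : z ∈ g.charpoly.roots) :
    ‖z‖ ≤ 2 * ((Fintype.card κ : ℝ) + 1) * cc g := by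
  have hroot : g.charpoly.eval z = 0 := by
    rw [Polynomial.mem_roots (g.charpoly_monic.ne_zero)] at hz
    exact hz
  rw [Matrix.eval_charpoly] at hroot
  obtain ⟨v, hv0, hv⟩ := Matrix.exists_mulVec_eq_zero_iff.mpr hroot
  have hgv : g *ᵥ v = z • v := by
    rw [Matrix.sub_mulVec, sub_eq_zero] at hv
    rw [← hv]
    ext i
    simp [Matrix.mulVec, dotProduct, Matrix.scalar_apply, Matrix.diagonal_apply]
  obtain ⟨i, -, hi⟩ := Finset.exists_max_image (Finset.univ : Finset (κ ⊕ Unit)) (fun i => ‖v i‖)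
    ⟨Sum.inr (), Finset.mem_univ _⟩
  have hi0 : 0 < ‖v i‖ := by
    rw [norm_pos_iff]
    intro h0
    apply hv0
    ext j
    have := hi j (Finset.mem_univ _)
    rw [h0, norm_zero] at this
    simpa using this
  have h1 : ‖z‖ * ‖v i‖ ≤ (2 * ((Fintype.card κ : ℝ) + 1) * cc g) * ‖v i‖ := by
    calc ‖z‖ * ‖v i‖ = ‖(g *ᵥ v) i‖ := by rw [hgv, Pi.smul_apply, smul_eq_mul, norm_mul]
      _ = ‖∑ j, g i j * v j‖ := rfl
      _ ≤ ∑ j, ‖g i j * v j‖ := norm_sum_le _ _
      _ ≤ ∑ _j : κ ⊕ Unit, (2 * cc g) * ‖v i‖ := by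
          refine Finset.sum_le_sum fun j _ => ?_
          rw [norm_mul]
          have h2 := cc_entry g hg i j
          have h3 := hi j (Finset.mem_univ _)
          have h4 : 0 ≤ 2 * cc g := (norm_nonneg _).trans h2
          gcongr
      _ = (2 * ((Fintype.card κ : ℝ) + 1) * cc g) * ‖v i‖ := by
          rw [Finset.sum_const, Finset.card_univ, Fintype.card_sum, Fintype.card_unit,
            nsmul_eq_mul]
          push_cast
          ring
  exact le_of_mul_le_mul_right h1 hi0

end Pool.Agent.MPd01a95
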