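import Mathlib
import Pool.Agent.Lib.MP_d01a95_gt.Defs
set_option autoImplicit false
open Matrix MeasureTheory
namespace Pool.Agent.MPd01a95

namespace HolAux

/-! ### elementary inequalities -/

theorem real_ineq {A B t c : ℝ} (hA : 0 ≤ A) (hB : 0 ≤ B) (ht : 0 ≤ t) (ht1 : t < 1) (hc : 0 ≤ c)
    (h1 : t ≤ A * B + c) (h2 : A ^ 2 + B ^ 2 + 2 * c < 1 + t ^ 2) : A < 1 := by
  by_contra hA1
  push Not at hA1
  rcases le_or_gt t (A * B) with h | h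
  · have h3 : t ^ 2 ≤ (A * B) ^ 2 := pow_le_pow_left₀ ht h 2
    have h4 : 0 ≤ (A ^ 2 - 1) * (A ^ 2 - t ^ 2) := by
      apply mul_nonneg
      · nlinarith
      · nlinarith
    have h5 : A ^ 2 * (A ^ 2 + B ^ 2) < A ^ 2 * (1 + t ^ 2) := by
      apply mul_lt_mul_of_pos_left
      · linarith
      · positivity
    nlinarith
  · have h3 : (A - B) ^ 2 < (1 - t) ^ 2 := by nlinarith
    have h4 : A - B < 1 - t := by
      apply lt_of_pow_lt_pow_left₀ 2 (by linarith) h3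
    have h5 : B ≤ A * B := le_mul_of_one_le_left hB hA1
    linarith

theorem final_ineq {A B r S T : ℝ} (hA : 0 ≤ A) (hB : 0 ≤ B) (hS : S = A ^ 2 + B ^ 2)
    (hT : T = A ^ 2 - B ^ 2) (hr : r < 1) (hN : A + B ≤ r) :
    (1 - T ^ 2) * (1 - r ^ 2) ≤ 2 * (1 + T ^ 2 - 2 * S) := by
  have h1 : 1 + T ^ 2 - 2 * S = (1 - (A + B) ^ 2) * (1 - (A - B) ^ 2) := by
    rw [hS, hT]; ring
  have h2 : 1 - T ^ 2 = 1 - (A + B) ^ 2 * (A - B) ^ 2 := by
    rw [hT]; ring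
  have hr0 : 0 ≤ A + B := by linarith
  have h3 : (A + B) ^ 2 ≤ r ^ 2 := pow_le_pow_left₀ hr0 hN 2
  have h4 : r ^ 2 < 1 := by nlinarith
  have h5 : (A - B) ^ 2 ≤ (A + B) ^ 2 := by nlinarith [mul_nonneg hA hB]
  rw [h1, h2]
  set P := (A + B) ^ 2 with hP
  set Q := (A - B) ^ 2 with hQ
  have hQ0 : 0 ≤ Q := sq_nonneg _
  have hP0 : 0 ≤ P := sq_nonneg _
  have h6 : 0 ≤ 1 - P * Q := by nlinarith
  calc (1 - P * Q) * (1 - r ^ 2) ≤ (1 - P * Q) * (1 - P) :=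
        mul_le_mul_of_nonneg_left (by linarith) h6
    _ ≤ 2 * ((1 - P) * (1 - Q)) := by
        have h7 : 1 - P * Q ≤ 2 * (1 - Q) := by nlinarith [sq_nonneg (1 - Q)]
        have h8 : 0 ≤ 1 - P := by linarith
        nlinarith [mul_le_mul_of_nonneg_right h7 h8]

/-! ### vectors -/

section vec
variable {ι : Type} [Fintype ι]

theorem norm_sum_sq_le (w : ι → ℂ) : ‖∑ i, w i ^ 2‖ ≤ ∑ i, ‖w i‖ ^ 2 := by
  refine (norm_sum_le _ _).trans (le_of_eq ?_)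
  exact Finset.sum_congr rfl fun i _ => norm_pow _ _

theorem sum_norm_sq_eq (w : ι → ℂ) :
    ((∑ i, ‖w i‖ ^ 2 : ℝ) : ℂ) = ∑ i, w i * (starRingEnd ℂ) (w i) := by
  push_cast
  refine Finset.sum_congr rfl fun i _ => ?_
  rw [Complex.mul_conj, Complex.normSq_eq_norm_sq]
  push_cast
  rfl

/-- the conditions satisfied by the points of the domain -/
def Cond (w : ι → ℂ) : Prop :=
  ‖∑ i, w i ^ 2‖ < 1 ∧ 2 * ∑ i, ‖w i‖ ^ 2 < 1 + ‖∑ i, w i ^ 2‖ ^ 2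

theorem lemmaA {w : ι → ℂ} (hw : Cond w) {e1 e2 : ι → ℝ} (h11 : ∑ i, e1 i ^ 2 = 1)
    (h22 : ∑ i, e2 i ^ 2 = 1) (h12 : ∑ i, e1 i * e2 i = 0) :
    ‖∑ i, w i * ((e1 i : ℂ) + Complex.I * e2 i)‖ < 1 := by
  set p : ℂ := ∑ i, w i * e1 i with hp
  set q : ℂ := ∑ i, w i * e2 i with hq
  have h11' : ∑ i, (e1 i : ℂ) ^ 2 = 1 := by exact_mod_cast congrArg ((↑) : ℝ → ℂ) h11
  have h22' : ∑ i, (e2 i : ℂ) ^ 2 = 1 := by exact_mod_cast congrArg ((↑) : ℝ → ℂ) h22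
  have h12' : ∑ i, (e1 i : ℂ) * (e2 i : ℂ) = 0 := by exact_mod_cast congrArg ((↑) : ℝ → ℂ) h12
  have ha : ∑ i, w i * ((e1 i : ℂ) + Complex.I * e2 i) = p + Complex.I * q := by
    rw [hp, hq, Finset.mul_sum, ← Finset.sum_add_distrib]
    exact Finset.sum_congr rfl fun i _ => by ring
  let w' : ι → ℂ := fun i => w i - p * e1 i - q * e2 i
  have hpc : ∑ i, (starRingEnd ℂ) (w i) * e1 i = (starRingEnd ℂ) p := by
    rw [hp, map_sum]
    refine Finset.sum_congr rfl fun i _ => ?_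
    rw [map_mul, Complex.conj_ofReal]
  have hqc : ∑ i, (starRingEnd ℂ) (w i) * e2 i = (starRingEnd ℂ) q := by
    rw [hq, map_sum]
    refine Finset.sum_congr rfl fun i _ => ?_
    rw [map_mul, Complex.conj_ofReal]
  have hsq : ∑ i, w' i ^ 2 = ∑ i, w i ^ 2 - (p ^ 2 + q ^ 2) := by
    have : ∑ i, w' i ^ 2 = ∑ i, w i ^ 2 - 2 * p * ∑ i, w i * e1 i - 2 * q * ∑ i, w i * e2 i +
        p ^ 2 * ∑ i, (e1 i : ℂ) ^ 2 + q ^ 2 * ∑ i, (e2 i : ℂ) ^ 2 +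
        2 * p * q * ∑ i, (e1 i : ℂ) * (e2 i : ℂ) := by
      simp only [Finset.mul_sum, ← Finset.sum_add_distrib, ← Finset.sum_sub_distrib]
      refine Finset.sum_congr rfl fun i _ => ?_
      show (w i - p * e1 i - q * e2 i) ^ 2 = _
      ring
    rw [this, h11', h22', h12', ← hp, ← hq]
    ring
  have hnm : (∑ i, ‖w' i‖ ^ 2 : ℝ) = ∑ i, ‖w i‖ ^ 2 - (‖p‖ ^ 2 + ‖q‖ ^ 2) := by
    have h1 : ∑ i, w' i * (starRingEnd ℂ) (w' i) = ∑ i, w i * (starRingEnd ℂ) (w i) -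
        (starRingEnd ℂ) p * ∑ i, w i * e1 i - (starRingEnd ℂ) q * ∑ i, w i * e2 i -
        p * ∑ i, (starRingEnd ℂ) (w i) * e1 i - q * ∑ i, (starRingEnd ℂ) (w i) * e2 i +
        p * (starRingEnd ℂ) p * ∑ i, (e1 i : ℂ) ^ 2 + q * (starRingEnd ℂ) q * ∑ i, (e2 i : ℂ) ^ 2 +
        (p * (starRingEnd ℂ) q + q * (starRingEnd ℂ) p) * ∑ i, (e1 i : ℂ) * (e2 i : ℂ) := by
      simp only [Finset.mul_sum, ← Finset.sum_add_distrib, ← Finset.sum_sub_distrib]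
      refine Finset.sum_congr rfl fun i _ => ?_
      show (w i - p * e1 i - q * e2 i) * (starRingEnd ℂ) (w i - p * e1 i - q * e2 i) = _
      simp only [map_sub, map_mul, Complex.conj_ofReal]
      ring
    rw [hpc, hqc, h11', h22', h12', ← hp, ← hq] at h1
    have h2 : ∀ z : ℂ, z * (starRingEnd ℂ) z = ((‖z‖ ^ 2 : ℝ) : ℂ) := by
      intro z
      rw [Complex.mul_conj, Complex.normSq_eq_norm_sq]
    have h3 : ((∑ i, ‖w' i‖ ^ 2 : ℝ) : ℂ) = ((∑ i, ‖w i‖ ^ 2 - (‖p‖ ^ 2 + ‖q‖ ^ 2) : ℝ) : ℂ) := by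
      rw [sum_norm_sq_eq, h1]
      rw [Complex.ofReal_sub, Complex.ofReal_add, sum_norm_sq_eq, ← h2 p, ← h2 q]
      ring
    exact_mod_cast h3
  have hpar : ‖p + Complex.I * q‖ ^ 2 + ‖p - Complex.I * q‖ ^ 2 = 2 * (‖p‖ ^ 2 + ‖q‖ ^ 2) := by
    have := parallelogram_law_with_norm ℂ p (Complex.I * q)
    rw [norm_mul Complex.I q, Complex.norm_I, one_mul] at this
    nlinarith
  have hprod : (p + Complex.I * q) * (p - Complex.I * q) = p ^ 2 + q ^ 2 := by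
    have := Complex.I_sq
    linear_combination (-q ^ 2) * this
  rw [ha]
  refine real_ineq (B := ‖p - Complex.I * q‖) (t := ‖∑ i, w i ^ 2‖)
    (c := ∑ i, ‖w' i‖ ^ 2) (norm_nonneg _) (norm_nonneg _) (norm_nonneg _) hw.1
    (Finset.sum_nonneg fun i _ => sq_nonneg _) ?_ ?_
  · rw [← norm_mul, hprod]
    have h1 : ∑ i, w i ^ 2 = (p ^ 2 + q ^ 2) + ∑ i, w' i ^ 2 := by rw [hsq]; ring
    rw [h1]
    exact (norm_add_le _ _).trans (add_le_add le_rfl (norm_sum_sq_le w'))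
  · rw [hnm]
    have := hw.2
    linarith

theorem lemmaA' {w : ι → ℂ} (hw : Cond w) {e1 : ι → ℝ} (h11 : ∑ i, e1 i ^ 2 = 1) :
    ‖∑ i, w i * (e1 i : ℂ)‖ < 1 := by
  have h1 : ‖∑ i, w i * (e1 i : ℂ)‖ ≤ ∑ i, ‖w i‖ * |e1 i| := by
    refine (norm_sum_le _ _).trans (le_of_eq ?_)
    refine Finset.sum_congr rfl fun i _ => ?_
    rw [norm_mul, Complex.norm_real, Real.norm_eq_abs]
  have h2 := Finset.sum_mul_sq_le_sq_mul_sq Finset.univ (fun i => ‖w i‖) (fun i => |e1 i|)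
  simp only [sq_abs, h11, mul_one] at h2
  have h3 := hw.2
  have h4 := hw.1
  have h5 : ‖∑ i, w i ^ 2‖ ^ 2 < 1 := by
    have := norm_nonneg (∑ i, w i ^ 2)
    nlinarith
  have h6 : (∑ i, ‖w i‖ * |e1 i|) ^ 2 < 1 := by linarith
  have h7 : 0 ≤ ∑ i, ‖w i‖ * |e1 i| :=
    Finset.sum_nonneg fun i _ => mul_nonneg (norm_nonneg _) (abs_nonneg _)
  have h8 : ∑ i, ‖w i‖ * |e1 i| < 1 := by nlinarith
  linarith

/-- **Lemma B** -/
theorem lemmaB (w : ι → ℂ) : ∃ (ε : ι → ℂ) (A B : ℝ), 0 ≤ A ∧ 0 ≤ B ∧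
    (∀ w' : ι → ℂ, Cond w' → ‖∑ i, w' i * ε i‖ < 1) ∧ ∑ i, ‖w i‖ ^ 2 = A ^ 2 + B ^ 2 ∧
    ‖∑ i, w i ^ 2‖ = A ^ 2 - B ^ 2 ∧ ‖∑ i, w i * ε i‖ = A + B := by
  -- the phase
  obtain ⟨μ, hμ, hμ2⟩ : ∃ μ : ℂ, ‖μ‖ = 1 ∧ μ ^ 2 * ∑ i, w i ^ 2 = (‖∑ i, w i ^ 2‖ : ℂ) := by
    set τ := ∑ i, w i ^ 2 with hτ
    refine ⟨Complex.exp (((-(τ.arg) / 2 : ℝ) : ℂ) * Complex.I), Complex.norm_exp_ofReal_mul_I _, ?_⟩
    rw [← Complex.exp_nat_mul]
    have h := Complex.norm_mul_exp_arg_mul_I τ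
    have h' : Complex.exp (((2 : ℕ) : ℂ) * (((-(τ.arg) / 2 : ℝ) : ℂ) * Complex.I)) * τ =
        Complex.exp (((2 : ℕ) : ℂ) * (((-(τ.arg) / 2 : ℝ) : ℂ) * Complex.I)) *
          ((‖τ‖ : ℂ) * Complex.exp ((τ.arg : ℂ) * Complex.I)) := by rw [h]
    rw [h', mul_comm, mul_assoc, ← Complex.exp_add]
    have : (τ.arg : ℂ) * Complex.I + ((2 : ℕ) : ℂ) * (((-(τ.arg) / 2 : ℝ) : ℂ) * Complex.I) = 0 := by
      push_cast
      ring
    rw [this, Complex.exp_zero, mul_one]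
  set x : ι → ℝ := fun i => (μ * w i).re with hx
  set y : ι → ℝ := fun i => (μ * w i).im with hy
  have hV : ∀ i, μ * w i = (x i : ℂ) + (y i : ℂ) * Complex.I := fun i => (Complex.re_add_im _).symm
  have h1 : ∑ i, (μ * w i) ^ 2 = (‖∑ i, w i ^ 2‖ : ℂ) := by
    rw [← hμ2, Finset.mul_sum]
    exact Finset.sum_congr rfl fun i _ => by ring
  have h2 : ∑ i, (μ * w i) ^ 2 = ((∑ i, x i ^ 2 - ∑ i, y i ^ 2 : ℝ) : ℂ) +
      ((2 * ∑ i, x i * y i : ℝ) : ℂ) * Complex.I := by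
    push_cast
    rw [Finset.mul_sum, Finset.sum_mul, ← Finset.sum_sub_distrib, ← Finset.sum_add_distrib]
    refine Finset.sum_congr rfl fun i _ => ?_
    rw [hV]
    have := Complex.I_sq
    linear_combination ((y i : ℂ) ^ 2) * this
  rw [h1] at h2
  have hre := congrArg Complex.re h2
  have him := congrArg Complex.im h2
  simp only [Complex.add_re, Complex.mul_re, Complex.ofReal_re, Complex.ofReal_im, Complex.I_re,
    Complex.I_im, mul_zero, zero_mul, sub_zero, add_zero, Complex.add_im, Complex.mul_im,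
    mul_one, zero_add] at hre him
  have hxy : ∑ i, x i * y i = 0 := by linarith
  have hS : ∑ i, ‖w i‖ ^ 2 = ∑ i, x i ^ 2 + ∑ i, y i ^ 2 := by
    rw [← Finset.sum_add_distrib]
    refine Finset.sum_congr rfl fun i _ => ?_
    have h3 : ‖w i‖ = ‖μ * w i‖ := by rw [norm_mul, hμ, one_mul]
    rw [h3, ← Complex.normSq_eq_norm_sq, Complex.normSq_apply]
    ring
  have hX0 : 0 ≤ ∑ i, x i ^ 2 := Finset.sum_nonneg fun i _ => sq_nonneg _
  have hY0 : 0 ≤ ∑ i, y i ^ 2 := Finset.sum_nonneg fun i _ => sq_nonneg _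
  set A := Real.sqrt (∑ i, x i ^ 2) with hA
  set B := Real.sqrt (∑ i, y i ^ 2) with hB
  have hA2 : A ^ 2 = ∑ i, x i ^ 2 := Real.sq_sqrt hX0
  have hB2 : B ^ 2 = ∑ i, y i ^ 2 := Real.sq_sqrt hY0
  have hA0 : 0 ≤ A := Real.sqrt_nonneg _
  have hB0 : 0 ≤ B := Real.sqrt_nonneg _
  have hBA : B ^ 2 ≤ A ^ 2 := by
    rw [hA2, hB2]
    have := norm_nonneg (∑ i, w i ^ 2)
    linarith
  let e1 : ι → ℝ := fun i => x i / A
  let e2 : ι → ℝ := fun i => -(y i / B)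
  refine ⟨fun i => (e1 i : ℂ) + Complex.I * e2 i, A, B, hA0, hB0, ?_, ?_, ?_, ?_⟩
  · intro w' hw'
    rcases hA0.eq_or_lt with hA00 | hApos
    · -- `A = 0`
      have hB00 : B = 0 := by nlinarith
      have : ∑ i, w' i * ((e1 i : ℂ) + Complex.I * e2 i) = 0 := by
        refine Finset.sum_eq_zero fun i _ => ?_
        have h3 : e1 i = 0 := by show x i / A = 0; rw [← hA00, div_zero]
        have h4 : e2 i = 0 := by show -(y i / B) = 0; rw [hB00, div_zero, neg_zero]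
        rw [h3, h4]
        simp
      rw [this, norm_zero]
      exact one_pos
    · have h11 : ∑ i, e1 i ^ 2 = 1 := by
        show ∑ i, (x i / A) ^ 2 = 1
        simp only [div_pow]
        rw [← Finset.sum_div, ← hA2, div_self (by positivity)]
      rcases hB0.eq_or_lt with hB00 | hBpos
      · have h4 : ∀ i, e2 i = 0 := fun i => by
          show -(y i / B) = 0
          rw [← hB00, div_zero, neg_zero]
        have h5 := lemmaA' hw' h11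
        convert! h5 using 2
        refine Finset.sum_congr rfl fun i _ => ?_
        show w' i * ((e1 i : ℂ) + Complex.I * e2 i) = _
        rw [h4 i]
        simp
      · refine lemmaA hw' h11 ?_ ?_
        · show ∑ i, (-(y i / B)) ^ 2 = 1
          simp only [neg_sq, div_pow]
          rw [← Finset.sum_div, ← hB2, div_self (by positivity)]
        · show ∑ i, (x i / A) * (-(y i / B)) = 0
          have : ∑ i, (x i / A) * (-(y i / B)) = (-(1 / (A * B))) * ∑ i, x i * y i := by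
            rw [Finset.mul_sum]
            refine Finset.sum_congr rfl fun i _ => ?_
            field_simp
          rw [this, hxy, mul_zero]
  · rw [hS, hA2, hB2]
  · rw [hA2, hB2]
    exact hre
  · have h3 : μ * ∑ i, w i * ((e1 i : ℂ) + Complex.I * e2 i) = ((A + B : ℝ) : ℂ) := by
      have hXA : (∑ i, x i ^ 2) / A = A := by
        rw [← hA2]
        rcases eq_or_ne A 0 with h | h
        · rw [h]; simp
        · field_simp
      have hYB : (∑ i, y i ^ 2) / B = B := by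
        rw [← hB2]
        rcases eq_or_ne B 0 with h | h
        · rw [h]; simp
        · field_simp
      have h4 : μ * ∑ i, w i * ((e1 i : ℂ) + Complex.I * e2 i) =
          (((∑ i, x i ^ 2) / A + (∑ i, y i ^ 2) / B : ℝ) : ℂ) +
          (((∑ i, x i * y i) * (1 / A - 1 / B) : ℝ) : ℂ) * Complex.I := by
        push_cast
        rw [Finset.mul_sum, Finset.sum_mul, Finset.sum_div, Finset.sum_div, Finset.sum_mul,
          ← Finset.sum_add_distrib, ← Finset.sum_add_distrib]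
        refine Finset.sum_congr rfl fun i _ => ?_
        rw [← mul_assoc, hV]
        show _ * (((x i / A : ℝ) : ℂ) + Complex.I * ((-(y i / B) : ℝ) : ℂ)) = _
        push_cast
        have := Complex.I_sq
        simp only [div_eq_mul_inv]
        linear_combination (-(y i : ℂ) ^ 2 * (B : ℂ)⁻¹) * this
      rw [h4, hxy, hXA, hYB]
      simp
    have h5 : ‖μ * ∑ i, w i * ((e1 i : ℂ) + Complex.I * e2 i)‖ = A + B := by
      rw [h3, Complex.norm_real, Real.norm_eq_abs, abs_of_nonneg (by linarith)]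
    rwa [norm_mul, hμ, one_mul] at h5

end vec

/-! ### the Schwarz lemma on the ball -/

section ball
variable {κ : Type} [Fintype κ]

/-- the unit ball -/
def Bl (κ : Type) [Fintype κ] : Set (κ → ℂ) := {z | ∑ i, ‖z i‖ ^ 2 < 1}

theorem schwarz {a : (κ → ℂ) → ℂ} (ha : DifferentiableOn ℂ a (Bl κ)) (ha0 : a 0 = 0)
    (h1 : ∀ z ∈ Bl κ, ‖a z‖ < 1) {z : κ → ℂ} (hz : z ∈ Bl κ) :
    ‖a z‖ ≤ Real.sqrt (∑ i, ‖z i‖ ^ 2) := by
  set r := Real.sqrt (∑ i, ‖z i‖ ^ 2) with hr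
  have hS0 : 0 ≤ ∑ i, ‖z i‖ ^ 2 := Finset.sum_nonneg fun i _ => sq_nonneg _
  have hr2 : r ^ 2 = ∑ i, ‖z i‖ ^ 2 := Real.sq_sqrt hS0
  have hr0 : 0 ≤ r := Real.sqrt_nonneg _
  rcases hr0.eq_or_lt with h | hrpos
  · have hz0 : z = 0 := by
      have h2 : ∑ i, ‖z i‖ ^ 2 = 0 := by rw [← hr2, ← h]; ring
      funext i
      have h3 := (Finset.sum_eq_zero_iff_of_nonneg (fun i _ => sq_nonneg ‖z i‖)).mp h2 i
        (Finset.mem_univ i)
      simpa using h3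
    rw [hz0, ha0, norm_zero]
    exact hr0
  · have hr1 : r < 1 := by
      have : r ^ 2 < 1 := by rw [hr2]; exact hz
      nlinarith
    let u : κ → ℂ := fun i => z i / r
    have hu : ∑ i, ‖u i‖ ^ 2 = 1 := by
      show ∑ i, ‖z i / r‖ ^ 2 = 1
      have : ∀ i, ‖z i / (r : ℂ)‖ ^ 2 = ‖z i‖ ^ 2 / r ^ 2 := by
        intro i
        rw [norm_div, div_pow, Complex.norm_real, Real.norm_eq_abs, sq_abs]
      simp only [this]
      rw [← Finset.sum_div, ← hr2, div_self (by positivity)]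
    have hmem : ∀ ζ : ℂ, ‖ζ‖ < 1 → ζ • u ∈ Bl κ := by
      intro ζ hζ
      show ∑ i, ‖(ζ • u) i‖ ^ 2 < 1
      have : ∀ i, ‖(ζ • u) i‖ ^ 2 = ‖ζ‖ ^ 2 * ‖u i‖ ^ 2 := by
        intro i
        rw [Pi.smul_apply, smul_eq_mul, norm_mul, mul_pow]
      simp only [this]
      rw [← Finset.mul_sum, hu, mul_one]
      have := norm_nonneg ζ
      nlinarith
    have hd : DifferentiableOn ℂ (fun ζ : ℂ => a (ζ • u)) (Metric.ball 0 1) := by
      refine ha.comp ?_ ?_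
      · exact (differentiable_id.smul_const u).differentiableOn
      · intro ζ hζ
        exact hmem ζ (by simpa using hζ)
    have hmaps : Set.MapsTo (fun ζ : ℂ => a (ζ • u)) (Metric.ball 0 1) (Metric.closedBall 0 1) := by
      intro ζ hζ
      rw [mem_closedBall_zero_iff]
      exact (h1 _ (hmem ζ (by simpa using hζ))).le
    have h3 := Complex.norm_le_norm_of_mapsTo_ball hd hmaps (by simp [ha0]) (z := (r : ℂ)) (by
      rw [Complex.norm_real, Real.norm_eq_abs, abs_of_pos hrpos]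
      exact hr1)
    rw [Complex.norm_real, Real.norm_eq_abs, abs_of_pos hrpos] at h3
    have h4 : (r : ℂ) • u = z := by
      funext i
      show (r : ℂ) * (z i / r) = z i
      have : (r : ℂ) ≠ 0 := by exact_mod_cast hrpos.ne'
      field_simp
    simpa [h4] using h3

end ball

/-! ### the lift -/

section lift
variable {ι κ : Type} [Fintype ι] [Fintype κ]

/-- the first isotropic coordinate -/
def phi (v : ι ⊕ Fin 2 → ℂ) : ℂ := v (Sum.inr 0) - Complex.I * v (Sum.inr 1)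

/-- the second isotropic coordinate -/
def psi (v : ι ⊕ Fin 2 → ℂ) : ℂ := v (Sum.inr 0) + Complex.I * v (Sum.inr 1)

theorem phi_psi (v : ι ⊕ Fin 2 → ℂ) :
    phi v * psi v = v (Sum.inr 0) ^ 2 + v (Sum.inr 1) ^ 2 := by
  unfold phi psi
  have := Complex.I_sq
  linear_combination (-(v (Sum.inr 1)) ^ 2) * this

theorem phi_psi_norm (v : ι ⊕ Fin 2 → ℂ) :
    ‖phi v‖ ^ 2 + ‖psi v‖ ^ 2 = 2 * (‖v (Sum.inr 0)‖ ^ 2 + ‖v (Sum.inr 1)‖ ^ 2) := by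
  have := parallelogram_law_with_norm ℂ (v (Sum.inr 0)) (Complex.I * v (Sum.inr 1))
  rw [norm_mul Complex.I _, Complex.norm_I, one_mul] at this
  unfold phi psi
  nlinarith

theorem norm_ne {v : ι ⊕ Fin 2 → ℂ}
    (h1 : ∑ i, v (Sum.inl i) ^ 2 = v (Sum.inr 0) ^ 2 + v (Sum.inr 1) ^ 2)
    (h2 : ∑ i, ‖v (Sum.inl i)‖ ^ 2 < ‖v (Sum.inr 0)‖ ^ 2 + ‖v (Sum.inr 1)‖ ^ 2) :
    ‖phi v‖ ≠ ‖psi v‖ := by
  intro h
  have h3 := norm_sum_sq_le fun i => v (Sum.inl i)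
  rw [h1, ← phi_psi, norm_mul, h] at h3
  have h4 := phi_psi_norm v
  rw [h] at h4
  nlinarith

theorem cond_of {v : ι ⊕ Fin 2 → ℂ}
    (h1 : ∑ i, v (Sum.inl i) ^ 2 = v (Sum.inr 0) ^ 2 + v (Sum.inr 1) ^ 2)
    (h2 : ∑ i, ‖v (Sum.inl i)‖ ^ 2 < ‖v (Sum.inr 0)‖ ^ 2 + ‖v (Sum.inr 1)‖ ^ 2)
    (h3 : ‖psi v‖ < ‖phi v‖) : Cond (fun i => v (Sum.inl i) / phi v) ∧
      ‖∑ i, (v (Sum.inl i) / phi v) ^ 2‖ = ‖psi v‖ / ‖phi v‖ ∧
      ∑ i, ‖v (Sum.inl i) / phi v‖ ^ 2 = (∑ i, ‖v (Sum.inl i)‖ ^ 2) / ‖phi v‖ ^ 2 := by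
  have hpos : 0 < ‖phi v‖ := lt_of_le_of_lt (norm_nonneg _) h3
  have hne : phi v ≠ 0 := norm_pos_iff.mp hpos
  have e1 : ∑ i, (v (Sum.inl i) / phi v) ^ 2 = psi v / phi v := by
    simp only [div_pow]
    rw [← Finset.sum_div, h1, ← phi_psi]
    field_simp
  have e2 : ‖∑ i, (v (Sum.inl i) / phi v) ^ 2‖ = ‖psi v‖ / ‖phi v‖ := by
    rw [e1, norm_div]
  have e3 : ∑ i, ‖v (Sum.inl i) / phi v‖ ^ 2 = (∑ i, ‖v (Sum.inl i)‖ ^ 2) / ‖phi v‖ ^ 2 := by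
    simp only [norm_div, div_pow]
    rw [← Finset.sum_div]
  refine ⟨⟨?_, ?_⟩, e2, e3⟩
  · rw [e2, div_lt_one hpos]
    exact h3
  · rw [e2, e3, div_pow]
    have h4 := phi_psi_norm v
    rw [← sub_pos]
    have : 1 + ‖psi v‖ ^ 2 / ‖phi v‖ ^ 2 - 2 * ((∑ i, ‖v (Sum.inl i)‖ ^ 2) / ‖phi v‖ ^ 2) =
        (‖phi v‖ ^ 2 + ‖psi v‖ ^ 2 - 2 * ∑ i, ‖v (Sum.inl i)‖ ^ 2) / ‖phi v‖ ^ 2 := by
      field_simp
    rw [this]
    apply div_pos
    · linarith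
    · positivity

theorem phi_differentiable {κ : Type} [Fintype κ] {s : (κ → ℂ) → (ι ⊕ Fin 2 → ℂ)}
    {B : Set (κ → ℂ)} (hs : DifferentiableOn ℂ s B) :
    DifferentiableOn ℂ (fun z => phi (s z)) B := by
  have h := differentiableOn_pi.mp hs
  exact (h (Sum.inr 0)).sub ((h (Sum.inr 1)).const_mul Complex.I)

theorem psi_differentiable {κ : Type} [Fintype κ] {s : (κ → ℂ) → (ι ⊕ Fin 2 → ℂ)}
    {B : Set (κ → ℂ)} (hs : DifferentiableOn ℂ s B) :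
    DifferentiableOn ℂ (fun z => psi (s z)) B := by
  have h := differentiableOn_pi.mp hs
  exact (h (Sum.inr 0)).add ((h (Sum.inr 1)).const_mul Complex.I)

/-- on the ball `|ψ| < |φ|` -/
theorem psi_lt_phi {s : (κ → ℂ) → (ι ⊕ Fin 2 → ℂ)} (hs : DifferentiableOn ℂ s (Bl κ))
    (hc : ∀ z ∈ Bl κ, ∑ i, s z (Sum.inl i) ^ 2 = s z (Sum.inr 0) ^ 2 + s z (Sum.inr 1) ^ 2 ∧
      ∑ i, ‖s z (Sum.inl i)‖ ^ 2 < ‖s z (Sum.inr 0)‖ ^ 2 + ‖s z (Sum.inr 1)‖ ^ 2)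
    (h0 : ‖psi (s 0)‖ < ‖phi (s 0)‖) {z : κ → ℂ} (hz : z ∈ Bl κ) :
    ‖psi (s z)‖ < ‖phi (s z)‖ := by
  by_contra hcon
  push Not at hcon
  let f : ℝ → ℝ := fun t => ‖phi (s ((t : ℂ) • z))‖ - ‖psi (s ((t : ℂ) • z))‖
  have hmem : ∀ t ∈ Set.Icc (0 : ℝ) 1, ((t : ℂ) • z) ∈ Bl κ := by
    intro t ht
    show ∑ i, ‖((t : ℂ) • z) i‖ ^ 2 < 1
    have h1 : ∀ i, ‖((t : ℂ) • z) i‖ ^ 2 ≤ ‖z i‖ ^ 2 := by
      intro i
      rw [Pi.smul_apply, smul_eq_mul, norm_mul, Complex.norm_real, Real.norm_eq_abs,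
        abs_of_nonneg ht.1]
      refine pow_le_pow_left₀ (mul_nonneg ht.1 (norm_nonneg _)) ?_ 2
      exact mul_le_of_le_one_left (norm_nonneg _) ht.2
    exact lt_of_le_of_lt (Finset.sum_le_sum fun i _ => h1 i) hz
  have hg : ContinuousOn (fun t : ℝ => (t : ℂ) • z) (Set.Icc 0 1) :=
    (Complex.continuous_ofReal.smul continuous_const).continuousOn
  have hf : ContinuousOn f (Set.Icc 0 1) :=
    ((phi_differentiable hs).continuousOn.comp hg hmem).norm.sub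
      ((psi_differentiable hs).continuousOn.comp hg hmem).norm
  have h1 : (0 : ℝ) ∈ Set.Icc (f 1) (f 0) := by
    constructor
    · show ‖phi (s (((1 : ℝ) : ℂ) • z))‖ - ‖psi (s (((1 : ℝ) : ℂ) • z))‖ ≤ 0
      rw [Complex.ofReal_one, one_smul]
      linarith
    · show 0 ≤ ‖phi (s (((0 : ℝ) : ℂ) • z))‖ - ‖psi (s (((0 : ℝ) : ℂ) • z))‖
      rw [Complex.ofReal_zero, zero_smul]
      linarith
  obtain ⟨t, ht, hft⟩ := intermediate_value_Icc' zero_le_one hf h1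
  exact norm_ne (hc _ (hmem t ht)).1 (hc _ (hmem t ht)).2 (sub_eq_zero.mp hft)

end lift

end HolAux

open HolAux

theorem hol_dom0 {ι κ G : Type} [Fintype ι] [DecidableEq ι] [Fintype κ] [DecidableEq κ] [Group G]
    (hι : 2 ≤ Fintype.card ι) (ρ : G →* Matrix (ι ⊕ Fin 2) (ι ⊕ Fin 2) ℝ)
    (hρ : ∀ g, (ρ g)ᵀ * J ι * ρ g = J ι)
    (σ : G →* Matrix (κ ⊕ Unit) (κ ⊕ Unit) ℂ) (hσ : ∀ g, (σ g)ᴴ * JC κ * σ g = JC κ)
    (s : (κ → ℂ) → (ι ⊕ Fin 2 → ℂ)) (hs : HolEq ρ σ s)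
    (h0 : ∃ c : ℂ, s 0 = c • (Sum.elim (fun _ => 0) ![1, Complex.I] : ι ⊕ Fin 2 → ℂ)) (g : G) :
    Del (ρ g) ≤ 2 * cc (σ g) ^ 2 := by
  obtain ⟨hd, hc, he⟩ := hs
  obtain ⟨c, hc0⟩ := h0
  have hmem0 : (0 : κ → ℂ) ∈ Bl κ := by
    show ∑ i, ‖(0 : κ → ℂ) i‖ ^ 2 < 1
    simp
  have hs0l : ∀ i, s 0 (Sum.inl i) = 0 := by
    intro i
    rw [hc0]
    simp
  have hs00 : s 0 (Sum.inr 0) = c := by
    rw [hc0]
    simp
  have hs01 : s 0 (Sum.inr 1) = c * Complex.I := by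
    rw [hc0]
    simp
  have hcne : c ≠ 0 := by
    rintro rfl
    have := (hc 0 hmem0).2
    rw [hs00, hs01] at this
    simp [hs0l] at this
  have hphi0 : phi (s 0) = 2 * c := by
    unfold phi
    rw [hs00, hs01]
    have := Complex.I_sq
    linear_combination (-c) * this
  have hpsi0 : psi (s 0) = 0 := by
    unfold psi
    rw [hs00, hs01]
    have := Complex.I_sq
    linear_combination c * this
  have hlt0 : ‖psi (s 0)‖ < ‖phi (s 0)‖ := by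
    rw [hphi0, hpsi0, norm_zero]
    exact norm_pos_iff.mpr (mul_ne_zero two_ne_zero hcne)
  have hlt : ∀ z ∈ Bl κ, ‖psi (s z)‖ < ‖phi (s z)‖ := fun z hz => psi_lt_phi hd hc hlt0 hz
  have hphine : ∀ z ∈ Bl κ, phi (s z) ≠ 0 := fun z hz =>
    norm_pos_iff.mp (lt_of_le_of_lt (norm_nonneg _) (hlt z hz))
  -- the point
  set z₀ : κ → ℂ := act (σ g) 0 with hz₀
  have hact : ∀ i, z₀ i = σ g (Sum.inl i) (Sum.inr ()) / σ g (Sum.inr ()) (Sum.inr ()) := by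
    intro i
    rw [hz₀]
    unfold act
    have h1 : ∀ x, (σ g *ᵥ (Sum.elim (0 : κ → ℂ) fun _ => 1)) x = σ g x (Sum.inr ()) := by
      intro x
      simp [Matrix.mulVec, dotProduct]
    rw [h1, h1]
  have hcol : ∑ i, ‖σ g (Sum.inl i) (Sum.inr ())‖ ^ 2 = cc (σ g) ^ 2 - 1 := by
    have h1 := congrFun (congrFun (hσ g) (Sum.inr ())) (Sum.inr ())
    have h2 : ((σ g)ᴴ * JC κ * σ g) (Sum.inr ()) (Sum.inr ()) =
        ∑ i, (starRingEnd ℂ) (σ g (Sum.inl i) (Sum.inr ())) * σ g (Sum.inl i) (Sum.inr ()) -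
          (starRingEnd ℂ) (σ g (Sum.inr ()) (Sum.inr ())) * σ g (Sum.inr ()) (Sum.inr ()) := by
      simp [Matrix.mul_apply, JC, Matrix.fromBlocks, Matrix.one_apply, Finset.sum_ite_eq,
        Matrix.conjTranspose_apply]
      ring
    rw [h2] at h1
    have h3 : (JC κ) (Sum.inr ()) (Sum.inr ()) = -1 := by simp [JC]
    rw [h3] at h1
    have h4 : ∀ z : ℂ, (starRingEnd ℂ) z * z = ((‖z‖ ^ 2 : ℝ) : ℂ) := by
      intro z
      rw [mul_comm, Complex.mul_conj, Complex.normSq_eq_norm_sq]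
    simp only [h4] at h1
    rw [← Complex.ofReal_sum] at h1
    have h5 : (∑ i, ‖σ g (Sum.inl i) (Sum.inr ())‖ ^ 2 - ‖σ g (Sum.inr ()) (Sum.inr ())‖ ^ 2 : ℝ) =
        -1 := by exact_mod_cast h1
    unfold cc
    linarith
  have hcc1 : 1 ≤ cc (σ g) ^ 2 := by
    have : 0 ≤ ∑ i, ‖σ g (Sum.inl i) (Sum.inr ())‖ ^ 2 :=
      Finset.sum_nonneg fun i _ => sq_nonneg _
    linarith
  have hccpos : 0 < cc (σ g) ^ 2 := by linarith
  have hr2 : ∑ i, ‖z₀ i‖ ^ 2 = 1 - 1 / cc (σ g) ^ 2 := by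
    have : ∀ i, ‖z₀ i‖ ^ 2 = ‖σ g (Sum.inl i) (Sum.inr ())‖ ^ 2 / cc (σ g) ^ 2 := by
      intro i
      rw [hact, norm_div, div_pow]
      rfl
    simp only [this]
    rw [← Finset.sum_div, hcol, sub_div, div_self hccpos.ne']
  have hz₀mem : z₀ ∈ Bl κ := by
    show ∑ i, ‖z₀ i‖ ^ 2 < 1
    rw [hr2]
    have : 0 < 1 / cc (σ g) ^ 2 := by positivity
    linarith
  -- the Schwarz lemma
  obtain ⟨hcnd, hT, hS⟩ := cond_of (hc z₀ hz₀mem).1 (hc z₀ hz₀mem).2 (hlt z₀ hz₀mem)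
  obtain ⟨ε, A, B, hA0, hB0, hε, hSAB, hTAB, hN⟩ :=
    lemmaB (fun i => s z₀ (Sum.inl i) / phi (s z₀))
  set r := Real.sqrt (∑ i, ‖z₀ i‖ ^ 2) with hr
  have hrsq : r ^ 2 = ∑ i, ‖z₀ i‖ ^ 2 := Real.sq_sqrt (Finset.sum_nonneg fun i _ => sq_nonneg _)
  have hr1 : r < 1 := by
    have : r ^ 2 < 1 := by rw [hrsq]; exact hz₀mem
    have := Real.sqrt_nonneg (∑ i, ‖z₀ i‖ ^ 2)
    nlinarith
  have hsch : A + B ≤ r := by
    rw [← hN]
    refine schwarz (a := fun z => ∑ i, s z (Sum.inl i) / phi (s z) * ε i) ?_ ?_ ?_ hz₀mem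
    · have h := differentiableOn_pi.mp hd
      refine DifferentiableOn.fun_sum fun i _ => ?_
      simp only [div_eq_mul_inv]
      exact ((h (Sum.inl i)).mul ((phi_differentiable hd).inv hphine)).mul_const _
    · simp [hs0l]
    · intro z hz
      exact hε _ (cond_of (hc z hz).1 (hc z hz).2 (hlt z hz)).1
  have hfin := final_ineq hA0 hB0 hSAB hTAB hr1 hsch
  rw [hS, hT] at hfin
  -- equivariance
  obtain ⟨c', hc'⟩ := he g 0 hmem0
  set k : ℂ := c' * c with hk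
  have hsz : ∀ x, s z₀ x = k * ((ρ g x (Sum.inr 0) : ℂ) + Complex.I * ρ g x (Sum.inr 1)) := by
    intro x
    rw [hz₀, hc', Pi.smul_apply, smul_eq_mul]
    have : ((ρ g).map ((↑) : ℝ → ℂ) *ᵥ s 0) x =
        c * ((ρ g x (Sum.inr 0) : ℂ) + Complex.I * ρ g x (Sum.inr 1)) := by
      simp only [Matrix.mulVec, dotProduct, Fintype.sum_sum_type, hs0l, mul_zero,
        Finset.sum_const_zero, zero_add, Fin.sum_univ_two, hs00, hs01, Matrix.map_apply]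
      ring
    rw [this, hk]
    ring
  set d00 := ρ g (Sum.inr 0) (Sum.inr 0) with hd00
  set d01 := ρ g (Sum.inr 0) (Sum.inr 1) with hd01
  set d10 := ρ g (Sum.inr 1) (Sum.inr 0) with hd10
  set d11 := ρ g (Sum.inr 1) (Sum.inr 1) with hd11
  have hnsq : ∀ a b : ℝ, ‖(a : ℂ) + Complex.I * b‖ ^ 2 = a ^ 2 + b ^ 2 := by
    intro a b
    rw [← Complex.normSq_eq_norm_sq, Complex.normSq_apply]
    simp
    ring
  have hphi : ‖phi (s z₀)‖ ^ 2 = ‖k‖ ^ 2 * ((d00 + d11) ^ 2 + (d01 - d10) ^ 2) := by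
    have : phi (s z₀) = k * (((d00 + d11 : ℝ) : ℂ) + Complex.I * ((d01 - d10 : ℝ) : ℂ)) := by
      unfold phi
      rw [hsz, hsz]
      push_cast
      have := Complex.I_sq
      linear_combination (-k * (d11 : ℂ)) * this
    rw [this, norm_mul, mul_pow, hnsq]
  have hpsi : ‖psi (s z₀)‖ ^ 2 = ‖k‖ ^ 2 * ((d00 - d11) ^ 2 + (d01 + d10) ^ 2) := by
    have : psi (s z₀) = k * (((d00 - d11 : ℝ) : ℂ) + Complex.I * ((d01 + d10 : ℝ) : ℂ)) := by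
      unfold psi
      rw [hsz, hsz]
      push_cast
      have := Complex.I_sq
      linear_combination (k * (d11 : ℂ)) * this
    rw [this, norm_mul, mul_pow, hnsq]
  have hE : ∑ i, ‖s z₀ (Sum.inl i)‖ ^ 2 = ‖k‖ ^ 2 * (∑ i, ρ g (Sum.inl i) (Sum.inr 0) ^ 2 +
      ∑ i, ρ g (Sum.inl i) (Sum.inr 1) ^ 2) := by
    rw [← Finset.sum_add_distrib, Finset.mul_sum]
    refine Finset.sum_congr rfl fun i _ => ?_
    rw [hsz, norm_mul, mul_pow, hnsq]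
  have hent : ∀ j : Fin 2, ∑ i, ρ g (Sum.inl i) (Sum.inr j) ^ 2 -
      (ρ g (Sum.inr 0) (Sum.inr j) ^ 2 + ρ g (Sum.inr 1) (Sum.inr j) ^ 2) = -1 := by
    intro j
    have h1 := congrFun (congrFun (hρ g) (Sum.inr j)) (Sum.inr j)
    have h3 : (J ι) (Sum.inr j) (Sum.inr j) = -1 := by simp [J]
    rw [h3] at h1
    rw [← h1]
    simp [Matrix.mul_apply, J, Matrix.fromBlocks, Matrix.one_apply, Fin.sum_univ_two,
      Matrix.transpose_apply]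
    have h4 : ∀ x : ι, ρ g (Sum.inl x) (Sum.inr j) ^ 2 =
      ρ g (Sum.inl x) (Sum.inr j) * ρ g (Sum.inl x) (Sum.inr j) := fun x => by ring
    simp only [h4]
    ring
  have hent0 := hent 0
  have hent1 := hent 1
  rw [← hd00, ← hd10] at hent0
  rw [← hd01, ← hd11] at hent1
  have hphipos : 0 < ‖phi (s z₀)‖ ^ 2 := by
    have := norm_pos_iff.mpr (hphine z₀ hz₀mem)
    positivity
  have hk2 : 0 < ‖k‖ ^ 2 := by
    rcases (sq_nonneg ‖k‖).eq_or_lt with h | h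
    · rw [hphi, ← h, zero_mul] at hphipos
      exact absurd hphipos (lt_irrefl _)
    · exact h
  have hdet : (ρ g).toBlocks₂₂.det = d00 * d11 - d01 * d10 := by
    rw [Matrix.det_fin_two]
    rfl
  have e1 : ‖phi (s z₀)‖ ^ 2 - ‖psi (s z₀)‖ ^ 2 = 4 * ‖k‖ ^ 2 * (ρ g).toBlocks₂₂.det := by
    rw [hphi, hpsi, hdet]
    ring
  have e2 : ‖phi (s z₀)‖ ^ 2 + ‖psi (s z₀)‖ ^ 2 - 2 * ∑ i, ‖s z₀ (Sum.inl i)‖ ^ 2 =
      4 * ‖k‖ ^ 2 := by
    rw [hphi, hpsi, hE]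
    have : ∑ i, ρ g (Sum.inl i) (Sum.inr 0) ^ 2 + ∑ i, ρ g (Sum.inl i) (Sum.inr 1) ^ 2 =
        d00 ^ 2 + d10 ^ 2 + d01 ^ 2 + d11 ^ 2 - 2 := by linarith
    rw [this]
    ring
  have hdetpos : 0 < (ρ g).toBlocks₂₂.det := by
    have h1 : ‖psi (s z₀)‖ ^ 2 < ‖phi (s z₀)‖ ^ 2 :=
      pow_lt_pow_left₀ (hlt z₀ hz₀mem) (norm_nonneg _) two_ne_zero
    have h2 : 0 < 4 * ‖k‖ ^ 2 * (ρ g).toBlocks₂₂.det := by rw [← e1]; linarith
    exact (mul_pos_iff_of_pos_left (by positivity)).mp h2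
  unfold Del
  rw [abs_of_pos hdetpos]
  have h1 : (1 - (‖psi (s z₀)‖ / ‖phi (s z₀)‖) ^ 2) =
      4 * ‖k‖ ^ 2 * (ρ g).toBlocks₂₂.det / ‖phi (s z₀)‖ ^ 2 := by
    rw [← e1, div_pow, sub_div, div_self hphipos.ne']
  have h2 : 1 + (‖psi (s z₀)‖ / ‖phi (s z₀)‖) ^ 2 -
      2 * ((∑ i, ‖s z₀ (Sum.inl i)‖ ^ 2) / ‖phi (s z₀)‖ ^ 2) =
      4 * ‖k‖ ^ 2 / ‖phi (s z₀)‖ ^ 2 := by
    rw [← e2, div_pow, sub_div, add_div, div_self hphipos.ne', mul_div_assoc]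
  rw [h1, h2, hrsq, hr2] at hfin
  have h3 : 4 * ‖k‖ ^ 2 * (ρ g).toBlocks₂₂.det / ‖phi (s z₀)‖ ^ 2 *
      (1 - (1 - 1 / cc (σ g) ^ 2)) =
      (4 * ‖k‖ ^ 2 / ‖phi (s z₀)‖ ^ 2) * ((ρ g).toBlocks₂₂.det / cc (σ g) ^ 2) := by
    ring
  rw [h3, mul_comm 2] at hfin
  have h4 := le_of_mul_le_mul_left hfin (by positivity)
  rwa [div_le_iff₀ hccpos] at h4

end Pool.Agent.MPd01a95
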