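import Mathlib
import Pool.Agent.Lib.MP_d01a95_gt.Defs
import Pool.Agent.Lib.MP_d01a95_gt.Minor
import Pool.Agent.Lib.MP_d01a95_gt.Hol

set_option autoImplicit false

open Matrix MeasureTheory

namespace Pool.Agent.MPd01a95

namespace Hol2Aux

section

variable {ι : Type} [Fintype ι] [DecidableEq ι]

/-- the bilinear form -/
def bf (v w : ι ⊕ Fin 2 → ℝ) : ℝ := v ⬝ᵥ (J ι *ᵥ w)

lemma J_transpose : (J ι)ᵀ = J ι := by
  unfold J
  rw [Matrix.fromBlocks_transpose]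
  simp

lemma J_mul_J : J ι * J ι = 1 := by
  unfold J
  rw [Matrix.fromBlocks_multiply]
  simp

lemma bf_def (v w : ι ⊕ Fin 2 → ℝ) : bf v w = v ⬝ᵥ (J ι *ᵥ w) := rfl

lemma bf_comm (v w : ι ⊕ Fin 2 → ℝ) : bf v w = bf w v := by
  unfold bf
  rw [Matrix.dotProduct_mulVec, ← Matrix.mulVec_transpose, J_transpose, dotProduct_comm]

lemma bf_add_left (v v' w : ι ⊕ Fin 2 → ℝ) : bf (v + v') w = bf v w + bf v' w := by
  simp [bf, add_dotProduct]

lemma bf_sub_left (v v' w : ι ⊕ Fin 2 → ℝ) : bf (v - v') w = bf v w - bf v' w := by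
  simp [bf, sub_dotProduct]

lemma bf_add_right (v w w' : ι ⊕ Fin 2 → ℝ) : bf v (w + w') = bf v w + bf v w' := by
  rw [bf_comm, bf_add_left, bf_comm w, bf_comm w']

lemma bf_sub_right (v w w' : ι ⊕ Fin 2 → ℝ) : bf v (w - w') = bf v w - bf v w' := by
  rw [bf_comm, bf_sub_left, bf_comm w, bf_comm w']

lemma bf_smul_left (c : ℝ) (v w : ι ⊕ Fin 2 → ℝ) : bf (c • v) w = c * bf v w := by
  simp [bf]

lemma bf_smul_right (c : ℝ) (v w : ι ⊕ Fin 2 → ℝ) : bf v (c • w) = c * bf v w := by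
  rw [bf_comm, bf_smul_left, bf_comm w]

lemma bf_neg_right (v w : ι ⊕ Fin 2 → ℝ) : bf v (-w) = - bf v w := by
  have := bf_smul_right (-1) v w
  simpa using this

lemma bf_eq (v w : ι ⊕ Fin 2 → ℝ) :
    bf v w = ∑ i, v (Sum.inl i) * w (Sum.inl i) - v (Sum.inr 0) * w (Sum.inr 0)
      - v (Sum.inr 1) * w (Sum.inr 1) := by
  unfold bf J
  have h1 : (Matrix.fromBlocks (1 : Matrix ι ι ℝ) 0 0 (-1 : Matrix (Fin 2) (Fin 2) ℝ)) *ᵥ w
      = Sum.elim (fun i => w (Sum.inl i)) (fun i => - w (Sum.inr i)) := by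
    rw [Matrix.fromBlocks_mulVec]
    ext i
    rcases i with i | i
    · simp [Function.comp_def]
    · simp [Function.comp_def, Matrix.neg_mulVec]
  rw [h1, dotProduct, Fintype.sum_sum_type]
  simp [Fin.sum_univ_two]
  ring

lemma bf_self (v : ι ⊕ Fin 2 → ℝ) : bf v v = - nq v := by
  rw [bf_eq]
  unfold nq
  have : ∑ i, v (Sum.inl i) * v (Sum.inl i) = ∑ i, v (Sum.inl i) ^ 2 :=
    Finset.sum_congr rfl fun i _ => by ring
  rw [this]
  ring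

lemma bf_mulVec (h : Matrix (ι ⊕ Fin 2) (ι ⊕ Fin 2) ℝ)
    (v w : ι ⊕ Fin 2 → ℝ) : bf (h *ᵥ v) (h *ᵥ w) = v ⬝ᵥ ((hᵀ * J ι * h) *ᵥ w) := by
  unfold bf
  rw [Matrix.mulVec_mulVec, Matrix.dotProduct_mulVec, Matrix.vecMul_mulVec,
    ← Matrix.dotProduct_mulVec, Matrix.mul_assoc]

lemma bf_iso (h : Matrix (ι ⊕ Fin 2) (ι ⊕ Fin 2) ℝ) (hh : hᵀ * J ι * h = J ι)
    (v w : ι ⊕ Fin 2 → ℝ) : bf (h *ᵥ v) (h *ᵥ w) = bf v w := by
  rw [bf_mulVec, hh, bf_def]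

lemma iso_of_bf (h : Matrix (ι ⊕ Fin 2) (ι ⊕ Fin 2) ℝ)
    (H : ∀ v w, bf (h *ᵥ v) (h *ᵥ w) = bf v w) : hᵀ * J ι * h = J ι := by
  ext i j
  have h1 := H (Pi.single i 1) (Pi.single j 1)
  rw [bf_mulVec, bf_def] at h1
  simpa using h1

lemma iso_mul (h h' : Matrix (ι ⊕ Fin 2) (ι ⊕ Fin 2) ℝ) (hh : hᵀ * J ι * h = J ι)
    (hh' : h'ᵀ * J ι * h' = J ι) : (h * h')ᵀ * J ι * (h * h') = J ι := by
  rw [Matrix.transpose_mul]
  calc h'ᵀ * hᵀ * J ι * (h * h') = h'ᵀ * (hᵀ * J ι * h) * h' := by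
        simp only [Matrix.mul_assoc]
    _ = J ι := by rw [hh, hh']

/-- the reflection -/
noncomputable def refl (w : ι ⊕ Fin 2 → ℝ) : Matrix (ι ⊕ Fin 2) (ι ⊕ Fin 2) ℝ :=
  1 - (2 / bf w w) • Matrix.vecMulVec w (J ι *ᵥ w)

lemma refl_mulVec (w x : ι ⊕ Fin 2 → ℝ) :
    refl w *ᵥ x = x - (2 / bf w w * bf w x) • w := by
  unfold refl
  rw [Matrix.sub_mulVec, Matrix.one_mulVec, Matrix.smul_mulVec, Matrix.vecMulVec_mulVec]
  have : (J ι *ᵥ w) ⬝ᵥ x = bf w x := by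
    rw [bf_comm, bf_def, dotProduct_comm]
  rw [this]
  ext i
  simp
  ring

lemma refl_iso (w : ι ⊕ Fin 2 → ℝ) (hw : bf w w ≠ 0) : (refl w)ᵀ * J ι * refl w = J ι := by
  apply iso_of_bf
  intro v u
  rw [refl_mulVec, refl_mulVec]
  simp only [bf_sub_left, bf_sub_right, bf_smul_left, bf_smul_right]
  rw [bf_comm v w]
  field_simp
  ring

/-- transport of a negative unit vector, fixing what is orthogonal to source and target -/
lemma transport (e p : ι ⊕ Fin 2 → ℝ) (he : bf e e = -1) (hp : bf p p = -1) :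
    ∃ h : Matrix (ι ⊕ Fin 2) (ι ⊕ Fin 2) ℝ, hᵀ * J ι * h = J ι ∧ h *ᵥ e = p ∧
      ∀ x, bf e x = 0 → bf p x = 0 → h *ᵥ x = x := by
  by_cases h0 : bf (e - p) (e - p) = 0
  · have h1 : bf e p = -1 := by
      simp only [bf_sub_left, bf_sub_right] at h0
      rw [bf_comm p e, he, hp] at h0
      linarith
    have h2 : bf (e + p) (e + p) = -4 := by
      simp only [bf_add_left, bf_add_right]
      rw [bf_comm p e, he, hp, h1]
      norm_num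
    refine ⟨refl p * refl (e + p), iso_mul _ _ (refl_iso p (by rw [hp]; norm_num))
      (refl_iso _ (by rw [h2]; norm_num)), ?_, ?_⟩
    · rw [← Matrix.mulVec_mulVec, refl_mulVec (e + p), h2]
      have h3 : bf (e + p) e = -2 := by
        rw [bf_add_left, he, bf_comm, h1]; norm_num
      rw [h3]
      have h4 : e - ((2:ℝ) / -4 * -2) • (e + p) = -p := by
        ext i
        simp
        ring
      rw [h4, refl_mulVec, hp, bf_neg_right, hp]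
      ext i
      simp
      ring
    · intro x hx1 hx2
      have h5 : bf (e + p) x = 0 := by rw [bf_add_left, hx1, hx2, add_zero]
      rw [← Matrix.mulVec_mulVec, refl_mulVec (e + p), h5]
      simp only [mul_zero, zero_smul, sub_zero]
      rw [refl_mulVec, hx2]
      simp
  · refine ⟨refl (e - p), refl_iso _ h0, ?_, ?_⟩
    · rw [refl_mulVec]
      have h3 : 2 / bf (e - p) (e - p) * bf (e - p) e = 1 := by
        have h4 : bf (e - p) (e - p) = 2 * bf (e - p) e := by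
          simp only [bf_sub_left, bf_sub_right]
          rw [bf_comm p e, he, hp]
          ring
        rw [h4] at h0 ⊢
        have h5 : bf (e - p) e ≠ 0 := fun h => h0 (by rw [h, mul_zero])
        field_simp
      rw [h3]
      simp
    · intro x hx1 hx2
      have h5 : bf (e - p) x = 0 := by rw [bf_sub_left, hx1, hx2, sub_zero]
      rw [refl_mulVec, h5]
      simp

end

end Hol2Aux

open Hol2Aux

section framesec

variable {ι : Type} [Fintype ι] [DecidableEq ι]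

theorem frame (p₁ p₂ : ι ⊕ Fin 2 → ℝ) (h₁ : nq p₁ = 1) (h₂ : nq p₂ = 1)
    (h₁₂ : p₁ ⬝ᵥ (J ι *ᵥ p₂) = 0) :
    ∃ h : Matrix (ι ⊕ Fin 2) (ι ⊕ Fin 2) ℝ, hᵀ * J ι * h = J ι ∧
      h *ᵥ (Pi.single (Sum.inr 0) 1) = p₁ ∧ h *ᵥ (Pi.single (Sum.inr 1) 1) = p₂ := by
  have a1 : bf p₁ p₁ = -1 := by rw [bf_self, h₁]
  have a2 : bf p₂ p₂ = -1 := by rw [bf_self, h₂]
  have e1 : bf (Pi.single (Sum.inr 0) 1 : ι ⊕ Fin 2 → ℝ) (Pi.single (Sum.inr 0) 1) = -1 := by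
    rw [bf_eq]; simp
  have e2 : bf (Pi.single (Sum.inr 1) 1 : ι ⊕ Fin 2 → ℝ) (Pi.single (Sum.inr 1) 1) = -1 := by
    rw [bf_eq]; simp
  have e3 : bf (Pi.single (Sum.inr 1) 1 : ι ⊕ Fin 2 → ℝ) (Pi.single (Sum.inr 0) 1) = 0 := by
    rw [bf_eq]; simp
  obtain ⟨g, hg, hg1, -⟩ := transport _ p₁ e1 a1
  obtain ⟨k, hk, hk1, hk2⟩ := transport (g *ᵥ (Pi.single (Sum.inr 1) 1)) p₂
    (by rw [bf_iso g hg, e2]) a2
  refine ⟨k * g, iso_mul k g hk hg, ?_, ?_⟩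
  · rw [← Matrix.mulVec_mulVec, hg1]
    refine hk2 _ ?_ ?_
    · nth_rewrite 1 [← hg1]
      rw [bf_iso g hg, e3]
    · rw [bf_comm, bf_def, h₁₂]
  · rw [← Matrix.mulVec_mulVec, hk1]

end framesec

namespace Hol2Aux

section

variable {ι : Type} [Fintype ι]

/-- real part of a complex vector -/
def vre (v : ι ⊕ Fin 2 → ℂ) : ι ⊕ Fin 2 → ℝ := fun i => (v i).re

/-- imaginary part of a complex vector -/
def vim (v : ι ⊕ Fin 2 → ℂ) : ι ⊕ Fin 2 → ℝ := fun i => (v i).im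

/-- the pointwise condition of HolEq -/
def Cond (v : ι ⊕ Fin 2 → ℂ) : Prop :=
  ∑ i, v (Sum.inl i) ^ 2 = v (Sum.inr 0) ^ 2 + v (Sum.inr 1) ^ 2 ∧
    ∑ i, ‖v (Sum.inl i)‖ ^ 2 < ‖v (Sum.inr 0)‖ ^ 2 + ‖v (Sum.inr 1)‖ ^ 2

variable [DecidableEq ι]

lemma cond_iff (v : ι ⊕ Fin 2 → ℂ) :
    Cond v ↔ nq (vre v) = nq (vim v) ∧ bf (vre v) (vim v) = 0 ∧ 0 < nq (vre v) + nq (vim v) := by
  unfold Cond
  have hre : ∀ z : ℂ, (z ^ 2).re = z.re ^ 2 - z.im ^ 2 := fun z => by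
    rw [pow_two, Complex.mul_re]; ring
  have him : ∀ z : ℂ, (z ^ 2).im = 2 * (z.re * z.im) := fun z => by
    rw [pow_two, Complex.mul_im]; ring
  have hno : ∀ z : ℂ, ‖z‖ ^ 2 = z.re ^ 2 + z.im ^ 2 := fun z => by
    rw [← Complex.normSq_eq_norm_sq, Complex.normSq_apply]; ring
  rw [Complex.ext_iff, Complex.re_sum, Complex.im_sum, Complex.add_re, Complex.add_im]
  simp only [hre, him, hno]
  rw [bf_eq]
  unfold nq vre vim
  simp only [Finset.sum_sub_distrib, Finset.sum_add_distrib, ← Finset.mul_sum]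
  constructor
  · rintro ⟨⟨h1, h2⟩, h3⟩
    refine ⟨by linarith, by linarith, by linarith⟩
  · rintro ⟨h1, h2, h3⟩
    refine ⟨⟨by linarith, by linarith⟩, by linarith⟩

lemma vre_mulVec (h : Matrix (ι ⊕ Fin 2) (ι ⊕ Fin 2) ℝ) (v : ι ⊕ Fin 2 → ℂ) :
    vre (h.map ((↑) : ℝ → ℂ) *ᵥ v) = h *ᵥ vre v := by
  ext i
  simp [vre, Matrix.mulVec, dotProduct, Complex.re_sum]

lemma vim_mulVec (h : Matrix (ι ⊕ Fin 2) (ι ⊕ Fin 2) ℝ) (v : ι ⊕ Fin 2 → ℂ) :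
    vim (h.map ((↑) : ℝ → ℂ) *ᵥ v) = h *ᵥ vim v := by
  ext i
  simp [vim, Matrix.mulVec, dotProduct, Complex.im_sum]

lemma nq_iso (h : Matrix (ι ⊕ Fin 2) (ι ⊕ Fin 2) ℝ) (hh : hᵀ * J ι * h = J ι)
    (v : ι ⊕ Fin 2 → ℝ) : nq (h *ᵥ v) = nq v := by
  have := bf_iso h hh v v
  rw [bf_self, bf_self] at this
  linarith

lemma cond_mulVec (h : Matrix (ι ⊕ Fin 2) (ι ⊕ Fin 2) ℝ) (hh : hᵀ * J ι * h = J ι)
    (v : ι ⊕ Fin 2 → ℂ) (hv : Cond v) : Cond (h.map ((↑) : ℝ → ℂ) *ᵥ v) := by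
  rw [cond_iff] at hv ⊢
  rw [vre_mulVec, vim_mulVec, nq_iso h hh, nq_iso h hh, bf_iso h hh]
  exact hv

lemma map_mul' (a b : Matrix (ι ⊕ Fin 2) (ι ⊕ Fin 2) ℝ) :
    (a * b).map ((↑) : ℝ → ℂ) = a.map ((↑) : ℝ → ℂ) * b.map ((↑) : ℝ → ℂ) := by
  ext i j
  simp [Matrix.mul_apply]

lemma map_one' : (1 : Matrix (ι ⊕ Fin 2) (ι ⊕ Fin 2) ℝ).map ((↑) : ℝ → ℂ) = 1 := by
  simp

lemma Del_nonneg (h : Matrix (ι ⊕ Fin 2) (ι ⊕ Fin 2) ℝ) : 0 ≤ Del h := abs_nonneg _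

end

section

variable {ι κ G : Type} [Fintype ι] [DecidableEq ι] [Fintype κ] [DecidableEq κ] [Group G]

/-- conjugated representation -/
def conj (ρ : G →* Matrix (ι ⊕ Fin 2) (ι ⊕ Fin 2) ℝ) (a b : Matrix (ι ⊕ Fin 2) (ι ⊕ Fin 2) ℝ)
    (hab : a * b = 1) : G →* Matrix (ι ⊕ Fin 2) (ι ⊕ Fin 2) ℝ where
  toFun g := b * ρ g * a
  map_one' := by
    rw [map_one, Matrix.mul_one]
    exact mul_eq_one_comm.1 hab
  map_mul' x y := by
    rw [map_mul]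
    calc b * (ρ x * ρ y) * a = b * ρ x * 1 * ρ y * a := by
          simp only [Matrix.mul_assoc, Matrix.one_mul]
      _ = b * ρ x * (a * b) * ρ y * a := by rw [hab]
      _ = b * ρ x * a * (b * ρ y * a) := by simp only [Matrix.mul_assoc]

lemma conj_apply (ρ : G →* Matrix (ι ⊕ Fin 2) (ι ⊕ Fin 2) ℝ)
    (a b : Matrix (ι ⊕ Fin 2) (ι ⊕ Fin 2) ℝ) (hab : a * b = 1) (g : G) :
    conj ρ a b hab g = b * ρ g * a := rfl

end

end Hol2Aux

section holdom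

variable {ι κ G : Type} [Fintype ι] [DecidableEq ι] [Fintype κ] [DecidableEq κ] [Group G]

theorem hol_dom (hι : 2 ≤ Fintype.card ι) (ρ : G →* Matrix (ι ⊕ Fin 2) (ι ⊕ Fin 2) ℝ)
    (hρ : ∀ g, (ρ g)ᵀ * J ι * ρ g = J ι)
    (σ : G →* Matrix (κ ⊕ Unit) (κ ⊕ Unit) ℂ) (hσ : ∀ g, (σ g)ᴴ * JC κ * σ g = JC κ)
    (s : (κ → ℂ) → (ι ⊕ Fin 2 → ℂ)) (hs : HolEq ρ σ s) :
    ∃ C : ℝ, ∀ g, Del (ρ g) ≤ C * cc (σ g) ^ 2 := by
  obtain ⟨hs1, hs2, hs3⟩ := hs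
  have hball : ∑ i, ‖(0 : κ → ℂ) i‖ ^ 2 < 1 := by simp
  have hc0 : Cond (s 0) := hs2 0 hball
  have hc := (cond_iff (s 0)).1 hc0
  obtain ⟨c1, c2, c3⟩ := hc
  set t : ℝ := nq (vre (s 0)) with ht
  have htpos : 0 < t := by rw [← c1] at c3; linarith
  obtain ⟨r, hr0, hr⟩ : ∃ r : ℝ, 0 < r ∧ r * r = t :=
    ⟨Real.sqrt t, Real.sqrt_pos.2 htpos, Real.mul_self_sqrt htpos.le⟩
  have hrt : r⁻¹ * (r⁻¹ * -t) = -1 := by
    rw [← hr]; field_simp
  obtain ⟨h, hh, hp1, hp2⟩ := frame (r⁻¹ • vre (s 0)) (r⁻¹ • vim (s 0))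
    (by
      have h1 := bf_self (r⁻¹ • vre (s 0))
      rw [bf_smul_left, bf_smul_right, bf_self, ← ht, hrt] at h1
      linarith)
    (by
      have h1 := bf_self (r⁻¹ • vim (s 0))
      rw [bf_smul_left, bf_smul_right, bf_self, ← c1, hrt] at h1
      linarith)
    (by
      rw [← bf_def, bf_smul_left, bf_smul_right, c2]
      simp)
  -- the inverse of h
  obtain ⟨k, hk1⟩ : ∃ k : Matrix (ι ⊕ Fin 2) (ι ⊕ Fin 2) ℝ, k * h = 1 := by
    refine ⟨J ι * hᵀ * J ι, ?_⟩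
    calc (J ι * hᵀ * J ι) * h = J ι * (hᵀ * J ι * h) := by simp only [Matrix.mul_assoc]
      _ = 1 := by rw [hh, J_mul_J]
  have hk2 : h * k = 1 := mul_eq_one_comm.1 hk1
  have hkiso : kᵀ * J ι * k = J ι := by
    calc kᵀ * J ι * k = kᵀ * (hᵀ * J ι * h) * k := by rw [hh]
      _ = (h * k)ᵀ * J ι * (h * k) := by
        rw [Matrix.transpose_mul]; simp only [Matrix.mul_assoc]
      _ = J ι := by rw [hk2]; simp
  have hρ' : ∀ g, (conj ρ h k hk2 g)ᵀ * J ι * conj ρ h k hk2 g = J ι := by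
    intro g
    rw [conj_apply]
    exact iso_mul _ _ (iso_mul _ _ hkiso (hρ g)) hh
  have hlin : ∀ w : ι ⊕ Fin 2 → ℂ, k.map ((↑) : ℝ → ℂ) *ᵥ w =
      (Matrix.mulVecLin (k.map ((↑) : ℝ → ℂ))) w := fun w => rfl
  have hs' : HolEq (conj ρ h k hk2) σ (fun z => k.map ((↑) : ℝ → ℂ) *ᵥ s z) := by
    refine ⟨?_, ?_, ?_⟩
    · have hL : Differentiable ℂ
          (LinearMap.toContinuousLinearMap (Matrix.mulVecLin (k.map ((↑) : ℝ → ℂ)))) :=
        ContinuousLinearMap.differentiable _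
      exact hL.comp_differentiableOn hs1
    · intro z hz
      exact cond_mulVec k hkiso (s z) (hs2 z hz)
    · intro g z hz
      obtain ⟨c, hc⟩ := hs3 g z hz
      refine ⟨c, ?_⟩
      show k.map ((↑) : ℝ → ℂ) *ᵥ s (act (σ g) z) = _
      rw [hc, conj_apply, Matrix.mulVec_smul, Matrix.mulVec_mulVec, Matrix.mulVec_mulVec]
      congr 2
      rw [← map_mul', ← map_mul']
      congr 1
      rw [Matrix.mul_assoc (k * ρ g) h k, hk2, Matrix.mul_one]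
  have h0 : ∃ c : ℂ, (fun z => k.map ((↑) : ℝ → ℂ) *ᵥ s z) 0 =
      c • (Sum.elim (fun _ => 0) ![1, Complex.I] : ι ⊕ Fin 2 → ℂ) := by
    refine ⟨(r : ℂ), ?_⟩
    show k.map ((↑) : ℝ → ℂ) *ᵥ s 0 = _
    have e1 : vre (k.map ((↑) : ℝ → ℂ) *ᵥ s 0) = r • Pi.single (Sum.inr 0) 1 := by
      rw [vre_mulVec]
      have h2 : vre (s 0) = r • (h *ᵥ Pi.single (Sum.inr 0) 1) := by
        rw [hp1, smul_smul, mul_inv_cancel₀ hr0.ne', one_smul]
      rw [h2, Matrix.mulVec_smul, Matrix.mulVec_mulVec, hk1, Matrix.one_mulVec]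
    have e2 : vim (k.map ((↑) : ℝ → ℂ) *ᵥ s 0) = r • Pi.single (Sum.inr 1) 1 := by
      rw [vim_mulVec]
      have h2 : vim (s 0) = r • (h *ᵥ Pi.single (Sum.inr 1) 1) := by
        rw [hp2, smul_smul, mul_inv_cancel₀ hr0.ne', one_smul]
      rw [h2, Matrix.mulVec_smul, Matrix.mulVec_mulVec, hk1, Matrix.one_mulVec]
    funext i
    apply Complex.ext
    · have h3 := congrFun e1 i
      simp only [vre] at h3
      rw [h3]
      rcases i with i | i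
      · simp
      · fin_cases i <;> simp
    · have h3 := congrFun e2 i
      simp only [vim] at h3
      rw [h3]
      rcases i with i | i
      · simp
      · fin_cases i <;> simp
  have hmain := hol_dom0 hι (conj ρ h k hk2) hρ' σ hσ _ hs' h0
  set K : ℝ := 25 * ((Fintype.card ι : ℝ) + 2) ^ 2 with hK
  have hKpos : 0 ≤ K := by positivity
  refine ⟨K * (K * Del h * 2) * Del k, ?_⟩
  intro g
  have e : ρ g = h * conj ρ h k hk2 g * k := by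
    rw [conj_apply]
    calc ρ g = 1 * ρ g * 1 := by simp
      _ = (h * k) * ρ g * (h * k) := by rw [hk2]
      _ = h * (k * ρ g * h) * k := by simp only [Matrix.mul_assoc]
  have m1 := Del_mul h (conj ρ h k hk2 g) hh (hρ' g)
  have m2 := Del_mul (h * conj ρ h k hk2 g) k (iso_mul _ _ hh (hρ' g)) hkiso
  rw [← e] at m2
  have m3 := hmain g
  calc Del (ρ g) ≤ K * Del (h * conj ρ h k hk2 g) * Del k := m2
    _ ≤ K * (K * Del h * Del (conj ρ h k hk2 g)) * Del k := by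
        apply mul_le_mul_of_nonneg_right _ (Del_nonneg k)
        exact mul_le_mul_of_nonneg_left m1 hKpos
    _ ≤ K * (K * Del h * (2 * cc (σ g) ^ 2)) * Del k := by
        apply mul_le_mul_of_nonneg_right _ (Del_nonneg k)
        apply mul_le_mul_of_nonneg_left _ hKpos
        exact mul_le_mul_of_nonneg_left m3 (mul_nonneg hKpos (Del_nonneg h))
    _ = K * (K * Del h * 2) * Del k * cc (σ g) ^ 2 := by ring

end holdom

end Pool.Agent.MPd01a95
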