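import Mathlib
import Pool.Agent.Lib.MP_d01a95_gt.Defs

set_option autoImplicit false

open Matrix MeasureTheory

namespace Pool.Agent.MPd01a95

/-- index equivalence `Fin (2m+2) ≃ Fin (2m) ⊕ Fin 2` -/
def eR (m : ℕ) : Fin (2*m+2) ≃ Fin (2*m) ⊕ Fin 2 := finSumFinEquiv.symm

/-- index equivalence `Fin (m+1) ≃ Fin m ⊕ Unit` -/
def eC (m : ℕ) : Fin (m+1) ≃ Fin m ⊕ Unit :=
  (finSumFinEquiv.symm).trans (Equiv.sumCongr (Equiv.refl _) (Equiv.ofUnique (Fin 1) Unit))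

theorem eR_symm_inl (m : ℕ) (i : Fin (2*m)) : ((eR m).symm (Sum.inl i) : ℕ) = i := by
  simp [eR]

theorem eR_symm_inr (m : ℕ) (i : Fin 2) : ((eR m).symm (Sum.inr i) : ℕ) = 2 * m + i := by
  simp [eR]

theorem eC_symm_inl (m : ℕ) (i : Fin m) : (eC m).symm (Sum.inl i) = i.castSucc := by
  ext; simp [eC]

theorem eC_symm_inr (m : ℕ) : (eC m).symm (Sum.inr ()) = Fin.last m := by
  ext; simp [eC]

theorem eR_inl (m : ℕ) (i : Fin (2*m+2)) (h : (i : ℕ) < 2*m) : eR m i = Sum.inl ⟨i, h⟩ := by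
  rw [← Equiv.eq_symm_apply]
  ext
  simp [eR]

theorem diagR (m : ℕ) :
    Matrix.reindex (eR m) (eR m)
      (Matrix.diagonal (fun i : Fin (2*m+2) => if (i : ℕ) < 2*m then (1 : ℝ) else -1)) =
      J (Fin (2*m)) := by
  ext a b
  rw [Matrix.reindex_apply, Matrix.submatrix_apply, Matrix.diagonal_apply]
  rcases a with a | a <;> rcases b with b | b
  · simp only [J, fromBlocks_apply₁₁, Matrix.one_apply, EmbeddingLike.apply_eq_iff_eq,
      Sum.inl.injEq, eR_symm_inl]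
    simp
  · simp [J]
  · simp [J]
  · simp only [J, fromBlocks_apply₂₂, Matrix.neg_apply, Matrix.one_apply,
      EmbeddingLike.apply_eq_iff_eq, Sum.inr.injEq, eR_symm_inr]
    have : ¬ (2 * m + (a : ℕ) < 2 * m) := by omega
    simp only [this, if_false]
    split_ifs <;> simp

theorem diagC (m : ℕ) :
    Matrix.reindex (eC m) (eC m)
      (Matrix.diagonal (fun i : Fin (m+1) => if (i : ℕ) < m then (1 : ℂ) else -1)) =
      JC (Fin m) := by
  ext a b
  rw [Matrix.reindex_apply, Matrix.submatrix_apply, Matrix.diagonal_apply]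
  rcases a with a | a <;> rcases b with b | b
  · simp [JC, Matrix.one_apply, eC_symm_inl]
  · simp [JC]
  · simp [JC]
  · cases a
    cases b
    simp [JC, eC_symm_inr]

/-- the real representation on the sum index type -/
noncomputable def rhoHom (m : ℕ) {G : Type} [Group G]
    (ρ : G →* Matrix.GeneralLinearGroup (Fin (2*m+2)) ℝ) :
    G →* Matrix (Fin (2*m) ⊕ Fin 2) (Fin (2*m) ⊕ Fin 2) ℝ :=
  ((Matrix.reindexAlgEquiv ℝ ℝ (eR m)).toRingEquiv.toMonoidHom).comp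
    ((Units.coeHom _).comp ρ)

/-- the complex representation on the sum index type -/
noncomputable def sigHom (m : ℕ) (Γ : Subgroup (Matrix.GeneralLinearGroup (Fin (m+1)) ℂ)) :
    Γ →* Matrix (Fin m ⊕ Unit) (Fin m ⊕ Unit) ℂ :=
  ((Matrix.reindexAlgEquiv ℂ ℂ (eC m)).toRingEquiv.toMonoidHom).comp
    ((Units.coeHom _).comp Γ.subtype)

theorem rhoHom_apply (m : ℕ) {G : Type} [Group G]
    (ρ : G →* Matrix.GeneralLinearGroup (Fin (2*m+2)) ℝ) (g : G) :
    rhoHom m ρ g = Matrix.reindex (eR m) (eR m) (ρ g : Matrix (Fin (2*m+2)) (Fin (2*m+2)) ℝ) :=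
  rfl

theorem sigHom_apply (m : ℕ) (Γ : Subgroup (Matrix.GeneralLinearGroup (Fin (m+1)) ℂ)) (g : Γ) :
    sigHom m Γ g = Matrix.reindex (eC m) (eC m)
      ((g : Matrix.GeneralLinearGroup (Fin (m+1)) ℂ) : Matrix (Fin (m+1)) (Fin (m+1)) ℂ) :=
  rfl

theorem reindex_form {n k : Type} [Fintype n] [DecidableEq n] [Fintype k] [DecidableEq k]
    (e : n ≃ k) (D : Matrix n n ℝ) (h : Matrix k k ℝ) :
    hᵀ * Matrix.reindex e e D * h = Matrix.reindex e e D ↔
      ((Matrix.reindex e e).symm h)ᵀ * D * ((Matrix.reindex e e).symm h) = D := by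
  constructor
  · intro H
    have := congrArg (Matrix.reindexAlgEquiv ℝ ℝ e).symm H
    rw [map_mul, map_mul] at this
    simpa using this
  · intro H
    have := congrArg (Matrix.reindexAlgEquiv ℝ ℝ e) H
    rw [map_mul, map_mul] at this
    simpa using this

theorem reindex_formC {n k : Type} [Fintype n] [DecidableEq n] [Fintype k] [DecidableEq k]
    (e : n ≃ k) (D : Matrix n n ℂ) (h : Matrix k k ℂ) :
    hᴴ * Matrix.reindex e e D * h = Matrix.reindex e e D ↔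
      ((Matrix.reindex e e).symm h)ᴴ * D * ((Matrix.reindex e e).symm h) = D := by
  constructor
  · intro H
    have := congrArg (Matrix.reindexAlgEquiv ℂ ℂ e).symm H
    rw [map_mul, map_mul] at this
    simpa using this
  · intro H
    have := congrArg (Matrix.reindexAlgEquiv ℂ ℂ e) H
    rw [map_mul, map_mul] at this
    simpa using this

theorem dot_diag {m : ℕ} (x : Fin (2*m+2) → ℝ) :
    x ⬝ᵥ (Matrix.diagonal
      (fun i : Fin (2*m+2) => if (i : ℕ) < 2*m then (1 : ℝ) else -1) *ᵥ x) =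
      - nq (x ∘ (eR m).symm) := by
  have h1 : x ⬝ᵥ (Matrix.diagonal
      (fun i : Fin (2*m+2) => if (i : ℕ) < 2*m then (1 : ℝ) else -1) *ᵥ x) =
      ∑ i : Fin (2*m+2), (if (i : ℕ) < 2*m then (1 : ℝ) else -1) * x i ^ 2 := by
    simp only [dotProduct, mulVec_diagonal]
    exact Finset.sum_congr rfl fun i _ => by ring
  rw [h1, ← Equiv.sum_comp (eR m).symm, Fintype.sum_sum_type]
  simp only [eR_symm_inl, eR_symm_inr, Fin.is_lt, if_true, Fin.sum_univ_two, nq,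
    Function.comp_apply]
  have h2 : ¬ (2 * m + ((0 : Fin 2) : ℕ) < 2 * m) := by simp
  have h3 : ¬ (2 * m + ((1 : Fin 2) : ℕ) < 2 * m) := by simp
  simp only [h2, h3, if_false]
  ring_nf

theorem reindex_mulVec {n k R : Type} [Fintype n] [DecidableEq n] [Fintype k] [DecidableEq k]
    [CommRing R] (e : n ≃ k) (M : Matrix n n R) (x : k → R) :
    Matrix.reindex e e M *ᵥ x = (M *ᵥ (x ∘ e)) ∘ e.symm := by
  ext i
  simp only [mulVec, dotProduct, reindex_apply, submatrix_apply, Function.comp_apply]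
  rw [← Equiv.sum_comp e]
  simp

section transport

variable (m : ℕ) {G : Type} [Group G] (ρ : G →* Matrix.GeneralLinearGroup (Fin (2*m+2)) ℝ)

theorem tr_pres (h : ∀ γ : G, (ρ γ : Matrix (Fin (2*m+2)) (Fin (2*m+2)) ℝ)ᵀ
            * Matrix.diagonal (fun i : Fin (2*m+2) => if (i : ℕ) < 2*m then (1 : ℝ) else -1)
            * (ρ γ : Matrix (Fin (2*m+2)) (Fin (2*m+2)) ℝ)
            = Matrix.diagonal (fun i : Fin (2*m+2) => if (i : ℕ) < 2*m then (1 : ℝ) else -1))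
    (g : G) : (rhoHom m ρ g)ᵀ * J (Fin (2*m)) * rhoHom m ρ g = J (Fin (2*m)) := by
  rw [← diagR, reindex_form, rhoHom_apply, Equiv.symm_apply_apply]
  exact h g

theorem tr_prop (h : ∀ K : Set (Fin (2*m+2) → ℝ), IsCompact K →
            (∀ x ∈ K, x ⬝ᵥ (Matrix.diagonal
                (fun i : Fin (2*m+2) => if (i : ℕ) < 2*m then (1 : ℝ) else -1) *ᵥ x) = -1) →
            {γ : G | ∃ x ∈ K,
                (ρ γ : Matrix (Fin (2*m+2)) (Fin (2*m+2)) ℝ) *ᵥ x ∈ K}.Finite) :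
    PropAdS (rhoHom m ρ) := by
  intro K hK hq
  have hcont : Continuous (fun x : Fin (2*m) ⊕ Fin 2 → ℝ => x ∘ (eR m)) := by
    refine continuous_pi fun i => ?_
    exact continuous_apply (eR m i)
  have := h ((fun x => x ∘ (eR m)) '' K) (hK.image hcont) (by
    rintro _ ⟨x, hx, rfl⟩
    rw [dot_diag]
    have : (x ∘ ⇑(eR m)) ∘ ⇑(eR m).symm = x := by
      ext i; simp
    simp only [this, hq x hx])
  refine this.subset ?_
  rintro g ⟨x, hx, hgx⟩
  refine ⟨x ∘ (eR m), ⟨x, hx, rfl⟩, ⟨rhoHom m ρ g *ᵥ x, hgx, ?_⟩⟩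
  rw [rhoHom_apply, reindex_mulVec]
  ext i; simp

theorem tr_dense (h : ∀ p : MvPolynomial (Fin (2*m+2) × Fin (2*m+2)) ℝ,
            (∀ γ : G, MvPolynomial.eval
                (fun ij => (ρ γ : Matrix (Fin (2*m+2)) (Fin (2*m+2)) ℝ) ij.1 ij.2) p = 0) →
            ∀ g : Matrix (Fin (2*m+2)) (Fin (2*m+2)) ℝ,
              gᵀ * Matrix.diagonal (fun i : Fin (2*m+2) => if (i : ℕ) < 2*m then (1 : ℝ) else -1) * g
                = Matrix.diagonal (fun i : Fin (2*m+2) => if (i : ℕ) < 2*m then (1 : ℝ) else -1) →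
              g.det = 1 →
              MvPolynomial.eval (fun ij => g ij.1 ij.2) p = 0) :
    ZDense (rhoHom m ρ) := by
  intro p hp g hg hdet
  have key : ∀ M : Matrix (Fin (2*m+2)) (Fin (2*m+2)) ℝ,
      MvPolynomial.eval (fun ij => M ij.1 ij.2)
        (MvPolynomial.rename (fun ij : (Fin (2*m) ⊕ Fin 2) × (Fin (2*m) ⊕ Fin 2) =>
          ((eR m).symm ij.1, (eR m).symm ij.2)) p) =
      MvPolynomial.eval (fun ij => Matrix.reindex (eR m) (eR m) M ij.1 ij.2) p := by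
    intro M
    rw [MvPolynomial.eval_rename]
    rfl
  have h1 := h (MvPolynomial.rename (fun ij : (Fin (2*m) ⊕ Fin 2) × (Fin (2*m) ⊕ Fin 2) =>
          ((eR m).symm ij.1, (eR m).symm ij.2)) p) (by
    intro γ
    rw [key]
    exact hp γ) ((Matrix.reindex (eR m) (eR m)).symm g) (by
    rw [← diagR, reindex_form] at hg
    exact hg) (by
    have : ((Matrix.reindex (eR m) (eR m)).symm g).det = g.det := by
      rw [Matrix.reindex_symm]
      exact Matrix.det_reindex_self _ _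
    rw [this, hdet])
  rw [key, Equiv.apply_symm_apply] at h1
  exact h1

end transport

section transportC

variable (m : ℕ) (Γ : Subgroup (Matrix.GeneralLinearGroup (Fin (m+1)) ℂ))

theorem tc_pres (h : ∀ γ ∈ Γ, (γ : Matrix (Fin (m+1)) (Fin (m+1)) ℂ)ᴴ
        * Matrix.diagonal (fun i : Fin (m+1) => if (i : ℕ) < m then (1 : ℂ) else -1)
        * (γ : Matrix (Fin (m+1)) (Fin (m+1)) ℂ)
        = Matrix.diagonal (fun i : Fin (m+1) => if (i : ℕ) < m then (1 : ℂ) else -1))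
    (g : Γ) : (sigHom m Γ g)ᴴ * JC (Fin m) * sigHom m Γ g = JC (Fin m) := by
  rw [← diagC, reindex_formC, sigHom_apply, Equiv.symm_apply_apply]
  exact h g g.2

theorem tc_disc (h : ∃ U : Set (Matrix (Fin (m+1)) (Fin (m+1)) ℂ), IsOpen U ∧
        (1 : Matrix (Fin (m+1)) (Fin (m+1)) ℂ) ∈ U ∧
        ∀ γ ∈ Γ, (γ : Matrix (Fin (m+1)) (Fin (m+1)) ℂ) ∈ U → γ = 1) :
    ∃ U : Set (Matrix (Fin m ⊕ Unit) (Fin m ⊕ Unit) ℂ), IsOpen U ∧ 1 ∈ U ∧
      ∀ g, sigHom m Γ g ∈ U → g = 1 := by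
  obtain ⟨U, hU, h1, h2⟩ := h
  have hcont : Continuous (fun M : Matrix (Fin m ⊕ Unit) (Fin m ⊕ Unit) ℂ =>
      (Matrix.reindex (eC m) (eC m)).symm M) := by
    rw [Matrix.reindex_symm]
    exact Continuous.matrix_submatrix continuous_id _ _
  refine ⟨(fun M => (Matrix.reindex (eC m) (eC m)).symm M) ⁻¹' U, hU.preimage hcont, ?_, ?_⟩
  · show (Matrix.reindex (eC m) (eC m)).symm 1 ∈ U
    have : (Matrix.reindex (eC m) (eC m)).symm (1 : Matrix (Fin m ⊕ Unit) (Fin m ⊕ Unit) ℂ) =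
        1 := map_one (Matrix.reindexAlgEquiv ℂ ℂ (eC m)).symm
    rw [this]
    exact h1
  · intro g hg
    have hg' : (Matrix.reindex (eC m) (eC m)).symm (sigHom m Γ g) ∈ U := hg
    rw [sigHom_apply, Equiv.symm_apply_apply] at hg'
    exact Subtype.ext (h2 g g.2 hg')

theorem tc_coc (h : ∃ K : Set (Matrix (Fin (m+1)) (Fin (m+1)) ℂ), IsCompact K ∧
        ∀ h : Matrix (Fin (m+1)) (Fin (m+1)) ℂ,
          hᴴ * Matrix.diagonal (fun i : Fin (m+1) => if (i : ℕ) < m then (1 : ℂ) else -1) * h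
            = Matrix.diagonal (fun i : Fin (m+1) => if (i : ℕ) < m then (1 : ℂ) else -1) →
          ∃ k ∈ K, ∃ γ ∈ Γ, h = k * (γ : Matrix (Fin (m+1)) (Fin (m+1)) ℂ)) :
    ∃ K : Set (Matrix (Fin m ⊕ Unit) (Fin m ⊕ Unit) ℂ), IsCompact K ∧
      ∀ h, hᴴ * JC (Fin m) * h = JC (Fin m) → ∃ k ∈ K, ∃ g, h = k * sigHom m Γ g := by
  obtain ⟨K, hK, h1⟩ := h
  have hcont : Continuous (fun M : Matrix (Fin (m+1)) (Fin (m+1)) ℂ =>
      Matrix.reindex (eC m) (eC m) M) := by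
    exact Continuous.matrix_submatrix continuous_id _ _
  refine ⟨(fun M => Matrix.reindex (eC m) (eC m) M) '' K, hK.image hcont, ?_⟩
  intro h hh
  rw [← diagC, reindex_formC] at hh
  obtain ⟨k, hk, γ, hγ, e⟩ := h1 _ hh
  refine ⟨_, ⟨k, hk, rfl⟩, ⟨γ, hγ⟩, ?_⟩
  rw [Equiv.symm_apply_eq] at e
  rw [e, sigHom_apply]
  exact map_mul (Matrix.reindexAlgEquiv ℂ ℂ (eC m)) _ _

end transportC

theorem charpoly_reindexR {n k : Type} [Fintype n] [DecidableEq n] [Fintype k] [DecidableEq k]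
    (e : n ≃ k) (M : Matrix n n ℝ) :
    ((Matrix.reindex e e M).map ((↑) : ℝ → ℂ)).charpoly = (M.map ((↑) : ℝ → ℂ)).charpoly := by
  have : (Matrix.reindex e e M).map ((↑) : ℝ → ℂ) = Matrix.reindex e e (M.map ((↑) : ℝ → ℂ)) := rfl
  rw [this, Matrix.charpoly_reindex]

theorem charpoly_reindexC {n k : Type} [Fintype n] [DecidableEq n] [Fintype k] [DecidableEq k]
    (e : n ≃ k) (M : Matrix n n ℂ) :
    (Matrix.reindex e e M).charpoly = M.charpoly := by
  rw [Matrix.charpoly_reindex]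

/-- transport of the holomorphic lift -/
theorem tr_hol (m : ℕ) (Γ : Subgroup (Matrix.GeneralLinearGroup (Fin (m+1)) ℂ))
    (ρ : Γ →* Matrix.GeneralLinearGroup (Fin (2*m+2)) ℝ)
    (s : (Fin m → ℂ) → (Fin (2*m+2) → ℂ))
    (h1 : DifferentiableOn ℂ s {z | ∑ i, ‖z i‖ ^ 2 < 1})
    (h2 : ∀ z : Fin m → ℂ, ∑ i, ‖z i‖ ^ 2 < 1 →
            ∑ i : Fin (2*m+2), (if (i : ℕ) < 2*m then (1 : ℂ) else -1) * s z i ^ 2 = 0 ∧
            ∑ i : Fin (2*m+2), (if (i : ℕ) < 2*m then (1 : ℝ) else -1) * ‖s z i‖ ^ 2 < 0)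
    (h3 : ∀ γ : Γ, ∀ z : Fin m → ℂ, ∑ i, ‖z i‖ ^ 2 < 1 → ∃ c : ℂ,
            s (fun i : Fin m =>
                ((((γ : Matrix.GeneralLinearGroup (Fin (m+1)) ℂ) :
                  Matrix (Fin (m+1)) (Fin (m+1)) ℂ) *ᵥ (Fin.snoc z 1 : Fin (m+1) → ℂ)) i.castSucc) /
                ((((γ : Matrix.GeneralLinearGroup (Fin (m+1)) ℂ) :
                  Matrix (Fin (m+1)) (Fin (m+1)) ℂ) *ᵥ (Fin.snoc z 1 : Fin (m+1) → ℂ)) (Fin.last m))) =
              c • (((ρ γ : Matrix (Fin (2*m+2)) (Fin (2*m+2)) ℝ).map ((↑) : ℝ → ℂ)) *ᵥ s z)) :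
    HolEq (rhoHom m ρ) (sigHom m Γ) (fun z => s z ∘ (eR m).symm) := by
  have hact : ∀ (γ : Γ) (z : Fin m → ℂ), act (sigHom m Γ γ) z = (fun i : Fin m =>
                ((((γ : Matrix.GeneralLinearGroup (Fin (m+1)) ℂ) :
                  Matrix (Fin (m+1)) (Fin (m+1)) ℂ) *ᵥ (Fin.snoc z 1 : Fin (m+1) → ℂ)) i.castSucc) /
                ((((γ : Matrix.GeneralLinearGroup (Fin (m+1)) ℂ) :
                  Matrix (Fin (m+1)) (Fin (m+1)) ℂ) *ᵥ (Fin.snoc z 1 : Fin (m+1) → ℂ)) (Fin.last m))) := by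
    intro γ z
    have hz : (Sum.elim z (fun _ : Unit => (1 : ℂ))) ∘ (eC m) = (Fin.snoc z 1 : Fin (m+1) → ℂ) := by
      ext i
      refine Fin.lastCases ?_ (fun j => ?_) i
      · rw [Fin.snoc_last, Function.comp_apply, ← eC_symm_inr, Equiv.apply_symm_apply]
        rfl
      · rw [Fin.snoc_castSucc, Function.comp_apply, ← eC_symm_inl, Equiv.apply_symm_apply]
        rfl
    ext i
    simp only [act]
    rw [sigHom_apply, reindex_mulVec, hz]
    simp only [Function.comp_apply, eC_symm_inl, eC_symm_inr]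
  refine ⟨?_, ?_, ?_⟩
  · rw [differentiableOn_pi]
    intro i
    exact (differentiableOn_pi.1 h1) ((eR m).symm i)
  · intro z hz
    obtain ⟨ha, hb⟩ := h2 z hz
    have k2 : ¬ (2 * m + ((0 : Fin 2) : ℕ) < 2 * m) := by simp
    have k3 : ¬ (2 * m + ((1 : Fin 2) : ℕ) < 2 * m) := by simp
    rw [← Equiv.sum_comp (eR m).symm, Fintype.sum_sum_type] at ha hb
    simp only [eR_symm_inl, eR_symm_inr, Fin.is_lt, if_true, Fin.sum_univ_two, k2, k3, if_false,
      one_mul] at ha hb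
    simp only [Function.comp_apply]
    constructor
    · linear_combination ha
    · linarith
  · intro g z hz
    obtain ⟨c, hc⟩ := h3 g z hz
    refine ⟨c, ?_⟩
    simp only [hact]
    rw [hc]
    have : (rhoHom m ρ g).map ((↑) : ℝ → ℂ) =
        Matrix.reindex (eR m) (eR m)
          ((ρ g : Matrix (Fin (2*m+2)) (Fin (2*m+2)) ℝ).map ((↑) : ℝ → ℂ)) := rfl
    rw [this, reindex_mulVec]
    ext i
    simp [Function.comp_def]

end Pool.Agent.MPd01a95
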